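import Pool.Agent.Work.MP_1ce82a_an.A.Lsc
import Pool.Agent.Work.MP_05654f_an.Flow

-- merged part: Pool.Agent.Work.MP_1ce82a_an.A.Near
section
/-! A priori Lipschitz bounds.
PLAN. With A = La 1 + 1, superlinearity and IsPath.norm_sub_le give
A |z t - z s| - th A (t-s) <= act on [s,t] when the path stays in the ball; combine with the hypothesis.
Staying in the ball: if the path leaves the closed ball of radius rho about z t0, take the first time after t0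
(or the last time before t0) at which the distance equals rho (closed set of times, IVT); on the interval between, the
path is in the ball of radius R, and the bound gives rho <= kap (b-a) + eps < rho. -/

open Set Filter Topology MeasureTheory
open scoped ContDiff

namespace Pool.Agent.Work.MP_1ce82a_an

variable {Γ : Grp}

/-- The a priori speed. -/
noncomputable def kap (m : Md) (B : ℝ) : ℝ := m.th (m.La 1 + 1) + B

theorem Near_low {m : Md} {R : ℝ} {F : E × E → ℝ} (hF : Cls m R F) {z : ℝ → E} {s t A : ℝ}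
    (hz : IsPath z s t) (hin : ∀ r ∈ Icc s t, ‖z r‖ ≤ R) (hA : 0 ≤ A) :
    A * ‖z t - z s‖ - m.th A * (t - s) ≤ act F z s t := by
  have h1 : IntervalIntegrable (fun r => ‖deriv z r‖) volume s t :=
    hz.intervalIntegrable (Φ := fun p : ℝ × (E × E) => ‖p.2.2‖) (by fun_prop)
  have h2 : ∫ r in s..t, (A * ‖deriv z r‖ - m.th A) ≤ act F z s t :=
    intervalIntegral.integral_mono_on hz.1 ((h1.const_mul A).sub intervalIntegrable_const)
      (hz.ii_act hF.cont) fun r hr => hF.sup A _ _ (hin r hr)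
  rw [intervalIntegral.integral_sub (h1.const_mul A) intervalIntegrable_const,
    intervalIntegral.integral_const_mul, intervalIntegral.integral_const, smul_eq_mul] at h2
  have h3 := mul_le_mul_of_nonneg_left hz.norm_sub_le hA
  linarith only [h2, h3]

theorem Near_fwd {f : ℝ → ℝ} {a b ρ : ℝ} (hf : ContinuousOn f (Icc a b)) (ha : f a ≤ ρ)
    (h : ∀ t ∈ Icc a b, (∀ r ∈ Icc a t, f r ≤ ρ) → f t < ρ) : ∀ t ∈ Icc a b, f t ≤ ρ := by
  have hc : IsClosed ({r | f r ≤ ρ} ∩ Icc a b) := by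
    rw [inter_comm]
    exact hf.preimage_isClosed_of_isClosed isClosed_Icc isClosed_Iic
  refine hc.Icc_subset_of_forall_mem_nhdsGT_of_Icc_subset ha fun t ht hs => ?_
  have h1 : f t < ρ := h t ⟨ht.1, ht.2.le⟩ fun r hr => hs hr
  have h2 : ∀ᶠ r in 𝓝[Icc a b] t, f r < ρ :=
    (hf t ⟨ht.1, ht.2.le⟩).eventually (gt_mem_nhds h1)
  have h3 : 𝓝[>] t ≤ 𝓝[Icc a b] t :=
    nhdsWithin_le_of_mem (mem_of_superset (Ioo_mem_nhdsGT ht.2)
      fun r hr => ⟨ht.1.trans hr.1.le, hr.2.le⟩)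
  exact (h2.filter_mono h3).mono fun r hr => hr.le

theorem Near_bwd {f : ℝ → ℝ} {a b ρ : ℝ} (hf : ContinuousOn f (Icc a b)) (hb : f b ≤ ρ)
    (h : ∀ t ∈ Icc a b, (∀ r ∈ Icc t b, f r ≤ ρ) → f t < ρ) : ∀ t ∈ Icc a b, f t ≤ ρ := by
  have h1 := Near_fwd (f := fun r => f (-r)) (a := -b) (b := -a) (ρ := ρ)
    (hf.comp continuous_neg.continuousOn fun r hr => ⟨by linarith [hr.2], by linarith [hr.1]⟩)
    (by simpa using hb)
    (fun t ht hr => h (-t) ⟨by linarith [ht.2], by linarith [ht.1]⟩ fun r hr' => by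
      simpa using hr (-r) ⟨by linarith [hr'.2], by linarith [hr'.1]⟩)
  intro t ht
  simpa using h1 (-t) ⟨by linarith [ht.2], by linarith [ht.1]⟩

theorem near_in {m : Md} {R : ℝ} {F : E × E → ℝ} (hF : Cls m R F) {z : ℝ → E} {a b B ε : ℝ}
    (hz : IsPath z a b) (hin : ∀ t ∈ Icc a b, ‖z t‖ ≤ R)
    (h : ∀ s t, a ≤ s → s ≤ t → t ≤ b → ‖z s‖ ≤ R → ‖z t‖ ≤ R →
      act F z s t ≤ m.La 1 * ‖z t - z s‖ + B * (t - s) + ε) :
    ∀ s ∈ Icc a b, ∀ t ∈ Icc a b, ‖z t - z s‖ ≤ kap m B * |t - s| + ε := by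
  have key : ∀ s t, a ≤ s → s ≤ t → t ≤ b → ‖z t - z s‖ ≤ kap m B * (t - s) + ε := by
    intro s t h1 h2 h3
    have h4 := Near_low hF (hz.mono h1 h2 h3) (fun r hr => hin r ⟨h1.trans hr.1, hr.2.trans h3⟩)
      (A := m.La 1 + 1) (by linarith only [m.La_nonneg 1])
    have h5 := h s t h1 h2 h3 (hin s ⟨h1, h2.trans h3⟩) (hin t ⟨h1.trans h2, h3⟩)
    unfold kap
    linarith
  intro s hs t ht
  rcases le_total s t with hst | hst
  · rw [abs_of_nonneg (sub_nonneg.2 hst)]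
    exact key s t hs.1 hst ht.2
  · rw [abs_sub_comm, abs_of_nonneg (sub_nonneg.2 hst), norm_sub_rev]
    exact key t s ht.1 hst hs.2

theorem near_stay {m : Md} {R : ℝ} {F : E × E → ℝ} (hF : Cls m R F) {z : ℝ → E}
    {a b B ε ρ t0 : ℝ} (hz : IsPath z a b) (ht0 : t0 ∈ Icc a b) (hB : 0 ≤ B) (hε : 0 ≤ ε)
    (hρ : ‖z t0‖ + ρ ≤ R) (hs : kap m B * (b - a) + ε < ρ)
    (h : ∀ s t, a ≤ s → s ≤ t → t ≤ b → ‖z s‖ ≤ R → ‖z t‖ ≤ R →
      act F z s t ≤ m.La 1 * ‖z t - z s‖ + B * (t - s) + ε) :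
    ∀ t ∈ Icc a b, ‖z t - z t0‖ ≤ ρ := by
  have hk : 0 ≤ kap m B := add_nonneg (m.th_nonneg _) hB
  have hab := hz.1
  have hρ0 : 0 ≤ ρ := by linarith only [hε, hs, hk, hab, mul_nonneg hk (sub_nonneg.2 hab)]
  have key : ∀ c d, a ≤ c → c ≤ d → d ≤ b → (∀ r ∈ Icc c d, ‖z r - z t0‖ ≤ ρ) →
      ∀ s ∈ Icc c d, ∀ t ∈ Icc c d, ‖z t - z s‖ < ρ := by
    intro c d h1 h2 h3 h4 s hs' t ht
    have h5 := near_in hF (hz.mono h1 h2 h3) (B := B) (ε := ε) (fun r hr => by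
      have := norm_add_le (z t0) (z r - z t0)
      rw [add_sub_cancel] at this
      linarith [h4 r hr])
      (fun s t a1 a2 a3 => h s t (h1.trans a1) a2 (a3.trans h3)) s hs' t ht
    have h6 : |t - s| ≤ b - a := abs_le.2 ⟨by linarith [hs'.2, ht.1], by linarith [hs'.1, ht.2]⟩
    have h7 := mul_le_mul_of_nonneg_left h6 hk
    linarith
  have hc : ContinuousOn (fun r => ‖z r - z t0‖) (Icc a b) :=
    (hz.continuousOn.sub continuousOn_const).norm
  intro t ht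
  rcases le_total t0 t with h1 | h1
  · refine Near_fwd (f := fun r => ‖z r - z t0‖) (a := t0) (b := b)
      (hc.mono (Icc_subset_Icc_left ht0.1)) (by simpa using hρ0) (fun r hr h2 => ?_) t ⟨h1, ht.2⟩
    exact key t0 r ht0.1 hr.1 hr.2 h2 t0 ⟨le_rfl, hr.1⟩ r ⟨hr.1, le_rfl⟩
  · refine Near_bwd (f := fun r => ‖z r - z t0‖) (a := a) (b := t0)
      (hc.mono (Icc_subset_Icc_right ht0.2)) (by simpa using hρ0) (fun r hr h2 => ?_) t ⟨ht.1, h1⟩
    exact key r t0 hr.1 hr.2 ht0.2 h2 t0 ⟨hr.2, le_rfl⟩ r ⟨le_rfl, hr.2⟩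

theorem near_hyp {m : Md} {R : ℝ} {F : E × E → ℝ} (hF : Cls m R F) {u : E → ℝ} (hu : Dom F u)
    {z : ℝ → E} {a b ε : ℝ} (hz : IsPath z a b) (hd : dfc F u z a b ≤ ε) :
    ∀ s t, a ≤ s → s ≤ t → t ≤ b → ‖z s‖ ≤ R → ‖z t‖ ≤ R →
      act F z s t ≤ m.La 1 * ‖z t - z s‖ + 0 * (t - s) + ε := by
  intro s t h1 h2 h3 hs ht
  have h4 := hu.dfc_mono hF.cont hz h1 h2 h3
  have h5 := (abs_le.1 (Dom.lip hF hu ht hs)).2
  unfold dfc at h4 hd
  linarith only [hd, h4, h5]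

theorem kap_nonneg (m : Md) {B : ℝ} (hB : 0 ≤ B) : 0 ≤ kap m B := by
  exact add_nonneg (m.th_nonneg _) hB

/-- Nearly calibrated paths in a ball are nearly Lipschitz. -/
theorem nearcal_lip {m : Md} {R : ℝ} {F : E × E → ℝ} (hF : Cls m R F) {u : E → ℝ} (hu : Dom F u)
    {z : ℝ → E} {a b ε : ℝ} (hz : IsPath z a b) (hd : dfc F u z a b ≤ ε)
    (hin : ∀ t ∈ Icc a b, ‖z t‖ ≤ R) :
    ∀ s ∈ Icc a b, ∀ t ∈ Icc a b, ‖z t - z s‖ ≤ kap m 0 * |t - s| + ε := by
  exact near_in hF hz hin (near_hyp hF hu hz hd)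

/-- Nearly calibrated paths stay in a unit ball for a uniform time. -/
theorem nearcal_stay (m : Md) : ∃ τ : ℝ, 0 < τ ∧ τ ≤ 1 ∧ ∀ (R : ℝ) (F : E × E → ℝ) (u : E → ℝ),
    Cls m (R + 1) F → Dom F u → ∀ (z : ℝ → E) (a b t0 : ℝ), IsPath z a b → b - a ≤ 2 * τ →
      t0 ∈ Icc a b → dfc F u z a b ≤ 1 / 4 → ‖z t0‖ ≤ R → ∀ t ∈ Icc a b, ‖z t - z t0‖ ≤ 1 / 2 := by
  have hk := kap_nonneg m (le_refl (0 : ℝ))
  refine ⟨1 / (16 * (kap m 0 + 1)), by positivity, ?_, ?_⟩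
  · rw [div_le_one (by positivity)]
    linarith only [hk]
  intro R F u hF hu z a b t0 hz hab ht0 hd h0
  refine near_stay hF hz ht0 (le_refl (0 : ℝ)) (by norm_num : (0 : ℝ) ≤ 1 / 4) (by linarith only [h0]) ?_
    (near_hyp hF hu hz hd)
  have h1 := mul_le_mul_of_nonneg_left hab hk
  have h2 : kap m 0 * (2 * (1 / (16 * (kap m 0 + 1)))) ≤ 1 / 8 := by
    rw [show kap m 0 * (2 * (1 / (16 * (kap m 0 + 1)))) = kap m 0 / (8 * (kap m 0 + 1)) by
      field_simp; ring, div_le_div_iff₀ (by positivity) (by norm_num)]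
    linarith only []
  linarith only [h1, h2]

theorem lip_of_le {z : ℝ → E} {a b K : ℝ}
    (h : ∀ s ∈ Icc a b, ∀ t ∈ Icc a b, ‖z t - z s‖ ≤ K * |t - s|) :
    LipschitzOnWith K.toNNReal z (Icc a b) := by
  refine LipschitzOnWith.of_dist_le_mul fun s hs t ht => ?_
  rw [dist_eq_norm, Real.dist_eq]
  exact (h t ht s hs).trans (mul_le_mul_of_nonneg_right (Real.le_coe_toNNReal K) (abs_nonneg _))

/-- Staying in a bounded region for a bounded time, using the deck group. -/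
theorem stay (hS : Surf Γ) {R0 : ℝ} (hR0 : ∀ x : E, ∃ γ : Γ, ‖γ • x‖ ≤ R0) (m : Md) (R T : ℝ) :
    ∃ R' : ℝ, R ≤ R' ∧ ∀ (F : E × E → ℝ) (c : H1 Γ) (u : E → ℝ), Cls m (R0 + 1) F → InvL Γ F →
      InS F c u → ∀ (z : ℝ → E) (a b t0 : ℝ), IsPath z a b → b - a ≤ T → t0 ∈ Icc a b →
        dfc F u z a b ≤ 1 / 4 → ‖z t0‖ ≤ R → ∀ t ∈ Icc a b, ‖z t‖ ≤ R' := by
  obtain ⟨τ, hτ, -, hst⟩ := nearcal_stay m
  have key : ∀ n : ℕ, ∃ R' : ℝ, R ≤ R' ∧ ∀ (F : E × E → ℝ) (c : H1 Γ) (u : E → ℝ),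
      Cls m (R0 + 1) F → InvL Γ F → InS F c u → ∀ (z : ℝ → E) (a b t0 : ℝ), IsPath z a b →
        t0 ∈ Icc a b → dfc F u z a b ≤ 1 / 4 → ‖z t0‖ ≤ R → ∀ t ∈ Icc a b, |t - t0| ≤ n * τ →
          ‖z t‖ ≤ R' := by
    intro n
    induction n with
    | zero =>
      refine ⟨R, le_rfl, fun F c u _ _ _ z a b t0 _ _ _ h0 t _ ht => ?_⟩
      have : t = t0 := by
        rw [Nat.cast_zero, zero_mul, abs_nonpos_iff, sub_eq_zero] at ht
        exact ht
      rwa [this]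
    | succ n ih =>
      obtain ⟨R', hR', ih⟩ := ih
      obtain ⟨C, -, hC⟩ := hS.lip_unif (R0 + 1) R'
      refine ⟨max R C, le_max_left _ _, fun F c u hF hi hu z a b t0 hz ht0 hd h0 t ht hn => ?_⟩
      have hnτ : 0 ≤ (n : ℝ) * τ := by positivity
      push_cast at hn
      obtain ⟨t1, ht1, h1, h2⟩ : ∃ t1 ∈ Icc a b, |t1 - t0| ≤ n * τ ∧ |t - t1| ≤ τ := by
        rw [abs_le] at hn
        by_cases c1 : t0 + n * τ ≤ t
        · exact ⟨t0 + n * τ, ⟨by linarith only [hnτ, ht0, ht0.1], by linarith [ht.2]⟩,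
            abs_le.2 ⟨by linarith only [hnτ], by linarith only []⟩, abs_le.2 ⟨by linarith only [hτ, c1], by linarith only [hn, hn.2]⟩⟩
        by_cases c2 : t ≤ t0 - n * τ
        · exact ⟨t0 - n * τ, ⟨by linarith only [c2, ht, ht.1], by linarith only [hnτ, ht0, ht0.2]⟩,
            abs_le.2 ⟨by linarith only [], by linarith only [hnτ]⟩, abs_le.2 ⟨by linarith [hn.1], by linarith only [hτ, c2]⟩⟩
        · exact ⟨t, ht, abs_le.2 ⟨by linarith only [c2], by linarith only [c1]⟩, by simpa using hτ.le⟩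
      have h3 := ih F c u hF hi hu z a b t0 hz ht0 hd h0 t1 ht1 h1
      obtain ⟨γ, hγ⟩ := hR0 (z t1)
      have m1 : a ≤ min t t1 := le_min ht.1 ht1.1
      have m2 : min t t1 ≤ max t t1 := min_le_max
      have m3 : max t t1 ≤ b := max_le ht.2 ht1.2
      have h4 := hst R0 F u hF hu.2 (fun r => γ • z r) (min t t1) (max t t1) t1
        ((hz.mono m1 m2 m3).smul hS γ) (by rw [max_sub_min_eq_abs']; linarith only [hτ, h2])
        ⟨min_le_right _ _, le_max_right _ _⟩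
        (by
          rw [dfc_smul hS hi hu.1]
          exact (hu.2.dfc_mono hF.cont hz m1 m2 m3).trans hd)
        hγ t ⟨min_le_left _ _, le_max_left _ _⟩
      have h5 : ‖γ • z t‖ ≤ R0 + 1 := by
        have := norm_add_le (γ • z t1) (γ • z t - γ • z t1)
        rw [add_sub_cancel] at this
        linarith only [hγ, h4, this]
      have h6 := (hC γ⁻¹ (γ • z t1) (by linarith only [hγ]) (by rwa [inv_smul_smul]) _ _ h5 h5).1
      rw [inv_smul_smul] at h6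
      exact h6.trans (le_max_right _ _)
  obtain ⟨n, hn⟩ := exists_nat_ge (T / τ)
  obtain ⟨R', hR', h⟩ := key n
  refine ⟨R', hR', fun F c u hF hi hu z a b t0 hz hab ht0 hd h0 t ht =>
    h F c u hF hi hu z a b t0 hz ht0 hd h0 t ht ?_⟩
  rw [div_le_iff₀ hτ] at hn
  exact abs_le.2 ⟨by linarith only [hn, hab, ht, ht0, ht.1, ht0.2], by linarith only [hn, hab, ht, ht0, ht.2, ht0.1]⟩

end Pool.Agent.Work.MP_1ce82a_an
end

-- merged part: Pool.Agent.Work.MP_1ce82a_an.A.Quad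
section
/-! The two sided quadratic estimate at interior times of calibrated paths.
PLAN. tau0 = min tau (the time of nearcal_stay); then the path is kap-Lipschitz and stays within 1/2. For
0 < s <= tau0, domination along aff z (t-s) t 0 h, calibration on [t-s,t] and mod_le give
u(z t + h) - u(z t) <= P1 h + C_s |h|^2 with P1 h = fv F z (t-s) t 0 h; on [t,t+tau0] with aff z t (t+tau0) h 0 get
u(z t + h) - u(z t) >= -P0 h - C |h|^2. clm_eq_of_quad identifies all these covectors with p = -P0. -/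

open Set Filter Topology MeasureTheory
open scoped ContDiff

namespace Pool.Agent.Work.MP_1ce82a_an

variable {Γ : Grp}

theorem Quad_key (m : Md) (K s : ℝ) (hs : 0 < s) : ∃ C : ℝ, 0 ≤ C ∧
    ∀ (R : ℝ) (F : E × E → ℝ) (u : E → ℝ) (z : ℝ → E) (a b : ℝ), Cls m (R + 1) F → Dom F u →
      b - a = s → Cal F u z a b → LipschitzOnWith K.toNNReal z (Icc a b) →
      (∀ t ∈ Icc a b, ‖z t‖ ≤ R) → ∀ h0 h1 : E, ‖h0‖ ≤ 1 → ‖h1‖ ≤ 1 →
        u (z b + h1) - u (z a + h0) ≤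
          u (z b) - u (z a) + fv F z a b h0 h1 + C * (‖h0‖ ^ 2 + ‖h1‖ ^ 2) := by
  obtain ⟨C, hC, H⟩ := mod_le m K s s hs
  refine ⟨C, hC, fun R F u z a b hF hu e hc hl hin h0 h1 n0 n1 => ?_⟩
  have hab : a < b := by linarith
  have k1 := H R F z a b hF e.ge e.le hl hin h0 h1 n0 n1
  have k2 := hu _ a b (hc.1.aff h0 h1)
  have k3 := hc.2
  rw [aff_left z hab, aff_right z hab] at k2
  unfold dfc at k3
  linarith

theorem quad_est (m : Md) (τ : ℝ) (hτ : 0 < τ) : ∃ τ0 K C : ℝ, 0 < τ0 ∧ τ0 ≤ τ ∧ 0 ≤ K ∧ 0 ≤ C ∧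
    ∀ (R : ℝ) (F : E × E → ℝ) (u : E → ℝ) (z : ℝ → E) (t : ℝ), Cls m (R + 2) F → Dom F u →
      Cal F u z (t - τ) (t + τ) → ‖z t‖ ≤ R →
      (∀ s ∈ Icc (t - τ0) (t + τ0), ‖z s - z t‖ ≤ 1 / 2 ∧
        ∀ r ∈ Icc (t - τ0) (t + τ0), ‖z r - z s‖ ≤ K * |r - s|) ∧
      ∃ p : E →L[ℝ] ℝ, (∀ y, ‖y - z t‖ ≤ 1 → |u y - u (z t) - p (y - z t)| ≤ C * ‖y - z t‖ ^ 2) ∧
        ∀ s : ℝ, 0 < s → s ≤ τ0 → ∀ h : E, p h = fv F z (t - s) t 0 h := by
  obtain ⟨τ1, h1, -, hs⟩ := nearcal_stay m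
  have h0 : 0 < min τ τ1 := lt_min hτ h1
  have l1 := min_le_left τ τ1
  have l2 := min_le_right τ τ1
  generalize min τ τ1 = τ0 at h0 l1 l2
  obtain ⟨C, hC, H⟩ := Quad_key m (kap m 0) τ0 h0
  refine ⟨τ0, kap m 0, C, h0, l1, kap_nonneg m le_rfl, hC, fun R F u z t hF hu hc hz => ?_⟩
  have hF' : Cls m (R + 1 + 1) F := by rwa [add_assoc, one_add_one_eq_two]
  have hc' : ∀ a b, t - τ0 ≤ a → a ≤ b → b ≤ t + τ0 → Cal F u z a b := fun a b k1 k2 k3 =>
    hc.mono hF.c2.continuous hu (by linarith) k2 (by linarith)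
  have c0 := hc' _ _ le_rfl (by linarith) le_rfl
  have s1 := hs (R + 1) F u hF' hu z _ _ t c0.1 (by linarith) ⟨by linarith, by linarith⟩
    (by rw [c0.2]; norm_num) (by linarith)
  have s2 : ∀ s ∈ Icc (t - τ0) (t + τ0), ‖z s‖ ≤ R + 1 := fun s hs => by
    linarith only [hz, s1, hs, s1 s hs, norm_sub_norm_le (z s) (z t)]
  have s3 := nearcal_lip hF hu c0.1 c0.2.le fun s hs => by linarith [s2 s hs]
  simp only [add_zero] at s3
  have s4 := lip_of_le s3
  refine ⟨fun s hs => ⟨s1 s hs, s3 s hs⟩, ?_⟩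
  have i1 : Icc t (t + τ0) ⊆ Icc (t - τ0) (t + τ0) := Icc_subset_Icc (by linarith) le_rfl
  have c1 := hc' t _ (by linarith) (by linarith) le_rfl
  obtain ⟨P0, P1, hP⟩ := fv_lin hF.c2 c1.1
  have lo : ∀ h : E, ‖h‖ ≤ 1 → (-P0) h - C * ‖h‖ ^ 2 ≤ u (z t + h) - u (z t) := fun h hh => by
    have := H (R + 1) F u z t _ hF' hu (add_sub_cancel_left _ _) c1 (s4.mono i1)
      (fun s hs => s2 s (i1 hs)) h 0 hh (by simp)
    rw [hP, map_zero, add_zero, add_zero, norm_zero] at this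
    rw [neg_apply]
    linarith only [this]
  have i2 : ∀ s ≤ τ0, Icc (t - s) t ⊆ Icc (t - τ0) (t + τ0) := fun s k =>
    Icc_subset_Icc (by linarith) (by linarith)
  have id : ∀ s : ℝ, 0 < s → s ≤ τ0 → ∀ h : E, (-P0) h = fv F z (t - s) t 0 h := by
    intro s k1 k2 h
    have c2 := hc' (t - s) t (by linarith) (by linarith) (by linarith)
    obtain ⟨Q0, Q1, hQ⟩ := fv_lin hF.c2 c2.1
    obtain ⟨C', -, H'⟩ := Quad_key m (kap m 0) s k1
    rw [hQ, map_zero, zero_add, clm_eq_of_quad (p := -P0) (q := Q1) (C := C + C') one_pos]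
    intro y hy
    have := H' (R + 1) F u z _ t hF' hu (sub_sub_cancel _ _) c2 (s4.mono (i2 s k2))
      (fun r hr => s2 r (i2 s k2 hr)) 0 y (by simp) hy
    rw [hQ, map_zero, add_zero, norm_zero] at this
    linarith [lo y hy]
  refine ⟨-P0, fun y hy => ?_, id⟩
  have k1 := lo _ hy
  have k2 := H (R + 1) F u z _ t hF' hu (sub_sub_cancel _ _)
    (hc' (t - τ0) t le_rfl (by linarith) (by linarith)) (s4.mono (i2 _ le_rfl))
    (fun r hr => s2 r (i2 _ le_rfl hr)) 0 _ (by simp) hy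
  rw [← id τ0 h0 le_rfl, add_zero, norm_zero] at k2
  rw [add_sub_cancel] at k1 k2
  exact abs_le.2 ⟨by linarith, by linarith⟩

end Pool.Agent.Work.MP_1ce82a_an
end

-- merged part: Pool.Agent.Work.MP_1ce82a_an.A.Reg
section
/-! Regularity of calibrated paths.
PLAN. Let p be the covector of quad_est at time t, g(w) = F(z t,w) - p w >= 0 (Dom.le_of_hasFDerivAt). For small
d of either sign let w_d = (z(t+d) - z t)/d, |w_d| <= K. Calibration on the interval between t and t+d, jensen and the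
quadratic estimate (and lip0 for d < 0, where jensen is based at z(t+d)) give g(w_d) <= C|d|. By compactness some V with
|V| <= K has g(V) = 0; touch_unique gives p = vpart of the derivative at (z t,V), and Cls.strong gives
|w_d - V|^2 <= C|d|, so z has derivative V at t; g(V) = 0 is the vanishing of the energy. For two points:
quad_lip, lip1 and strong_mono when the distance is at most 1/2, otherwise 2K <= 4K times the distance. -/

open Set Filter Topology MeasureTheory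
open scoped ContDiff

namespace Pool.Agent.Work.MP_1ce82a_an

variable {Γ : Grp}

theorem Reg_key {m : Md} {R τ K C t : ℝ} {F : E × E → ℝ} {u : E → ℝ} {z : ℝ → E}
    {p : E →L[ℝ] ℝ} (hF : Cls m (R + 2) F) (hu : Dom F u) (hK : 0 ≤ K) (hC : 0 ≤ C)
    (hz : Cal F u z (t - τ) (t + τ)) (hR : ‖z t‖ ≤ R)
    (hA : ∀ s ∈ Icc (t - τ) (t + τ), ‖z s - z t‖ ≤ 1 / 2 ∧
      ∀ r ∈ Icc (t - τ) (t + τ), ‖z r - z s‖ ≤ K * |r - s|)
    (hp : ∀ y, ‖y - z t‖ ≤ 1 → |u y - u (z t) - p (y - z t)| ≤ C * ‖y - z t‖ ^ 2)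
    {a b : ℝ} (hab : a < b) (ha : t - τ ≤ a) (hb : b ≤ t + τ) (h : a = t ∨ b = t) :
    ‖slope z a b‖ ≤ K ∧ F (z t, slope z a b) - p (slope z a b) ≤
      (m.La K * K * (2 + 2 * K) + C * K ^ 2) * (b - a) := by
  have hd : 0 < b - a := sub_pos.2 hab
  have hL := m.La_nonneg K
  have sub : Icc a b ⊆ Icc (t - τ) (t + τ) := Icc_subset_Icc ha hb
  have hin : ∀ r ∈ Icc a b, ‖z r‖ ≤ R + 2 := fun r hr => by
    have := (hA r (sub hr)).1
    have := norm_sub_norm_le (z r) (z t)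
    linarith
  have hl : ∀ s ∈ Icc a b, ∀ r ∈ Icc a b, ‖z r - z s‖ ≤ K * (b - a) := fun s hs r hr =>
    ((hA s (sub hs)).2 r (sub hr)).trans (mul_le_mul_of_nonneg_left
      (abs_le.2 ⟨by linarith [hs.2, hr.1], by linarith [hs.1, hr.2]⟩) hK)
  have ma : a ∈ Icc a b := left_mem_Icc.2 hab.le
  have mb : b ∈ Icc a b := right_mem_Icc.2 hab.le
  have mt : t ∈ Icc a b := h.elim (· ▸ ma) (· ▸ mb)
  obtain ⟨c1, c2⟩ := hz.mono hF.cont hu ha hab.le hb
  have j := jensen hF hK hab c1 hin (hl a ma)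
  have e : slope z a b = (1 / (b - a)) • (z b - z a) := by rw [slope_def_module, one_div]
  have e2 : (b - a) * p (slope z a b) = p (z b - z a) := by
    rw [← smul_eq_mul, ← map_smul, sub_smul_slope, vsub_eq_sub]
  have n : ‖slope z a b‖ ≤ K := by
    rw [e, norm_smul, Real.norm_of_nonneg (by positivity), one_div, inv_mul_le_iff₀ hd, mul_comm]
    exact hl a ma b mb
  have i1 : ∫ r in a..b, ‖deriv z r‖ ≤ K * (b - a) := by
    have := intervalIntegral.norm_integral_le_of_norm_le_const_ae (a := a) (b := b) (C := K)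
      (f := fun r => ‖deriv z r‖) ((PathB_ae hab.le).mono fun r h1 h2 => by
        rw [norm_norm]
        exact (norm_deriv_le_lip (lip_of_le fun s hs r hr => (hA s (sub hs)).2 r (sub hr))
          (h1 h2)).trans_eq (Real.coe_toNNReal K hK))
    rw [abs_of_pos hd] at this
    exact (le_abs_self _).trans this
  have i2 : u (z b) - u (z a) ≤ p (z b - z a) + C * (K * (b - a)) ^ 2 := by
    rcases h with rfl | rfl
    · have q := (abs_le.1 (hp (z b) (by linarith only [hA, sub, mb, (hA b (sub mb)).1]))).2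
      have : C * ‖z b - z a‖ ^ 2 ≤ C * (K * (b - a)) ^ 2 := by gcongr; exact hl a ma b mb
      linarith only [q, this]
    · have q := (abs_le.1 (hp (z a) (by linarith only [hA, sub, ma, (hA a (sub ma)).1]))).1
      have : C * ‖z a - z b‖ ^ 2 ≤ C * (K * (b - a)) ^ 2 := by gcongr; exact hl b mb a ma
      rw [← neg_sub (z b), map_neg, norm_neg] at q
      rw [norm_sub_rev] at this
      linarith only [q, this]
  have i3 := (abs_le.1 (hF.lip0 (K := K) (z := (z t, slope z a b)) (y := (z a, slope z a b))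
    ⟨hin t mt, n⟩ ⟨hin a ma, n⟩)).2
  rw [Prod.mk_sub_mk, sub_self, Prod.norm_mk, norm_zero, max_eq_left (norm_nonneg _)] at i3
  have i4 : m.La K * ‖z t - z a‖ ≤ m.La K * (K * (b - a)) := by gcongr; exact hl a ma t mt
  have i5 : m.La K * K * (b - a) * (b - a + K * (b - a) + ∫ r in a..b, ‖deriv z r‖) ≤
      m.La K * K * (b - a) * (b - a + K * (b - a) + K * (b - a)) := by gcongr
  rw [dfc, sub_eq_zero] at c2
  rw [← e, c2] at j
  refine ⟨n, le_of_mul_le_mul_left ?_ hd⟩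
  have i6 := mul_le_mul_of_nonneg_left (i3.trans i4) hd.le
  rw [mul_sub, e2]
  linarith only [j, i2, i5, i6]

theorem Reg_one {m : Md} {R τ K C t : ℝ} {F : E × E → ℝ} {u : E → ℝ} {z : ℝ → E}
    {p : E →L[ℝ] ℝ} (hF : Cls m (R + 2) F) (hu : Dom F u) (hτ : 0 < τ) (hK : 0 ≤ K) (hC : 0 ≤ C)
    (hz : Cal F u z (t - τ) (t + τ)) (hR : ‖z t‖ ≤ R)
    (hA : ∀ s ∈ Icc (t - τ) (t + τ), ‖z s - z t‖ ≤ 1 / 2 ∧
      ∀ r ∈ Icc (t - τ) (t + τ), ‖z r - z s‖ ≤ K * |r - s|)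
    (hp : ∀ y, ‖y - z t‖ ≤ 1 → |u y - u (z t) - p (y - z t)| ≤ C * ‖y - z t‖ ^ 2) :
    ∃ V, HasDerivAt z V t ∧ ‖V‖ ≤ K ∧ p V = F (z t, V) ∧ p = vpart (fderiv ℝ F (z t, V)) := by
  obtain ⟨B, hB⟩ : ∃ B, B = m.La K * K * (2 + 2 * K) + C * K ^ 2 := ⟨_, rfl⟩
  have ev : ∀ᶠ s in 𝓝[≠] t, ‖slope z t s‖ ≤ K ∧
      F (z t, slope z t s) - p (slope z t s) ≤ B * |s - t| := by
    have : ∀ᶠ s in 𝓝[≠] t, s ∈ Icc (t - τ) (t + τ) :=
      mem_nhdsWithin_of_mem_nhds (Icc_mem_nhds (by linarith) (by linarith))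
    filter_upwards [this, self_mem_nhdsWithin] with s hs hne
    rcases lt_or_gt_of_ne (show s ≠ t from hne) with h | h
    · rw [slope_comm, abs_sub_comm, abs_of_pos (sub_pos.2 h), hB]
      exact Reg_key hF hu hK hC hz hR hA hp h hs.1 (by linarith) (Or.inr rfl)
    · rw [abs_of_pos (sub_pos.2 h), hB]
      exact Reg_key hF hu hK hC hz hR hA hp h (by linarith) hs.2 (Or.inl rfl)
  have g0 := hu.le_of_hasFDerivAt hF.cont (hasFDerivAt_of_quad one_pos hp)
  obtain ⟨V, hV, hm⟩ := (isCompact_closedBall (0 : E) K).exists_isMinOn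
    ⟨0, Metric.mem_closedBall_self hK⟩ (f := fun w => F (z t, w) - p w)
    ((hF.cont.comp (Continuous.prodMk_right _)).sub p.continuous).continuousOn
  rw [mem_closedBall_zero_iff] at hV
  have t0 : Tendsto (fun s => B * |s - t|) (𝓝[≠] t) (𝓝 0) :=
    (Continuous.tendsto' (by fun_prop) t 0 (by simp)).mono_left nhdsWithin_le_nhds
  have h1 : F (z t, V) - p V ≤ 0 := ge_of_tendsto t0
    (ev.mono fun s hs => (hm (mem_closedBall_zero_iff.2 hs.1)).trans hs.2)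
  have h2 : p V = F (z t, V) := le_antisymm (g0 V) (by linarith)
  have h3 := (touch_unique hF.c2 hF.conv g0 h2 h2).2
  refine ⟨V, hasDerivAt_iff_tendsto_slope.2 (tendsto_iff_norm_sub_tendsto_zero.2 ?_), hV, h2, h3⟩
  have t1 := (t0.div_const (m.mu K / 2)).sqrt
  rw [zero_div, Real.sqrt_zero] at t1
  refine squeeze_zero' (Eventually.of_forall fun _ => norm_nonneg _) (ev.mono fun s hs => ?_) t1
  have h4 := hF.strong (x := z t) (by linarith only [hR]) hs.1 hV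
  rw [← h3, map_sub] at h4
  refine Real.le_sqrt_of_sq_le ((le_div_iff₀ (half_pos (m.mu_pos K))).2 ?_)
  linarith only [h2, hs, h4, hs.2]

theorem reg_est (m : Md) (τ : ℝ) (hτ : 0 < τ) : ∃ K C : ℝ, 0 ≤ K ∧ 0 ≤ C ∧
    ∀ (R : ℝ) (F : E × E → ℝ) (u : E → ℝ), Cls m (R + 2) F → Dom F u →
      (∀ (z : ℝ → E) (t : ℝ), Cal F u z (t - τ) (t + τ) → ‖z t‖ ≤ R →
        HasDerivAt z (deriv z t) t ∧ ‖deriv z t‖ ≤ K ∧ energy F (ph z t) = 0 ∧
          ∀ y, ‖y - z t‖ ≤ 1 → |u y - u (z t) - mo F z t (y - z t)| ≤ C * ‖y - z t‖ ^ 2) ∧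
      ∀ (z1 z2 : ℝ → E) (t1 t2 : ℝ), Cal F u z1 (t1 - τ) (t1 + τ) → Cal F u z2 (t2 - τ) (t2 + τ) →
        ‖z1 t1‖ ≤ R → ‖z2 t2‖ ≤ R → ‖deriv z1 t1 - deriv z2 t2‖ ≤ C * ‖z1 t1 - z2 t2‖ := by
  obtain ⟨τ0, K, C, h0, h1, hK, hC, H⟩ := quad_est m τ hτ
  have hμ := m.mu_pos K
  have hL := m.La_nonneg K
  have h2 : 0 ≤ (6 * C + m.La K) / m.mu K := by positivity
  refine ⟨K, C + (6 * C + m.La K) / m.mu K + 4 * K, hK, by positivity, fun R F u hF hu => ?_⟩
  have key : ∀ (z : ℝ → E) (t : ℝ), Cal F u z (t - τ) (t + τ) → ‖z t‖ ≤ R →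
      HasDerivAt z (deriv z t) t ∧ ‖deriv z t‖ ≤ K ∧ energy F (ph z t) = 0 ∧
        ∀ y, ‖y - z t‖ ≤ 1 → |u y - u (z t) - mo F z t (y - z t)| ≤ C * ‖y - z t‖ ^ 2 := by
    intro z t hz hR
    obtain ⟨hA, p, hp, -⟩ := H R F u z t hF hu hz hR
    obtain ⟨V, a1, a2, a3, a4⟩ := Reg_one hF hu h0 hK hC
      (hz.mono hF.cont hu (by linarith only [h1]) (by linarith only [h0]) (by linarith)) hR hA hp
    have e : mo F z t = p := by rw [mo, ph, a1.deriv, a4]
    refine ⟨a1.deriv.symm ▸ a1, a1.deriv.symm ▸ a2, ?_, e.symm ▸ hp⟩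
    rw [energy, ph, a1.deriv, ← vpart_apply, ← a4, a3, sub_self]
  refine ⟨fun z t hz hR => ?_, fun z1 z2 t1 t2 c1 c2 r1 r2 => ?_⟩
  · obtain ⟨a1, a2, a3, a4⟩ := key z t hz hR
    exact ⟨a1, a2, a3, fun y hy => (a4 y hy).trans (by gcongr; linarith only [hK, h2])⟩
  obtain ⟨-, a2, -, a4⟩ := key z1 t1 c1 r1
  obtain ⟨-, b2, -, b4⟩ := key z2 t2 c2 r2
  have n0 := norm_nonneg (z1 t1 - z2 t2)
  rcases le_total ‖z1 t1 - z2 t2‖ (1 / 2) with h | h
  · have q1 := quad_lip hC one_pos a4 b4 h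
    have q2 := hF.strong_mono (x := z1 t1) (by linarith only [r1]) a2 b2
    have q3 := hF.lip1 (K := K) (z := (z2 t2, deriv z2 t2)) (y := (z1 t1, deriv z2 t2))
      ⟨by linarith only [r2], b2⟩ ⟨by linarith only [r1], b2⟩
    rw [Prod.mk_sub_mk, sub_self, Prod.norm_mk, norm_zero, max_eq_left (norm_nonneg _),
      norm_sub_rev (z2 t2)] at q3
    have q4 : vpart (fderiv ℝ F (z1 t1, deriv z1 t1)) - vpart (fderiv ℝ F (z1 t1, deriv z2 t2)) =
        (mo F z1 t1 - mo F z2 t2) + vpart (fderiv ℝ F (z2 t2, deriv z2 t2) -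
          fderiv ℝ F (z1 t1, deriv z2 t2)) := by
      simp only [mo, ph, vpart, ContinuousLinearMap.sub_comp, sub_add_sub_cancel]
    rw [q4] at q2
    have q5 := q2.trans ((norm_add_le _ _).trans (add_le_add q1 ((norm_vpart_le _).trans q3)))
    rw [← add_mul, mul_comm, ← le_div_iff₀ hμ, mul_div_right_comm] at q5
    exact q5.trans (by gcongr; linarith only [hK, hC])
  · have q := (norm_sub_le _ _).trans (add_le_add a2 b2)
    calc _ ≤ 4 * K * ‖z1 t1 - z2 t2‖ := by linarith only [q, hK, h, mul_nonneg_of_nonpos_of_nonpos (Mathlib.Tactic.Linarith.sub_nonpos_of_le hK) (Mathlib.Tactic.Linarith.sub_nonpos_of_le h)]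
      _ ≤ _ := by gcongr; linarith only [hC, h2]

end Pool.Agent.Work.MP_1ce82a_an
end

-- merged part: Pool.Agent.Work.MP_1ce82a_an.A.Euler
section
/-! Calibrated paths solve the Euler-Lagrange equation at interior times.
PLAN. Fix a < a' <= b' < b and a margin tau. reg_est (with a radius bounding the path) gives differentiability and a
Lipschitz derivative on a slightly larger interval J, so t -> ph z t is continuous there. By quad_est and uniqueness
(clm_eq_of_quad) mo F z t h = fv F z (t-s) t 0 h for 0 < s <= tau0. With I(t) the primitive of the base part and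
Q = mo - I (apply to a fixed vector h, real valued), integration by parts turns this into
s Q(t) = integral of Q over [t-s,t]; differentiate in s: Q(t-s) = Q(t). So Q is locally constant near each time of
[a',b'], and mo has derivative I'. Pass from each h to covectors by finite dimensionality (two basis vectors). -/

open Set Filter Topology MeasureTheory
open scoped ContDiff

namespace Pool.Agent.Work.MP_1ce82a_an

variable {Γ : Grp}

/-- The averaged equation with a fixed left end point gives the derivative of the momentum. -/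
theorem Euler_deriv {X M : ℝ → E →L[ℝ] ℝ} {c d t0 : ℝ} (h1 : c < t0) (h2 : t0 < d)
    (hX : ContinuousOn X (Icc c d)) (hM : ContinuousOn M (Icc c d))
    (h : ∀ t ∈ Ioo c d, (t - c) • M t = ∫ r in c..t, ((r - c) • X r + M r)) :
    HasDerivAt M (X t0) t0 := by
  have hΨ : ContinuousOn (fun r => (r - c) • X r + M r) (Icc c d) :=
    ((continuousOn_id.sub continuousOn_const).smul hX).add hM
  have hn : Icc c d ∈ 𝓝 t0 := Icc_mem_nhds h1 h2
  have hI : HasDerivAt (fun t => ∫ r in c..t, ((r - c) • X r + M r))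
      ((t0 - c) • X t0 + M t0) t0 := by
    refine intervalIntegral.integral_hasDerivAt_right ?_ ?_ (hΨ.continuousAt hn)
    · refine (hΨ.mono ?_).intervalIntegrable
      rw [uIcc_of_le h1.le]
      exact Icc_subset_Icc_right h2.le
    · exact (hΨ.mono Ioo_subset_Icc_self).stronglyMeasurableAtFilter isOpen_Ioo t0 ⟨h1, h2⟩
  have hc : t0 - c ≠ 0 := (sub_pos.2 h1).ne'
  have hJ : HasDerivAt (fun t => (t - c)⁻¹) (-1 / (t0 - c) ^ 2) t0 :=
    ((hasDerivAt_id t0).sub_const c).inv hc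
  have hK := hJ.smul hI
  have e : M =ᶠ[𝓝 t0] (fun t => (t - c)⁻¹) • fun t => ∫ r in c..t, ((r - c) • X r + M r) := by
    filter_upwards [Ioo_mem_nhds h1 h2] with t ht
    change M t = (t - c)⁻¹ • ∫ r in c..t, ((r - c) • X r + M r)
    rw [← h t ht, smul_smul, inv_mul_cancel₀ (sub_pos.2 ht.1).ne', one_smul]
  refine (hK.congr_of_eventuallyEq e).congr_deriv ?_
  rw [← h t0 ⟨h1, h2⟩, smul_add, smul_smul, smul_smul, inv_mul_cancel₀ hc, one_smul, add_assoc,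
    ← add_smul]
  have : (t0 - c)⁻¹ + -1 / (t0 - c) ^ 2 * (t0 - c) = 0 := by
    field_simp
    ring
  rw [this, zero_smul, add_zero]

theorem Euler_local {F : E × E → ℝ} (hF : Ton0 F) {u : E → ℝ} (hu : Dom F u) {z : ℝ → E}
    {a b t0 : ℝ} (hz : Cal F u z a b) (ha : a < t0) (hb : t0 < b) :
    HasDerivAt z (deriv z t0) t0 ∧ ContinuousAt (deriv z) t0 ∧
      HasDerivAt (mo F z) (xpart (fderiv ℝ F (ph z t0))) t0 := by
  obtain ⟨R, hR⟩ := isCompact_Icc.exists_bound_of_continuousOn hz.1.continuousOn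
  obtain ⟨m, hm⟩ := hF (R + 2)
  obtain ⟨δ, hδ, d1, d2⟩ : ∃ δ : ℝ, 0 < δ ∧ a ≤ t0 - 2 * δ ∧ t0 + 2 * δ ≤ b := by
    refine ⟨min (t0 - a) (b - t0) / 2, half_pos (lt_min (by linarith) (by linarith)), ?_, ?_⟩
    · linarith only [min_le_left (t0 - a) (b - t0)]
    · linarith only [min_le_right (t0 - a) (b - t0)]
  obtain ⟨K, C, -, hC, hreg⟩ := reg_est m δ hδ
  obtain ⟨r1, r2⟩ := hreg R F u hm hu
  obtain ⟨τ, K', C', hτ, hτδ, -, -, hq⟩ := quad_est m δ hδ
  have hsub : Icc (t0 - δ) (t0 + δ) ⊆ Icc a b := Icc_subset_Icc (by linarith) (by linarith)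
  have hcal : ∀ t ∈ Icc (t0 - δ) (t0 + δ), Cal F u z (t - δ) (t + δ) := fun t ht =>
    hz.mono hm.cont hu (by linarith [ht.1]) (by linarith) (by linarith [ht.2])
  have hb' : ∀ t ∈ Icc (t0 - δ) (t0 + δ), ‖z t‖ ≤ R := fun t ht => hR t (hsub ht)
  have hzc : ContinuousOn z (Icc (t0 - δ) (t0 + δ)) := hz.1.continuousOn.mono hsub
  have hdc : ContinuousOn (deriv z) (Icc (t0 - δ) (t0 + δ)) := by
    intro t ht
    rw [ContinuousWithinAt, tendsto_iff_norm_sub_tendsto_zero]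
    have h1 : Tendsto (fun s => C * ‖z s - z t‖) (𝓝[Icc (t0 - δ) (t0 + δ)] t) (𝓝 0) := by
      have := (tendsto_iff_norm_sub_tendsto_zero.1 (hzc t ht)).const_mul C
      rwa [mul_zero] at this
    refine squeeze_zero' (Eventually.of_forall fun s => norm_nonneg _) ?_ h1
    filter_upwards [self_mem_nhdsWithin] with s hs
    exact r2 z z s t (hcal s hs) (hcal t ht) (hb' s hs) (hb' t ht)
  have h0 : t0 ∈ Icc (t0 - δ) (t0 + δ) := ⟨by linarith, by linarith⟩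
  refine ⟨(r1 z t0 (hcal t0 h0) (hb' t0 h0)).1,
    hdc.continuousAt (Icc_mem_nhds (by linarith) (by linarith)), ?_⟩
  have hG : ContinuousOn (fun t => fderiv ℝ F (ph z t)) (Icc (t0 - δ) (t0 + δ)) :=
    (hm.c2.continuous_fderiv (by norm_num)).comp_continuousOn (hzc.prodMk hdc)
  have hsub' : Icc (t0 - τ / 2) (t0 + τ / 2) ⊆ Icc (t0 - δ) (t0 + δ) :=
    Icc_subset_Icc (by linarith) (by linarith)
  have hX : ContinuousOn (fun t => xpart (fderiv ℝ F (ph z t))) (Icc (t0 - τ / 2) (t0 + τ / 2)) :=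
    (hG.mono hsub').clm_comp continuousOn_const
  have hM : ContinuousOn (mo F z) (Icc (t0 - τ / 2) (t0 + τ / 2)) :=
    (hG.mono hsub').clm_comp continuousOn_const
  refine Euler_deriv (X := fun t => xpart (fderiv ℝ F (ph z t))) (c := t0 - τ / 2)
    (d := t0 + τ / 2) (by linarith only [hτ]) (by linarith) hX hM fun t ht => ?_
  generalize hc : t0 - τ / 2 = c at ht hX hM hsub'
  have ht' := hsub' (Ioo_subset_Icc_self ht)
  obtain ⟨-, p, hp1, hp2⟩ := hq R F u z t hm hu (hcal t ht') (hb' t ht')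
  have hp : p = mo F z t := (hasFDerivAt_of_quad one_pos hp1).unique
    (hasFDerivAt_of_quad one_pos (r1 z t (hcal t ht') (hb' t ht')).2.2.2)
  have hs : 0 < t - c := sub_pos.2 ht.1
  have hΨ : ContinuousOn (fun r => (r - c) • xpart (fderiv ℝ F (ph z r)) + mo F z r)
      (uIcc c t) := by
    refine (((continuousOn_id.sub continuousOn_const).smul hX).add hM).mono ?_
    rw [uIcc_of_le ht.1.le]
    exact Icc_subset_Icc_right ht.2.le
  refine ContinuousLinearMap.ext fun h => ?_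
  rw [ContinuousLinearMap.intervalIntegral_apply hΨ.intervalIntegrable, smul_apply, ← hp,
    hp2 (t - c) hs (by linarith only [hc, ht, ht.2]) h, sub_sub_cancel, fv,
    ← intervalIntegral.integral_smul]
  refine intervalIntegral.integral_congr fun r _ => ?_
  simp only [clm_split, smul_zero, zero_add, sub_zero, map_smul, smul_eq_mul, add_apply,
    smul_apply, mo]
  field_simp

theorem cal_orbOn {F : E × E → ℝ} (hF : Ton0 F) {u : E → ℝ} (hu : Dom F u) {z : ℝ → E}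
    {a b a' b' : ℝ} (hz : Cal F u z a b) (ha : a < a') (hb : b' < b) : OrbOn F z a' b' := by
  intro t ht
  exact Euler_local hF hu hz (ha.trans_le ht.1) (ht.2.trans_lt hb)

theorem CalR.isOrbit {F : E × E → ℝ} (hF : Ton0 F) {u : E → ℝ} (hu : Dom F u) {z : ℝ → E}
    (hz : CalR F u z) : IsOrbit F z := by
  have h := fun t : ℝ => Euler_local hF hu (hz (t - 1) (t + 1) (by linarith))
    (show t - 1 < t by linarith) (show t < t + 1 by linarith)
  exact ⟨contDiff_one_iff_deriv.2 ⟨fun t => (h t).1.differentiableAt,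
    continuous_iff_continuousAt.2 fun t => (h t).2.1⟩, fun t => (h t).2.2⟩

theorem CalR.energy {F : E × E → ℝ} (hF : Ton0 F) {u : E → ℝ} (hu : Dom F u) {z : ℝ → E}
    (hz : CalR F u z) (t : ℝ) : energy F (ph z t) = 0 := by
  obtain ⟨m, hm⟩ := hF (‖z t‖ + 2)
  obtain ⟨K, C, -, -, hreg⟩ := reg_est m 1 one_pos
  exact ((hreg _ F u hm hu).1 z t (hz _ _ (by linarith)) le_rfl).2.2.1

theorem CalR.hasFDerivAt {F : E × E → ℝ} (hF : Ton0 F) {u : E → ℝ} (hu : Dom F u) {z : ℝ → E}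
    (hz : CalR F u z) (t : ℝ) : HasFDerivAt u (mo F z t) (z t) := by
  obtain ⟨m, hm⟩ := hF (‖z t‖ + 2)
  obtain ⟨K, C, -, -, hreg⟩ := reg_est m 1 one_pos
  exact hasFDerivAt_of_quad one_pos
    ((hreg _ F u hm hu).1 z t (hz _ _ (by linarith)) le_rfl).2.2.2

theorem IsOrbit.orbOn {F : E × E → ℝ} {z : ℝ → E} (hz : IsOrbit F z) (a b : ℝ) :
    OrbOn F z a b := by
  intro t _
  have h := contDiff_one_iff_deriv.1 hz.1
  exact ⟨(h.1 t).hasDerivAt, h.2.continuousAt, hz.2 t⟩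

theorem IsOrbit.hasDerivAt {F : E × E → ℝ} {z : ℝ → E} (hz : IsOrbit F z) (t : ℝ) :
    HasDerivAt z (deriv z t) t := by
  exact ((contDiff_one_iff_deriv.1 hz.1).1 t).hasDerivAt

theorem IsOrbit.continuous_ph {F : E × E → ℝ} {z : ℝ → E} (hz : IsOrbit F z) :
    Continuous (ph z) := by
  exact hz.1.continuous.prodMk (contDiff_one_iff_deriv.1 hz.1).2

end Pool.Agent.Work.MP_1ce82a_an
end

-- merged part: Pool.Agent.Work.MP_1ce82a_an.A.Gron
section
/-! Gronwall, uniqueness and jumps for calibrated paths.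
PLAN. gron_lip: norm_le_gronwallBound_of_norm_deriv_right_le for z2 - z1, forwards and (after reflecting time)
backwards. gron_cal from reg_est. uniq_cal: apply gron on [a+e,b-e] with margin e and pass to the end points by
continuity. A constant path has action F(x,0)(b-a). If the derivative vanishes at a time, the energy identity gives
F(x,0) = 0. jump: lipschitzOn_of_deriv_le and mod_le, fv_orb with cal_orbOn (Ton0 is not available: use that
cal_orbOn only needs a class on a ball containing the path on [a-1/2,b+1/2]; alternatively avoid the Euler equation: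
by fv_lin, mod_le, domination and the quadratic estimates at both ends, clm_eq_of_quad gives P1 = mo b and P0 = - mo a),
and the lower quadratic estimate for u at z b, the upper one at z a. -/

open Set Filter Topology MeasureTheory
open scoped ContDiff

namespace Pool.Agent.Work.MP_1ce82a_an

variable {Γ : Grp}

theorem Gron_fwd {f f' : ℝ → E} {s t C : ℝ} (hst : s ≤ t)
    (h : ∀ r ∈ Icc s t, HasDerivAt f (f' r) r) (hl : ∀ r ∈ Icc s t, ‖f' r‖ ≤ C * ‖f r‖) :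
    ‖f t‖ ≤ Real.exp (C * (t - s)) * ‖f s‖ := by
  have key := norm_le_gronwallBound_of_norm_deriv_right_le (f := f) (f' := f') (δ := ‖f s‖)
    (K := C) (ε := 0) (a := s) (b := t)
    (fun r hr => (h r hr).continuousAt.continuousWithinAt)
    (fun r hr => (h r (Ico_subset_Icc_self hr)).hasDerivWithinAt) le_rfl
    (fun r hr => by rw [add_zero]; exact hl r (Ico_subset_Icc_self hr)) t ⟨hst, le_rfl⟩
  rwa [gronwallBound_ε0, mul_comm] at key

theorem Gron_bwd {f f' : ℝ → E} {s t C : ℝ} (hst : t ≤ s)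
    (h : ∀ r ∈ Icc t s, HasDerivAt f (f' r) r) (hl : ∀ r ∈ Icc t s, ‖f' r‖ ≤ C * ‖f r‖) :
    ‖f t‖ ≤ Real.exp (C * (s - t)) * ‖f s‖ := by
  have hm : ∀ r ∈ Icc (-s) (-t), -r ∈ Icc t s := fun r hr =>
    ⟨by linarith [hr.2], by linarith [hr.1]⟩
  have key := Gron_fwd (f := fun r => f (-r)) (f' := fun r => (-1 : ℝ) • f' (-r)) (C := C)
    (neg_le_neg hst) (fun r hr => (h (-r) (hm r hr)).scomp r (hasDerivAt_neg r))
    (fun r hr => by
      rw [neg_one_smul, norm_neg]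
      exact hl (-r) (hm r hr))
  have e : -t - -s = s - t := by ring
  simpa only [neg_neg, e] using key

theorem gron_lip {z1 z2 : ℝ → E} {a b C : ℝ} (hC : 0 ≤ C)
    (h1 : ∀ t ∈ Icc a b, HasDerivAt z1 (deriv z1 t) t)
    (h2 : ∀ t ∈ Icc a b, HasDerivAt z2 (deriv z2 t) t)
    (hl : ∀ t ∈ Icc a b, ‖deriv z1 t - deriv z2 t‖ ≤ C * ‖z1 t - z2 t‖) :
    ∀ s ∈ Icc a b, ∀ t ∈ Icc a b,
      ‖z1 t - z2 t‖ ≤ Real.exp (C * |t - s|) * ‖z1 s - z2 s‖ := by
  intro s hs t ht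
  rcases le_total s t with hst | hst
  · have hsub : Icc s t ⊆ Icc a b := Icc_subset_Icc hs.1 ht.2
    rw [abs_of_nonneg (sub_nonneg.2 hst)]
    exact Gron_fwd (f := fun r => z1 r - z2 r) (f' := fun r => deriv z1 r - deriv z2 r) hst
      (fun r hr => (h1 r (hsub hr)).sub (h2 r (hsub hr))) fun r hr => hl r (hsub hr)
  · have hsub : Icc t s ⊆ Icc a b := Icc_subset_Icc ht.1 hs.2
    rw [abs_of_nonpos (sub_nonpos.2 hst), neg_sub]
    exact Gron_bwd (f := fun r => z1 r - z2 r) (f' := fun r => deriv z1 r - deriv z2 r) hst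
      (fun r hr => (h1 r (hsub hr)).sub (h2 r (hsub hr))) fun r hr => hl r (hsub hr)

theorem gron_cal (m : Md) (τ : ℝ) (hτ : 0 < τ) : ∃ C : ℝ, 0 ≤ C ∧
    ∀ (R : ℝ) (F : E × E → ℝ) (u : E → ℝ), Cls m (R + 2) F → Dom F u →
      ∀ (z1 z2 : ℝ → E) (a b : ℝ), Cal F u z1 (a - τ) (b + τ) → Cal F u z2 (a - τ) (b + τ) →
        (∀ t ∈ Icc a b, ‖z1 t‖ ≤ R ∧ ‖z2 t‖ ≤ R) → ∀ s ∈ Icc a b, ∀ t ∈ Icc a b,
          ‖z1 t - z2 t‖ ≤ Real.exp (C * |t - s|) * ‖z1 s - z2 s‖ := by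
  obtain ⟨K, C, -, hC, h⟩ := reg_est m τ hτ
  refine ⟨C, hC, fun R F u hF hu z1 z2 a b c1 c2 hb => ?_⟩
  obtain ⟨r1, r2⟩ := h R F u hF hu
  have loc : ∀ {z : ℝ → E}, Cal F u z (a - τ) (b + τ) → ∀ t ∈ Icc a b,
      Cal F u z (t - τ) (t + τ) := fun c t ht =>
    c.mono hF.cont hu (by linarith [ht.1]) (by linarith) (by linarith [ht.2])
  exact gron_lip hC (fun t ht => (r1 z1 t (loc c1 t ht) (hb t ht).1).1)
    (fun t ht => (r1 z2 t (loc c2 t ht) (hb t ht).2).1)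
    fun t ht => r2 z1 z2 t t (loc c1 t ht) (loc c2 t ht) (hb t ht).1 (hb t ht).2

theorem uniq_cal {F : E × E → ℝ} (hF : Ton0 F) {u : E → ℝ} (hu : Dom F u) {z1 z2 : ℝ → E}
    {a b s : ℝ} (h1 : Cal F u z1 a b) (h2 : Cal F u z2 a b) (hs : s ∈ Ioo a b)
    (he : z1 s = z2 s) : ∀ t ∈ Icc a b, z1 t = z2 t := by
  obtain ⟨R1, hR1⟩ := isCompact_Icc.exists_bound_of_continuousOn h1.1.continuousOn
  obtain ⟨R2, hR2⟩ := isCompact_Icc.exists_bound_of_continuousOn h2.1.continuousOn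
  obtain ⟨m, hm⟩ := hF (max R1 R2 + 2)
  have hab : a < b := hs.1.trans hs.2
  have key : EqOn z1 z2 (Ioo a b) := fun t ht => by
    set e := min (min (s - a) (b - s)) (min (t - a) (b - t)) with he'
    have e0 : 0 < e := lt_min (lt_min (sub_pos.2 hs.1) (sub_pos.2 hs.2))
      (lt_min (sub_pos.2 ht.1) (sub_pos.2 ht.2))
    have e1 : e ≤ s - a := (min_le_left _ _).trans (min_le_left _ _)
    have e2 : e ≤ b - s := (min_le_left _ _).trans (min_le_right _ _)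
    have e3 : e ≤ t - a := (min_le_right _ _).trans (min_le_left _ _)
    have e4 : e ≤ b - t := (min_le_right _ _).trans (min_le_right _ _)
    obtain ⟨C, -, hg⟩ := gron_cal m e e0
    have ea : a + e - e = a := by ring
    have eb : b - e + e = b := by ring
    have := hg (max R1 R2) F u hm hu z1 z2 (a + e) (b - e) (by rw [ea, eb]; exact h1)
      (by rw [ea, eb]; exact h2)
      (fun r hr => by
        have hr' : r ∈ Icc a b := ⟨by linarith [hr.1], by linarith [hr.2]⟩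
        exact ⟨(hR1 r hr').trans (le_max_left _ _), (hR2 r hr').trans (le_max_right _ _)⟩)
      s ⟨by linarith, by linarith⟩ t ⟨by linarith, by linarith⟩
    rw [he, sub_self, norm_zero, mul_zero] at this
    exact sub_eq_zero.1 (norm_le_zero_iff.1 this)
  exact key.of_subset_closure h1.1.continuousOn h2.1.continuousOn Ioo_subset_Icc_self
    (by rw [closure_Ioo hab.ne])

theorem CalR.uniq {F : E × E → ℝ} (hF : Ton0 F) {u : E → ℝ} (hu : Dom F u) {z1 z2 : ℝ → E}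
    (h1 : CalR F u z1) (h2 : CalR F u z2) {s1 s2 : ℝ} (he : z1 s1 = z2 s2) (t : ℝ) :
    z1 (s1 + t) = z2 (s2 + t) := by
  have h0 : 0 ≤ |t| := abs_nonneg t
  have hab : -(|t| + 1) ≤ |t| + 1 := by linarith only [h0]
  have key := uniq_cal hF hu (h1.shift s1 _ _ hab) (h2.shift s2 _ _ hab) (s := 0)
    ⟨by linarith, by linarith⟩ (by simpa only [zero_add] using he) t
    ⟨by linarith [neg_abs_le t], by linarith [le_abs_self t]⟩
  simpa only [add_comm t] using key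

theorem calR_const {F : E × E → ℝ} (u : E → ℝ) {x : E} (hx : F (x, 0) = 0) :
    CalR F u (fun _ => x) := by
  intro a b hab
  refine ⟨isPath_of_contDiff contDiff_const hab, ?_⟩
  simp only [dfc, act, ph_const, hx, intervalIntegral.integral_zero, sub_self]

theorem CalR.const_of_deriv {F : E × E → ℝ} (hF : Ton0 F) {u : E → ℝ} (hu : Dom F u) {z : ℝ → E}
    (hz : CalR F u z) {s : ℝ} (h0 : deriv z s = 0) : F (z s, 0) = 0 ∧ ∀ t, z t = z s := by
  have h1 := hz.energy hF hu s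
  have h2 : F (z s, 0) = 0 := by
    have e : ((0 : E), (0 : E)) = (0 : E × E) := rfl
    simp only [MP_1ce82a_an.energy, ph, h0, e, map_zero, zero_sub, neg_eq_zero] at h1
    exact h1
  refine ⟨h2, fun t => ?_⟩
  have key := CalR.uniq hF hu hz (calR_const u h2) (s1 := s) (s2 := s) rfl (t - s)
  rwa [add_sub_cancel] at key

theorem jump (m : Md) (t0 T0 : ℝ) (ht0 : 0 < t0) : ∃ C : ℝ, 0 ≤ C ∧
    ∀ (R : ℝ) (F : E × E → ℝ) (u : E → ℝ), Cls m (R + 2) F → Dom F u →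
      ∀ (z : ℝ → E) (a b : ℝ), Cal F u z (a - 1) (b + 1) → t0 ≤ b - a → b - a ≤ T0 →
        (∀ t ∈ Icc a b, ‖z t‖ ≤ R) → ∀ h0 h1 : E, ‖h0‖ ≤ 1 → ‖h1‖ ≤ 1 →
          dfc F u (aff z a b h0 h1) a b ≤ C * (‖h0‖ ^ 2 + ‖h1‖ ^ 2) := by
  obtain ⟨K, C2, -, hC2, hr⟩ := reg_est m 1 one_pos
  obtain ⟨C1, hC1, hm⟩ := mod_le m K t0 T0 ht0
  refine ⟨C1 + C2, add_nonneg hC1 hC2, fun R F u hF hu z a b hz ht hT hb => ?_⟩
  obtain ⟨r1, -⟩ := hr R F u hF hu
  have hab : a < b := by linarith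
  have loc : ∀ t ∈ Icc a b, Cal F u z (t - 1) (t + 1) := fun t ht =>
    hz.mono hF.cont hu (by linarith [ht.1]) (by linarith) (by linarith [ht.2])
  have hc : Cal F u z a b := hz.mono hF.cont hu (by linarith) hab.le (by linarith)
  have hlip : LipschitzOnWith K.toNNReal z (Icc a b) := lipschitzOn_of_deriv_le fun t ht =>
    ⟨(r1 z t (loc t ht) (hb t ht)).1, (r1 z t (loc t ht) (hb t ht)).2.1⟩
  have hmod := hm R F z a b (hF.mono (by linarith)) ht hT hlip hb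
  obtain ⟨P0, P1, hP⟩ := fv_lin hF.c2 hc.1
  have ma : a ∈ Icc a b := ⟨le_rfl, hab.le⟩
  have mb : b ∈ Icc a b := ⟨hab.le, le_rfl⟩
  have q : ∀ t ∈ Icc a b, ∀ h : E, ‖h‖ ≤ 1 →
      |u (z t + h) - u (z t) - mo F z t h| ≤ C2 * ‖h‖ ^ 2 := fun t ht h hh => by
    have := (r1 z t (loc t ht) (hb t ht)).2.2.2 (z t + h) (by rwa [add_sub_cancel_left])
    rwa [add_sub_cancel_left] at this
  have hact : act F z a b = u (z b) - u (z a) := sub_eq_zero.1 hc.2
  have hdom : ∀ h0 h1 : E, u (z b + h1) - u (z a + h0) ≤ act F (aff z a b h0 h1) a b :=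
    fun h0 h1 => by
      have := hu _ a b (hc.1.aff h0 h1)
      rwa [aff_left z hab, aff_right z hab] at this
  have n0 : ‖(0 : E)‖ ≤ 1 := by rw [norm_zero]; exact zero_le_one
  have e1 : mo F z b = P1 := clm_eq_of_quad (C := C1 + C2) one_pos fun y hy => by
    have a1 := hmod 0 y n0 hy
    have a2 := hdom 0 y
    have a3 := (abs_le.1 (q b mb y hy)).1
    rw [hP, map_zero, norm_zero] at a1
    rw [add_zero] at a2
    linarith only [hact, a1, a2, a3]
  have e0 : -mo F z a = P0 := clm_eq_of_quad (C := C1 + C2) one_pos fun y hy => by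
    have a1 := hmod y 0 hy n0
    have a2 := hdom y 0
    have a3 := (abs_le.1 (q a ma y hy)).2
    rw [hP, map_zero, norm_zero] at a1
    rw [add_zero] at a2
    rw [neg_apply]
    linarith only [hact, a1, a2, a3]
  intro h0 h1 hh0 hh1
  have a1 := hmod h0 h1 hh0 hh1
  have a2 := (abs_le.1 (q a ma h0 hh0)).2
  have a3 := (abs_le.1 (q b mb h1 hh1)).1
  rw [hP, ← e0, ← e1, neg_apply] at a1
  rw [dfc, aff_left z hab, aff_right z hab]
  linarith only [hact, a1, a2, a3]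

end Pool.Agent.Work.MP_1ce82a_an
end

-- merged part: Pool.Agent.Work.MP_1ce82a_an.B.Mane
section
/-! The Mane potential and bounded closing.
PLAN. u x = sSup of {c(g) - act F z 0 T : IsPath z 0 T, z 0 = x, z T = g q}. The set is nonempty (segment) and bounded
above: join a fixed path from q to x (time 1) with z (exists_join with rho = 1) to get a loop based at q and use the first half of
Crit. Domination u(y b) - u(y a) <= act: prepend y to an almost optimal path from y b. Equivariance: translate paths.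
Almost optimal paths: u(g q) = u q + c g and u q >= 0 (T = 0, empty path), so dfc <= act - c g - u q + u x <= eps.
close_bdd: translate x and y into the ball of radius R0, use Cls.seg with time 2 R0 + 1 and Dom.lip, translate back. -/

open Set Filter Topology MeasureTheory
open scoped ContDiff

namespace Pool.Agent.Work.MP_1ce82a_an

variable {Γ : Grp}

/-- The values whose supremum is the potential. -/
def Mane_S (F : E × E → ℝ) (c : H1 Γ) (q x : E) : Set ℝ :=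
  {r | ∃ (z : ℝ → E) (T : ℝ) (γ : Γ), IsPath z 0 T ∧ z 0 = x ∧ z T = γ • q ∧
    r = c.1 γ - act F z 0 T}

theorem Mane_seg (x y : E) : ∃ l : ℝ → E, IsPath l 0 1 ∧ l 0 = x ∧ l 1 = y :=
  ⟨fun t => x + t • (y - x), isPath_line x (y - x) zero_le_one, by simp, by simp⟩

theorem Mane_ne (F : E × E → ℝ) (c : H1 Γ) (q x : E) : (Mane_S F c q x).Nonempty := by
  obtain ⟨l, h1, h2, h3⟩ := Mane_seg x q
  exact ⟨_, l, 1, 1, h1, h2, by rw [h3, one_smul], rfl⟩

theorem Mane_pre (hS : Surf Γ) {F : E × E → ℝ} (hF : Tonelli Γ F) {c : H1 Γ} {q : E} {y : ℝ → E}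
    {a b r : ℝ} (hy : IsPath y a b) (hr : r ∈ Mane_S F c q (y b)) :
    ∃ (w : ℝ → E) (T : ℝ) (γ : Γ), b - a ≤ T ∧ IsPath w 0 T ∧ w 0 = y a ∧ w T = γ • q ∧
      r - act F y a b = c.1 γ - act F w 0 T := by
  obtain ⟨z, T, γ, h1, h2, h3, rfl⟩ := hr
  obtain ⟨w, w1, w2, w3, w4, -⟩ := exists_join hS hy h1 1 (by rw [h2, one_smul])
  refine ⟨w, _, γ, by linarith [h1.1], w1, w2, by rw [w3, h3, one_smul], ?_⟩
  rw [w4 F hF.cont hF.invL]
  ring

theorem Mane_bdd (hS : Surf Γ) {F : E × E → ℝ} (hF : Tonelli Γ F) {c : H1 Γ} (hc : Crit F c)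
    (q x : E) : BddAbove (Mane_S F c q x) := by
  obtain ⟨l, h1, h2, rfl⟩ := Mane_seg q x
  refine ⟨act F l 0 1, fun r hr => ?_⟩
  obtain ⟨w, T, γ, w0, w1, w2, w3, w4⟩ := Mane_pre hS hF h1 hr
  have := hc.1 w T γ ⟨by linarith, w1, by rw [w3, w2, h2]⟩
  linarith

theorem Mane_smul (hS : Surf Γ) {F : E × E → ℝ} (hF : Tonelli Γ F) {c : H1 Γ} (hc : Crit F c)
    (q : E) (γ : Γ) (x : E) :
    sSup (Mane_S F c q x) + c.1 γ ≤ sSup (Mane_S F c q (γ • x)) := by
  refine le_sub_iff_add_le.1 (csSup_le (Mane_ne F c q x) ?_)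
  rintro _ ⟨z, T, g, h1, h2, h3, rfl⟩
  refine le_sub_iff_add_le.2 (le_csSup (Mane_bdd hS hF hc q _)
    ⟨fun t => γ • z t, T, γ * g, h1.smul hS γ, by rw [← h2], by rw [mul_smul, ← h3], ?_⟩)
  rw [act_smul hS hF.invL, H1.map_mul]
  ring

theorem mane_pot (hS : Surf Γ) {F : E × E → ℝ} (hF : Tonelli Γ F) {c : H1 Γ} (hc : Crit F c)
    (q : E) : ∃ u, InS F c u ∧ ∀ (x : E) (ε : ℝ), 0 < ε → ∃ (z : ℝ → E) (T : ℝ) (γ : Γ),
      IsPath z 0 T ∧ z 0 = x ∧ z T = γ • q ∧ dfc F u z 0 T ≤ ε := by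
  have eqv : Eqv c fun x => sSup (Mane_S F c q x) := fun γ x => by
    have h1 := Mane_smul hS hF hc q γ x
    have h2 := Mane_smul hS hF hc q γ⁻¹ (γ • x)
    rw [inv_smul_smul, H1.map_inv] at h2
    show sSup (Mane_S F c q (γ • x)) = sSup (Mane_S F c q x) + c.1 γ
    linarith only [h1, h2]
  refine ⟨fun x => sSup (Mane_S F c q x), ⟨eqv, fun y a b hy => ?_⟩, fun x ε hε => ?_⟩
  · refine sub_le_iff_le_add.2 (csSup_le (Mane_ne F c q _) fun r hr => ?_)
    obtain ⟨w, T, γ, -, w1, w2, w3, w4⟩ := Mane_pre hS hF hy hr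
    have := le_csSup (Mane_bdd hS hF hc q (y a)) ⟨w, T, γ, w1, w2, w3, w4⟩
    linarith
  · obtain ⟨_, ⟨z, T, γ, h1, h2, h3, rfl⟩, h4⟩ :=
      exists_lt_of_lt_csSup (Mane_ne F c q x) (sub_lt_self _ hε)
    have h5 : (0 : ℝ) ≤ sSup (Mane_S F c q q) := le_csSup (Mane_bdd hS hF hc q q)
      ⟨fun _ => q, 0, 1, isPath_of_contDiff contDiff_const le_rfl, rfl, (one_smul _ _).symm, by
        rw [H1.map_one, act, intervalIntegral.integral_same, sub_zero]⟩
    have h6 : sSup (Mane_S F c q (γ • q)) = sSup (Mane_S F c q q) + c.1 γ := eqv γ q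
    refine ⟨z, T, γ, h1, h2, h3, ?_⟩
    show act F z 0 T - (sSup (Mane_S F c q (z T)) - sSup (Mane_S F c q (z 0))) ≤ ε
    rw [h2, h3, h6]
    linarith

theorem exists_inS (hS : Surf Γ) {F : E × E → ℝ} (hF : Tonelli Γ F) {c : H1 Γ} (hc : Crit F c) :
    ∃ u, InS F c u :=
  (mane_pot hS hF hc 0).imp fun _ h => h.1

theorem close_bdd (hS : Surf Γ) {F : E × E → ℝ} (hF : Tonelli Γ F) (c : H1 Γ) :
    ∃ T0 C0 : ℝ, 0 < T0 ∧ 0 ≤ C0 ∧ ∀ u, InS F c u → ∀ x y : E, ∃ (z : ℝ → E) (γ : Γ),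
      IsPath z 0 T0 ∧ z 0 = x ∧ z T0 = γ • y ∧ dfc F u z 0 T0 ≤ C0 := by
  obtain ⟨R, hR, h0⟩ := hS.exists_R0
  obtain ⟨m, hm⟩ := hF.ton0 R
  have hL := m.La_nonneg 1
  refine ⟨2 * R + 1, m.La 1 * (2 * R + 1) + m.La 1 * (2 * R), by positivity, by positivity,
    fun u hu x y => ?_⟩
  obtain ⟨α, hα⟩ := h0 x
  obtain ⟨β, hβ⟩ := h0 y
  have hd : ‖β • y - α • x‖ ≤ 2 * R := (norm_sub_le _ _).trans (by linarith)
  obtain ⟨z, z1, z2, z3, z4⟩ := hm.seg hα hβ (a := 0) (b := 2 * R + 1) (by linarith)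
  refine ⟨fun t => α⁻¹ • z t, α⁻¹ * β, z1.smul hS _, by simp only [z2, inv_smul_smul],
    by simp only [z3, mul_smul], ?_⟩
  rw [dfc_smul hS hF.invL hu.1, dfc, z2, z3]
  have h1 := (abs_le.1 (Dom.lip hm hu.2 hβ hα)).1
  have h2 := mul_le_mul_of_nonneg_left hd hL
  have h3 := (abs_le.1 z4).2
  rw [sub_zero] at h3
  linarith

theorem dfc_sub_const (F : E × E → ℝ) (u : E → ℝ) (k : ℝ) (z : ℝ → E) (a b : ℝ) :
    dfc F (fun x => u x - k) z a b = dfc F u z a b := by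
  unfold dfc
  ring

theorem inS_of_isSub {F : E × E → ℝ} (hF : Continuous F) {c : H1 Γ} {u : E → ℝ}
    (h : IsSub F c 0 u) : InS F c u :=
  ⟨h.2.1, dom_of_contDiff hF h.1 fun x v => by simpa using h.2.2 x v⟩

theorem nb_smul {x : ℝ → E} {P δ : ℝ} (γ : Γ) {y : E} : γ • y ∈ Nb Γ x P δ ↔ y ∈ Nb Γ x P δ :=
  ⟨fun ⟨ρ, s, h1, h2⟩ => ⟨ρ * γ, s, h1, by rwa [mul_smul]⟩,
    fun ⟨ρ, s, h1, h2⟩ => ⟨ρ * γ⁻¹, s, h1, by rwa [mul_smul, inv_smul_smul]⟩⟩

theorem isOpen_nb (hS : Surf Γ) (x : ℝ → E) (P δ : ℝ) : IsOpen (Nb Γ x P δ) :=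
  isOpen_iff_mem_nhds.2 fun _ ⟨ρ, s, h1, h2⟩ => mem_of_superset
    ((isOpen_lt ((hS.cont ρ).sub continuous_const).norm continuous_const).mem_nhds h2)
    fun _ h => ⟨ρ, s, h1, h⟩

theorem nb_mono {x : ℝ → E} {P δ δ' : ℝ} (h : δ ≤ δ') : Nb Γ x P δ ⊆ Nb Γ x P δ' :=
  fun _ ⟨ρ, s, h1, h2⟩ => ⟨ρ, s, h1, h2.trans_le h⟩

theorem Perd.reduce {x : ℝ → E} {P : ℝ} {σ : Γ} (hx : Perd x P σ) (t : ℝ) :
    ∃ (k : ℤ) (s : ℝ), s ∈ Ico 0 P ∧ t = s + k * P ∧ x t = σ ^ k • x s := by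
  have h1 := toIcoMod_mem_Ico' hx.1 t
  have h2 := toIcoMod_add_toIcoDiv_zsmul hx.1 0 t
  rw [zsmul_eq_mul] at h2
  exact ⟨toIcoDiv hx.1 0 t, toIcoMod hx.1 0 t, h1, h2.symm, by rw [← hx.zpow, h2]⟩

theorem mem_nb_self {x : ℝ → E} {P δ : ℝ} {σ : Γ} (hx : Perd x P σ) (hδ : 0 < δ) (ρ : Γ) (t : ℝ) :
    ρ • x t ∈ Nb Γ x P δ := by
  obtain ⟨k, s, h1, -, h2⟩ := hx.reduce t
  exact nb_smul ρ |>.2 ⟨(σ ^ k)⁻¹, s, Ico_subset_Icc_self h1, by
    rw [h2, inv_smul_smul, sub_self, norm_zero]; exact hδ⟩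

theorem perd_const (x0 : E) : Perd (fun _ : ℝ => x0) 1 (1 : Γ) :=
  ⟨one_pos, fun _ => (one_smul _ _).symm⟩

end Pool.Agent.Work.MP_1ce82a_an
end

-- merged part: Pool.Agent.Work.MP_1ce82a_an.B.Lim
section
/-! Compactness of calibrated curves along ultrafilters.
PLAN. lim_u: by nb_cls and Dom.lip the functions u i - u i 0 are eventually equi-Lipschitz and bounded on each ball; u0 x is the
ultrafilter limit (limUnder); uniform convergence on balls from a finite net; domination passes to the limit because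
act (addPot F h) = act F + pot h and |pot h| <= eps (b-a). lim_z: stay (with nb_cls for R0+1) bounds the curves, nearcal_lip gives the
approximate Lipschitz bound, lsc with A = u0(y b) - u0(y a) (y = ulim), unif_of_near. lim_v: by reg_est the derivatives of z i are
eventually Lipschitz in time with a fixed constant on [a+tau/2,b-tau/2], and so is the derivative of the limit; compare each with a difference quotient
of step h <= tau/2 taken towards the inside (either direction is allowed). -/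

open Set Filter Topology MeasureTheory
open scoped ContDiff

namespace Pool.Agent.Work.MP_1ce82a_an

variable {Γ : Grp}

theorem Lim_tend {ι : Type} (U : Ultrafilter ι) {f : ι → ℝ} {R : ℝ}
    (h : ∀ᶠ i in (U : Filter ι), |f i| ≤ R) :
    Tendsto f (U : Filter ι) (𝓝 (limUnder (U : Filter ι) f)) := by
  have hc : IsCompact (Metric.closedBall (0 : ℝ) R) := isCompact_closedBall _ _
  obtain ⟨x, -, hx⟩ := hc.ultrafilter_le_nhds (U.map f) (by
    rw [Ultrafilter.coe_map, le_principal_iff, mem_map]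
    filter_upwards [h] with i hi
    simpa using hi)
  exact tendsto_nhds_limUnder ⟨x, hx⟩

theorem Lim_bdd {z : ℝ → E} {a b : ℝ} (h : IsPath z a b) :
    ∃ R : ℝ, ∀ t ∈ Icc a b, ‖z t‖ ≤ R :=
  isCompact_Icc.exists_bound_of_continuousOn h.continuousOn

theorem Lim_pot {ι : Type} {l : Filter ι} {F : E × E → ℝ} (hF : Tonelli Γ F)
    {c : H1 Γ} {p : ι → Par Γ} (hp : Tendsto p l (nb F c)) (R a b : ℝ) {ε : ℝ} (hε : 0 < ε) :
    ∀ᶠ i in l, ∀ z : ℝ → E, IsPath z a b → (∀ t ∈ Icc a b, ‖z t‖ ≤ R) →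
      |act (addPot F (p i).1) z a b - act F z a b| ≤ ε := by
  have hq : 0 < |b - a| + 1 := by positivity
  have hδ : 0 < ε / (|b - a| + 1) := div_pos hε hq
  filter_upwards [hp.eventually (nb_adm F c), hp.eventually (nb_small F c R hδ)] with i ha hs z hz hR
  rw [act_addPot hF.cont ha.1.continuous hz, add_sub_cancel_left]
  refine (abs_pot_le hz.1 (fun t ht => (hs _ (hR t ht)).1)).trans ?_
  have h1 : b - a ≤ |b - a| + 1 := (le_abs_self _).trans (by linarith)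
  calc ε / (|b - a| + 1) * (b - a) ≤ ε / (|b - a| + 1) * (|b - a| + 1) :=
        mul_le_mul_of_nonneg_left h1 hδ.le
    _ = ε := div_mul_cancel₀ _ hq.ne'

theorem Lim_unif {ι : Type} {l : Filter ι} [l.NeBot] {f : ι → E → ℝ} {g : E → ℝ} {R L : ℝ}
    (hL : 0 ≤ L)
    (hf : ∀ᶠ i in l, ∀ x y : E, ‖x‖ ≤ R → ‖y‖ ≤ R → |f i x - f i y| ≤ L * ‖x - y‖)
    (hg : ∀ x, Tendsto (fun i => f i x) l (𝓝 (g x))) {ε : ℝ} (hε : 0 < ε) :
    ∀ᶠ i in l, ∀ x : E, ‖x‖ ≤ R → |f i x - g x| ≤ ε := by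
  have hgl : ∀ x y : E, ‖x‖ ≤ R → ‖y‖ ≤ R → |g x - g y| ≤ L * ‖x - y‖ := fun x y hx hy =>
    le_of_tendsto (((hg x).sub (hg y)).abs) (hf.mono fun i hi => hi x y hx hy)
  have hq : 0 < L + 1 := by linarith
  have hδ : 0 < ε / 3 / (L + 1) := by positivity
  obtain ⟨S, hS, hfin, hcov⟩ :=
    finite_cover_balls_of_compact (isCompact_closedBall (0 : E) R) hδ
  have h1 : ∀ᶠ i in l, ∀ y ∈ S, |f i y - g y| ≤ ε / 3 := by
    refine (eventually_all_finite hfin).2 fun y _ => ?_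
    have := (Metric.tendsto_nhds.1 (hg y)) (ε / 3) (by positivity)
    filter_upwards [this] with i hi
    rw [Real.dist_eq] at hi
    exact hi.le
  filter_upwards [h1, hf] with i h1 h2 x hx
  have hx' : x ∈ Metric.closedBall (0 : E) R := by simpa using hx
  obtain ⟨y, hy, hxy⟩ := mem_iUnion₂.1 (hcov hx')
  have hyR : ‖y‖ ≤ R := by simpa using hS hy
  have hd : ‖x - y‖ ≤ ε / 3 / (L + 1) := by
    rw [← dist_eq_norm]; exact (Metric.mem_ball.1 hxy).le
  have h3 : L * ‖x - y‖ ≤ ε / 3 := by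
    calc L * ‖x - y‖ ≤ (L + 1) * (ε / 3 / (L + 1)) :=
          mul_le_mul (by linarith) hd (norm_nonneg _) hq.le
      _ = ε / 3 := mul_div_cancel₀ _ hq.ne'
  have a1 := abs_le.1 ((h2 x y hx hyR).trans h3)
  have a2 := abs_le.1 ((hgl x y hx hyR).trans h3)
  have a3 := abs_le.1 (h1 y hy)
  exact abs_le.2 ⟨by linarith only [a1, a2, a3, a1.1, a2.2, a3.1], by linarith only [a1, a2, a3, a1.2, a2.1, a3.2]⟩



theorem lim_u {ι : Type} (U : Ultrafilter ι) {F : E × E → ℝ} (hF : Tonelli Γ F)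
    {c : H1 Γ} {p : ι → Par Γ} (hp : Tendsto p (U : Filter ι) (nb F c)) {u : ι → E → ℝ}
    (hu : ∀ᶠ i in (U : Filter ι), InS (addPot F (p i).1) (p i).2 (u i)) :
    ∃ u0, InS F c u0 ∧ ∀ R ε : ℝ, 0 < ε → ∀ᶠ i in (U : Filter ι),
      ∀ x : E, ‖x‖ ≤ R → |u i x - u i 0 - u0 x| ≤ ε := by
  have hA : ∀ R : ℝ, ∃ L : ℝ, 0 ≤ L ∧ ∀ᶠ i in (U : Filter ι), ∀ x y : E, ‖x‖ ≤ R → ‖y‖ ≤ R →
      |(u i x - u i 0) - (u i y - u i 0)| ≤ L * ‖x - y‖ := by
    intro R
    obtain ⟨m, -, hm⟩ := nb_cls hF c R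
    refine ⟨m.La 1, m.La_nonneg 1, ?_⟩
    filter_upwards [hp.eventually hm, hu] with i hi hui x y hx hy
    rw [sub_sub_sub_cancel_right]
    exact Dom.lip hi hui.2 hx hy
  have hB : ∀ x : E, Tendsto (fun i => u i x - u i 0) (U : Filter ι)
      (𝓝 (limUnder (U : Filter ι) (fun i => u i x - u i 0))) := by
    intro x
    obtain ⟨L, -, hL⟩ := hA ‖x‖
    refine Lim_tend U (R := L * ‖x - 0‖) ?_
    filter_upwards [hL] with i hi
    have := hi x 0 le_rfl (by simp)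
    rwa [sub_self, sub_zero] at this
  refine ⟨fun x => limUnder (U : Filter ι) (fun i => u i x - u i 0), ⟨fun γ x => ?_, ?_⟩, ?_⟩
  · have h1 := (hB x).add ((tendsto_nb_iff.1 hp).2.2 γ)
    refine tendsto_nhds_unique (hB (γ • x)) (h1.congr' ?_)
    filter_upwards [hu] with i hi
    rw [hi.1 γ x]; ring
  · intro z a b hz
    obtain ⟨R, hR⟩ := Lim_bdd hz
    refine le_of_forall_pos_le_add fun ε hε => ?_
    refine le_of_tendsto ((hB (z b)).sub (hB (z a))) ?_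
    filter_upwards [hu, Lim_pot hF hp R a b hε] with i hi h2
    have h3 := hi.2 z a b hz
    have h4 := (abs_le.1 (h2 z hz hR)).2
    linarith
  · intro R ε hε
    obtain ⟨L, hL0, hL⟩ := hA R
    exact Lim_unif (f := fun i x => u i x - u i 0) hL0 hL hB hε

theorem lim_z {ι : Type} (U : Ultrafilter ι) (hS : Surf Γ) {F : E × E → ℝ} (hF : Tonelli Γ F)
    {c : H1 Γ} {p : ι → Par Γ} (hp : Tendsto p (U : Filter ι) (nb F c)) {u : ι → E → ℝ}
    (hu : ∀ᶠ i in (U : Filter ι), InS (addPot F (p i).1) (p i).2 (u i)) {u0 : E → ℝ}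
    (hu0 : InS F c u0) (hl : ∀ R ε : ℝ, 0 < ε → ∀ᶠ i in (U : Filter ι),
      ∀ x : E, ‖x‖ ≤ R → |u i x - u i 0 - u0 x| ≤ ε)
    {z : ι → ℝ → E} {a b t0 R : ℝ} (ht0 : t0 ∈ Icc a b)
    (hz : ∀ ε : ℝ, 0 < ε → ∀ᶠ i in (U : Filter ι),
      IsPath (z i) a b ∧ dfc (addPot F (p i).1) (u i) (z i) a b ≤ ε)
    (hb : ∀ᶠ i in (U : Filter ι), ‖z i t0‖ ≤ R) :
    Cal F u0 (ulim U z) a b ∧
      ∀ ε : ℝ, 0 < ε → ∀ᶠ i in (U : Filter ι), ∀ t ∈ Icc a b, ‖z i t - ulim U z t‖ ≤ ε := by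
  have hab : a ≤ b := ht0.1.trans ht0.2
  obtain ⟨R0, -, hR0⟩ := hS.exists_R0
  obtain ⟨m0, -, hm0⟩ := nb_cls hF c (R0 + 1)
  obtain ⟨R', -, hR'⟩ := stay hS hR0 m0 R (b - a)
  have hin : ∀ᶠ i in (U : Filter ι), ∀ t ∈ Icc a b, ‖z i t‖ ≤ R' := by
    filter_upwards [hp.eventually hm0, hu, hz (1 / 4) (by norm_num), hb,
      hp.eventually (nb_adm F c)] with i h1 h2 h3 h4 h5
    exact hR' _ _ _ h1 (hF.addPot h5.1 h5.2.1).invL h2 _ a b t0 h3.1 le_rfl ht0 h3.2 h4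
  obtain ⟨m, hmF, hm⟩ := nb_cls hF c R'
  have hnear : ∀ ε : ℝ, 0 < ε → ∀ᶠ i in (U : Filter ι),
      ∀ s ∈ Icc a b, ∀ t ∈ Icc a b, ‖z i t - z i s‖ ≤ kap m 0 * |t - s| + ε := by
    intro ε hε
    filter_upwards [hp.eventually hm, hu, hz ε hε, hin] with i h1 h2 h3 h4
    exact nearcal_lip h1 h2.2 h3.1 h3.2 h4
  have hy : ∀ t ∈ Icc a b, Tendsto (fun i => z i t) (U : Filter ι) (𝓝 (ulim U z t)) :=
    fun t ht => tendsto_ulim U (hin.mono fun i hi => hi t ht)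
  have hc0 : Continuous u0 := Dom.continuous hF.ton0 hu0.2
  have ha : a ∈ Icc a b := left_mem_Icc.2 hab
  have hb' : b ∈ Icc a b := right_mem_Icc.2 hab
  have hA : Tendsto (fun i => u0 (z i b) - u0 (z i a)) (U : Filter ι)
      (𝓝 (u0 (ulim U z b) - u0 (ulim U z a))) :=
    ((hc0.tendsto _).comp (hy b hb')).sub ((hc0.tendsto _).comp (hy a ha))
  obtain ⟨hyl, hyp, hyA⟩ := lsc (l := (U : Filter ι)) (z := z) (y := ulim U z)
    (A := u0 (ulim U z b) - u0 (ulim U z a)) hmF (kap_nonneg m le_rfl) hab (by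
      intro ε hε
      have hε5 : 0 < ε / 5 := by positivity
      filter_upwards [hz (ε / 5) hε5, hin, hnear ε hε, Lim_pot hF hp R' a b hε5,
        hl R' (ε / 5) hε5, Metric.tendsto_nhds.1 hA (ε / 5) hε5] with i h1 h2 h3 h4 h5 h6
      refine ⟨h1.1, h2, h3, ?_⟩
      have k1 := (abs_le.1 (h4 _ h1.1 h2)).1
      have k2 := h1.2
      unfold dfc at k2
      have k3 := (abs_le.1 (h5 _ (h2 b hb'))).2
      have k4 := (abs_le.1 (h5 _ (h2 a ha))).1
      rw [Real.dist_eq] at h6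
      have k5 := (abs_lt.1 h6).2
      linarith only [k1, k2, k3, k4, k5]) hy
  refine ⟨⟨hyp, le_antisymm ?_ (hu0.2.dfc_nonneg hyp)⟩, unif_of_near hnear hyl hy⟩
  unfold dfc
  linarith

theorem Lim_quot {w : ℝ → E} {t h K C : ℝ} (hh : 0 ≤ h) (hC : 0 ≤ C)
    (hd : ∀ s ∈ Icc t (t + h), HasDerivAt w (deriv w s) s ∧ ‖deriv w s‖ ≤ K)
    (hl : ∀ s ∈ Icc t (t + h), ‖deriv w s - deriv w t‖ ≤ C * ‖w s - w t‖) :
    ‖w (t + h) - w t - h • deriv w t‖ ≤ C * K * h * h := by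
  have ht : t ∈ Icc t (t + h) := left_mem_Icc.2 (by linarith)
  have hK : 0 ≤ K := (norm_nonneg _).trans (hd t ht).2
  have h1 : ∀ s ∈ Icc t (t + h), ‖w s - w t‖ ≤ K * h := by
    intro s hs
    have := (convex_Icc t (t + h)).norm_image_sub_le_of_norm_hasDerivWithin_le
      (fun r hr => (hd r hr).1.hasDerivWithinAt) (fun r hr => (hd r hr).2) ht hs
    refine this.trans (mul_le_mul_of_nonneg_left ?_ hK)
    rw [Real.norm_eq_abs, abs_of_nonneg (by linarith [hs.1])]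
    linarith [hs.2]
  have h2 : ∀ s ∈ Icc t (t + h), HasDerivWithinAt (fun r => w r - r • deriv w t)
      (deriv w s - deriv w t) (Icc t (t + h)) s := by
    intro s hs
    have := (hd s hs).1.sub ((hasDerivAt_id s).smul_const (deriv w t))
    rw [one_smul] at this
    exact this.hasDerivWithinAt
  have h3 := (convex_Icc t (t + h)).norm_image_sub_le_of_norm_hasDerivWithin_le (C := C * K * h) h2
    (fun r hr => (hl r hr).trans (by
      rw [mul_assoc]; exact mul_le_mul_of_nonneg_left (h1 r hr) hC)) ht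
    (right_mem_Icc.2 (by linarith))
  rw [add_sub_cancel_left, Real.norm_eq_abs, abs_of_nonneg hh] at h3
  have e : w (t + h) - w t - h • deriv w t =
      w (t + h) - (t + h) • deriv w t - (w t - t • deriv w t) := by
    rw [add_smul]; abel
  rw [e]; exact h3

theorem Lim_est (m : Md) {τ : ℝ} (hτ : 0 < τ) : ∃ D : ℝ, 0 ≤ D ∧
    ∀ (R : ℝ) (G : E × E → ℝ) (v : E → ℝ) (w : ℝ → E) (a b : ℝ), Cls m (R + 2) G → Dom G v →
      Cal G v w a b → (∀ t ∈ Icc a b, ‖w t‖ ≤ R) → ∀ t ∈ Icc (a + τ) (b - τ), ∀ h : ℝ, 0 ≤ h →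
        h ≤ τ / 2 → ‖w (t + h) - w t - h • deriv w t‖ ≤ D * h * h := by
  obtain ⟨K, C, hK, hC, H⟩ := reg_est m (τ / 2) (by positivity)
  refine ⟨C * K, by positivity, fun R G v w a b hG hv hw hR t ht h h0 h1 => ?_⟩
  obtain ⟨H1, H2⟩ := H R G v hG hv
  have hc : ∀ s ∈ Icc t (t + h), Cal G v w (s - τ / 2) (s + τ / 2) ∧ ‖w s‖ ≤ R := by
    intro s hs
    refine ⟨Cal.mono hG.cont hv hw ?_ ?_ ?_, hR s ⟨?_, ?_⟩⟩ <;> linarith only [hτ, hs, ht, h1, hs.1, hs.2, ht.1, ht.2]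
  have ht' : t ∈ Icc t (t + h) := left_mem_Icc.2 (by linarith)
  refine Lim_quot h0 hC (fun s hs => ?_) (fun s hs => ?_)
  · have := H1 w s (hc s hs).1 (hc s hs).2
    exact ⟨this.1, this.2.1⟩
  · exact H2 w w s t (hc s hs).1 (hc t ht').1 (hc s hs).2 (hc t ht').2



theorem lim_v {ι : Type} (U : Ultrafilter ι) {F : E × E → ℝ} (hF : Tonelli Γ F)
    {c : H1 Γ} {p : ι → Par Γ} (hp : Tendsto p (U : Filter ι) (nb F c)) {u : ι → E → ℝ}
    (hu : ∀ᶠ i in (U : Filter ι), InS (addPot F (p i).1) (p i).2 (u i)) {u0 : E → ℝ}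
    (hu0 : Dom F u0) {z : ι → ℝ → E} {y : ℝ → E} {a b τ : ℝ} (hτ : 0 < τ)
    (hz : ∀ᶠ i in (U : Filter ι), Cal (addPot F (p i).1) (u i) (z i) a b)
    (hy : Cal F u0 y a b)
    (hl : ∀ ε : ℝ, 0 < ε → ∀ᶠ i in (U : Filter ι), ∀ t ∈ Icc a b, ‖z i t - y t‖ ≤ ε) :
    ∀ ε : ℝ, 0 < ε → ∀ᶠ i in (U : Filter ι),
      ∀ t ∈ Icc (a + τ) (b - τ), ‖ph (z i) t - ph y t‖ ≤ ε := by
  intro ε hε
  obtain ⟨Ry, hRy⟩ := Lim_bdd hy.1
  obtain ⟨m, hmF, hm⟩ := nb_cls hF c (Ry + 1 + 2)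
  obtain ⟨D, hD, HD⟩ := Lim_est m hτ
  have hq : 0 < D + 1 := by linarith
  obtain ⟨h, h0, h1, h2⟩ : ∃ h : ℝ, 0 < h ∧ h ≤ τ / 2 ∧ D * h ≤ ε / 4 := by
    refine ⟨min (τ / 2) (ε / 4 / (D + 1)), lt_min (by positivity) (by positivity),
      min_le_left _ _, ?_⟩
    calc D * min (τ / 2) (ε / 4 / (D + 1)) ≤ (D + 1) * (ε / 4 / (D + 1)) :=
          mul_le_mul (by linarith) (min_le_right _ _)
            (lt_min (by positivity) (by positivity)).le hq.le
      _ = ε / 4 := mul_div_cancel₀ _ hq.ne'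
  filter_upwards [hp.eventually hm, hu, hz, hl 1 one_pos, hl ε hε, hl (ε / 4 * h) (by positivity)]
    with i k1 k2 k3 k4 k5 k6 t ht
  have hta : t ∈ Icc a b := ⟨by linarith only [h0, h1, ht, ht.1], by linarith only [h0, h1, ht, ht.2]⟩
  have htb : t + h ∈ Icc a b := ⟨by linarith only [h0, h1, ht, ht.1], by linarith only [h0, h1, ht, ht.2]⟩
  have hzR : ∀ s ∈ Icc a b, ‖z i s‖ ≤ Ry + 1 := by
    intro s hs
    have e : z i s = y s + (z i s - y s) := by abel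
    rw [e]
    exact (norm_add_le _ _).trans (add_le_add (hRy s hs) (k4 s hs))
  have q1 := HD _ _ _ _ a b k1 k2.2 k3 hzR t ht h h0.le h1
  have q2 := HD _ _ _ _ a b hmF hu0 hy (fun s hs => (hRy s hs).trans (by linarith only [])) t ht h h0.le h1
  have q3 : ‖h • (deriv (z i) t - deriv y t)‖ ≤ h * ε := by
    have e : h • (deriv (z i) t - deriv y t) =
        (y (t + h) - y t - h • deriv y t) - (z i (t + h) - z i t - h • deriv (z i) t) +
          ((z i (t + h) - y (t + h)) - (z i t - y t)) := by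
      rw [smul_sub]; abel
    rw [e]
    have n1 := norm_add_le ((y (t + h) - y t - h • deriv y t) -
      (z i (t + h) - z i t - h • deriv (z i) t)) ((z i (t + h) - y (t + h)) - (z i t - y t))
    have n2 := norm_sub_le (y (t + h) - y t - h • deriv y t)
      (z i (t + h) - z i t - h • deriv (z i) t)
    have n3 := norm_sub_le (z i (t + h) - y (t + h)) (z i t - y t)
    have n4 := k6 _ hta
    have n5 := k6 _ htb
    have n6 : D * h * h ≤ ε / 4 * h := mul_le_mul_of_nonneg_right h2 h0.le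
    linarith only [q1, q2, n1, n2, n3, n4, n5, n6]
  rw [norm_smul, Real.norm_eq_abs, abs_of_pos h0] at q3
  have q4 := le_of_mul_le_mul_left q3 h0
  rw [Prod.norm_def]
  exact max_le (k5 t hta) q4

theorem lim_R {ι : Type} (U : Ultrafilter ι) (hS : Surf Γ) {F : E × E → ℝ} (hF : Tonelli Γ F)
    {c : H1 Γ} {p : ι → Par Γ} (hp : Tendsto p (U : Filter ι) (nb F c)) {u : ι → E → ℝ}
    {z : ι → ℝ → E} {R : ℝ}
    (hz : ∀ᶠ i in (U : Filter ι), InS (addPot F (p i).1) (p i).2 (u i) ∧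
      CalR (addPot F (p i).1) (u i) (z i) ∧ ‖z i 0‖ ≤ R) :
    ∃ u0, InS F c u0 ∧ CalR F u0 (ulim U z) ∧ ∀ T ε : ℝ, 0 < ε → ∀ᶠ i in (U : Filter ι),
      ∀ t ∈ Icc (-T) T, ‖ph (z i) t - ph (ulim U z) t‖ ≤ ε := by
  have hu : ∀ᶠ i in (U : Filter ι), InS (addPot F (p i).1) (p i).2 (u i) := hz.mono fun i h => h.1
  obtain ⟨u0, hu0, hl⟩ := lim_u U hF hp hu
  have H : ∀ W : ℝ, 0 ≤ W → Cal F u0 (ulim U z) (-W) W ∧
      ∀ ε : ℝ, 0 < ε → ∀ᶠ i in (U : Filter ι), ∀ t ∈ Icc (-W) W, ‖z i t - ulim U z t‖ ≤ ε := by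
    intro W hW
    refine lim_z U hS hF hp hu hu0 hl (t0 := 0) (R := R) ⟨by linarith, hW⟩ (fun ε hε => ?_)
      (hz.mono fun i h => h.2.2)
    filter_upwards [hz] with i hi
    have := hi.2.1 (-W) W (by linarith)
    exact ⟨this.1, this.2.le.trans hε.le⟩
  refine ⟨u0, hu0, fun a b hab => ?_, fun T ε hε => ?_⟩
  · refine Cal.mono hF.cont hu0.2 (H (|a| + |b|) (by positivity)).1 ?_ hab ?_
    · linarith [neg_abs_le a, abs_nonneg b]
    · linarith [le_abs_self b, abs_nonneg a]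
  · have hW : 0 ≤ |T| + 1 := by positivity
    have := lim_v U hF hp hu hu0.2 one_pos
      (hz.mono fun i h => h.2.1 (-(|T| + 1)) (|T| + 1) (by linarith)) (H _ hW).1 (H _ hW).2 ε hε
    filter_upwards [this] with i hi t ht
    exact hi t ⟨by linarith [ht.1, le_abs_self T], by linarith [ht.2, le_abs_self T]⟩

theorem lim_fix {ι : Type} (U : Ultrafilter ι) (hS : Surf Γ) {F : E × E → ℝ} (hF : Tonelli Γ F)
    {c : H1 Γ} (hc : Crit F c) {u : E → ℝ} (hu : InS F c u) {z : ι → ℝ → E} {a b t0 R : ℝ}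
    (ht0 : t0 ∈ Icc a b)
    (hz : ∀ ε : ℝ, 0 < ε → ∀ᶠ i in (U : Filter ι), IsPath (z i) a b ∧ dfc F u (z i) a b ≤ ε)
    (hb : ∀ᶠ i in (U : Filter ι), ‖z i t0‖ ≤ R) :
    Cal F u (ulim U z) a b ∧
      ∀ ε : ℝ, 0 < ε → ∀ᶠ i in (U : Filter ι), ∀ t ∈ Icc a b, ‖z i t - ulim U z t‖ ≤ ε := by
  have hu0 : InS F c (fun x => u x - u 0) := by
    refine ⟨fun γ x => ?_, fun w s t hw => ?_⟩
    · show u (γ • x) - u 0 = u x - u 0 + c.1 γ
      rw [hu.1 γ x]; ring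
    · have := hu.2 w s t hw
      show u (w t) - u 0 - (u (w s) - u 0) ≤ _
      linarith
  have := lim_z U hS hF (tendsto_nb_const (U : Filter ι) hc) (u := fun _ => u)
    (Eventually.of_forall fun i => by rw [addPot_zero]; exact hu) hu0
    (fun R ε hε => Eventually.of_forall fun i x _ => by rw [sub_self, abs_zero]; exact hε.le)
    ht0 (fun ε hε => by simpa only [addPot_zero] using hz ε hε) hb
  refine ⟨⟨this.1.1, ?_⟩, this.2⟩
  rw [← dfc_sub_const F u (u 0)]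
  exact this.1.2

theorem lim_fixR {ι : Type} (U : Ultrafilter ι) (hS : Surf Γ) {F : E × E → ℝ} (hF : Tonelli Γ F)
    {c : H1 Γ} (hc : Crit F c) {u : E → ℝ} (hu : InS F c u) {z : ι → ℝ → E} {R : ℝ}
    (hz : ∀ W ε : ℝ, 0 < W → 0 < ε →
      ∀ᶠ i in (U : Filter ι), IsPath (z i) (-W) W ∧ dfc F u (z i) (-W) W ≤ ε)
    (hb : ∀ᶠ i in (U : Filter ι), ‖z i 0‖ ≤ R) :
    CalR F u (ulim U z) ∧ Tendsto (fun i => z i 0) (U : Filter ι) (𝓝 (ulim U z 0)) := by
  refine ⟨fun a b hab => ?_, tendsto_ulim U hb⟩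
  have hW : 0 < |a| + |b| + 1 := by positivity
  have := lim_fix U hS hF hc hu (t0 := 0) ⟨by linarith, hW.le⟩ (fun ε hε => hz _ ε hW hε) hb
  refine Cal.mono hF.cont hu.2 this.1 ?_ hab ?_
  · linarith [neg_abs_le a, abs_nonneg b]
  · linarith [le_abs_self b, abs_nonneg a]

end Pool.Agent.Work.MP_1ce82a_an
end

-- merged part: Pool.Agent.Work.MP_1ce82a_an.Q.QGB
section
/-! Formal properties of quadratic growth.
PLAN. add: s(x+y) = (2s x + 2s y)/2 (use that the excess is the same); smul: rescale s (for k = 0 the excess must be nonnegative, which follows from s = 0).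
Slope of a zero excess loop: s X <= C s^2 T for both signs of small s. Nonnegativity: loops with excess <= delta T. qg_sqrt: close the calibrated piece by close_bdd (exists_join), bound the potential on
the closing piece by Surf.bdd_inv, and take s = +- s0 / sqrt T. qg_opt is elementary: s = +- s0 d/(d0 sqrt n) (if d = 0 let s tend to 0). qg_two: exists_join and IsLoop.dfc_eq, dfc expressed by act and u. -/

open Set Filter Topology MeasureTheory
open scoped ContDiff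

namespace Pool.Agent.Work.MP_1ce82a_an

variable {Γ : Grp}

theorem QGB_zero {F : E × E → ℝ} {c : H1 Γ} (hc : Crit F c) : QG F c 0 (fun _ => 0) 0 := by
  refine ⟨0, 1, le_rfl, one_pos, fun z T γ hz s _ => ?_⟩
  have e2 : (0 : H1 Γ).1 γ = 0 := rfl
  have := hc.1 z T γ hz
  rw [e2, pot_const]
  linarith

theorem QGB_lin {X K s0 : ℝ} (hK : 0 ≤ K) (hs0 : 0 < s0)
    (h : ∀ s : ℝ, |s| ≤ s0 → s * X ≤ K * s ^ 2) : X = 0 := by
  refine abs_nonpos_iff.1 (le_of_forall_pos_le_add fun ε hε => ?_)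
  have hC : 0 < K + 1 := by positivity
  have hp : 0 < min s0 (ε / (K + 1)) := by positivity
  have k2 := mul_le_mul_of_nonneg_left (min_le_right s0 (ε / (K + 1))) hK
  have k3 : K * (ε / (K + 1)) ≤ ε := by
    rw [mul_div_assoc', div_le_iff₀ hC]
    linarith only [hε]
  have h1 := h _ ((abs_of_pos hp).trans_le (min_le_left _ _))
  have h2 := h (-min s0 (ε / (K + 1))) (by rw [abs_neg, abs_of_pos hp]; exact min_le_left _ _)
  generalize min s0 (ε / (K + 1)) = σ at *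
  have h3 : |X| ≤ K * σ := abs_le.2 ⟨by (refine le_of_not_gt fun h_nl => ?_; linarith only [h_nl, h2, hp, mul_pos_of_neg_of_neg (Mathlib.Tactic.Linarith.sub_neg_of_lt hp) (Mathlib.Tactic.Linarith.sub_neg_of_lt h_nl)]), by (refine le_of_not_gt fun h_nl => ?_; linarith only [h_nl, h1, hp, mul_pos_of_neg_of_neg (Mathlib.Tactic.Linarith.sub_neg_of_lt hp) (Mathlib.Tactic.Linarith.sub_neg_of_lt h_nl)])⟩
  linarith only [k3, k2, h3]

theorem QGB_opt {C s0 C1 d0 T0 : ℝ} (hC : 0 ≤ C) (hs0 : 0 < s0) (hC1 : 0 ≤ C1) (hd0 : 0 < d0)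
    (hT0 : 0 ≤ T0) : ∃ A : ℝ, 0 ≤ A ∧ ∀ (X D T d n : ℝ), 1 ≤ n → 0 ≤ d → d ≤ d0 →
      D ≤ C1 * d ^ 2 → T ≤ T0 * n → (∀ s : ℝ, |s| ≤ s0 → s * X ≤ D + C * s ^ 2 * T) →
        |X| ≤ A * Real.sqrt n * d := by
  refine ⟨(C1 + C * s0 ^ 2 * T0 / d0 ^ 2) * d0 / s0, by positivity,
    fun X D T d n hn hd hdd hD hT h => ?_⟩
  have h' : ∀ s : ℝ, |s| ≤ s0 → s * X ≤ C1 * d ^ 2 + C * s ^ 2 * (T0 * n) := fun s hs =>
    (h s hs).trans (add_le_add hD (mul_le_mul_of_nonneg_left hT (by positivity)))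
  rcases hd.eq_or_lt with rfl | hd
  · rw [QGB_lin (X := X) (K := C * (T0 * n)) (by positivity) hs0 fun s hs => by
      linarith [h' s hs]]
    simp
  have k3 : 1 ≤ Real.sqrt n := Real.one_le_sqrt.2 hn
  have k4 := Real.sq_sqrt (show 0 ≤ n by linarith)
  generalize Real.sqrt n = r at k3 k4
  subst k4
  have hp : 0 < s0 * d / (d0 * r) := by positivity
  have hl : s0 * d / (d0 * r) ≤ s0 := by
    rw [div_le_iff₀ (by positivity)]
    exact mul_le_mul_of_nonneg_left (hdd.trans (le_mul_of_one_le_right hd0.le k3)) hs0.le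
  have h1 := h' _ ((abs_of_pos hp).trans_le hl)
  have h2 := h' (-(s0 * d / (d0 * r))) (by rwa [abs_neg, abs_of_pos hp])
  have e : C1 * d ^ 2 + C * (s0 * d / (d0 * r)) ^ 2 * (T0 * r ^ 2) =
      s0 * d / (d0 * r) * ((C1 + C * s0 ^ 2 * T0 / d0 ^ 2) * d0 / s0 * r * d) := by
    field_simp
  rw [neg_sq, e] at h2
  rw [e] at h1
  exact abs_le.2 ⟨le_of_mul_le_mul_left (by linarith only [h2]) hp, le_of_mul_le_mul_left h1 hp⟩

theorem QGB_two (hS : Surf Γ) {F : E × E → ℝ} (hF : Tonelli Γ F) {c c' : H1 Γ} {g : E → ℝ} {m : ℝ}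
    (hg : Continuous g) (hi : Inv Γ g) (h : QG F c c' g m) : ∃ C s0 : ℝ, 0 ≤ C ∧ 0 < s0 ∧
      ∀ u, Eqv c u → ∀ (z y : ℝ → E) (a b a' b' : ℝ) (ρ ρ' : Γ), IsPath z a b → IsPath y a' b' →
        0 < (b - a) + (b' - a') → z b = ρ • y a' → y b' = ρ' • z a → ∀ s : ℝ, |s| ≤ s0 →
        s * (c'.1 ρ + c'.1 ρ' + pot g z a b + pot g y a' b' - m * ((b - a) + (b' - a'))) ≤
          dfc F u z a b + dfc F u y a' b' + C * s ^ 2 * ((b - a) + (b' - a')) := by
  obtain ⟨C, s0, a1, b1, h⟩ := h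
  refine ⟨C, s0, a1, b1, fun u hu z y a b a' b' ρ ρ' hz hy hp e e' s hs => ?_⟩
  obtain ⟨w, w1, w2, w3, w4, w5⟩ := exists_join hS hz hy ρ e
  have k := h w _ (ρ * ρ') ⟨hp, w1, by rw [w3, w2, e', mul_smul]⟩ s hs
  rw [w4 F hF.cont hF.invL, w5 g hg hi, H1.map_mul, H1.map_mul] at k
  rw [dfc, dfc, e, e', hu, hu]
  linarith only [k]

theorem QG.add {F : E × E → ℝ} {c c1 c2 : H1 Γ} {g1 g2 : E → ℝ} {m1 m2 : ℝ}
    (hg1 : Continuous g1) (hg2 : Continuous g2) (h1 : QG F c c1 g1 m1) (h2 : QG F c c2 g2 m2) :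
    QG F c (c1 + c2) (fun x => g1 x + g2 x) (m1 + m2) := by
  obtain ⟨C1, s1, a1, b1, h1⟩ := h1
  obtain ⟨C2, s2, a2, b2, h2⟩ := h2
  refine ⟨2 * (C1 + C2), min s1 s2 / 2, by positivity, by positivity, fun z T γ hz s hs => ?_⟩
  have e : |2 * s| ≤ min s1 s2 := by rw [abs_mul, abs_two]; linarith only [hs]
  have k1 := h1 z T γ hz (2 * s) (e.trans (min_le_left _ _))
  have k2 := h2 z T γ hz (2 * s) (e.trans (min_le_right _ _))
  have e1 : pot (fun x => g1 x + g2 x) z 0 T = pot g1 z 0 T + pot g2 z 0 T :=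
    intervalIntegral.integral_add (hz.2.1.ii_pot hg1) (hz.2.1.ii_pot hg2)
  have e2 : (c1 + c2).1 γ = c1.1 γ + c2.1 γ := rfl
  rw [e1, e2]
  linarith only [k1, k2]

theorem QG.smul {F : E × E → ℝ} {c c1 : H1 Γ} {g : E → ℝ} {m : ℝ} (k : ℝ) (h : QG F c c1 g m) :
    QG F c (k • c1) (fun x => k * g x) (k * m) := by
  obtain ⟨C, s0, a1, b1, h⟩ := h
  have hk : 0 < |k| + 1 := by positivity
  refine ⟨C * k ^ 2, s0 / (|k| + 1), by positivity, by positivity, fun z T γ hz s hs => ?_⟩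
  have e : |s * k| ≤ s0 := by
    rw [le_div_iff₀ hk] at hs
    rw [abs_mul]
    linarith only [hs, abs_nonneg s]
  have k1 := h z T γ hz (s * k) e
  have e1 : pot (fun x => k * g x) z 0 T = k * pot g z 0 T :=
    intervalIntegral.integral_const_mul _ _
  have e2 : (k • c1).1 γ = k * c1.1 γ := rfl
  rw [e1, e2]
  linarith only [k1]

theorem QG.sub_smul {F : E × E → ℝ} {c : H1 Γ} {g1 g2 : E → ℝ} {m1 m2 : ℝ}
    (hg1 : Continuous g1) (hg2 : Continuous g2) (h1 : QG F c 0 g1 m1) (h2 : QG F c 0 g2 m2)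
    (k : ℝ) : QG F c 0 (fun x => g1 x - k * g2 x) (m1 - k * m2) := by
  have h := h1.add (g2 := fun x => -k * g2 x) hg1 (continuous_const.mul hg2) (h2.smul (-k))
  simpa only [smul_zero, add_zero, neg_mul, ← sub_eq_add_neg] using h

theorem QG.sum {ι : Type} {F : E × E → ℝ} {c : H1 Γ} (hc : Crit F c) (S : Finset ι)
    {g : ι → E → ℝ} {m : ι → ℝ} (hg : ∀ i ∈ S, Continuous (g i))
    (h : ∀ i ∈ S, QG F c 0 (g i) (m i)) :
    QG F c 0 (fun x => ∑ i ∈ S, g i x) (∑ i ∈ S, m i) := by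
  classical
  induction S using Finset.induction_on with
  | empty => simpa only [Finset.sum_empty] using QGB_zero hc
  | insert a S ha ih =>
    have h1 := (h a (Finset.mem_insert_self _ _)).add (hg a (Finset.mem_insert_self _ _))
      (continuous_finsetSum S fun i hi => hg i (Finset.mem_insert_of_mem hi))
      (ih (fun i hi => hg i (Finset.mem_insert_of_mem hi))
        fun i hi => h i (Finset.mem_insert_of_mem hi))
    simpa only [Finset.sum_insert ha, add_zero] using h1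

theorem qg_all_cls {F : E × E → ℝ} {c : H1 Γ} (hc : Crit F c) {b : ℕ}
    (e : (Fin b → ℝ) ≃ₗ[ℝ] H1 Γ)
    (h : ∀ j : Fin b, ∃ m, QG F c (e (Pi.single j 1)) (fun _ => 0) m) (c' : H1 Γ) :
    ∃ m, QG F c c' (fun _ => 0) m := by
  classical
  obtain ⟨t, rfl⟩ := e.surjective c'
  have key : ∀ S : Finset (Fin b),
      ∃ m, QG F c (∑ j ∈ S, t j • e (Pi.single j 1)) (fun _ => 0) m := fun S => by
    induction S using Finset.induction_on with
    | empty => exact ⟨0, QGB_zero hc⟩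
    | insert a S ha ih =>
      obtain ⟨m, hm⟩ := ih
      obtain ⟨m', hm'⟩ := h a
      have h1 := (hm'.smul (t a)).add continuous_const continuous_const hm
      simp only [mul_zero, add_zero] at h1
      exact ⟨_, by rw [Finset.sum_insert ha]; exact h1⟩
  rw [pi_eq_sum_univ' t, map_sum]
  simpa only [map_smul] using key Finset.univ

theorem QG.slope_of_zero {F : E × E → ℝ} {c : H1 Γ} {g : E → ℝ} {m : ℝ} (h : QG F c 0 g m)
    {z : ℝ → E} {T : ℝ} {γ : Γ} (hz : IsLoop z T γ) (h0 : act F z 0 T = c.1 γ) :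
    pot g z 0 T = m * T := by
  obtain ⟨C, s0, a1, b1, h⟩ := h
  refine sub_eq_zero.1 (QGB_lin (K := C * T) (mul_nonneg a1 hz.1.le) b1 fun s hs => ?_)
  have k1 := h z T γ hz s hs
  have e2 : (0 : H1 Γ).1 γ = 0 := rfl
  rw [e2, h0] at k1
  linarith

theorem QG.nonneg {F : E × E → ℝ} {c : H1 Γ} (hc : Crit F c) {g : E → ℝ} {m k : ℝ}
    (hg : Continuous g) (h : QG F c 0 g m) (h0 : ∀ x, k ≤ g x) : k ≤ m := by
  obtain ⟨C, s0, a1, b1, h⟩ := h
  have key : ∀ s, 0 < s → s ≤ s0 → k - m ≤ C * s := fun s hs hs' => by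
    refine le_of_mul_le_mul_left (le_of_forall_pos_le_add fun δ hδ => ?_) hs
    obtain ⟨z, T, γ, hz, hd⟩ := hc.2 δ hδ
    have k1 := h z T γ hz s (by rwa [abs_of_pos hs])
    have e2 : (0 : H1 Γ).1 γ = 0 := rfl
    have e3 : pot (fun _ => k) z 0 T ≤ pot g z 0 T :=
      intervalIntegral.integral_mono_on hz.1.le (hz.2.1.ii_pot continuous_const)
        (hz.2.1.ii_pot hg) fun t _ => h0 _
    rw [pot_const, sub_zero] at e3
    rw [e2] at k1
    refine le_of_mul_le_mul_right ?_ hz.1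
    have := mul_le_mul_of_nonneg_left e3 hs.le
    linarith only [hd, k1, this]
  refine sub_nonpos.1 (le_of_forall_pos_le_add fun ε hε => ?_)
  have hC : 0 < C + 1 := by positivity
  have k1 := key (min s0 (ε / (C + 1))) (by positivity) (min_le_left _ _)
  have k2 := mul_le_mul_of_nonneg_left (min_le_right s0 (ε / (C + 1))) a1
  have k3 : C * (ε / (C + 1)) ≤ ε := by
    rw [mul_div_assoc', div_le_iff₀ hC]
    linarith only [hε]
  linarith only [k1, k2, k3]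

theorem qg_sqrt (hS : Surf Γ) {F : E × E → ℝ} (hF : Tonelli Γ F) {c : H1 Γ} {g : E → ℝ} {m : ℝ}
    (hg : Continuous g) (hi : Inv Γ g) (h : QG F c 0 g m) : ∃ C : ℝ, 0 ≤ C ∧ ∀ u, InS F c u →
      ∀ (z : ℝ → E) (a T : ℝ), 1 ≤ T → Cal F u z a (a + T) →
        |pot g z a (a + T) - m * T| ≤ C * Real.sqrt T := by
  obtain ⟨C, s0, a1, b1, h⟩ := QGB_two hS hF hg hi h
  obtain ⟨T0, C0, a2, b2, hcl⟩ := close_bdd hS hF c
  obtain ⟨M, a3, hM⟩ := hS.bdd_inv hg hi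
  obtain ⟨A, a4, hA⟩ := QGB_opt a1 b1 b2 one_pos (show 0 ≤ 1 + T0 by positivity)
  refine ⟨A + (M + |m|) * T0, by positivity, fun u hu z a T hT hz => ?_⟩
  obtain ⟨y, γ, y1, y2, y3, y4⟩ := hcl u hu (z (a + T)) (z a)
  have k := h u hu.1 z y a (a + T) 0 T0 1 γ hz.1 y1 (by linarith) (by rw [one_smul, y2]) y3
  have e1 : (0 : H1 Γ).1 1 = 0 := rfl
  have e2 : (0 : H1 Γ).1 γ = 0 := rfl
  rw [e1, e2, hz.2, add_sub_cancel_left, sub_zero] at k
  have k1 := hA _ _ _ 1 T hT zero_le_one le_rfl (by linarith) (by linarith only [a2, hT, mul_nonneg_of_nonpos_of_nonpos (le_of_lt (Mathlib.Tactic.Linarith.sub_neg_of_lt a2)) (Mathlib.Tactic.Linarith.sub_nonpos_of_le hT)]) k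
  have k2 := abs_le.1 (abs_pot_le (g := g) (z := y) a2.le fun t _ => hM _)
  have k3 : 1 ≤ Real.sqrt T := Real.one_le_sqrt.2 hT
  have k4 := mul_le_mul_of_nonneg_left k3 (show 0 ≤ (M + |m|) * T0 by positivity)
  have k5 := mul_le_mul_of_nonneg_right (le_abs_self m) a2.le
  have k6 := mul_le_mul_of_nonneg_right (neg_abs_le m) a2.le
  rw [abs_le] at k1 ⊢
  constructor <;> linarith only [k1, k2, k4, k6, k5, k1.1, k1.2, k2.1, k2.2]

theorem qg_opt {C s0 C1 d0 T0 : ℝ} (hC : 0 ≤ C) (hs0 : 0 < s0) (hC1 : 0 ≤ C1) (hd0 : 0 < d0)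
    (hT0 : 0 ≤ T0) : ∃ A : ℝ, 0 ≤ A ∧ ∀ (X D T d n : ℝ), 1 ≤ n → 0 ≤ d → d ≤ d0 →
      D ≤ C1 * d ^ 2 → T ≤ T0 * n → (∀ s : ℝ, |s| ≤ s0 → s * X ≤ D + C * s ^ 2 * T) →
        |X| ≤ A * Real.sqrt n * d :=
  QGB_opt hC hs0 hC1 hd0 hT0

theorem qg_one {F : E × E → ℝ} {c c' : H1 Γ} {g : E → ℝ} {m : ℝ}
    (h : QG F c c' g m) : ∃ C s0 : ℝ, 0 ≤ C ∧ 0 < s0 ∧ ∀ u, Eqv c u →
      ∀ (z : ℝ → E) (a b : ℝ) (ρ : Γ), a < b → IsPath z a b → z b = ρ • z a → ∀ s : ℝ, |s| ≤ s0 →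
        s * (c'.1 ρ + pot g z a b - m * (b - a)) ≤ dfc F u z a b + C * s ^ 2 * (b - a) := by
  obtain ⟨C, s0, a1, b1, h⟩ := h
  refine ⟨C, s0, a1, b1, fun u hu z a b ρ hab hz e s hs => ?_⟩
  have hl : IsLoop (fun r => z (r + a)) (b - a) ρ :=
    ⟨sub_pos.2 hab, IsPath.shift a (by simpa using hz), by simpa using e⟩
  have k := h _ _ _ hl s hs
  rw [← hl.dfc_eq hu, dfc_shift, pot_shift, zero_add, sub_add_cancel] at k
  exact k

theorem qg_two (hS : Surf Γ) {F : E × E → ℝ} (hF : Tonelli Γ F) {c c' : H1 Γ} {g : E → ℝ} {m : ℝ}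
    (hg : Continuous g) (hi : Inv Γ g) (h : QG F c c' g m) : ∃ C s0 : ℝ, 0 ≤ C ∧ 0 < s0 ∧
      ∀ u, Eqv c u → ∀ (z y : ℝ → E) (a b a' b' : ℝ) (ρ ρ' : Γ), IsPath z a b → IsPath y a' b' →
        0 < (b - a) + (b' - a') → z b = ρ • y a' → y b' = ρ' • z a → ∀ s : ℝ, |s| ≤ s0 →
        s * (c'.1 ρ + c'.1 ρ' + pot g z a b + pot g y a' b' - m * ((b - a) + (b' - a'))) ≤
          dfc F u z a b + dfc F u y a' b' + C * s ^ 2 * ((b - a) + (b' - a')) :=
  QGB_two hS hF hg hi h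

end Pool.Agent.Work.MP_1ce82a_an
end

-- merged part: Pool.Agent.Work.MP_1ce82a_an.J.JacB
section
/-! Jacobi fields: existence, uniqueness, linearity, the symplectic pairing, the velocity field.
PLAN. Let A(t) : E -> (E ->L R), w -> vpart (D2 (ph x t) (0,w)); it is injective by Cvx, so a linear equivalence of two dimensional spaces with a continuous inverse in t (write the 2 by 2 inverse with the determinant, or use
ContinuousLinearMap.inverse / Ring.inverse continuity). The system xi' = A^-1(pi - vpart D2 (xi,0)), pi' = xpart D2 (xi, xi') is linear with continuous coefficients; solve it on [-T,T] by flow_exists_Icc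
(clamp t to [-T,T] to get a global Lipschitz constant), glue by uniqueness (ODE_solution_unique or Gronwall). om is constant: differentiate and use D2_symm.
deriv_contDiff: p = mo F x is C^1; (x,v) -> (x, vpart DF(x,v)) is C^1 with invertible derivative, so by the inverse function theorem (ContDiffAt.toOpenPartialHomeomorph, ContDiffAt.to_localInverse) ph x is locally a C^1 function of (x,p).
Then the chain rule for t -> fderiv F (ph x t) gives mom_deriv and the Jacobi equation. -/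

open Set Filter Topology MeasureTheory
open scoped ContDiff

namespace Pool.Agent.Work.MP_1ce82a_an

variable {Γ : Grp}

/-- Positive definite fibre Hessian. -/
def Cvx (F : E × E → ℝ) : Prop := ∀ (z : E × E) (w : E), w ≠ 0 → 0 < D2 F z (0, w) (0, w)

section Lin

variable {W : Type} [NormedAddCommGroup W] [NormedSpace ℝ W] {M : ℝ → W →L[ℝ] W}

theorem JacB_bd (hM : Continuous M) (T : ℝ) :
    ∃ K : NNReal, ∀ t ∈ Icc (-T) T, LipschitzWith K (M t) := by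
  obtain ⟨C, hC⟩ := (isCompact_Icc (a := -T) (b := T)).exists_bound_of_continuousOn hM.continuousOn
  exact ⟨C.toNNReal, fun t ht => (M t).lipschitz.weaken ((hC t ht).trans (Real.le_coe_toNNReal C))⟩

theorem JacB_uniq (hM : Continuous M) {T : ℝ} {f g : ℝ → W}
    (hf : ∀ t ∈ Ioo (-T) T, HasDerivAt f (M t (f t)) t)
    (hg : ∀ t ∈ Ioo (-T) T, HasDerivAt g (M t (g t)) t) (h : f 0 = g 0) {t : ℝ} (ht : |t| < T) :
    f t = g t := by
  obtain ⟨K, hK⟩ := JacB_bd hM T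
  exact ODE_solution_unique_of_mem_Ioo (v := fun t w => M t w) (s := fun _ => univ)
    (fun t ht => (hK t (Ioo_subset_Icc_self ht)).lipschitzOnWith)
    (abs_lt.1 (abs_zero.trans_lt ((abs_nonneg t).trans_lt ht))) (fun t ht => ⟨hf t ht, trivial⟩)
    (fun t ht => ⟨hg t ht, trivial⟩) h (abs_lt.1 ht)

theorem JacB_ex [CompleteSpace W] (hM : Continuous M) (w : W) :
    ∃ α : ℝ → W, α 0 = w ∧ ∀ t, HasDerivAt α (M t (α t)) t := by
  have h : ∀ T : ℝ, ∃ β : ℝ → W, β 0 = w ∧ ∀ t ∈ Ioo (-T) T, HasDerivAt β (M t (β t)) t := by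
    intro T
    obtain ⟨K, hK⟩ := JacB_bd hM |T|
    have h0 := abs_nonneg T
    obtain ⟨β, h1, h2⟩ := MP_05654f_an.flow_exists_Icc
      (v := fun t w => M (max (-|T|) (min t |T|)) w) (K := K)
      (fun t => hK _ ⟨le_max_left _ _, max_le (by linarith only [h0]) (min_le_right _ _)⟩)
      (fun x => (hM.comp (by fun_prop)).clm_apply continuous_const) h0 w
    refine ⟨β, h1, fun t ht => ?_⟩
    have e1 : -|T| < t := (neg_le_neg (le_abs_self T)).trans_lt ht.1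
    have e2 : t < |T| := ht.2.trans_le (le_abs_self T)
    have := (h2 t ⟨e1.le, e2.le⟩).hasDerivAt (Icc_mem_nhds e1 e2)
    rwa [min_eq_left e2.le, max_eq_right e1.le] at this
  choose β h1 h2 using h
  have key : ∀ t s : ℝ, |s| < |t| + 1 → β (|s| + 1) s = β (|t| + 2) s := fun t s hs =>
    JacB_uniq hM (h2 _) (fun r hr => h2 _ r ⟨by linarith [hr.1], by linarith [hr.2]⟩)
      ((h1 _).trans (h1 _).symm) (lt_add_one _)
  refine ⟨fun t => β (|t| + 1) t, h1 _, fun t => ?_⟩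
  have h3 := h2 (|t| + 2) t (abs_lt.1 (by linarith))
  rw [← key t t (lt_add_one _)] at h3
  refine h3.congr_of_eventuallyEq ?_
  filter_upwards [continuous_abs.continuousAt.eventually_lt_const (lt_add_one |t|)] with s hs
  exact key t s hs

theorem JacB_equiv {V : Type} [NormedAddCommGroup V] [NormedSpace ℝ V] [FiniteDimensional ℝ V]
    [FiniteDimensional ℝ W] (f : V →L[ℝ] W) (h : ∀ v, f v = 0 → v = 0)
    (hd : Module.finrank ℝ V = Module.finrank ℝ W) : ∃ e : V ≃L[ℝ] W, (e : V →L[ℝ] W) = f :=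
  ⟨(LinearMap.linearEquivOfInjective (f : V →ₗ[ℝ] W) ((injective_iff_map_eq_zero _).2 h)
    hd).toContinuousLinearEquiv, rfl⟩

end Lin

theorem JacB_dim : Module.finrank ℝ E = Module.finrank ℝ (E →L[ℝ] ℝ) :=
  Subspace.dual_finrank_eq.symm.trans
    (LinearMap.toContinuousLinearMap : (E →ₗ[ℝ] ℝ) ≃ₗ[ℝ] E →L[ℝ] ℝ).finrank_eq

/-- The fibre part as a linear map. -/
noncomputable def JacB_v : (E × E →L[ℝ] ℝ) →L[ℝ] E →L[ℝ] ℝ :=
  (ContinuousLinearMap.compL ℝ E (E × E) ℝ).flip (ContinuousLinearMap.inr ℝ E E)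

/-- The base part as a linear map. -/
noncomputable def JacB_x : (E × E →L[ℝ] ℝ) →L[ℝ] E →L[ℝ] ℝ :=
  (ContinuousLinearMap.compL ℝ E (E × E) ℝ).flip (ContinuousLinearMap.inl ℝ E E)

/-- The fibre Hessian. -/
noncomputable def JacB_A (F : E × E → ℝ) (z : E × E) : E →L[ℝ] E →L[ℝ] ℝ :=
  JacB_v.comp ((D2 F z).comp (ContinuousLinearMap.inr ℝ E E))

/-- The velocity as a function of position and momentum. -/
noncomputable def JacB_N (F : E × E → ℝ) (z : E × E) : E × (E →L[ℝ] ℝ) →L[ℝ] E :=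
  (JacB_A F z).inverse.comp (ContinuousLinearMap.snd ℝ _ _ - JacB_v.comp ((D2 F z).comp
    ((ContinuousLinearMap.inl ℝ E E).comp (ContinuousLinearMap.fst ℝ _ _))))

/-- The linear system. -/
noncomputable def JacB_M (F : E × E → ℝ) (z : E × E) :
    E × (E →L[ℝ] ℝ) →L[ℝ] E × (E →L[ℝ] ℝ) :=
  (ContinuousLinearMap.inl ℝ _ _).comp (JacB_N F z) + (ContinuousLinearMap.inr ℝ _ _).comp
    (JacB_x.comp ((D2 F z).comp ((ContinuousLinearMap.inl ℝ E E).comp
      (ContinuousLinearMap.fst ℝ _ _) + (ContinuousLinearMap.inr ℝ E E).comp (JacB_N F z))))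

theorem JacB_M_apply (F : E × E → ℝ) (z : E × E) (w : E × (E →L[ℝ] ℝ)) :
    JacB_M F z w = (JacB_N F z w, xpart (D2 F z (w.1, JacB_N F z w))) := by
  have e : xpart (D2 F z (w.1, JacB_N F z w)) =
      JacB_x (D2 F z (w.1, 0)) + JacB_x (D2 F z (0, JacB_N F z w)) := by
    rw [← Prod.fst_add_snd (w.1, JacB_N F z w), map_add]
    rfl
  simp [JacB_M, e]

theorem JacB_split (F : E × E → ℝ) (z : E × E) (a b : E) :
    vpart (D2 F z (a, b)) = JacB_v (D2 F z (a, 0)) + JacB_A F z b := by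
  rw [← Prod.fst_add_snd (a, b), map_add]
  rfl

theorem JacB_inv {F : E × E → ℝ} (hc : Cvx F) (z : E × E) : (JacB_A F z).IsInvertible :=
  JacB_equiv _ (fun v hv => by_contra fun h => (hc z v h).ne' (DFunLike.congr_fun hv v)) JacB_dim

theorem JacB_N_iff {F : E × E → ℝ} (hc : Cvx F) (z : E × E) (a b : E) (p : E →L[ℝ] ℝ) :
    JacB_N F z (a, p) = b ↔ vpart (D2 F z (a, b)) = p := by
  rw [JacB_split]
  refine ((JacB_inv hc z).inverse_apply_eq).trans ?_
  change p - JacB_v (D2 F z (a, 0)) = _ ↔ _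
  rw [sub_eq_iff_eq_add', eq_comm]

theorem JacB_N_cont {F : E × E → ℝ} (hF : ContDiff ℝ 2 F) (hc : Cvx F) :
    Continuous (JacB_N F) := by
  have h1 : Continuous (JacB_A F) :=
    continuous_const.clm_comp ((continuous_D2 hF).clm_comp continuous_const)
  have h2 : Continuous fun z => (JacB_A F z).inverse := continuous_iff_continuousAt.2 fun z =>
    ((JacB_inv hc z).contDiffAt_map_inverse (n := 0)).continuousAt.comp h1.continuousAt
  exact h2.clm_comp (continuous_const.sub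
    (continuous_const.clm_comp ((continuous_D2 hF).clm_comp continuous_const)))

theorem JacB_M_cont {F : E × E → ℝ} (hF : ContDiff ℝ 2 F) (hc : Cvx F) :
    Continuous (JacB_M F) :=
  (continuous_const.clm_comp (JacB_N_cont hF hc)).add (continuous_const.clm_comp
    (continuous_const.clm_comp ((continuous_D2 hF).clm_comp
      (continuous_const.add (continuous_const.clm_comp (JacB_N_cont hF hc))))))

theorem JacB_ph {x : ℝ → E} (hx : ContDiff ℝ 1 x) : Continuous (ph x) :=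
  hx.continuous.prodMk (hx.continuous_deriv le_rfl)

theorem JacB_der {x : ℝ → E} (hx : ContDiff ℝ 1 x) (t : ℝ) : HasDerivAt x (deriv x t) t :=
  (hx.differentiable one_ne_zero t).hasDerivAt

theorem Cvx.addPot {F : E × E → ℝ} (hF : ContDiff ℝ 2 F) (hc : Cvx F) {h : E → ℝ}
    (hh : ContDiff ℝ 2 h) : ContDiff ℝ 2 (addPot F h) ∧ Cvx (addPot F h) := by
  refine ⟨hF.add (hh.comp contDiff_fst), fun z w hw => ?_⟩
  rw [D2_addPot hF hh]
  simpa using hc z w hw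

theorem exists_jacobi {F : E × E → ℝ} (hF : ContDiff ℝ 2 F) (hc : Cvx F) {x : ℝ → E}
    (hx : ContDiff ℝ 1 x) (ξ0 : E) (π0 : E →L[ℝ] ℝ) :
    ∃ ξ, IsJacobi F x ξ ∧ ξ 0 = ξ0 ∧ mom F x ξ 0 = π0 := by
  obtain ⟨α, h0, h⟩ := JacB_ex (M := fun t => JacB_M F (ph x t))
    ((JacB_M_cont hF hc).comp (JacB_ph hx)) (ξ0, π0)
  simp only [JacB_M_apply] at h
  have h1 : ∀ t, HasDerivAt (fun s => (α s).1) (JacB_N F (ph x t) (α t)) t := fun t => (h t).fst
  have h2 : ∀ t, ph (fun s => (α s).1) t = ((α t).1, JacB_N F (ph x t) (α t)) := fun t => by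
    rw [ph, (h1 t).deriv]
  have h3 : ∀ t, mom F x (fun s => (α s).1) t = (α t).2 := fun t => by
    rw [mom, h2]
    exact (JacB_N_iff hc _ _ _ _).1 rfl
  refine ⟨fun s => (α s).1, ⟨contDiff_one_iff_deriv.2 ⟨fun t => (h1 t).differentiableAt, ?_⟩,
    fun t => ?_⟩, by simp only [h0], by rw [h3, h0]⟩
  · rw [funext fun t => (h1 t).deriv]
    exact ((JacB_N_cont hF hc).comp (JacB_ph hx)).clm_apply
      (continuous_iff_continuousAt.2 fun t => (h t).continuousAt)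
  · rw [h2]
    have h4 : HasDerivAt (fun s => (α s).2) _ t := (h t).snd
    exact h4.congr_of_eventuallyEq (.of_forall h3)

theorem jacobi_zero {F : E × E → ℝ} (hF : ContDiff ℝ 2 F) (hc : Cvx F) {x : ℝ → E}
    (hx : ContDiff ℝ 1 x) {ξ : ℝ → E} (hξ : IsJacobi F x ξ) (h0 : ξ 0 = 0)
    (h1 : mom F x ξ 0 = 0) (t : ℝ) : ξ t = 0 := by
  refine congrArg Prod.fst (JacB_uniq (M := fun t => JacB_M F (ph x t))
    ((JacB_M_cont hF hc).comp (JacB_ph hx)) (f := fun s => (ξ s, mom F x ξ s)) (g := fun _ => 0)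
    (fun s _ => ?_) (fun s _ => ?_) (by simp only [h0, h1]; rfl) (lt_add_one |t|))
  · have e : JacB_N F (ph x s) (ξ s, mom F x ξ s) = deriv ξ s := (JacB_N_iff hc _ _ _ _).2 rfl
    rw [JacB_M_apply, e]
    exact (JacB_der hξ.1 s).prodMk (hξ.2 s)
  · rw [map_zero]
    exact hasDerivAt_const _ _

theorem ph_lin {ξ ζ : ℝ → E} (hξ : ContDiff ℝ 1 ξ) (hζ : ContDiff ℝ 1 ζ) (a b t : ℝ) :
    ph (fun s => a • ξ s + b • ζ s) t = a • ph ξ t + b • ph ζ t := by
  rw [ph, (((JacB_der hξ t).fun_const_smul a).fun_add ((JacB_der hζ t).fun_const_smul b)).deriv]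
  rfl

theorem IsJacobi.lin {F : E × E → ℝ} {x ξ ζ : ℝ → E} (hξ : IsJacobi F x ξ) (hζ : IsJacobi F x ζ)
    (a b : ℝ) : IsJacobi F x (fun s => a • ξ s + b • ζ s) := by
  refine ⟨(hξ.1.const_smul a).add (hζ.1.const_smul b), fun t => ?_⟩
  simp only [ph_lin hξ.1 hζ.1, map_add, map_smul]
  exact ((hξ.2 t).fun_const_smul a).fun_add ((hζ.2 t).fun_const_smul b)

theorem mom_lin (F : E × E → ℝ) (x : ℝ → E) {ξ ζ : ℝ → E} (hξ : ContDiff ℝ 1 ξ)
    (hζ : ContDiff ℝ 1 ζ) (a b t : ℝ) :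
    mom F x (fun s => a • ξ s + b • ζ s) t = a • mom F x ξ t + b • mom F x ζ t := by
  rw [mom, ph_lin hξ hζ, map_add, map_smul, map_smul]
  rfl

theorem pr_lin (F : E × E → ℝ) (x : ℝ → E) {ξ ζ : ℝ → E} (hξ : ContDiff ℝ 1 ξ)
    (hζ : ContDiff ℝ 1 ζ) (a b t : ℝ) (w : E × E) :
    pr F x (fun s => a • ξ s + b • ζ s) t w = a * pr F x ξ t w + b * pr F x ζ t w := by
  have e : ((0 : E), a • ξ t + b • ζ t) = a • ((0 : E), ξ t) + b • ((0 : E), ζ t) := by simp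
  rw [pr, pr, pr, mom_lin F x hξ hζ, e]
  simp only [map_add, map_smul, _root_.add_apply, _root_.smul_apply, smul_eq_mul]
  ring

theorem om_swap (F : E × E → ℝ) (x ξ ζ : ℝ → E) (t : ℝ) : om F x ξ ζ t = -om F x ζ ξ t := (neg_sub _ _).symm

theorem om_eq (F : E × E → ℝ) (x ξ ζ : ℝ → E) (t : ℝ) :
    om F x ξ ζ t = mom F x ζ t (ξ t) - mom F x ξ t (ζ t) := rfl

theorem om_const {F : E × E → ℝ} (hF : ContDiff ℝ 2 F) {x ξ ζ : ℝ → E} (hξ : IsJacobi F x ξ)
    (hζ : IsJacobi F x ζ) (t : ℝ) : om F x ξ ζ t = om F x ξ ζ 0 := by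
  have h : ∀ s, HasDerivAt (om F x ξ ζ) 0 s := fun s => by
    have h1 := ((hζ.2 s).clm_apply (JacB_der hξ.1 s)).sub ((hξ.2 s).clm_apply (JacB_der hζ.1 s))
    rw [← clm_split, ← clm_split] at h1
    exact h1.congr_deriv (sub_eq_zero.2 (D2_symm hF _ _ _))
  exact is_const_of_deriv_eq_zero (fun s => (h s).differentiableAt) (fun s => (h s).deriv) t 0

theorem IsOrbit.deriv_contDiff {F : E × E → ℝ} (hF : ContDiff ℝ 2 F) (hc : Cvx F) {x : ℝ → E}
    (hx : IsOrbit F x) : ContDiff ℝ 1 (deriv x) := by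
  have h0 : ContDiff ℝ 1 (fderiv ℝ F) := hF.fderiv_right le_rfl
  have hG : ContDiff ℝ 1 fun z : E × E => (z.1, JacB_v (fderiv ℝ F z)) :=
    contDiff_fst.prodMk (JacB_v.contDiff.comp h0)
  have hp : ContDiff ℝ 1 fun t => JacB_v (fderiv ℝ F (ph x t)) :=
    contDiff_one_iff_deriv.2 ⟨fun t => (hx.2 t).differentiableAt, by
      have : (deriv fun t => JacB_v (fderiv ℝ F (ph x t))) = _ := funext fun t => (hx.2 t).deriv
      rw [this]
      exact JacB_x.continuous.comp (h0.continuous.comp (JacB_ph hx.1))⟩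
  refine contDiff_iff_contDiffAt.2 fun t => ?_
  obtain ⟨e, he⟩ := JacB_equiv ((ContinuousLinearMap.fst ℝ E E).prod
    (JacB_v.comp (D2 F (ph x t)))) (by
      rintro ⟨a, b⟩ h
      obtain rfl : a = 0 := congrArg Prod.fst h
      have h2 : JacB_v (D2 F (ph x t) (0, b)) = 0 := congrArg Prod.snd h
      by_contra k
      exact (hc (ph x t) b fun e => k (by rw [e]; rfl)).ne' (DFunLike.congr_fun h2 b))
    (Module.finrank_prod.trans ((congrArg _ JacB_dim).trans Module.finrank_prod.symm))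
  have hd : HasFDerivAt (fun z : E × E => (z.1, JacB_v (fderiv ℝ F z)))
      (e : E × E →L[ℝ] E × (E →L[ℝ] ℝ)) (ph x t) := by
    rw [he]
    exact hasFDerivAt_fst.prodMk (JacB_v.hasFDerivAt.comp _ (hasFDerivAt_fderiv hF _))
  have h1 := hG.contDiffAt.to_localInverse hd one_ne_zero
  have h2 := (JacB_ph hx.1).continuousAt.eventually
    (hG.contDiffAt.hasStrictFDerivAt' hd one_ne_zero).eventually_left_inverse
  have h3 := (h1.comp t (hx.1.prodMk hp).contDiffAt).snd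
  exact h3.congr_of_eventuallyEq (h2.mono fun s hs => (congrArg Prod.snd hs).symm)

theorem JacB_chain {F : E × E → ℝ} (hF : ContDiff ℝ 2 F) (hc : Cvx F) {x : ℝ → E}
    (hx : IsOrbit F x) (t : ℝ) :
    HasDerivAt (fun s => fderiv ℝ F (ph x s)) (D2 F (ph x t) (ph (deriv x) t)) t :=
  (hasFDerivAt_fderiv hF _).comp_hasDerivAt t
    ((JacB_der hx.1 t).prodMk (JacB_der (hx.deriv_contDiff hF hc) t))

theorem IsOrbit.mom_deriv {F : E × E → ℝ} (hF : ContDiff ℝ 2 F) (hc : Cvx F) {x : ℝ → E}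
    (hx : IsOrbit F x) (t : ℝ) : mom F x (deriv x) t = xpart (fderiv ℝ F (ph x t)) :=
  (JacB_v.hasFDerivAt.comp_hasDerivAt t (JacB_chain hF hc hx t)).unique (hx.2 t)

theorem IsOrbit.deriv_jacobi {F : E × E → ℝ} (hF : ContDiff ℝ 2 F) (hc : Cvx F) {x : ℝ → E}
    (hx : IsOrbit F x) : IsJacobi F x (deriv x) :=
  ⟨hx.deriv_contDiff hF hc, fun t =>
    (JacB_x.hasFDerivAt.comp_hasDerivAt t (JacB_chain hF hc hx t)).congr_of_eventuallyEq
      (.of_forall (hx.mom_deriv hF hc))⟩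

theorem den_eq_om {F : E × E → ℝ} (hF : ContDiff ℝ 2 F) (hc : Cvx F) {x : ℝ → E}
    (hx : IsOrbit F x) (ξ : ℝ → E) (t : ℝ) : den F x ξ t = om F x (deriv x) ξ t := by
  rw [om_eq, hx.mom_deriv hF hc, den]

theorem den_const {F : E × E → ℝ} (hF : ContDiff ℝ 2 F) (hc : Cvx F) {x ξ : ℝ → E}
    (hx : IsOrbit F x) (hξ : IsJacobi F x ξ) (t : ℝ) : den F x ξ t = den F x ξ 0 := by
  rw [den_eq_om hF hc hx, den_eq_om hF hc hx, om_const hF (hx.deriv_jacobi hF hc) hξ]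

theorem contDiff_energy {F : E × E → ℝ} (hF : ContDiff ℝ 2 F) : ContDiff ℝ 1 (energy F) :=
  ((hF.fderiv_right (m := 1) le_rfl).clm_apply (contDiff_const.prodMk contDiff_snd)).sub
    (hF.of_le one_le_two)

theorem fderiv_energy {F : E × E → ℝ} (hF : ContDiff ℝ 2 F) (z w : E × E) :
    fderiv ℝ (energy F) z w = D2 F z w (0, z.2) - xpart (fderiv ℝ F z) w.1 := by
  have h := ((hasFDerivAt_fderiv hF z).clm_apply
    ((hasFDerivAt_const (0 : E) z).prodMk hasFDerivAt_snd)).sub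
    (hF.differentiable two_ne_zero z).hasFDerivAt
  have e : fderiv ℝ (energy F) z = _ := h.fderiv
  have h2 := clm_split (fderiv ℝ F z) w.1 w.2
  rw [vpart_apply] at h2
  rw [e]
  change fderiv ℝ F z (0, w.2) + D2 F z w (0, z.2) - fderiv ℝ F z (w.1, w.2) = _
  rw [h2]
  ring

theorem den_eq_fderiv {F : E × E → ℝ} (hF : ContDiff ℝ 2 F) (x ξ : ℝ → E) (t : ℝ) :
    den F x ξ t = fderiv ℝ (energy F) (ph x t) (ph ξ t) := by
  rw [fderiv_energy hF]
  rfl

theorem pr_deriv {F : E × E → ℝ} (hF : ContDiff ℝ 2 F) (hc : Cvx F) {x : ℝ → E}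
    (hx : IsOrbit F x) (t : ℝ) (w : E × E) :
    pr F x (deriv x) t w = fderiv ℝ (energy F) (ph x t) w := by
  rw [fderiv_energy hF, pr, hx.mom_deriv hF hc]
  rfl

theorem IsJacobi.continuous {F : E × E → ℝ} {x ξ : ℝ → E} (hξ : IsJacobi F x ξ) :
    Continuous (ph ξ) ∧ Continuous (mom F x ξ) :=
  ⟨JacB_ph hξ.1, continuous_iff_continuousAt.2 fun t => (hξ.2 t).continuousAt⟩

end Pool.Agent.Work.MP_1ce82a_an
end

-- merged part: Pool.Agent.Work.MP_1ce82a_an.J.JacT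
section
/-! Transport of Jacobi fields by deck transformations.
PLAN. F composed with tl s equals F. Differentiate once: DF(tl z)(Dtl a) = DF z a; twice: D2 F(tl z)(Dtl a)(Dtl b) + DF(tl z)(D2 tl (a,b)) = D2 F z a b. Here Dtl z (a1,a2) = (Ds a1, D2s(a1,z2) + Ds a2), so Dtl (0,b) = (0, Ds b) and
D2 tl z (a,(0,b)) = (0, D2s(a1,b)); the symmetry of D2s gives Om_tl. For the Jacobi equation use pairing forms: the Euler equation says d/dt DF(0,eta) = DF(eta,eta') and the Jacobi equation d/dt D2(ph xi)(0,eta) = D2(ph xi)(eta,eta') for every C^1 field eta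
(product rule); for a constant target vector take eta = Ds^-1 of it along the curve; the correction term is the Euler equation of the translated orbit tested with mu = D2s(xi,eta), because D2 tl (ph xi)(ph eta) = (mu, mu') (differentiate
ph (Ds xi) = Dtl (ph xi) type identities; equivalently differentiate in both parameters the identity ph (s (x + a xi + b eta)) = tl s (ph (x + a xi + b eta))). Pass from vectors to covectors by finite dimensionality. -/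

open Set Filter Topology MeasureTheory
open scoped ContDiff

namespace Pool.Agent.Work.MP_1ce82a_an

variable {Γ : Grp}

/-- The tangent lift of a deck transformation. -/
noncomputable def tl (σ : Γ) (z : E × E) : E × E := (σ • z.1, dk σ z.1 z.2)

/-- The Lagrange two form. -/
noncomputable def Om (F : E × E → ℝ) (z a b : E × E) : ℝ :=
  D2 F z b (0, a.1) - D2 F z a (0, b.1)

theorem pr_eq_Om (F : E × E → ℝ) (x ξ : ℝ → E) (t : ℝ) (w : E × E) :
    pr F x ξ t w = Om F (ph x t) (ph ξ t) w := rfl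

theorem contDiff_tl (hS : Surf Γ) (σ : Γ) : ContDiff ℝ ∞ (tl σ) :=
  ((hS.smooth σ).comp contDiff_fst).prodMk
    (((hS.contDiff_dk σ).comp contDiff_fst).clm_apply contDiff_snd)

theorem ph_smul (hS : Surf Γ) (σ : Γ) (z : ℝ → E) (t : ℝ) :
    ph (fun s => σ • z s) t = tl σ (ph z t) := Prod.ext rfl (hS.deriv_smul σ z t)

theorem tl_inv (hS : Surf Γ) (σ : Γ) (z : E × E) : tl σ (tl σ⁻¹ z) = z :=
  Prod.ext (smul_inv_smul _ _) (hS.dk_inv' σ z.1 z.2)

theorem ph_nxt (hS : Surf Γ) (σ : Γ) (z : ℝ → E) (T t : ℝ) :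
    ph (nxt σ z T) t = tl σ⁻¹ (ph z (T + t)) :=
  (ph_smul hS σ⁻¹ (fun r => z (T + r)) t).trans
    (congrArg (tl σ⁻¹) (Prod.ext rfl (deriv_comp_const_add z T t)))

/-- The second derivative of a deck transformation. -/
noncomputable def JacT_B (σ : Γ) (x : E) : E →L[ℝ] E →L[ℝ] E := fderiv ℝ (dk σ) x

/-- The third derivative of a deck transformation. -/
noncomputable def JacT_C (σ : Γ) (x : E) : E →L[ℝ] E →L[ℝ] E →L[ℝ] E := fderiv ℝ (JacT_B σ) x

theorem JacT_hB (hS : Surf Γ) (σ : Γ) (x : E) : HasFDerivAt (dk σ) (JacT_B σ x) x :=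
  ((contDiff_infty_iff_fderiv.1 (hS.contDiff_dk σ)).1 x).hasFDerivAt

theorem JacT_hC (hS : Surf Γ) (σ : Γ) (x : E) : HasFDerivAt (JacT_B σ) (JacT_C σ x) x :=
  ((contDiff_infty_iff_fderiv.1 (contDiff_infty_iff_fderiv.1 (hS.contDiff_dk σ)).2).1 x).hasFDerivAt

theorem JacT_cC (hS : Surf Γ) (σ : Γ) {y : ℝ → E} {a : E} {t : ℝ} (hy : HasDerivAt y a t) :
    HasDerivAt (fun r => JacT_B σ (y r)) (JacT_C σ (y t) a) t :=
  HasFDerivAt.comp_hasDerivAt (E := E →L[ℝ] E →L[ℝ] E) t (JacT_hC hS σ (y t)) hy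

private theorem JacT_cB (hS : Surf Γ) (σ : Γ) {y : ℝ → E} {a : E} {t : ℝ} (hy : HasDerivAt y a t) :
    HasDerivAt (fun r => dk σ (y r)) (JacT_B σ (y t) a) t :=
  HasFDerivAt.comp_hasDerivAt (E := E →L[ℝ] E) t (JacT_hB hS σ (y t)) hy

theorem JacT_Bs (hS : Surf Γ) (σ : Γ) (x a b : E) : JacT_B σ x a b = JacT_B σ x b a :=
  second_derivative_symmetric (hS.hasFDerivAt σ) (JacT_hB hS σ x) a b

theorem JacT_line {G : Type} [NormedAddCommGroup G] [NormedSpace ℝ G] (z a : G) :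
    ∃ c : ℝ → G, HasDerivAt c a 0 ∧ c 0 = z :=
  ⟨fun r => z + r • a, by simpa using ((hasDerivAt_id (0 : ℝ)).smul_const a).const_add z, by simp⟩

theorem JacT_Cs (hS : Surf Γ) (σ : Γ) (x a b c : E) : JacT_C σ x a b c = JacT_C σ x b c a := by
  have h1 : JacT_C σ x a b = JacT_C σ x b a :=
    second_derivative_symmetric (JacT_hB hS σ) (JacT_hC hS σ x) a b
  obtain ⟨y, hy, rfl⟩ := JacT_line x b
  have h2 := JacT_cC hS σ hy
  have h3 := (h2.clm_apply (hasDerivAt_const 0 a)).clm_apply (hasDerivAt_const 0 c)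
  have h4 := (h2.clm_apply (hasDerivAt_const 0 c)).clm_apply (hasDerivAt_const 0 a)
  have h5 := h3.unique (h4.congr_of_eventuallyEq (Eventually.of_forall fun r => JacT_Bs hS σ _ a c))
  simp only [map_zero, add_zero] at h5
  rw [h1, h5]

theorem JacT_tl (hS : Surf Γ) (σ : Γ) {c : ℝ → E × E} {a : E × E} {t : ℝ} (hc : HasDerivAt c a t) :
    HasDerivAt (fun r => tl σ (c r))
      (dk σ (c t).1 a.1, JacT_B σ (c t).1 a.1 (c t).2 + dk σ (c t).1 a.2) t := by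
  have h1 : HasDerivAt (fun r => (c r).1) a.1 t := hc.fst
  have h2 : HasDerivAt (fun r => (c r).2) a.2 t := hc.snd
  have h3 := (JacT_cB hS σ h1).clm_apply h2
  have h4 := (hS.hasDerivAt_smul σ h1).prodMk h3
  exact h4

theorem JacT_dtl (hS : Surf Γ) (σ : Γ) (z a : E × E) :
    fderiv ℝ (tl σ) z a = (dk σ z.1 a.1, JacT_B σ z.1 a.1 z.2 + dk σ z.1 a.2) := by
  obtain ⟨c, hc, rfl⟩ := JacT_line z a
  exact (((contDiff_infty_iff_fderiv.1 (contDiff_tl hS σ)).1 (c 0)).hasFDerivAt.comp_hasDerivAt 0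
    hc).unique (JacT_tl hS σ hc)

theorem JacT_d1 (hS : Surf Γ) {F : E × E → ℝ} (hF : ContDiff ℝ 2 F) (hi : InvL Γ F) (σ : Γ)
    (z b : E × E) : fderiv ℝ F z b =
      fderiv ℝ F (tl σ z) (dk σ z.1 b.1, JacT_B σ z.1 b.1 z.2 + dk σ z.1 b.2) := by
  obtain ⟨c, hc, rfl⟩ := JacT_line z b
  have hd : ∀ w, HasFDerivAt F (fderiv ℝ F w) w := fun w =>
    (hF.differentiable two_ne_zero w).hasFDerivAt
  exact ((hd (c 0)).comp_hasDerivAt 0 hc).unique
    (((hd (tl σ (c 0))).comp_hasDerivAt 0 (JacT_tl hS σ hc)).congr_of_eventuallyEq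
      (Eventually.of_forall fun r => (hi σ (c r).1 (c r).2).symm))

theorem JacT_d2 (hS : Surf Γ) {F : E × E → ℝ} (hF : ContDiff ℝ 2 F) (hi : InvL Γ F) (σ : Γ)
    (z a b : E × E) : D2 F z a b =
      D2 F (tl σ z) (fderiv ℝ (tl σ) z a) (dk σ z.1 b.1, JacT_B σ z.1 b.1 z.2 + dk σ z.1 b.2) +
        fderiv ℝ F (tl σ z) (JacT_B σ z.1 a.1 b.1,
          JacT_C σ z.1 a.1 b.1 z.2 + JacT_B σ z.1 b.1 a.2 + JacT_B σ z.1 a.1 b.2) := by
  rw [JacT_dtl hS]
  obtain ⟨c, hc, rfl⟩ := JacT_line z a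
  have h1 : HasDerivAt (fun r => (c r).1) a.1 0 := hc.fst
  have h2 : HasDerivAt (fun r => (c r).2) a.2 0 := hc.snd
  have h3 := JacT_cB hS σ h1
  have h4 := JacT_cC hS σ h1
  have hL := ((hasFDerivAt_fderiv hF (c 0)).comp_hasDerivAt 0 hc).clm_apply (hasDerivAt_const 0 b)
  have g1 := h3.clm_apply (hasDerivAt_const 0 b.1)
  have g2 := (h4.clm_apply (hasDerivAt_const 0 b.1)).clm_apply h2
  have g3 := h3.clm_apply (hasDerivAt_const 0 b.2)
  have g4 := g1.prodMk (g2.fun_add g3)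
  have g5 := (hasFDerivAt_fderiv hF (tl σ (c 0))).comp_hasDerivAt 0 (JacT_tl hS σ hc)
  have hR := g5.clm_apply g4
  have h5 := hL.unique (hR.congr_of_eventuallyEq
    (Eventually.of_forall fun r => JacT_d1 hS hF hi σ (c r) b))
  simp only [map_zero, add_zero] at h5
  exact h5

theorem JacT_d2v (hS : Surf Γ) {F : E × E → ℝ} (hF : ContDiff ℝ 2 F) (hi : InvL Γ F) (σ : Γ)
    (z a : E × E) (e : E) : D2 F z a (0, e) =
      D2 F (tl σ z) (fderiv ℝ (tl σ) z a) (0, dk σ z.1 e) +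
        fderiv ℝ F (tl σ z) (0, JacT_B σ z.1 a.1 e) := by
  simpa only [map_zero, zero_apply, zero_add] using JacT_d2 hS hF hi σ z a (0, e)

theorem Om_tl (hS : Surf Γ) {F : E × E → ℝ} (hF : ContDiff ℝ 2 F) (hi : InvL Γ F) (σ : Γ)
    (z a b : E × E) :
    Om F (tl σ z) (fderiv ℝ (tl σ) z a) (fderiv ℝ (tl σ) z b) = Om F z a b := by
  rw [Om, Om, JacT_d2v hS hF hi σ z b, JacT_d2v hS hF hi σ z a, JacT_Bs hS σ z.1 a.1 b.1]
  have h1 : (fderiv ℝ (tl σ) z a).1 = dk σ z.1 a.1 := by rw [JacT_dtl hS]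
  have h2 : (fderiv ℝ (tl σ) z b).1 = dk σ z.1 b.1 := by rw [JacT_dtl hS]
  rw [h1, h2]
  ring

theorem JacT_hd {x : ℝ → E} (hx : ContDiff ℝ 1 x) (t : ℝ) : HasDerivAt x (deriv x t) t :=
  (hx.differentiable one_ne_zero t).hasDerivAt

theorem ph_dk (hS : Surf Γ) (σ : Γ) {x ξ : ℝ → E} (hx : ContDiff ℝ 1 x) (hξ : ContDiff ℝ 1 ξ)
    (t : ℝ) : ph (fun s => dk σ (x s) (ξ s)) t = fderiv ℝ (tl σ) (ph x t) (ph ξ t) := by
  rw [JacT_dtl hS, JacT_Bs hS]
  exact Prod.ext rfl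
    (((JacT_hB hS σ (x t)).comp_hasDerivAt t (JacT_hd hx t)).clm_apply (JacT_hd hξ t)).deriv

theorem JacT_ph_sub (z : ℝ → E) (P t : ℝ) : ph (fun r => z (r - P)) t = ph z (t - P) :=
  Prod.ext rfl (deriv_comp_sub_const z P t)

theorem ph_Tp (hS : Surf Γ) (σ : Γ) (P : ℝ) {x ξ : ℝ → E} (hx : ContDiff ℝ 1 x)
    (hξ : ContDiff ℝ 1 ξ) (t : ℝ) :
    ph (Tp x P σ ξ) t = fderiv ℝ (tl σ) (ph x (t - P)) (ph ξ (t - P)) :=
  (JacT_ph_sub (fun s => dk σ (x s) (ξ s)) P t).trans (ph_dk hS σ hx hξ (t - P))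

theorem JacT_orb (hS : Surf Γ) {F : E × E → ℝ} (hF : ContDiff ℝ 2 F) (hi : InvL Γ F) (σ : Γ)
    {y : ℝ → E} (hy : ContDiff ℝ 1 y) (hx : IsOrbit F (fun s => σ • y s)) : IsOrbit F y := by
  refine ⟨hy, fun t => ?_⟩
  have h1 := (hx.2 t).clm_comp ((JacT_hB hS σ (y t)).comp_hasDerivAt t (JacT_hd hy t))
  simp only [ph_smul hS] at h1
  refine (h1.congr_of_eventuallyEq (Eventually.of_forall fun r => ?_)).congr_deriv ?_
  · refine ContinuousLinearMap.ext fun e => ?_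
    have h2 := JacT_d1 hS hF hi σ (ph y r) (0, e)
    simp only [map_zero, zero_apply, zero_add] at h2
    exact h2
  · refine ContinuousLinearMap.ext fun e => ?_
    have h2 := JacT_d1 hS hF hi σ (ph y t) (e, 0)
    rw [clm_split (fderiv ℝ F (tl σ (ph y t))), map_zero, add_zero, JacT_Bs hS] at h2
    exact h2.symm

theorem JacT_jac (hS : Surf Γ) {F : E × E → ℝ} (hF : ContDiff ℝ 2 F) (hi : InvL Γ F) (σ : Γ)
    {y η : ℝ → E} (hy : ContDiff ℝ 1 y) (hη : ContDiff ℝ 1 η) (hx : IsOrbit F (fun s => σ • y s))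
    (hξ : IsJacobi F (fun s => σ • y s) (fun s => dk σ (y s) (η s))) : IsJacobi F y η := by
  refine ⟨hη, fun t => ?_⟩
  have h1 := ((hξ.2 t).clm_comp ((JacT_hB hS σ (y t)).comp_hasDerivAt t (JacT_hd hy t))).fun_add
    ((hx.2 t).clm_comp
      ((JacT_cC hS σ (JacT_hd hy t)).clm_apply (JacT_hd hη t)))
  simp only [ph_smul hS, ph_dk hS σ hy hη] at h1
  refine (h1.congr_of_eventuallyEq (Eventually.of_forall fun r => ?_)).congr_deriv ?_
  · exact ContinuousLinearMap.ext fun e => JacT_d2v hS hF hi σ (ph y r) (ph η r) e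
  · refine ContinuousLinearMap.ext fun e => ?_
    have h2 := JacT_d2 hS hF hi σ (ph y t) (ph η t) (e, 0)
    rw [clm_split (fderiv ℝ F (tl σ (ph y t))), clm_split (D2 F (tl σ (ph y t)) _), map_zero,
      map_zero, add_zero, add_zero, JacT_Bs hS σ _ e, JacT_Bs hS σ _ e, ← JacT_Cs hS] at h2
    exact h2.symm

theorem JacT_cd (hS : Surf Γ) (σ : Γ) {x : ℝ → E} (hx : ContDiff ℝ 1 x) :
    ContDiff ℝ 1 (fun s => σ • x s) :=
  ((hS.smooth σ).of_le (by exact_mod_cast le_top)).comp hx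

theorem IsOrbit.smul (hS : Surf Γ) {F : E × E → ℝ} (hF : ContDiff ℝ 2 F) (hi : InvL Γ F) (σ : Γ)
    {x : ℝ → E} (hx : IsOrbit F x) : IsOrbit F (fun s => σ • x s) :=
  JacT_orb hS hF hi σ⁻¹ (JacT_cd hS σ hx.1) (by simpa only [inv_smul_smul] using hx)

theorem IsJacobi.smul (hS : Surf Γ) {F : E × E → ℝ} (hF : ContDiff ℝ 2 F) (hi : InvL Γ F) (σ : Γ)
    {x ξ : ℝ → E} (hx : IsOrbit F x) (hξ : IsJacobi F x ξ) :
    IsJacobi F (fun s => σ • x s) (fun s => dk σ (x s) (ξ s)) :=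
  JacT_jac hS hF hi σ⁻¹ (JacT_cd hS σ hx.1)
    ((((hS.contDiff_dk σ).of_le (by exact_mod_cast le_top)).comp hx.1).clm_apply hξ.1)
    (by simpa only [inv_smul_smul] using hx) (by simpa only [inv_smul_smul, hS.dk_inv] using hξ)

theorem Perd.ph (hS : Surf Γ) {x : ℝ → E} {P : ℝ} {σ : Γ} (hP : Perd x P σ) (t : ℝ) :
    ph x (t + P) = tl σ (ph x t) := by
  rw [← ph_shift, funext hP.2, ph_smul hS]

theorem JacT_shift {F : E × E → ℝ} {x ξ : ℝ → E} (hξ : IsJacobi F x ξ) (P : ℝ) :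
    IsJacobi F (fun t => x (t - P)) (fun t => ξ (t - P)) := by
  refine ⟨hξ.1.comp (contDiff_id.sub contDiff_const), fun t => ?_⟩
  simp only [JacT_ph_sub]
  exact (hξ.2 (t - P)).comp_sub_const t P

theorem Tp_jacobi (hS : Surf Γ) {F : E × E → ℝ} (hF : ContDiff ℝ 2 F) (hi : InvL Γ F)
    {x ξ : ℝ → E} {P : ℝ} {σ : Γ} (hx : IsOrbit F x) (hP : Perd x P σ) (hξ : IsJacobi F x ξ) :
    IsJacobi F x (Tp x P σ ξ) := by
  have h := JacT_shift (hξ.smul hS hF hi σ hx) P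
  simp only [← hP.2, sub_add_cancel] at h
  exact h

theorem pr_Tp (hS : Surf Γ) {F : E × E → ℝ} (hF : ContDiff ℝ 2 F) (hi : InvL Γ F)
    {x ξ : ℝ → E} {P : ℝ} {σ : Γ} (hx : ContDiff ℝ 1 x) (hP : Perd x P σ) (hξ : ContDiff ℝ 1 ξ)
    (t : ℝ) (w : E × E) :
    pr F x (Tp x P σ ξ) (t + P) (fderiv ℝ (tl σ) (ph x t) w) = pr F x ξ t w := by
  rw [pr_eq_Om, pr_eq_Om, hP.ph hS, ph_Tp hS σ P hx hξ, add_sub_cancel_right, Om_tl hS hF hi]

theorem om_Tp (hS : Surf Γ) {F : E × E → ℝ} (hF : ContDiff ℝ 2 F) (hi : InvL Γ F)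
    {x ξ ζ : ℝ → E} {P : ℝ} {σ : Γ} (hx : IsOrbit F x) (hP : Perd x P σ) (hξ : IsJacobi F x ξ)
    (hζ : IsJacobi F x ζ) : om F x (Tp x P σ ξ) (Tp x P σ ζ) 0 = om F x ξ ζ 0 := by
  rw [← om_const hF (Tp_jacobi hS hF hi hx hP hξ) (Tp_jacobi hS hF hi hx hP hζ) (0 + P), om,
    ph_Tp hS σ P hx.1 hζ.1, add_sub_cancel_right, pr_Tp hS hF hi hx.1 hP hξ.1, om]

theorem Tp_deriv (hS : Surf Γ) {x : ℝ → E} {P : ℝ} {σ : Γ} (hP : Perd x P σ) :
    Tp x P σ (deriv x) = deriv x := by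
  funext t
  have h := congrArg Prod.snd (hP.ph hS (t - P))
  rw [sub_add_cancel] at h
  exact h.symm

theorem Tp_lin (x : ℝ → E) (P : ℝ) (σ : Γ) (ξ ζ : ℝ → E) (a b : ℝ) :
    Tp x P σ (fun s => a • ξ s + b • ζ s) = fun s => a • Tp x P σ ξ s + b • Tp x P σ ζ s := by
  funext s
  simp only [Tp, map_add, map_smul]

theorem den_Tp (hS : Surf Γ) {F : E × E → ℝ} (hF : Tonelli Γ F)
    {x ξ : ℝ → E} {P : ℝ} {σ : Γ} (hx : IsOrbit F x) (hP : Perd x P σ) (hξ : IsJacobi F x ξ) :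
    den F x (Tp x P σ ξ) 0 = den F x ξ 0 := by
  have h := om_Tp hS hF.c2 hF.invL hx hP (hx.deriv_jacobi hF.c2 hF.conv) hξ
  rw [Tp_deriv hS hP] at h
  rw [den_eq_om hF.c2 hF.conv hx, den_eq_om hF.c2 hF.conv hx, h]

end Pool.Agent.Work.MP_1ce82a_an
end
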