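import Pool.Agent.Work.MP_1ce82a_an.A.Lsc
import Pool.Agent.Work.MP_1ce82a_an.J.JacT
import Pool.Agent.Work.MP_05654f_an.Flow
import Pool.Agent.Work.MP_1ce82a_an.U.Defs
import Pool.Agent.Work.MP_1ce82a_an.K.Meas

-- merged part: Pool.Agent.Work.MP_1ce82a_an.Q.Bump
section
-- merged part: Pool.Agent.Work.MP_1ce82a_an.Q.Bump
section
/-! Rotated coordinates and box functions.
PLAN. Coordinates: fin_cases d and simp (Prod.norm_def). Plateau: Real.smoothTransition (contDiff, nonneg, le_one, zero_iff_nonpos, one_of_one_le, pos_of_pos).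
Countability: inject Bx into a product of Fin 4 and eight copies of the rationals. exists_bx: d = 0 and rationals from exists_rat_btwn. -/

open Set Filter Topology MeasureTheory
open scoped ContDiff

namespace Pool.Agent.Work.MP_1ce82a_an

variable {Γ : Grp}

theorem X1_mk (d : Fin 4) (a b : ℝ) : X1 d (mk d a b) = a := by
  fin_cases d <;> simp [X1, mk]

theorem X2_mk (d : Fin 4) (a b : ℝ) : X2 d (mk d a b) = b := by
  fin_cases d <;> simp [X2, mk]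

theorem mk_X (d : Fin 4) (x : E) : mk d (X1 d x) (X2 d x) = x := by
  fin_cases d <;> simp [X1, X2, mk]

theorem norm_eq_X (d : Fin 4) (x : E) : ‖x‖ = max |X1 d x| |X2 d x| := by
  fin_cases d <;> simp [X1, X2, Prod.norm_def, max_comm]

theorem abs_X1_le (d : Fin 4) (x : E) : |X1 d x| ≤ ‖x‖ :=
  (le_max_left _ _).trans (norm_eq_X d x).ge

theorem abs_X2_le (d : Fin 4) (x : E) : |X2 d x| ≤ ‖x‖ :=
  (le_max_right _ _).trans (norm_eq_X d x).ge

theorem mk_sub (d : Fin 4) (a b a' b' : ℝ) : mk d a b - mk d a' b' = mk d (a - a') (b - b') := by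
  fin_cases d <;> simp [mk, sub_eq_add_neg, add_comm]

theorem norm_mk (d : Fin 4) (a b : ℝ) : ‖mk d a b‖ = max |a| |b| := by
  rw [norm_eq_X d, X1_mk, X2_mk]

theorem norm_mk_sub (d : Fin 4) (a b b' : ℝ) : ‖mk d a b - mk d a b'‖ = |b - b'| := by
  rw [mk_sub, norm_mk, sub_self, abs_zero, max_eq_right (abs_nonneg _)]

theorem continuous_mk (d : Fin 4) : Continuous (fun p : ℝ × ℝ => mk d p.1 p.2) := by
  fin_cases d <;> simp [mk] <;> constructor <;> fun_prop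

theorem eq_of_X {d : Fin 4} {x y : E} (h1 : X1 d x = X1 d y) (h2 : X2 d x = X2 d y) : x = y := by
  rw [← mk_X d x, h1, h2, mk_X]

theorem det2_X (d : Fin 4) (v w : E) : det2 v w = X1 d v * X2 d w - X2 d v * X1 d w := by
  fin_cases d <;> simp [X1, X2, det2] <;> ring

theorem abs_det2_le (v w : E) : |det2 v w| ≤ 2 * ‖v‖ * ‖w‖ := by
  have a1 : |v.1| ≤ ‖v‖ := norm_fst_le v
  have a2 : |v.2| ≤ ‖v‖ := norm_snd_le v
  have b1 : |w.1| ≤ ‖w‖ := norm_fst_le w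
  have b2 : |w.2| ≤ ‖w‖ := norm_snd_le w
  have c1 := mul_le_mul a1 b2 (abs_nonneg _) (norm_nonneg _)
  have c2 := mul_le_mul a2 b1 (abs_nonneg _) (norm_nonneg _)
  refine (abs_sub _ _).trans ?_
  rw [abs_mul, abs_mul]
  linarith

theorem exists_dir (v : E) : ∃ d : Fin 4, X1 d v = ‖v‖ := by
  rw [Prod.norm_def, Real.norm_eq_abs, Real.norm_eq_abs]
  rcases max_choice |v.1| |v.2| with h | h <;> rw [h]
  · rcases abs_choice v.1 with h' | h'
    · exact ⟨0, by simp [X1, h']⟩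
    · exact ⟨2, by simp [X1, h']⟩
  · rcases abs_choice v.2 with h' | h'
    · exact ⟨1, by simp [X1, h']⟩
    · exact ⟨3, by simp [X1, h']⟩

theorem bump_contDiff (a0 a1 a2 a3 : ℝ) : ContDiff ℝ ∞ (bump a0 a1 a2 a3) := by
  unfold bump
  exact (Real.smoothTransition.contDiff.comp ((contDiff_id.sub contDiff_const).div_const _)).mul
    (Real.smoothTransition.contDiff.comp ((contDiff_const.sub contDiff_id).div_const _))

theorem bump_nonneg (a0 a1 a2 a3 y : ℝ) : 0 ≤ bump a0 a1 a2 a3 y :=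
  mul_nonneg (Real.smoothTransition.nonneg _) (Real.smoothTransition.nonneg _)

theorem bump_le_one (a0 a1 a2 a3 y : ℝ) : bump a0 a1 a2 a3 y ≤ 1 :=
  mul_le_one₀ (Real.smoothTransition.le_one _) (Real.smoothTransition.nonneg _)
    (Real.smoothTransition.le_one _)

theorem bump_pos_iff {a0 a1 a2 a3 : ℝ} (h01 : a0 < a1) (h23 : a2 < a3) (y : ℝ) :
    0 < bump a0 a1 a2 a3 y ↔ a0 < y ∧ y < a3 := by
  rw [(bump_nonneg a0 a1 a2 a3 y).lt_iff_ne', bump, mul_ne_zero_iff, Ne, Ne,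
    Real.smoothTransition.zero_iff_nonpos, Real.smoothTransition.zero_iff_nonpos, not_le, not_le,
    div_pos_iff_of_pos_right (sub_pos.2 h01), div_pos_iff_of_pos_right (sub_pos.2 h23), sub_pos,
    sub_pos]

theorem bump_eq_one {a0 a1 a2 a3 y : ℝ} (h01 : a0 < a1) (h23 : a2 < a3) (h1 : a1 ≤ y)
    (h2 : y ≤ a2) : bump a0 a1 a2 a3 y = 1 := by
  rw [bump, Real.smoothTransition.one_of_one_le ((one_le_div (sub_pos.2 h01)).2 (by linarith)),
    Real.smoothTransition.one_of_one_le ((one_le_div (sub_pos.2 h23)).2 (by linarith)), one_mul]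

instance : Countable Bx :=
  Function.Injective.countable
    (f := fun B : Bx => (B.d, B.a0, B.a1, B.a2, B.a3, B.b0, B.b1, B.b2, B.b3)) (by
      rintro ⟨⟩ ⟨⟩ h
      simp only [Prod.mk.injEq] at h
      obtain ⟨rfl, rfl, rfl, rfl, rfl, rfl, rfl, rfl, rfl⟩ := h
      rfl)

instance : Nonempty Bx :=
  ⟨⟨0, 0, 1, 1, 2, 0, 1, 1, 2, by norm_num, by norm_num, by norm_num, by norm_num, by norm_num,
    by norm_num⟩⟩

theorem Bx.fa_cont (B : Bx) : Continuous B.fa := (bump_contDiff _ _ _ _).continuous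

theorem Bx.fa_nonneg (B : Bx) (y : ℝ) : 0 ≤ B.fa y := bump_nonneg _ _ _ _ _

theorem Bx.fa_int_pos (B : Bx) {a a' : ℝ} (h0 : a ≤ B.a0) (h3 : (B.a3 : ℝ) ≤ a') :
    0 < ∫ y in a..a', B.fa y := by
  have h01 : (B.a0 : ℝ) < B.a1 := by exact_mod_cast B.ha01
  have h12 : (B.a1 : ℝ) ≤ B.a2 := by exact_mod_cast B.ha12
  have h23 : (B.a2 : ℝ) < B.a3 := by exact_mod_cast B.ha23
  refine intervalIntegral.integral_pos (by linarith) B.fa_cont.continuousOn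
    (fun y _ => B.fa_nonneg y) ⟨B.a1, ⟨by linarith, by linarith⟩, ?_⟩
  exact (bump_pos_iff h01 h23 _).2 ⟨h01, by linarith⟩

theorem Bx.fb_eq_one (B : Bx) {y : ℝ} (h1 : (B.b1 : ℝ) ≤ y) (h2 : y ≤ B.b2) : B.fb y = 1 :=
  bump_eq_one (by exact_mod_cast B.hb01) (by exact_mod_cast B.hb23) h1 h2

theorem Bx.f0_contDiff (B : Bx) : ContDiff ℝ ∞ B.f0 :=
  ((bump_contDiff _ _ _ _).comp (X1 B.d).contDiff).mul
    ((bump_contDiff _ _ _ _).comp (X2 B.d).contDiff)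

theorem Bx.f1_contDiff (B : Bx) : ContDiff ℝ ∞ B.f1 := (X2 B.d).contDiff.mul B.f0_contDiff

theorem Bump_ne (B : Bx) (x : E) : B.f0 x ≠ 0 ↔
    ((B.a0 : ℝ) < X1 B.d x ∧ X1 B.d x < B.a3) ∧ ((B.b0 : ℝ) < X2 B.d x ∧ X2 B.d x < B.b3) := by
  rw [← bump_pos_iff (a1 := B.a1) (a2 := B.a2) (by exact_mod_cast B.ha01)
      (by exact_mod_cast B.ha23),
    ← bump_pos_iff (a1 := B.b1) (a2 := B.b2) (by exact_mod_cast B.hb01) (by exact_mod_cast B.hb23),
    (bump_nonneg _ _ _ _ _).lt_iff_ne', (bump_nonneg _ _ _ _ _).lt_iff_ne']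
  exact mul_ne_zero_iff

theorem Bx.f0_cpt (B : Bx) : HasCompactSupport B.f0 := by
  refine HasCompactSupport.intro (isCompact_closedBall (0 : E)
    (|(B.a0 : ℝ)| + |(B.a3 : ℝ)| + |(B.b0 : ℝ)| + |(B.b3 : ℝ)|)) fun x hx => by_contra fun h => hx ?_
  obtain ⟨⟨h1, h2⟩, h3, h4⟩ := (Bump_ne B x).1 h
  rw [mem_closedBall_zero_iff, norm_eq_X B.d]
  have := neg_abs_le (B.a0 : ℝ)
  have := le_abs_self (B.a3 : ℝ)
  have := neg_abs_le (B.b0 : ℝ)
  have := le_abs_self (B.b3 : ℝ)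
  have := abs_nonneg (B.a0 : ℝ)
  have := abs_nonneg (B.a3 : ℝ)
  have := abs_nonneg (B.b0 : ℝ)
  have := abs_nonneg (B.b3 : ℝ)
  refine max_le (abs_le.2 ⟨?_, ?_⟩) (abs_le.2 ⟨?_, ?_⟩) <;> linarith

theorem Bx.f1_cpt (B : Bx) : HasCompactSupport B.f1 := B.f0_cpt.mul_left

theorem Bx.f0_nonneg (B : Bx) (x : E) : 0 ≤ B.f0 x :=
  mul_nonneg (bump_nonneg _ _ _ _ _) (bump_nonneg _ _ _ _ _)

theorem Bx.f0_ne_zero_iff (B : Bx) (x : E) : B.f0 x ≠ 0 ↔
    ((B.a0 : ℝ) < X1 B.d x ∧ X1 B.d x < B.a3) ∧ ((B.b0 : ℝ) < X2 B.d x ∧ X2 B.d x < B.b3) :=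
  Bump_ne B x

theorem Bx.f1_bounds (B : Bx) (x : E) :
    (B.b0 : ℝ) * B.f0 x ≤ 1 * B.f1 x ∧ 1 * B.f1 x ≤ (B.b3 : ℝ) * B.f0 x := by
  rw [one_mul, Bx.f1]
  by_cases h : B.f0 x = 0
  · simp [h]
  · obtain ⟨-, h3, h4⟩ := (Bump_ne B x).1 h
    exact ⟨mul_le_mul_of_nonneg_right h3.le (B.f0_nonneg x),
      mul_le_mul_of_nonneg_right h4.le (B.f0_nonneg x)⟩

theorem exists_bx (x : E) {r : ℝ} (hr : 0 < r) :
    ∃ B : Bx, 0 < B.f0 x ∧ ∀ y, B.f0 y ≠ 0 → ‖y - x‖ < r := by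
  have key : ∀ t : ℝ, ∃ p q s : ℚ, p < q ∧ q < s ∧ t - r < p ∧ (p : ℝ) < t ∧ t < s ∧
      (s : ℝ) < t + r := fun t => by
    obtain ⟨p, p1, p2⟩ := exists_rat_btwn (show t - r < t by linarith)
    obtain ⟨s, s1, s2⟩ := exists_rat_btwn (show t < t + r by linarith)
    obtain ⟨q, q1, q2⟩ := exists_between (show p < s by exact_mod_cast p2.trans s1)
    exact ⟨p, q, s, q1, q2, p1, p2, s1, s2⟩
  obtain ⟨p, q, s, a1, a2, a3, a4, a5, a6⟩ := key (X1 0 x)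
  obtain ⟨p', q', s', b1, b2, b3, b4, b5, b6⟩ := key (X2 0 x)
  refine ⟨⟨0, p, q, q, s, p', q', q', s', a1, le_rfl, a2, b1, le_rfl, b2⟩,
    (Bx.f0_nonneg _ _).lt_of_ne' ((Bump_ne _ _).2 ⟨⟨a4, a5⟩, b4, b5⟩), fun y hy => ?_⟩
  obtain ⟨⟨h1, h2⟩, h3, h4⟩ := (Bump_ne _ _).1 hy
  rw [norm_eq_X 0, map_sub, map_sub]
  simp only at h1 h2 h3 h4
  refine max_lt (abs_lt.2 ⟨?_, ?_⟩) (abs_lt.2 ⟨?_, ?_⟩) <;> linarith

/-- A rational box with prescribed ranges for the eight levels. -/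
theorem exists_bx_levels (d : Fin 4) {a a' bl bu ν : ℝ} (ha : a < a') (hν : 0 < ν)
    (hb : bl + ν ≤ bu - ν) : ∃ B : Bx, B.d = d ∧ a < B.a0 ∧ (B.a3 : ℝ) < a' ∧
      bl - ν < B.b0 ∧ (B.b1 : ℝ) < bl + ν ∧ bu - ν < B.b2 ∧ (B.b3 : ℝ) < bu + ν := by
  have two : ∀ {s t : ℝ}, s < t → ∃ p q : ℚ, s < p ∧ p < q ∧ (q : ℝ) < t := fun h => by
    obtain ⟨p, p1, p2⟩ := exists_rat_btwn h
    obtain ⟨q, q1, q2⟩ := exists_rat_btwn p2
    exact ⟨p, q, p1, by exact_mod_cast q1, q2⟩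
  obtain ⟨p, s, a1, a2, a3⟩ := two ha
  obtain ⟨q, q1, q2⟩ := exists_between a2
  obtain ⟨b0, b1, c1, c2, c3⟩ := two (show bl - ν < bl + ν by linarith)
  obtain ⟨b2, b3, d1, d2, d3⟩ := two (show bu - ν < bu + ν by linarith)
  have h12 : b1 ≤ b2 := by exact_mod_cast (show (b1 : ℝ) ≤ b2 by linarith)
  exact ⟨⟨d, p, q, q, s, b0, b1, b2, b3, q1, le_rfl, q2, c2, h12, d2⟩, rfl, a1, a3, c1, c3, d1, d3⟩

end Pool.Agent.Work.MP_1ce82a_an
end

-- merged part: Pool.Agent.Work.MP_1ce82a_an.L.Iface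
section
/-! Interface of the exclusion of aperiodic laminations: definitions. -/

open Set Filter Topology MeasureTheory
open scoped ContDiff

namespace Pool.Agent.Work.MP_1ce82a_an

variable {Γ : Grp}

/-- A closed invariant family of curves forming a Lipschitz graph, without periodic members. -/
structure CurveSys (Γ : Grp) (Cv : Set (ℝ → E)) : Prop where
  ne : Cv.Nonempty
  shift : ∀ z ∈ Cv, ∀ s : ℝ, (fun t => z (t + s)) ∈ Cv
  smul : ∀ z ∈ Cv, ∀ γ : Γ, (fun t => γ • z t) ∈ Cv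
  diff : ∀ z ∈ Cv, ∀ t, HasDerivAt z (deriv z t) t
  lip : ∀ R : ℝ, ∃ K : ℝ, 0 ≤ K ∧ ∀ z1 ∈ Cv, ∀ z2 ∈ Cv, ‖z1 0‖ ≤ R → ‖z2 0‖ ≤ R →
    ‖deriv z1 0‖ ≤ K ∧ ‖deriv z1 0 - deriv z2 0‖ ≤ K * ‖z1 0 - z2 0‖
  closed : IsClosed {x : E | ∃ z ∈ Cv, z 0 = x}
  stay : ∀ R T : ℝ, ∃ R' : ℝ, ∀ z ∈ Cv, ‖z 0‖ ≤ R → ∀ t, |t| ≤ T → ‖z t‖ ≤ R'
  aper : ∀ z ∈ Cv, ∀ (P : ℝ) (σ : Γ), ¬ Perd z P σ

/-- Quadratic growth for closed chains of two arcs of the family. -/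
def ChQG (Cv : Set (ℝ → E)) (c1 : H1 Γ) (g : E → ℝ) (m : ℝ) : Prop :=
  ∀ r t0 : ℝ, 0 < t0 → ∃ C s0 : ℝ, 0 ≤ C ∧ 0 < s0 ∧ ∀ z1 ∈ Cv, ∀ z2 ∈ Cv, ∀ (T1 T2 : ℝ) (a1 a2 : Γ),
    t0 ≤ T1 → t0 ≤ T2 → ‖z1 0‖ ≤ r → ‖z2 0‖ ≤ r → ‖a1⁻¹ • z1 T1‖ ≤ r → ‖a2⁻¹ • z2 T2‖ ≤ r →
    ∀ s : ℝ, |s| ≤ s0 →
      s * (c1.1 a1 + c1.1 a2 + pot g z1 0 T1 + pot g z2 0 T2 - m * (T1 + T2)) ≤
        C * (‖a1⁻¹ • z1 T1 - z2 0‖ ^ 2 + ‖a2⁻¹ • z2 T2 - z1 0‖ ^ 2 +
          |s| * (‖a1⁻¹ • z1 T1 - z2 0‖ + ‖a2⁻¹ • z2 T2 - z1 0‖) + s ^ 2 * (T1 + T2))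

end Pool.Agent.Work.MP_1ce82a_an
end

-- merged part: Pool.Agent.Work.MP_1ce82a_an.L.NDefs
section
/-! Definitions for the exclusion of aperiodic laminations. -/

open Set Filter Topology MeasureTheory
open scoped ContDiff

namespace Pool.Agent.Work.MP_1ce82a_an

variable {Γ : Grp}

/-- A minimal aperiodic lamination of the surface, lifted to the plane and given as a flow. -/
structure Lam (Γ : Grp) (L : Set E) (V : E → E) (ψ : E → ℝ → E) : Prop where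
  ne : L.Nonempty
  closed : IsClosed L
  smul : ∀ γ : Γ, ∀ x ∈ L, γ • x ∈ L
  mem : ∀ x ∈ L, ∀ t, ψ x t ∈ L
  zero : ∀ x ∈ L, ψ x 0 = x
  add : ∀ x ∈ L, ∀ s t, ψ (ψ x s) t = ψ x (t + s)
  eqv : ∀ γ : Γ, ∀ x ∈ L, ∀ t, ψ (γ • x) t = γ • ψ x t
  der : ∀ x ∈ L, ∀ t, HasDerivAt (ψ x) (V (ψ x t)) t
  lip : ∀ R : ℝ, ∃ K : ℝ, 0 ≤ K ∧ ∀ x ∈ L, ∀ y ∈ L, ‖x‖ ≤ R → ‖y‖ ≤ R →
    ‖V x‖ ≤ K ∧ ‖V x - V y‖ ≤ K * ‖x - y‖
  stay : ∀ R T : ℝ, ∃ R' : ℝ, ∀ x ∈ L, ‖x‖ ≤ R → ∀ t, |t| ≤ T → ‖ψ x t‖ ≤ R'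
  aper : ∀ x ∈ L, ∀ (P : ℝ) (σ : Γ), 0 < P → ψ x P ≠ σ • x
  synd : ∀ x ∈ L, ∀ ε : ℝ, 0 < ε → ∃ T0 : ℝ, ∀ y ∈ L, ∃ s ∈ Icc 0 T0, ∃ γ : Γ,
    ‖γ • ψ y s - x‖ < ε

/-- An embedded ball in which the lamination moves in the direction of the first coordinate. -/
structure PreBox (Γ : Grp) (L : Set E) (V : E → E) (ψ : E → ℝ → E) (d : Fin 4) (x0 : E)
    (r v0 v1 K t1 : ℝ) : Prop where
  mem : x0 ∈ L
  r_pos : 0 < r
  v0_pos : 0 < v0
  v1_pos : 0 < v1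
  K_nonneg : 0 ≤ K
  t1_pos : 0 < t1
  emb : ∀ (γ : Γ) (y : E), ‖y - x0‖ ≤ r → ‖γ • y - x0‖ ≤ r → γ = 1
  dir : ∀ p ∈ L, ‖p - x0‖ ≤ r → v0 ≤ X1 d (V p) ∧ ‖V p‖ ≤ v1
  lip : ∀ p ∈ L, ∀ q ∈ L, ‖p - x0‖ ≤ r → ‖q - x0‖ ≤ r → ‖V p - V q‖ ≤ K * ‖p - q‖
  stay : ∀ p ∈ L, ‖p - x0‖ ≤ r / 2 → ∀ t, |t| ≤ t1 →
    ‖ψ p t - x0‖ ≤ r ∧ ‖ψ p t - p‖ ≤ v1 * |t|

/-- Time and height of the crossing of the section through `x0`. -/
structure Hgt (L : Set E) (ψ : E → ℝ → E) (d : Fin 4) (x0 : E) (r v0 t1 : ℝ) (τ H : E → ℝ) :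
    Prop where
  cτ : Continuous τ
  cH : Continuous H
  bd : ∀ p, |τ p| ≤ |X1 d p - X1 d x0| / v0
  onL : ∀ p ∈ L, ‖p - x0‖ ≤ r / 2 → |X1 d p - X1 d x0| ≤ v0 * t1 →
    ψ p (τ p) = mk d (X1 d x0) (H p)
  offL : ∀ p, |X1 d p - X1 d x0| ≤ v0 * t1 → ‖mk d (X1 d x0) (H p) - x0‖ ≤ r / 2 →
    mk d (X1 d x0) (H p) ∈ L → p ∈ L
  sec : ∀ y, H (mk d (X1 d x0) y) = y

/-- The data of a flow box. -/
structure BoxD where
  d : Fin 4
  x0 : E
  r : ℝ
  v0 : ℝ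
  v1 : ℝ
  K : ℝ
  t1 : ℝ
  bl : ℝ
  bu : ℝ
  ν : ℝ
  w : ℝ
  τ : E → ℝ
  H : E → ℝ

/-- The abscissa of the section. -/
noncomputable def BoxD.a (b : BoxD) : ℝ := X1 b.d b.x0

/-- The point of the section at height `y`. -/
noncomputable def BoxD.pt (b : BoxD) (y : ℝ) : E := MP_1ce82a_an.mk b.d b.a y

/-- The open box. -/
def BoxD.Q (b : BoxD) : Set E :=
  {p | |X1 b.d p - b.a| < b.w ∧ b.bl - b.ν < X2 b.d p ∧ X2 b.d p < b.bu + b.ν}

/-- The trace of the lamination on the section. -/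
def BoxD.Y (b : BoxD) (L : Set E) : Set ℝ := {y | b.bl ≤ y ∧ y ≤ b.bu ∧ b.pt y ∈ L}

/-- Crossings of the translates of the section. -/
def BoxD.Cr (b : BoxD) (Γ : Grp) (L : Set E) (ψ : E → ℝ → E) (y T : ℝ) (γ : Γ) (y' : ℝ) : Prop :=
  y ∈ b.Y L ∧ y' ∈ b.Y L ∧ ψ (b.pt y) T = γ • b.pt y'

/-- A flow box whose top and bottom miss the lamination. -/
structure IsBox (Γ : Grp) (L : Set E) (V : E → E) (ψ : E → ℝ → E) (b : BoxD) : Prop where
  pre : PreBox Γ L V ψ b.d b.x0 b.r b.v0 b.v1 b.K b.t1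
  hgt : Hgt L ψ b.d b.x0 b.r b.v0 b.t1 b.τ b.H
  ν_pos : 0 < b.ν
  w_pos : 0 < b.w
  mid : b.bl ≤ X2 b.d b.x0 ∧ X2 b.d b.x0 ≤ b.bu
  sub : ∀ p ∈ b.Q, ‖p - b.x0‖ ≤ b.r / 2
  gap : ∀ p ∈ L, p ∈ b.Q → b.bl + b.ν < X2 b.d p ∧ X2 b.d p < b.bu - b.ν
  w1 : b.w ≤ b.v0 * b.t1
  w2 : b.v1 * b.w ≤ b.ν * b.v0
  sm : 2 * (b.bu - b.bl + 2 * b.ν) * b.K * b.v1 ≤ b.v0 ^ 2

/-- The time symmetric properties of crossings. -/
structure CrBase {G : Type} [Group G] (Y : Set ℝ) (Cr : ℝ → ℝ → G → ℝ → Prop) (t0 T0 : ℝ) :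
    Prop where
  t0_pos : 0 < t0
  mem : ∀ y T γ y', Cr y T γ y' → y ∈ Y ∧ y' ∈ Y
  refl : ∀ y ∈ Y, Cr y 0 1 y
  symm : ∀ y T γ y', Cr y T γ y' → Cr y' (-T) γ⁻¹ y
  trans : ∀ y T γ y' T' γ' y'', Cr y T γ y' → Cr y' T' γ' y'' → Cr y (T + T') (γ * γ') y''
  sep : ∀ y T γ y', Cr y T γ y' → T = 0 ∨ t0 < |T|
  uniq : ∀ y γ y', Cr y 0 γ y' → γ = 1 ∧ y' = y
  fwd : ∀ y ∈ Y, ∃ T γ y', Cr y T γ y' ∧ 0 < T ∧ T ≤ T0
  bwd : ∀ y ∈ Y, ∃ T γ y', Cr y (-T) γ y' ∧ 0 < T ∧ T ≤ T0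
  cross : ∀ Tm : ℝ, ∃ C ρ : ℝ, 0 ≤ C ∧ 0 < ρ ∧ ∀ y1 T1 γ y1', ∀ y2 ∈ Y, Cr y1 T1 γ y1' →
    |T1| ≤ Tm → |y2 - y1| ≤ ρ →
      ∃ T2 y2', Cr y2 T2 γ y2' ∧ |T2 - T1| ≤ C * |y2 - y1| ∧ |y2' - y1'| ≤ C * |y2 - y1|

/-- Order preservation, aperiodicity and uniform recurrence of crossings. -/
structure CrMore {G : Type} [Group G] (Y : Set ℝ) (Cr : ℝ → ℝ → G → ℝ → Prop) : Prop where
  ord : ∀ Tm C : ℝ, ∃ ρ : ℝ, 0 < ρ ∧ ∀ y1 T1 γ y1' y2 T2 y2', Cr y1 T1 γ y1' → Cr y2 T2 γ y2' →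
    0 ≤ T1 → T1 ≤ Tm → |T2 - T1| ≤ C * |y2 - y1| → y1 < y2 → y2 ≤ y1 + ρ → y1' < y2'
  aper : ∀ y T γ, Cr y T γ y → ¬ 0 < T
  synd : ∀ y ∈ Y, ∀ ε : ℝ, 0 < ε → ∃ Tm : ℝ, ∀ z ∈ Y, ∃ T γ y', Cr z T γ y' ∧ 0 ≤ T ∧ T ≤ Tm ∧
    |y' - y| < ε

/-- Crossings preserve or reverse the order according to a sign character. -/
structure CrMoreS {G : Type} [Group G] (χ : G → ℝ) (Y : Set ℝ) (Cr : ℝ → ℝ → G → ℝ → Prop) :
    Prop where
  ord : ∀ Tm C : ℝ, ∃ ρ : ℝ, 0 < ρ ∧ ∀ y1 T1 γ y1' y2 T2 y2', Cr y1 T1 γ y1' → Cr y2 T2 γ y2' →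
    0 ≤ T1 → T1 ≤ Tm → |T2 - T1| ≤ C * |y2 - y1| → y1 < y2 → y2 ≤ y1 + ρ →
      0 < χ γ * (y2' - y1')
  aper : ∀ y T γ, Cr y T γ y → ¬ 0 < T
  synd : ∀ y ∈ Y, ∀ ε : ℝ, 0 < ε → ∃ Tm : ℝ, ∀ z ∈ Y, ∃ T γ y', Cr z T γ y' ∧ 0 ≤ T ∧ T ≤ Tm ∧
    |y' - y| < ε

theorem CrMoreS.toMore {G : Type} [Group G] {χ : G → ℝ} {Y : Set ℝ} {Cr : ℝ → ℝ → G → ℝ → Prop}
    (h : CrMoreS χ Y Cr) (hp : ∀ y T γ y', Cr y T γ y' → χ γ = 1) : CrMore Y Cr where
  ord := fun Tm C => (h.ord Tm C).imp fun ρ hρ => ⟨hρ.1, fun y1 T1 γ y1' y2 T2 y2' c1 c2 a b c d e => by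
    have := hρ.2 y1 T1 γ y1' y2 T2 y2' c1 c2 a b c d e
    rw [hp _ _ _ _ c1] at this
    linarith⟩
  aper := h.aper
  synd := h.synd

theorem CrMore.toS {G : Type} [Group G] {Y : Set ℝ} {Cr : ℝ → ℝ → G → ℝ → Prop}
    (h : CrMore Y Cr) : CrMoreS (fun _ => 1) Y Cr where
  ord := fun Tm C => (h.ord Tm C).imp fun ρ hρ => ⟨hρ.1, fun y1 T1 γ y1' y2 T2 y2' c1 c2 a b c d e => by
    have := hρ.2 y1 T1 γ y1' y2 T2 y2' c1 c2 a b c d e
    linarith⟩
  aper := h.aper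
  synd := h.synd

/-- First return map, time and deck transformation. -/
structure Ret {G : Type} [Group G] (Y : Set ℝ) (Cr : ℝ → ℝ → G → ℝ → Prop) (T0 : ℝ)
    (R tt : ℝ → ℝ) (s : ℝ → G) : Prop where
  cr : ∀ y ∈ Y, Cr y (tt y) (s y) (R y)
  pos : ∀ y ∈ Y, 0 < tt y
  le : ∀ y ∈ Y, tt y ≤ T0
  first : ∀ y T γ y', Cr y T γ y' → 0 < T → tt y ≤ T

/-- The time of the return number `n`. -/
noncomputable def Tn (R tt : ℝ → ℝ) (n : ℕ) (y : ℝ) : ℝ := ∑ j ∈ Finset.range n, tt (R^[j] y)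

/-- Contraction of windows. -/
def WinR (Y : Set ℝ) (R : ℝ → ℝ) (A : ℝ) : Prop :=
  ∀ y ∈ Y, ∀ y' ∈ Y, ∀ w ∈ Y, ∀ m n : ℕ, 1 ≤ m → m < n →
    (∀ j ≤ m, R^[j] y ≤ R^[j] w ∧ R^[j] w ≤ R^[j] y') → y ≤ R^[n] w → R^[n] w ≤ y' →
      ∑ j ∈ Finset.range m, (R^[j] y' - R^[j] y) ≤
        A * Real.sqrt n * ((y' - y) + (R^[m] y' - R^[m] y))

end Pool.Agent.Work.MP_1ce82a_an
end

-- merged part: Pool.Agent.Work.MP_1ce82a_an.L.Mono
section
/-! Monotonicity of passage integrals.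
PLAN. xi_i = X1 d (z_i .) is strictly increasing and C^1-differentiable on [0,t_i] from a to a'; let s_i be the inverse on [a,a'] (continuous; derivative 1/V_i by
HasDerivAt.of_local_left_inverse in the interior, or work with one sided derivatives). The derivatives are continuous along the curves: continuity of deriv z_i on [0,t_i] is a hypothesis.
Substitution (intervalIntegral.integral_comp_mul_deriv style, or integral_image_eq_integral_abs_deriv_smul) turns each integral into the integral over [a,a'] of psi(xi)(H_i - beta)/V_i with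
H_i = X2 d (z_i (s_i xi)). D = H_2 - H_1 has |D'| <= (2 K v1/v0^2)|D| (the points have the same X1, so their distance is |D|), so by Gronwall D(xi) >= D(a) exp(-2 K v1 (a'-a)/v0^2) > 0
(apply Gronwall backwards from a first zero, or to log), and the integrand difference is at least psi D (1/v1 - H0 K/v0^2) >= psi D/(2 v1).
cross_time: IVT and monotonicity for one curve with X1-speed at least v0. -/

open Set Filter Topology MeasureTheory
open scoped ContDiff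

namespace Pool.Agent.Work.MP_1ce82a_an

variable {Γ : Grp}

theorem Mono_incr {f f' : ℝ → ℝ} {a b v0 : ℝ}
    (h : ∀ t ∈ Icc a b, HasDerivAt f (f' t) t ∧ v0 ≤ f' t) :
    ∀ s ∈ Icc a b, ∀ t ∈ Icc a b, s ≤ t → v0 * (t - s) ≤ f t - f s :=
  (convex_Icc a b).mul_sub_le_image_sub_of_le_deriv
    (fun t ht => (h t ht).1.continuousAt.continuousWithinAt)
    (fun t ht => (h t (interior_subset ht)).1.differentiableAt.differentiableWithinAt)
    fun t ht => by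
      rw [(h t (interior_subset ht)).1.deriv]
      exact (h t (interior_subset ht)).2

theorem Mono_inv {f f' : ℝ → ℝ} {T v0 : ℝ} (hT : 0 ≤ T) (hv0 : 0 < v0)
    (h : ∀ t ∈ Icc 0 T, HasDerivAt f (f' t) t ∧ v0 ≤ f' t) :
    ∃ σ : ℝ → ℝ, (∀ y ∈ Icc (f 0) (f T), σ y ∈ Icc 0 T ∧ f (σ y) = y) ∧
      ContinuousOn σ (Icc (f 0) (f T)) ∧
      (∀ y ∈ Ioo (f 0) (f T), HasDerivAt σ (f' (σ y))⁻¹ y) ∧ σ (f 0) = 0 ∧ σ (f T) = T := by
  have hc : ContinuousOn f (Icc 0 T) := fun t ht => (h t ht).1.continuousAt.continuousWithinAt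
  have hi := Mono_incr h
  have hex : ∀ y, ∃ t, y ∈ Icc (f 0) (f T) → t ∈ Icc 0 T ∧ f t = y := fun y => by
    by_cases hy : y ∈ Icc (f 0) (f T)
    · obtain ⟨t, ht, e⟩ := intermediate_value_Icc hT hc hy
      exact ⟨t, fun _ => ⟨ht, e⟩⟩
    · exact ⟨0, fun k => absurd k hy⟩
  choose σ hσ using hex
  have hl : ∀ s ∈ Icc 0 T, ∀ t ∈ Icc 0 T, v0 * |s - t| ≤ |f s - f t| := fun s hs t ht => by
    rcases le_total s t with k | k
    · rw [abs_sub_comm, abs_of_nonneg (sub_nonneg.2 k), abs_sub_comm]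
      exact (hi s hs t ht k).trans (le_abs_self _)
    · rw [abs_of_nonneg (sub_nonneg.2 k)]
      exact (hi t ht s hs k).trans (le_abs_self _)
  have hσc : ContinuousOn σ (Icc (f 0) (f T)) := by
    refine (LipschitzOnWith.of_dist_le' (K := v0⁻¹) fun y hy y' hy' => ?_).continuousOn
    have k := hl _ (hσ y hy).1 _ (hσ y' hy').1
    rw [(hσ y hy).2, (hσ y' hy').2] at k
    rw [Real.dist_eq, Real.dist_eq, ← div_eq_inv_mul, le_div_iff₀' hv0]
    exact k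
  have h0T : f 0 ≤ f T := by
    have := hi 0 ⟨le_rfl, hT⟩ T ⟨hT, le_rfl⟩ hT
    nlinarith
  have hinj : ∀ t ∈ Icc 0 T, f t ∈ Icc (f 0) (f T) → σ (f t) = t := fun t ht k => by
    have k2 := hl _ (hσ _ k).1 t ht
    rw [(hσ _ k).2, sub_self, abs_zero] at k2
    exact sub_eq_zero.1 (abs_nonpos_iff.1 (le_of_mul_le_mul_left (by simpa using k2) hv0))
  refine ⟨σ, hσ, hσc, fun y hy => ?_, hinj 0 ⟨le_rfl, hT⟩ ⟨le_rfl, h0T⟩,
    hinj T ⟨hT, le_rfl⟩ ⟨h0T, le_rfl⟩⟩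
  have hn : Icc (f 0) (f T) ∈ 𝓝 y := Icc_mem_nhds hy.1 hy.2
  have k := h _ (hσ y (Ioo_subset_Icc_self hy)).1
  exact HasDerivAt.of_local_left_inverse (hσc.continuousAt hn) k.1 (hv0.trans_le k.2).ne'
    (by filter_upwards [hn] with y' hy' using (hσ y' hy').2)

theorem Mono_gron {D D' p p' : ℝ → ℝ} {T : ℝ} (hD : ContinuousOn D (Icc 0 T))
    (hp : ContinuousOn p (Icc 0 T))
    (h : ∀ s ∈ Ioo 0 T, HasDerivAt D (D' s) s ∧ HasDerivAt p (p' s) s ∧ |D' s| ≤ p' s * |D s|)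
    (h0 : 0 ≤ D 0) : ∀ s ∈ Icc 0 T, D 0 * Real.exp (p 0 - p s) ≤ D s := by
  have hA : AntitoneOn (fun s => D s ^ 2 * Real.exp (-2 * p s)) (Icc 0 T) := by
    refine antitoneOn_of_hasDerivWithinAt_nonpos (convex_Icc 0 T)
      (f' := fun s => 2 * D s * D' s * Real.exp (-2 * p s) +
        D s ^ 2 * (Real.exp (-2 * p s) * (-2 * p' s))) (by fun_prop) (fun s hs => ?_) fun s hs => ?_
    · rw [interior_Icc] at hs
      have k := ((h s hs).1.fun_pow 2).fun_mul ((h s hs).2.1.const_mul (-2)).exp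
      simpa using k.hasDerivWithinAt
    · rw [interior_Icc] at hs
      have k1 : D s * D' s ≤ p' s * D s ^ 2 := by
        have k := mul_le_mul_of_nonneg_left (h s hs).2.2 (abs_nonneg (D s))
        rw [← abs_mul, mul_left_comm, abs_mul_abs_self, ← sq] at k
        exact (le_abs_self _).trans k
      have k2 := Real.exp_pos (-2 * p s)
      nlinarith
  have hpos : ∀ s ∈ Icc 0 T, 0 ≤ D s := fun s hs => by
    by_contra hn
    obtain ⟨s1, hs1, e⟩ := intermediate_value_Icc' hs.1 (hD.mono (Icc_subset_Icc_right hs.2))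
      (show (0 : ℝ) ∈ Icc (D s) (D 0) from ⟨(not_le.1 hn).le, h0⟩)
    have k := hA ⟨hs1.1, hs1.2.trans hs.2⟩ hs hs1.2
    simp only [e] at k
    have k2 := mul_pos (sq_pos_of_neg (not_le.1 hn)) (Real.exp_pos (-2 * p s))
    linarith
  have hM : MonotoneOn (fun s => D s * Real.exp (p s)) (Icc 0 T) := by
    refine monotoneOn_of_hasDerivWithinAt_nonneg (convex_Icc 0 T)
      (f' := fun s => D' s * Real.exp (p s) + D s * (Real.exp (p s) * p' s)) (by fun_prop)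
      (fun s hs => ?_) fun s hs => ?_
    · rw [interior_Icc] at hs
      exact ((h s hs).1.fun_mul (h s hs).2.1.exp).hasDerivWithinAt
    · rw [interior_Icc] at hs
      have k := (h s hs).2.2
      rw [abs_of_nonneg (hpos s (Ioo_subset_Icc_self hs))] at k
      have k1 := neg_abs_le (D' s)
      have k2 := Real.exp_pos (p s)
      nlinarith
  intro s hs
  have k := hM ⟨le_rfl, hs.1.trans hs.2⟩ hs hs.1
  rw [Real.exp_sub, ← mul_div_assoc, div_le_iff₀ (Real.exp_pos _)]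
  exact k

theorem Mono_pt {v0 v1 V1 V2 m D h H0 K : ℝ} (hv0 : 0 < v0) (h1 : v0 ≤ V1) (h2 : v0 ≤ V2)
    (h3 : V2 ≤ v1) (hm : 0 ≤ m) (hD : m ≤ D) (hh : |h| ≤ H0) (hV : |V1 - V2| ≤ K * D)
    (hsm : 2 * H0 * K * v1 ≤ v0 ^ 2) : m / (2 * v1) * V1 ≤ (h + D) * (V2⁻¹ * V1) - h := by
  have p2 : 0 < V2 := hv0.trans_le h2
  have p1 : 0 < v1 := p2.trans_le h3
  have p3 : 0 < V1 := hv0.trans_le h1
  have d0 : 0 ≤ D := hm.trans hD
  have k1 : |h * (V1 - V2)| ≤ H0 * (K * D) := by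
    rw [abs_mul]
    exact mul_le_mul hh hV (abs_nonneg _) ((abs_nonneg _).trans hh)
  have k2 := neg_abs_le (h * (V1 - V2))
  have k3 : m * V2 ≤ D * v1 := mul_le_mul hD h3 p2.le d0
  have k4 : v0 ^ 2 ≤ V1 * v1 := by nlinarith
  have k5 : 2 * H0 * K * v1 * D ≤ V1 * v1 * D := mul_le_mul_of_nonneg_right (hsm.trans k4) d0
  have k6 : m * V2 * V1 ≤ D * v1 * V1 := mul_le_mul_of_nonneg_right k3 p3.le
  have k7 : -(H0 * (K * D)) * v1 ≤ h * (V1 - V2) * v1 :=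
    mul_le_mul_of_nonneg_right (by linarith) p1.le
  have e : (h + D) * (V2⁻¹ * V1) - h = ((h + D) * V1 - h * V2) / V2 := by
    field_simp
  rw [e, div_mul_eq_mul_div, div_le_div_iff₀ (by positivity) p2]
  nlinarith

theorem Mono_der {v0 v1 V1 V2 W1 W2 K D : ℝ} (hv0 : 0 < v0) (h1 : v0 ≤ V1) (h2 : v0 ≤ V2)
    (h3 : V1 ≤ v1) (h4 : |W1| ≤ v1) (hV : |V1 - V2| ≤ K * D) (hW : |W1 - W2| ≤ K * D) :
    |W2 * (V2⁻¹ * V1) - W1| ≤ 2 * K * v1 / v0 ^ 2 * V1 * D := by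
  have p2 : 0 < V2 := hv0.trans_le h2
  have p3 : 0 < V1 := hv0.trans_le h1
  have p1 : 0 < v1 := p3.trans_le h3
  have d0 : 0 ≤ K * D := (abs_nonneg _).trans hV
  have e : W2 * (V2⁻¹ * V1) - W1 = (W1 * (V1 - V2) - (W1 - W2) * V1) / V2 := by
    field_simp
    ring
  have k1 : |W1 * (V1 - V2) - (W1 - W2) * V1| ≤ v1 * (K * D) + K * D * v1 := by
    refine (abs_sub _ _).trans (add_le_add ?_ ?_)
    · rw [abs_mul]
      exact mul_le_mul h4 hV (abs_nonneg _) p1.le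
    · rw [abs_mul, abs_of_pos p3]
      exact mul_le_mul hW h3 p3.le d0
  have e2 : 2 * K * v1 / v0 ^ 2 * V1 * D = (v1 * (K * D) + K * D * v1) * V1 / v0 ^ 2 := by
    ring
  have k2 : v0 ^ 2 ≤ V1 * V2 := by nlinarith
  rw [e, abs_div, abs_of_pos p2, e2, div_le_div_iff₀ p2 (by positivity), mul_assoc]
  exact mul_le_mul k1 k2 (by positivity) (by positivity)

theorem Mono_sub (d : Fin 4) {z : ℝ → E} {t1 : ℝ} {ψ : ℝ → ℝ} (hψ : Continuous ψ) (ht1 : 0 ≤ t1)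
    (h1 : ∀ t ∈ Icc 0 t1, HasDerivAt z (deriv z t) t) (hc : ContinuousOn (deriv z) (Icc 0 t1)) :
    ∫ y in X1 d (z 0)..X1 d (z t1), ψ y = ∫ t in (0 : ℝ)..t1, ψ (X1 d (z t)) * X1 d (deriv z t) := by
  refine (intervalIntegral.integral_comp_mul_deriv (f := fun t => X1 d (z t))
    (f' := fun t => X1 d (deriv z t)) (fun t ht => ?_) ?_ hψ).symm
  · rw [uIcc_of_le ht1] at ht
    exact (X1 d).hasFDerivAt.comp_hasDerivAt t (h1 t ht)
  · rw [uIcc_of_le ht1]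
    exact (X1 d).continuous.comp_continuousOn hc

theorem mono_pass (d : Fin 4) {z1 z2 : ℝ → E} {t1 t2 a a' v0 v1 K H0 β : ℝ} {ψ : ℝ → ℝ}
    (hψ : Continuous ψ) (hψ0 : ∀ y, 0 ≤ ψ y) (ht1 : 0 ≤ t1) (ht2 : 0 ≤ t2) (hv0 : 0 < v0)
    (hK : 0 ≤ K) (hsm : 2 * H0 * K * v1 ≤ v0 ^ 2)
    (h1 : ∀ t ∈ Icc 0 t1, HasDerivAt z1 (deriv z1 t) t ∧ v0 ≤ X1 d (deriv z1 t) ∧
      ‖deriv z1 t‖ ≤ v1 ∧ |X2 d (z1 t) - β| ≤ H0)
    (h2 : ∀ t ∈ Icc 0 t2, HasDerivAt z2 (deriv z2 t) t ∧ v0 ≤ X1 d (deriv z2 t) ∧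
      ‖deriv z2 t‖ ≤ v1 ∧ |X2 d (z2 t) - β| ≤ H0)
    (hc1 : ContinuousOn (deriv z1) (Icc 0 t1)) (hc2 : ContinuousOn (deriv z2) (Icc 0 t2))
    (hl : ∀ s ∈ Icc 0 t1, ∀ t ∈ Icc 0 t2, ‖deriv z1 s - deriv z2 t‖ ≤ K * ‖z1 s - z2 t‖)
    (ha1 : X1 d (z1 0) = a) (ha2 : X1 d (z2 0) = a) (hb1 : X1 d (z1 t1) = a')
    (hb2 : X1 d (z2 t2) = a') (hlt : X2 d (z1 0) ≤ X2 d (z2 0)) :
    Real.exp (-(2 * K * v1 * (a' - a) / v0 ^ 2)) / (2 * v1) * (∫ y in a..a', ψ y) *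
        (X2 d (z2 0) - X2 d (z1 0)) ≤
      (∫ t in (0 : ℝ)..t2, ψ (X1 d (z2 t)) * (X2 d (z2 t) - β)) -
        ∫ t in (0 : ℝ)..t1, ψ (X1 d (z1 t)) * (X2 d (z1 t) - β) := by
  have d1 : ∀ t ∈ Icc 0 t1, HasDerivAt (fun t => X1 d (z1 t)) (X1 d (deriv z1 t)) t ∧
      v0 ≤ X1 d (deriv z1 t) := fun t ht =>
    ⟨(X1 d).hasFDerivAt.comp_hasDerivAt t (h1 t ht).1, (h1 t ht).2.1⟩
  have d2 : ∀ t ∈ Icc 0 t2, HasDerivAt (fun t => X1 d (z2 t)) (X1 d (deriv z2 t)) t ∧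
      v0 ≤ X1 d (deriv z2 t) := fun t ht =>
    ⟨(X1 d).hasFDerivAt.comp_hasDerivAt t (h2 t ht).1, (h2 t ht).2.1⟩
  obtain ⟨σ, s1, s2, s3, s4, s5⟩ := Mono_inv ht2 hv0 d2
  simp only [ha2, hb2] at s1 s2 s3 s4 s5
  have i1 := Mono_incr d1
  have m1 : ∀ s ∈ Icc 0 t1, X1 d (z1 s) ∈ Icc a a' := fun s hs => by
    have k1 := i1 0 ⟨le_rfl, ht1⟩ s hs hs.1
    have k2 := i1 s hs t1 ⟨ht1, le_rfl⟩ hs.2
    have k3 := mul_nonneg hv0.le (sub_nonneg.2 hs.1)
    have k4 := mul_nonneg hv0.le (sub_nonneg.2 hs.2)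
    exact ⟨by linarith, by linarith⟩
  have m2 : ∀ s ∈ Ioo 0 t1, X1 d (z1 s) ∈ Ioo a a' := fun s hs => by
    have k1 := i1 0 ⟨le_rfl, ht1⟩ s (Ioo_subset_Icc_self hs) hs.1.le
    have k2 := i1 s (Ioo_subset_Icc_self hs) t1 ⟨ht1, le_rfl⟩ hs.2.le
    have k3 := mul_pos hv0 (sub_pos.2 hs.1)
    have k4 := mul_pos hv0 (sub_pos.2 hs.2)
    exact ⟨by linarith, by linarith⟩
  have c1 : ContinuousOn z1 (Icc 0 t1) := fun t ht => (h1 t ht).1.continuousAt.continuousWithinAt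
  have c2 : ContinuousOn z2 (Icc 0 t2) := fun t ht => (h2 t ht).1.continuousAt.continuousWithinAt
  obtain ⟨τ, hτ⟩ : ∃ τ : ℝ → ℝ, τ = fun s => σ (X1 d (z1 s)) := ⟨_, rfl⟩
  have τm : MapsTo τ (Icc 0 t1) (Icc 0 t2) := fun s hs => hτ ▸ (s1 _ (m1 s hs)).1
  have τe : ∀ s ∈ Icc 0 t1, X1 d (z2 (τ s)) = X1 d (z1 s) := fun s hs => hτ ▸ (s1 _ (m1 s hs)).2
  have τc : ContinuousOn τ (Icc 0 t1) :=
    hτ ▸ s2.comp ((X1 d).continuous.comp_continuousOn c1) m1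
  have τd : ∀ s ∈ Ioo 0 t1,
      HasDerivAt τ ((X1 d (deriv z2 (τ s)))⁻¹ * X1 d (deriv z1 s)) s := fun s hs =>
    hτ ▸ (s3 _ (m2 s hs)).comp s (d1 s (Ioo_subset_Icc_self hs)).1
  have τ0 : τ 0 = 0 := by rw [hτ]; simp only [ha1, s4]
  have τ1 : τ t1 = t2 := by rw [hτ]; simp only [hb1, s5]
  have c3 : ContinuousOn (fun s => z2 (τ s)) (Icc 0 t1) := c2.comp τc τm
  have c4 : ContinuousOn (fun s => deriv z2 (τ s)) (Icc 0 t1) := hc2.comp τc τm
  have c5 : ContinuousOn (fun s => (X1 d (deriv z2 (τ s)))⁻¹ * X1 d (deriv z1 s)) (Icc 0 t1) :=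
    (((X1 d).continuous.comp_continuousOn c4).inv₀ fun s hs =>
      (hv0.trans_le (h2 _ (τm hs)).2.1).ne').mul ((X1 d).continuous.comp_continuousOn hc1)
  have hn : ∀ s ∈ Icc 0 t1, ‖deriv z1 s - deriv z2 (τ s)‖ ≤
      K * |X2 d (z2 (τ s)) - X2 d (z1 s)| := fun s hs => by
    have k := hl s hs _ (τm hs)
    rwa [norm_eq_X d (z1 s - _), map_sub, map_sub, τe s hs, sub_self, abs_zero,
      max_eq_right (abs_nonneg _), abs_sub_comm] at k
  have hV : ∀ s ∈ Icc 0 t1, |X1 d (deriv z1 s) - X1 d (deriv z2 (τ s))| ≤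
      K * |X2 d (z2 (τ s)) - X2 d (z1 s)| := fun s hs => by
    rw [← map_sub]
    exact (abs_X1_le d _).trans (hn s hs)
  have hW : ∀ s ∈ Icc 0 t1, |X2 d (deriv z1 s) - X2 d (deriv z2 (τ s))| ≤
      K * |X2 d (z2 (τ s)) - X2 d (z1 s)| := fun s hs => by
    rw [← map_sub]
    exact (abs_X2_le d _).trans (hn s hs)
  have hv1 : 0 < v1 := hv0.trans_le ((h1 0 ⟨le_rfl, ht1⟩).2.1.trans
    ((le_abs_self _).trans ((abs_X1_le d _).trans (h1 0 ⟨le_rfl, ht1⟩).2.2.1)))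
  have hg := Mono_gron (T := t1) (D := fun s => X2 d (z2 (τ s)) - X2 d (z1 s))
    (D' := fun s => X2 d (deriv z2 (τ s)) * ((X1 d (deriv z2 (τ s)))⁻¹ * X1 d (deriv z1 s)) -
      X2 d (deriv z1 s)) (p := fun s => 2 * K * v1 / v0 ^ 2 * X1 d (z1 s))
    (p' := fun s => 2 * K * v1 / v0 ^ 2 * X1 d (deriv z1 s))
    (((X2 d).continuous.comp_continuousOn c3).sub ((X2 d).continuous.comp_continuousOn c1))
    (continuousOn_const.mul ((X1 d).continuous.comp_continuousOn c1))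
    (fun s hs => by
      have hs' := Ioo_subset_Icc_self hs
      have k1 : HasDerivAt (fun t => X2 d (z2 t)) (X2 d (deriv z2 (τ s))) (τ s) :=
        (X2 d).hasFDerivAt.comp_hasDerivAt _ (h2 _ (τm hs')).1
      have k2 : HasDerivAt (fun t => X2 d (z1 t)) (X2 d (deriv z1 s)) s :=
        (X2 d).hasFDerivAt.comp_hasDerivAt _ (h1 _ hs').1
      exact ⟨(k1.comp s (τd s hs)).fun_sub k2, (d1 s hs').1.const_mul _,
        Mono_der hv0 (h1 s hs').2.1 (h2 _ (τm hs')).2.1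
          ((le_abs_self _).trans ((abs_X1_le d _).trans (h1 s hs').2.2.1))
          ((abs_X2_le d _).trans (h1 s hs').2.2.1) (hV s hs') (hW s hs')⟩)
    (by simp only [τ0]; exact sub_nonneg.2 hlt)
  simp only [τ0, ha1] at hg
  have cg : ContinuousOn (fun t => ψ (X1 d (z2 t)) * (X2 d (z2 t) - β)) (Icc 0 t2) :=
    (hψ.comp_continuousOn ((X1 d).continuous.comp_continuousOn c2)).mul
      (((X2 d).continuous.comp_continuousOn c2).sub continuousOn_const)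
  have e2 := intervalIntegral.integral_comp_mul_deriv'' (a := 0) (b := t1) (f := τ)
    (f' := fun s => (X1 d (deriv z2 (τ s)))⁻¹ * X1 d (deriv z1 s))
    (g := fun t => ψ (X1 d (z2 t)) * (X2 d (z2 t) - β)) (by rwa [uIcc_of_le ht1])
    (fun s hs => by
      rw [min_eq_left ht1, max_eq_right ht1] at hs
      exact (τd s hs).hasDerivWithinAt) (by rwa [uIcc_of_le ht1])
    (by rw [uIcc_of_le ht1]; exact cg.mono τm.image_subset)
  have cψ : ContinuousOn (fun t => ψ (X1 d (z1 t))) (Icc 0 t1) :=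
    hψ.comp_continuousOn ((X1 d).continuous.comp_continuousOn c1)
  have I1 := ((cg.comp τc τm).mul c5).intervalIntegrable_of_Icc (μ := volume) ht1
  have I2 := (cψ.mul (((X2 d).continuous.comp_continuousOn c1).sub
    (continuousOn_const (c := β)))).intervalIntegrable_of_Icc (μ := volume) ht1
  have I3 := (cψ.mul ((X1 d).continuous.comp_continuousOn hc1)).intervalIntegrable_of_Icc
    (μ := volume) ht1
  have e1 := Mono_sub d hψ ht1 (fun t ht => (h1 t ht).1) hc1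
  rw [ha1, hb1] at e1
  rw [τ0, τ1] at e2
  rw [← e2, e1, mul_right_comm, ← intervalIntegral.integral_const_mul]
  refine le_trans (intervalIntegral.integral_mono_on ht1 (I3.const_mul _) (I1.sub I2)
    fun s hs => ?_) (intervalIntegral.integral_sub I1 I2).le
  have hD0 := sub_nonneg.2 hlt
  have k1 : (X2 d (z2 0) - X2 d (z1 0)) * Real.exp (-(2 * K * v1 * (a' - a) / v0 ^ 2)) ≤
      X2 d (z2 (τ s)) - X2 d (z1 s) := by
    refine le_trans (mul_le_mul_of_nonneg_left (Real.exp_le_exp.2 ?_) hD0) (hg s hs)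
    have k := mul_le_mul_of_nonneg_left (m1 s hs).2
      (show 0 ≤ 2 * K * v1 / v0 ^ 2 by positivity)
    have e : 2 * K * v1 * (a' - a) / v0 ^ 2 =
      2 * K * v1 / v0 ^ 2 * a' - 2 * K * v1 / v0 ^ 2 * a := by ring
    linarith
  have k0 := mul_nonneg hD0 (Real.exp_pos (-(2 * K * v1 * (a' - a) / v0 ^ 2))).le
  have k2 := hV s hs
  rw [abs_of_nonneg (k0.trans k1)] at k2
  have k3 := mul_le_mul_of_nonneg_left (Mono_pt hv0 (h1 s hs).2.1 (h2 _ (τm hs)).2.1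
    ((le_abs_self _).trans ((abs_X1_le d _).trans (h2 _ (τm hs)).2.2.1)) k0 k1
    (h1 s hs).2.2.2 k2 hsm) (hψ0 (X1 d (z1 s)))
  simp only [Function.comp_apply, Pi.mul_apply, Pi.sub_apply, τe s hs]
  refine le_of_eq_of_le ?_ (k3.trans_eq ?_) <;> ring

theorem pass_lower (d : Fin 4) {z : ℝ → E} {t1 a a' v0 v1 : ℝ} {ψ : ℝ → ℝ}
    (hψ : Continuous ψ) (hψ0 : ∀ y, 0 ≤ ψ y) (ht1 : 0 ≤ t1) (hv0 : 0 < v0)
    (h1 : ∀ t ∈ Icc 0 t1, HasDerivAt z (deriv z t) t ∧ v0 ≤ X1 d (deriv z t) ∧ ‖deriv z t‖ ≤ v1)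
    (hc : ContinuousOn (deriv z) (Icc 0 t1)) (ha : X1 d (z 0) = a) (hb : X1 d (z t1) = a') :
    (∫ y in a..a', ψ y) / v1 ≤ ∫ t in (0 : ℝ)..t1, ψ (X1 d (z t)) := by
  have hv1 : 0 < v1 := hv0.trans_le ((h1 0 ⟨le_rfl, ht1⟩).2.1.trans
    ((le_abs_self _).trans ((abs_X1_le d _).trans (h1 0 ⟨le_rfl, ht1⟩).2.2)))
  have c1 : ContinuousOn z (Icc 0 t1) := fun t ht => (h1 t ht).1.continuousAt.continuousWithinAt
  have cψ : ContinuousOn (fun t => ψ (X1 d (z t))) (Icc 0 t1) :=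
    hψ.comp_continuousOn ((X1 d).continuous.comp_continuousOn c1)
  rw [← ha, ← hb, Mono_sub d hψ ht1 (fun t ht => (h1 t ht).1) hc, div_le_iff₀ hv1,
    ← intervalIntegral.integral_mul_const]
  exact intervalIntegral.integral_mono_on ht1
    ((cψ.mul ((X1 d).continuous.comp_continuousOn hc)).intervalIntegrable_of_Icc ht1)
    ((cψ.intervalIntegrable_of_Icc ht1).mul_const _) fun s hs => mul_le_mul_of_nonneg_left
      ((le_abs_self _).trans ((abs_X1_le d _).trans (h1 s hs).2.2)) (hψ0 _)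

theorem incr_of_deriv {f f' : ℝ → ℝ} {a b v0 : ℝ}
    (h : ∀ t ∈ Icc a b, HasDerivAt f (f' t) t ∧ v0 ≤ f' t) :
    ∀ s ∈ Icc a b, ∀ t ∈ Icc a b, s ≤ t → v0 * (t - s) ≤ f t - f s :=
  Mono_incr h

theorem cross_time {f f' : ℝ → ℝ} {t0 r v0 y : ℝ} (hv0 : 0 < v0)
    (h : ∀ t ∈ Icc (t0 - r) (t0 + r), HasDerivAt f (f' t) t ∧ v0 ≤ f' t)
    (hy : |f t0 - y| ≤ v0 * r) : ∃ t : ℝ, |t - t0| ≤ |f t0 - y| / v0 ∧ f t = y := by
  obtain ⟨ρ, hρ⟩ : ∃ ρ, ρ = |f t0 - y| / v0 := ⟨_, rfl⟩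
  have e : v0 * ρ = |f t0 - y| := by rw [hρ, mul_div_cancel₀ _ hv0.ne']
  have r0 : 0 ≤ ρ := hρ ▸ div_nonneg (abs_nonneg _) hv0.le
  have r1 : ρ ≤ r := le_of_mul_le_mul_left (e ▸ hy) hv0
  have hs : Icc (t0 - ρ) (t0 + ρ) ⊆ Icc (t0 - r) (t0 + r) :=
    Icc_subset_Icc (by linarith) (by linarith)
  have i := Mono_incr fun t ht => h t (hs ht)
  have k1 := i (t0 - ρ) ⟨le_rfl, by linarith⟩ t0 ⟨by linarith, by linarith⟩ (by linarith)
  have k2 := i t0 ⟨by linarith, by linarith⟩ (t0 + ρ) ⟨by linarith, le_rfl⟩ (by linarith)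
  rw [sub_sub_cancel, e] at k1
  rw [add_sub_cancel_left, e] at k2
  have k3 := le_abs_self (f t0 - y)
  have k4 := neg_abs_le (f t0 - y)
  obtain ⟨t, ht, et⟩ := intermediate_value_Icc (f := f) (show t0 - ρ ≤ t0 + ρ by linarith)
    (fun t ht => (h t (hs ht)).1.continuousAt.continuousWithinAt)
    (show y ∈ Icc (f (t0 - ρ)) (f (t0 + ρ)) from ⟨by linarith, by linarith⟩)
  exact ⟨t, hρ ▸ abs_le.2 ⟨by linarith [ht.1], by linarith [ht.2]⟩, et⟩

end Pool.Agent.Work.MP_1ce82a_an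
end

-- merged part: Pool.Agent.Work.MP_1ce82a_an.L.NExt
section
/-! Elementary properties of a lamination and extension of its flow.
PLAN. V_eqv: differentiate eqv at time 0 (Surf.hasDerivAt_smul, HasDerivAt.unique). gron: gron_lip in the ball given by stay. V_ne: if V x = 0 then gron_lip against the constant curve shows that
psi x is constant, against aper with P = 1 and the identity. speed_lo: V is continuous on the compact set L inter closed ball, take the minimum of the norm.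
ext: LipschitzOnWith.extend_finite_dimension. trans: W from ext on a ball containing the curves of length |T| through the points at distance at most 1 from x or from psi x T, phi from exists_flow, Phi = phi T;
IsFlow.unique_Icc identifies phi with psi; if Phi q = p is in L then q = phi (-T) p = psi p (-T).
thin: an interior point is visited by every curve (synd), interior points are moved to interior points by the group and pulled back by trans; so L is open and closed, hence everything (isClopen_iff), against hN. -/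

open Set Filter Topology MeasureTheory
open scoped ContDiff

namespace Pool.Agent.Work.MP_1ce82a_an

variable {Γ : Grp}

variable {L : Set E} {V : E → E} {ψ : E → ℝ → E}

theorem Lam.cont (h : Lam Γ L V ψ) {x : E} (hx : x ∈ L) : Continuous (ψ x) :=
  continuous_iff_continuousAt.2 fun t => (h.der x hx t).continuousAt

theorem Lam.deriv_eq (h : Lam Γ L V ψ) {x : E} (hx : x ∈ L) (t : ℝ) :
    deriv (ψ x) t = V (ψ x t) := (h.der x hx t).deriv

theorem Lam.V_eqv (hS : Surf Γ) (h : Lam Γ L V ψ) (γ : Γ) {x : E} (hx : x ∈ L) :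
    V (γ • x) = dk γ x (V x) := by
  have h1 := h.der (γ • x) (h.smul γ x hx) 0
  have h2 := hS.hasDerivAt_smul γ (h.der x hx 0)
  have e : ψ (γ • x) = fun t => γ • ψ x t := funext fun t => h.eqv γ x hx t
  rw [h.zero _ (h.smul γ x hx), e] at h1
  rw [h.zero x hx] at h2
  exact h1.unique h2

theorem Lam.gron (h : Lam Γ L V ψ) (R T : ℝ) : ∃ C : ℝ, 0 ≤ C ∧ ∀ x ∈ L, ∀ y ∈ L, ‖x‖ ≤ R →
    ‖y‖ ≤ R → ∀ t, |t| ≤ T → ‖ψ x t - ψ y t‖ ≤ C * ‖x - y‖ := by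
  obtain ⟨R', hR'⟩ := h.stay R T
  obtain ⟨K, hK0, hK⟩ := h.lip R'
  refine ⟨Real.exp (K * T), (Real.exp_pos _).le, fun x hx y hy hxR hyR t ht => ?_⟩
  have hT : 0 ≤ T := (abs_nonneg t).trans ht
  have key := gron_lip (z1 := ψ x) (z2 := ψ y) (a := -T) (b := T) hK0
    (fun s _ => by rw [h.deriv_eq hx]; exact h.der x hx s)
    (fun s _ => by rw [h.deriv_eq hy]; exact h.der y hy s)
    (fun s hs => by
      rw [h.deriv_eq hx, h.deriv_eq hy]
      have hs' : |s| ≤ T := abs_le.2 hs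
      exact (hK _ (h.mem x hx s) _ (h.mem y hy s) (hR' x hx hxR s hs') (hR' y hy hyR s hs')).2)
    0 ⟨by linarith, hT⟩ t (abs_le.1 ht)
  rw [h.zero x hx, h.zero y hy, sub_zero] at key
  refine key.trans (mul_le_mul_of_nonneg_right ?_ (norm_nonneg _))
  exact Real.exp_le_exp.2 (mul_le_mul_of_nonneg_left ht hK0)

theorem Lam.V_ne (h : Lam Γ L V ψ) {x : E} (hx : x ∈ L) : V x ≠ 0 := by
  intro h0
  obtain ⟨R', hR'⟩ := h.stay ‖x‖ 1
  obtain ⟨K, hK0, hK⟩ := h.lip R'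
  have hxR : ‖x‖ ≤ R' := by
    have := hR' x hx le_rfl 0 (by simp)
    rwa [h.zero x hx] at this
  have key := gron_lip (z1 := ψ x) (z2 := fun _ => x) (a := 0) (b := 1) hK0
    (fun s _ => by rw [h.deriv_eq hx]; exact h.der x hx s)
    (fun s _ => by rw [deriv_const]; exact hasDerivAt_const s x)
    (fun s hs => by
      rw [h.deriv_eq hx, deriv_const, ← h0]
      have hs' : |s| ≤ 1 := abs_le.2 ⟨by linarith [hs.1], hs.2⟩
      exact (hK _ (h.mem x hx s) _ hx (hR' x hx le_rfl s hs') hxR).2)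
    0 ⟨le_rfl, zero_le_one⟩ 1 ⟨zero_le_one, le_rfl⟩
  rw [h.zero x hx, sub_self x, norm_zero, mul_zero] at key
  have e : ψ x 1 = x := sub_eq_zero.1 (norm_le_zero_iff.1 key)
  exact h.aper x hx 1 1 one_pos (by rw [e, one_smul])

theorem Lam.contV (h : Lam Γ L V ψ) : ContinuousOn V L := by
  intro x hx
  obtain ⟨K, hK0, hK⟩ := h.lip (‖x‖ + 1)
  have h1 : ∀ᶠ q in 𝓝[L] x, ‖V q - V x‖ ≤ K * ‖q - x‖ := by
    have h2 : ∀ᶠ q in 𝓝 x, ‖q‖ ≤ ‖x‖ + 1 :=
      (continuous_norm.continuousAt (x := x)).eventually_le_const (by linarith)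
    filter_upwards [self_mem_nhdsWithin, nhdsWithin_le_nhds h2] with q hq hq'
    exact (hK q hq x hx hq' (by linarith)).2
  have h3 : Tendsto (fun q : E => K * ‖q - x‖) (𝓝[L] x) (𝓝 0) := by
    have : Tendsto (fun q : E => K * ‖q - x‖) (𝓝 x) (𝓝 (K * ‖x - x‖)) :=
      Continuous.tendsto (by fun_prop) x
    rw [sub_self, norm_zero, mul_zero] at this
    exact this.mono_left nhdsWithin_le_nhds
  exact tendsto_iff_norm_sub_tendsto_zero.2
    (squeeze_zero' (Eventually.of_forall fun _ => norm_nonneg _) h1 h3)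

theorem Lam.speed_lo (h : Lam Γ L V ψ) (R : ℝ) :
    ∃ v : ℝ, 0 < v ∧ ∀ x ∈ L, ‖x‖ ≤ R → v ≤ ‖V x‖ := by
  have hc : IsCompact (L ∩ Metric.closedBall (0 : E) R) :=
    (isCompact_closedBall (0 : E) R).inter_left h.closed
  rcases (L ∩ Metric.closedBall (0 : E) R).eq_empty_or_nonempty with he | hne
  · refine ⟨1, one_pos, fun x hx hR => ?_⟩
    have : x ∈ L ∩ Metric.closedBall (0 : E) R := ⟨hx, by simpa using hR⟩
    rw [he] at this
    exact absurd this (notMem_empty x)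
  · obtain ⟨x0, hx0, hmin⟩ := hc.exists_isMinOn hne
      ((h.contV.mono inter_subset_left).norm)
    exact ⟨‖V x0‖, norm_pos_iff.2 (h.V_ne hx0.1), fun x hx hR =>
      hmin (⟨hx, by simpa using hR⟩ : x ∈ L ∩ Metric.closedBall (0 : E) R)⟩

theorem Lam.contWithin (h : Lam Γ L V ψ) {x : E} (hx : x ∈ L) (T : ℝ) :
    ContinuousWithinAt (fun q => ψ q T) L x := by
  obtain ⟨K, hK0, hK⟩ := h.gron (‖x‖ + 1) |T|
  have h1 : ∀ᶠ q in 𝓝[L] x, ‖ψ q T - ψ x T‖ ≤ K * ‖q - x‖ := by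
    have h2 : ∀ᶠ q in 𝓝 x, ‖q‖ ≤ ‖x‖ + 1 :=
      (continuous_norm.continuousAt (x := x)).eventually_le_const (by linarith)
    filter_upwards [self_mem_nhdsWithin, nhdsWithin_le_nhds h2] with q hq hq'
    exact hK q hq x hx hq' (by linarith) T le_rfl
  have h3 : Tendsto (fun q : E => K * ‖q - x‖) (𝓝[L] x) (𝓝 0) := by
    have : Tendsto (fun q : E => K * ‖q - x‖) (𝓝 x) (𝓝 (K * ‖x - x‖)) :=
      Continuous.tendsto (by fun_prop) x
    rw [sub_self, norm_zero, mul_zero] at this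
    exact this.mono_left nhdsWithin_le_nhds
  exact tendsto_iff_norm_sub_tendsto_zero.2
    (squeeze_zero' (Eventually.of_forall fun _ => norm_nonneg _) h1 h3)

theorem Lam.ext (h : Lam Γ L V ψ) (R : ℝ) : ∃ (W : E → E) (K : NNReal), LipschitzWith K W ∧
    ∀ x ∈ L, ‖x‖ ≤ R → W x = V x := by
  obtain ⟨K, hK0, hK⟩ := h.lip R
  have hl : LipschitzOnWith ⟨K, hK0⟩ V {x | x ∈ L ∧ ‖x‖ ≤ R} := by
    refine LipschitzOnWith.of_dist_le_mul fun x hx y hy => ?_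
    rw [dist_eq_norm, dist_eq_norm]
    exact (hK x hx.1 y hy.1 hx.2 hy.2).2
  obtain ⟨W, hW, he⟩ := hl.extend_finite_dimension
  exact ⟨W, _, hW, fun x hx hR => (he (⟨hx, hR⟩ : x ∈ {x | x ∈ L ∧ ‖x‖ ≤ R})).symm⟩

theorem Lam.trans (h : Lam Γ L V ψ) {x : E} (hx : x ∈ L) (T : ℝ) : ∃ Φ : E → E, Continuous Φ ∧
    ∀ᶠ q in 𝓝 x, (q ∈ L → Φ q = ψ q T) ∧ (Φ q ∈ L → q ∈ L) := by
  obtain ⟨R', hR'⟩ := h.stay (‖x‖ + ‖ψ x T‖ + 1) |T|
  obtain ⟨W, K, hW, he⟩ := h.ext R'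
  obtain ⟨φ, hφ⟩ := MP_05654f_an.exists_flow hW
  have hT : 0 ≤ |T| := abs_nonneg T
  have key : ∀ q ∈ L, ‖q‖ ≤ ‖x‖ + ‖ψ x T‖ + 1 → ∀ t, |t| ≤ |T| → ψ q t = φ t q := by
    intro q hq hqR t ht
    have := hφ.unique_Icc hW (x := ψ q) (a := -|T|) (b := |T|)
      (fun s hs => by
        rw [he _ (h.mem q hq s) (hR' q hq hqR s (abs_le.2 hs))]
        exact h.der q hq s) (t₀ := 0) (t := t) ⟨by linarith, hT⟩ (abs_le.1 ht)
    rwa [sub_zero, h.zero q hq] at this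
  have hc : Continuous (φ T) :=
    (hφ.continuous hW).comp (continuous_const.prodMk continuous_id)
  refine ⟨φ T, hc, ?_⟩
  have hx0 : φ T x = ψ x T :=
    (key x hx (by linarith [norm_nonneg (ψ x T)]) T le_rfl).symm
  have h1 : ∀ᶠ q in 𝓝 x, ‖q‖ ≤ ‖x‖ + ‖ψ x T‖ + 1 :=
    (continuous_norm.continuousAt (x := x)).eventually_le_const
      (by linarith [norm_nonneg (ψ x T)])
  have h2 : ∀ᶠ q in 𝓝 x, ‖φ T q‖ ≤ ‖x‖ + ‖ψ x T‖ + 1 :=
    (hc.norm.continuousAt (x := x)).eventually_le_const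
      (by show ‖φ T x‖ < _; rw [hx0]; linarith [norm_nonneg x])
  filter_upwards [h1, h2] with q hq1 hq2
  refine ⟨fun hq => (key q hq hq1 T le_rfl).symm, fun hp => ?_⟩
  have e1 := key _ hp hq2 (-T) (by rw [abs_neg])
  have e2 : φ (-T) (φ T q) = q := by
    rw [← hφ.add hW, neg_add_cancel]
    exact hφ.1 q
  rw [← e2, ← e1]
  exact h.mem _ hp _

theorem Lam.thin (hS : Surf Γ) (hN : ∃ x, x ∉ L) (h : Lam Γ L V ψ) (x : E) : L ∉ 𝓝 x := by
  intro hx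
  obtain ⟨ε, hε, hb⟩ := Metric.mem_nhds_iff.1 hx
  obtain ⟨T0, hT0⟩ := h.synd x (mem_of_mem_nhds hx) ε hε
  have ho : IsOpen L := by
    refine isOpen_iff_mem_nhds.2 fun y hy => ?_
    obtain ⟨s, -, γ, hγ⟩ := hT0 y hy
    have h1 : L ∈ 𝓝 (γ • ψ y s) :=
      mem_of_superset (Metric.isOpen_ball.mem_nhds (by rwa [mem_ball_iff_norm])) hb
    have h2 : L ∈ 𝓝 (ψ y s) := by
      have h3 : ∀ᶠ q in 𝓝 (ψ y s), γ • q ∈ L := (hS.cont γ).continuousAt h1
      filter_upwards [h3] with q hq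
      have := h.smul γ⁻¹ _ hq
      rwa [inv_smul_smul] at this
    obtain ⟨Φ, hΦ, he⟩ := h.trans hy s
    have h4 : Φ y = ψ y s := he.self_of_nhds.1 hy
    have h5 : ∀ᶠ q in 𝓝 y, Φ q ∈ L := hΦ.continuousAt (by rw [h4]; exact h2)
    filter_upwards [he, h5] with q hq hq'
    exact hq.2 hq'
  rcases isClopen_iff.1 ⟨h.closed, ho⟩ with he | he
  · exact h.ne.ne_empty he
  · obtain ⟨y, hy⟩ := hN
    exact hy (he ▸ mem_univ y)

end Pool.Agent.Work.MP_1ce82a_an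
end

-- merged part: Pool.Agent.Work.MP_1ce82a_an.A.Ori
section
/-! The orientation character of the deck group. -/

open Set Filter Topology MeasureTheory
open scoped ContDiff

namespace Pool.Agent.Work.MP_1ce82a_an

variable {Γ : Grp}

/-- Orientation preserving deck transformations. -/
def Pos (γ : Γ) : Prop := ∀ x : E, 0 < (dk γ x).det

/-- Orientation reversing deck transformations. -/
def Neg (γ : Γ) : Prop := ∀ x : E, (dk γ x).det < 0

/-- Orientable surfaces. -/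
def Ori (Γ : Grp) : Prop := ∀ γ : Γ, Pos γ

open Classical in
/-- The orientation character. -/
noncomputable def chi (γ : Γ) : ℝ := if Pos γ then 1 else -1

theorem Surf.det_mul (hS : Surf Γ) (γ δ : Γ) (x : E) :
    (dk (γ * δ) x).det = (dk γ (δ • x)).det * (dk δ x).det := by
  have h1 := hS.det2_dk (γ * δ) x (1, 0) (0, 1)
  rw [hS.dk_mul, hS.dk_mul, hS.det2_dk, hS.det2_dk] at h1
  simpa [det2] using h1.symm

theorem det_one (x : E) : (dk (1 : Γ) x).det = 1 := by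
  have h1 := Grp_det (dk (1 : Γ) x) (1, 0) (0, 1)
  rw [dk_one] at h1 ⊢
  simpa [det2] using h1.symm

theorem Surf.det_ne (hS : Surf Γ) (γ : Γ) (x : E) : (dk γ x).det ≠ 0 := by
  have h := hS.det_mul γ⁻¹ γ x
  rw [inv_mul_cancel, det_one] at h
  intro h0
  rw [h0, mul_zero] at h
  exact one_ne_zero h

theorem Surf.cont_det (hS : Surf Γ) (γ : Γ) : Continuous fun x => (dk γ x).det :=
  ContinuousLinearMap.continuous_det.comp (hS.contDiff_dk γ).continuous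

theorem Surf.pos_or_neg (hS : Surf Γ) (γ : Γ) : Pos γ ∨ Neg γ := by
  by_contra hc
  push Not at hc
  obtain ⟨h1, h2⟩ := hc
  simp only [Pos, Neg, not_forall, not_lt] at h1 h2
  obtain ⟨x, hx⟩ := h1
  obtain ⟨y, hy⟩ := h2
  obtain ⟨z, hz⟩ := intermediate_value_univ x y (hS.cont_det γ) ⟨hx, hy⟩
  exact hS.det_ne γ z hz

theorem Pos.not_neg {γ : Γ} (h : Pos γ) : ¬ Neg γ := fun h' => lt_asymm (h 0) (h' 0)

theorem Pos.chi {γ : Γ} (h : Pos γ) : chi γ = 1 := if_pos h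

theorem Neg.chi {γ : Γ} (h : Neg γ) : chi γ = -1 := if_neg fun h' => h'.not_neg h

theorem chi_cases (γ : Γ) : chi γ = 1 ∨ chi γ = -1 := by
  by_cases h : Pos γ
  · exact Or.inl h.chi
  · exact Or.inr (if_neg h)

theorem pos_of_chi {γ : Γ} (h : chi γ = 1) : Pos γ := by
  by_contra hc
  rw [chi, if_neg hc] at h
  norm_num at h

theorem Surf.chi_det (hS : Surf Γ) (γ : Γ) (x : E) : 0 < chi γ * (dk γ x).det := by
  rcases hS.pos_or_neg γ with h | h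
  · rw [h.chi, one_mul]
    exact h x
  · rw [h.chi]
    linarith [h x]

theorem chi_sq (γ : Γ) : chi γ * chi γ = 1 := by
  rcases chi_cases γ with h | h <;> rw [h] <;> norm_num

theorem Surf.chi_mul (hS : Surf Γ) (γ δ : Γ) : chi (γ * δ) = chi γ * chi δ := by
  have h1 := hS.chi_det (γ * δ) 0
  have h2 := mul_pos (hS.chi_det γ (δ • 0)) (hS.chi_det δ 0)
  rw [hS.det_mul] at h1
  rcases chi_cases (γ * δ) with a | a <;> rcases chi_cases γ with b | b <;>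
    rcases chi_cases δ with c | c <;> rw [a] at h1 ⊢ <;> rw [b, c] at h2 ⊢ <;> nlinarith

theorem chi_one : chi (1 : Γ) = 1 := Pos.chi fun x => by rw [det_one]; exact one_pos

theorem Surf.chi_inv (hS : Surf Γ) (γ : Γ) : chi γ⁻¹ = chi γ := by
  have h := hS.chi_mul γ⁻¹ γ
  rw [inv_mul_cancel, chi_one] at h
  calc chi γ⁻¹ = chi γ⁻¹ * (chi γ * chi γ) := by rw [chi_sq, mul_one]
    _ = chi γ := by rw [← mul_assoc, ← h, one_mul]

end Pool.Agent.Work.MP_1ce82a_an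
end

-- merged part: Pool.Agent.Work.MP_1ce82a_an.U.Int
section
/-! Internal definitions. FROZEN: do not edit. -/

open Set Filter Topology MeasureTheory
open scoped ContDiff

namespace Pool.Agent.Work.MP_1ce82a_an.U

variable {Γ : Grp}

/-- The flow of an invariant vector field. -/
structure Fl (Γ : Grp) (Y : E → E) (φ : E → ℝ → E) : Prop where
  zero : ∀ x, φ x 0 = x
  add : ∀ x s t, φ (φ x s) t = φ x (t + s)
  eqv : ∀ (γ : Γ) x t, φ (γ • x) t = γ • φ x t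
  der : ∀ x t, HasDerivAt (φ x) (Y (φ x t)) t
  cY : Continuous Y
  gron : ∀ R T : ℝ, ∃ C : ℝ, 0 ≤ C ∧ ∀ x y : E, ‖x‖ ≤ R → ‖y‖ ≤ R → ∀ t, |t| ≤ T →
    ‖φ x t - φ y t‖ ≤ C * ‖x - y‖

/-- Some smooth equivariant function increases by one along all arcs of a fixed length. -/
def Drift (Γ : Grp) (φ : E → ℝ → E) : Prop :=
  ∃ (c : H1 Γ) (w : E → ℝ) (T : ℝ), ContDiff ℝ ∞ w ∧ Eqv c w ∧ 0 < T ∧ ∀ x, w x + 1 ≤ w (φ x T)

/-- Locally Lipschitz functions. -/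
def LL (g : E → ℝ) : Prop :=
  ∀ R : ℝ, ∃ K : ℝ, 0 ≤ K ∧ ∀ x y : E, ‖x‖ ≤ R → ‖y‖ ≤ R → |g x - g y| ≤ K * ‖x - y‖

/-- Smooth approximations which increase in the direction of the field. -/
def Apx (Y : E → E) (g : E → ℝ) : Prop :=
  ∀ R ε : ℝ, 0 < ε → ∃ g' : E → ℝ, ContDiff ℝ ∞ g' ∧
    ∀ x : E, ‖x‖ ≤ R → |g' x - g x| ≤ ε ∧ 1 / 2 ≤ fderiv ℝ g' x (Y x)

/-- The function increases along the flow at a uniform rate. -/
def Rate (φ : E → ℝ → E) (u : E → ℝ) : Prop :=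
  ∃ δ : ℝ, 0 < δ ∧ ∀ x s t, s ≤ t → δ * (t - s) ≤ u (φ x t) - u (φ x s)

/-- A first integral whose levels are locally the orbits. -/
structure Integ (ψ : E → ℝ → E) (η : H1 Γ) (Θ : E → ℝ) : Prop where
  cont : Continuous Θ
  eqv : Eqv η Θ
  flow : ∀ x t, Θ (ψ x t) = Θ x
  loc : ∀ p : E, ∀ᶠ q in 𝓝 (p, p), Θ q.1 = Θ q.2 → ∃ t, ψ q.1 t = q.2

/-- Close returns on which the class `η` does not vanish. -/
def Rets (ψ : E → ℝ → E) (η : H1 Γ) : Prop :=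
  ∃ r t0 T0 W : ℝ, 0 < t0 ∧ 0 < T0 ∧ 0 ≤ W ∧ ∀ N : ℕ, 1 ≤ N → ∃ (x : E) (T : ℝ) (a : Γ),
    ‖x‖ ≤ r ∧ ‖a⁻¹ • ψ x T‖ ≤ r ∧ t0 ≤ T ∧ T ≤ N * T0 ∧ ‖a⁻¹ • ψ x T - x‖ ≤ W / N ∧ η.1 a ≠ 0

/-- `Φ` conjugates the action to the integer translations. -/
structure Cj {G : Type} [Group G] [MulAction G E] (Φ : E ≃ E) (τ : G → ℤ × ℤ) : Prop where
  sm : ContDiff ℝ ∞ Φ
  sm' : ContDiff ℝ ∞ Φ.symm
  bij : Function.Bijective τ
  act : ∀ (g : G) (x : E), Φ (g • x) = Φ x + (((τ g).1 : ℝ), ((τ g).2 : ℝ))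

/-- The Lagrangian in the coordinates before the change of variables. -/
noncomputable def pb (Φ : E → E) (F : E × E → ℝ) : E × E → ℝ :=
  fun z => F (Φ z.1, fderiv ℝ Φ z.1 z.2)

end Pool.Agent.Work.MP_1ce82a_an.U
end

-- merged part: Pool.Agent.Work.MP_1ce82a_an.U.FlB
section
/-! Elementary properties of flows.

PLAN. `Fl.cont`: `‖φ y s - φ x t‖ ≤ C * ‖y - x‖ + ‖φ x s - φ x t‖`. `Fl.Y_eqv`: copy `Lam.V_eqv`.
`of_lam`: `Lam.contV`, `Lam.gron`. `rate`: the function `x ↦ fderiv ℝ u x (Y x)` is continuous and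
invariant (differentiate `u (γ • x) = u x + c γ`, `Surf.hasFDerivAt`), so it has a positive minimum
on the ball of `Surf.exists_R0`; then `mul_sub_le_image_sub_of_le_deriv`. `hit`: the time `T x`
with `u (φ x (T x)) = b` exists (intermediate values) and is unique; it is continuous because
`δ * |T y - T x| ≤ |u (φ y (T x)) - b|`, which tends to zero; `r x = φ x (T x)`.
About 200 lines. -/

set_option linter.unusedVariables false

open Set Filter Topology MeasureTheory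
open scoped ContDiff

namespace Pool.Agent.Work.MP_1ce82a_an.U

variable {Γ : Grp}

variable {Y V : E → E} {φ ψ : E → ℝ → E}

theorem Fl.cont (h : Fl Γ Y φ) : Continuous fun p : E × ℝ => φ p.1 p.2 := by
  refine continuous_iff_continuousAt.mpr fun p => ?_
  obtain ⟨C, hC0, hC⟩ := h.gron (‖p.1‖ + 1) (|p.2| + 1)
  have hc : Continuous (φ p.1) := continuous_iff_continuousAt.mpr fun t => (h.der p.1 t).continuousAt
  have h1 : ∀ᶠ q : E × ℝ in 𝓝 p, ‖q.1‖ ≤ ‖p.1‖ + 1 :=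
    (continuous_fst.norm.continuousAt (x := p)).eventually_le_const (by linarith)
  have h2 : ∀ᶠ q : E × ℝ in 𝓝 p, |q.2| ≤ |p.2| + 1 :=
    (continuous_snd.abs.continuousAt (x := p)).eventually_le_const (by linarith)
  have h3 : Continuous fun q : E × ℝ => C * ‖q.1 - p.1‖ + ‖φ p.1 q.2 - φ p.1 p.2‖ := by fun_prop
  have h4 := h3.tendsto p
  simp only [sub_self, norm_zero, mul_zero, add_zero] at h4
  rw [ContinuousAt, tendsto_iff_norm_sub_tendsto_zero]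
  refine squeeze_zero' (Eventually.of_forall fun _ => norm_nonneg _) ?_ h4
  filter_upwards [h1, h2] with q hq1 hq2
  have h5 := hC q.1 p.1 hq1 (by linarith) q.2 hq2
  have h6 := norm_sub_le_norm_sub_add_norm_sub (φ q.1 q.2) (φ p.1 q.2) (φ p.1 p.2)
  linarith

theorem Fl.Y_eqv (hS : Surf Γ) (h : Fl Γ Y φ) (γ : Γ) (x : E) : Y (γ • x) = dk γ x (Y x) := by
  have h1 := h.der (γ • x) 0
  have h2 := hS.hasDerivAt_smul γ (h.der x 0)
  have e : φ (γ • x) = fun t => γ • φ x t := funext fun t => h.eqv γ x t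
  rw [h.zero, e] at h1
  rw [h.zero] at h2
  exact h1.unique h2

theorem of_lam (h : Lam Γ univ V ψ) : Fl Γ V ψ := by
  refine ⟨fun x => h.zero x trivial, fun x => h.add x trivial, fun γ x => h.eqv γ x trivial,
    fun x => h.der x trivial, continuousOn_univ.mp h.contV, fun R T => ?_⟩
  obtain ⟨C, hC0, hC⟩ := h.gron R T
  exact ⟨C, hC0, fun x y => hC x trivial y trivial⟩

theorem fderiv_eqv (hS : Surf Γ) {c : H1 Γ} {u : E → ℝ} (hu : Differentiable ℝ u) (he : Eqv c u)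
    (γ : Γ) (x v : E) : fderiv ℝ u (γ • x) (dk γ x v) = fderiv ℝ u x v := by
  have h1 := (hu (γ • x)).hasFDerivAt.comp x (hS.hasFDerivAt γ x)
  have e : (u ∘ fun y : E => γ • y) = fun y => u y + c.1 γ := funext fun y => he γ y
  rw [e] at h1
  have h2 := h1.unique ((hu x).hasFDerivAt.add_const (c.1 γ))
  rw [← h2]
  rfl

theorem Fl.hasDerivAt (h : Fl Γ Y φ) {u : E → ℝ} (hu : Differentiable ℝ u) (x : E) (t : ℝ) :
    HasDerivAt (fun s => u (φ x s)) (fderiv ℝ u (φ x t) (Y (φ x t))) t := by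
  exact (hu (φ x t)).hasFDerivAt.comp_hasDerivAt t (h.der x t)

theorem Fl.const (h : Fl Γ Y φ) {u : E → ℝ} (hu : Differentiable ℝ u)
    (h0 : ∀ x, fderiv ℝ u x (Y x) = 0) (x : E) (t : ℝ) : u (φ x t) = u x := by
  have h1 : ∀ s, HasDerivAt (fun s => u (φ x s)) 0 s := fun s => h0 (φ x s) ▸ h.hasDerivAt hu x s
  have h2 := is_const_of_deriv_eq_zero (fun s => (h1 s).differentiableAt) (fun s => (h1 s).deriv) t 0
  rw [h.zero] at h2
  exact h2

theorem rate (hS : Surf Γ) (h : Fl Γ Y φ) {c : H1 Γ} {u : E → ℝ} (hu : ContDiff ℝ 1 u)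
    (he : Eqv c u) (hp : ∀ x, 0 < fderiv ℝ u x (Y x)) : Rate φ u := by
  have hd : Differentiable ℝ u := hu.differentiable (by simp)
  obtain ⟨R0, hR0, hR⟩ := hS.exists_R0
  have hc : Continuous fun x => fderiv ℝ u x (Y x) :=
    (hu.continuous_fderiv (by simp)).clm_apply h.cY
  obtain ⟨x0, -, hx0⟩ := (isCompact_closedBall (0 : E) R0).exists_isMinOn
    ⟨0, Metric.mem_closedBall_self hR0.le⟩ hc.continuousOn
  have hlow : ∀ x, fderiv ℝ u x0 (Y x0) ≤ fderiv ℝ u x (Y x) := by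
    intro x
    obtain ⟨γ, hγ⟩ := hR x
    have h1 : fderiv ℝ u x0 (Y x0) ≤ fderiv ℝ u (γ • x) (Y (γ • x)) :=
      hx0 (mem_closedBall_zero_iff.mpr hγ)
    rwa [h.Y_eqv hS, fderiv_eqv hS hd he] at h1
  refine ⟨_, hp x0, fun x s t hst => ?_⟩
  exact mul_sub_le_image_sub_of_le_deriv (f := fun s => u (φ x s))
    (fun s => (h.hasDerivAt hd x s).differentiableAt)
    (fun s => by rw [(h.hasDerivAt hd x s).deriv]; exact hlow _) hst

theorem FlB_abs {u : E → ℝ} {δ : ℝ} (hδ : 0 < δ)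
    (hr : ∀ x s t, s ≤ t → δ * (t - s) ≤ u (φ x t) - u (φ x s)) (x : E) (s t : ℝ) :
    δ * |t - s| ≤ |u (φ x t) - u (φ x s)| := by
  rcases le_total s t with h | h
  · rw [abs_of_nonneg (sub_nonneg.mpr h)]
    exact (hr x s t h).trans (le_abs_self _)
  · rw [abs_sub_comm t s, abs_sub_comm (u (φ x t)), abs_of_nonneg (sub_nonneg.mpr h)]
    exact (hr x t s h).trans (le_abs_self _)

theorem Rate.inj {u : E → ℝ} (hr : Rate φ u) (x : E) {s t : ℝ} (h : u (φ x s) = u (φ x t)) :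
    s = t := by
  obtain ⟨δ, hδ, hr⟩ := hr
  have h1 := FlB_abs hδ hr x s t
  rw [h, sub_self, abs_zero] at h1
  have h2 : |t - s| ≤ 0 := by
    by_contra hc
    have := mul_pos hδ (not_le.mp hc)
    linarith
  linarith [sub_eq_zero.mp (abs_nonpos_iff.mp h2)]

theorem hit (h : Fl Γ Y φ) {u : E → ℝ} (hu : Continuous u) (hr : Rate φ u) (b : ℝ) :
    ∃ r : E → E, Continuous r ∧ (∀ x, u (r x) = b) ∧ (∀ x, ∃ t, r x = φ x t) ∧
      ∀ x, u x = b → r x = x := by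
  have hinj := fun x s t => hr.inj x (s := s) (t := t)
  obtain ⟨δ, hδ, hr⟩ := hr
  have hc : Continuous fun p : E × ℝ => u (φ p.1 p.2) := hu.comp h.cont
  have hex : ∀ x, ∃ t, u (φ x t) = b := by
    intro x
    have hcx : Continuous fun t => u (φ x t) := hc.comp (Continuous.prodMk_right x)
    obtain ⟨m, hm⟩ : ∃ m : ℝ, m = |b - u (φ x 0)| / δ := ⟨_, rfl⟩
    have hm0 : 0 ≤ m := by rw [hm]; positivity
    have hm1 : δ * m = |b - u (φ x 0)| := by rw [hm]; field_simp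
    have h1 := hr x 0 m hm0
    have h2 := hr x (-m) 0 (by linarith)
    have h3 := le_abs_self (b - u (φ x 0))
    have h4 := neg_abs_le (b - u (φ x 0))
    exact intermediate_value_univ (-m) m hcx ⟨by nlinarith, by nlinarith⟩
  choose T hT using hex
  have hTc : Continuous T := by
    refine continuous_iff_continuousAt.mpr fun x => ?_
    have h1 : Continuous fun y => |b - u (φ y (T x))| / δ := by
      have : Continuous fun y => u (φ y (T x)) := hc.comp (Continuous.prodMk_left (T x))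
      exact (continuous_const.sub this).abs.div_const δ
    have h2 := h1.tendsto x
    rw [hT x, sub_self, abs_zero, zero_div] at h2
    rw [ContinuousAt, tendsto_iff_norm_sub_tendsto_zero]
    refine squeeze_zero (fun _ => norm_nonneg _) (fun y => ?_) h2
    have h3 := FlB_abs hδ hr y (T x) (T y)
    rw [hT y] at h3
    rw [Real.norm_eq_abs, le_div_iff₀ hδ]
    linarith
  refine ⟨fun x => φ x (T x), h.cont.comp (continuous_id.prodMk hTc), hT, fun x => ⟨_, rfl⟩,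
    fun x hx => ?_⟩
  have h1 : T x = 0 := hinj x _ _ (by rw [hT x, h.zero, hx])
  beta_reduce
  rw [h1, h.zero]

end Pool.Agent.Work.MP_1ce82a_an.U
end

-- merged part: Pool.Agent.Work.MP_1ce82a_an.U.Avg
section
/-! Averaging along the flow.

PLAN. `g x = ∫ t in 0..T, w (φ x t)`. Class `T • c`. Locally Lipschitz: the points `φ x t`,
`‖x‖ ≤ R`, `t ∈ [0, T]`, form a compact set (`Fl.cont`), contained in a ball on which `w` is
Lipschitz (bounded derivative, `Convex.norm_image_sub_le_of_norm_fderiv_le`); `Fl.gron`.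
`g (φ x s) - g x = ∫ t in s..s + T, a t - ∫ t in 0..T, a t = ∫ t in 0..s, (a (t + T) - a t)` with
`a t = w (φ x t)` (`intervalIntegral.integral_comp_add_right`,
`intervalIntegral.integral_add_adjacent_intervals`), and `a (t + T) - a t ≥ 1`. About 120 lines. -/

set_option linter.unusedVariables false

open Set Filter Topology MeasureTheory
open scoped ContDiff

namespace Pool.Agent.Work.MP_1ce82a_an.U

variable {Γ : Grp}

theorem avg (hS : Surf Γ) {Y : E → E} {φ : E → ℝ → E} (h : Fl Γ Y φ) (hd : Drift Γ φ) :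
    ∃ (c : H1 Γ) (g : E → ℝ), Eqv c g ∧ LL g ∧ ∀ x s, 0 ≤ s → g x + s ≤ g (φ x s) := by
  obtain ⟨c, w, T, hw, he, hT, hd⟩ := hd
  have ca : ∀ x, Continuous fun t => w (φ x t) := fun x =>
    hw.continuous.comp (h.cont.comp (continuous_const.prodMk continuous_id))
  refine ⟨T • c, fun x => ∫ t in (0 : ℝ)..T, w (φ x t), fun γ x => ?_, fun R => ?_,
    fun x s hs => ?_⟩
  · have e : (T • c).1 γ = T * c.1 γ := rfl
    simp only [h.eqv, he γ, e]
    rw [intervalIntegral.integral_add ((ca x).intervalIntegrable _ _) intervalIntegrable_const,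
      intervalIntegral.integral_const, sub_zero, smul_eq_mul]
  · obtain ⟨C, C0, hC⟩ := h.gron R T
    obtain ⟨R', hR'⟩ := ((isCompact_closedBall (0 : E) R).prod
      (isCompact_Icc (a := (0 : ℝ)) (b := T))).exists_bound_of_continuousOn h.cont.continuousOn
    obtain ⟨M, hM⟩ := (isCompact_closedBall (0 : E) R').exists_bound_of_continuousOn
      (hw.continuous_fderiv (by simp)).continuousOn
    have hl : ∀ a ∈ Metric.closedBall (0 : E) R', ∀ b ∈ Metric.closedBall (0 : E) R',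
        ‖w b - w a‖ ≤ max M 0 * ‖b - a‖ := fun a ha b hb =>
      (convex_closedBall (0 : E) R').norm_image_sub_le_of_norm_fderiv_le
        (fun y _ => hw.differentiable (by simp) y) (fun y hy => (hM y hy).trans (le_max_left _ _))
        ha hb
    refine ⟨max M 0 * C * T, by positivity, fun x y hx hy => ?_⟩
    rw [← intervalIntegral.integral_sub ((ca x).intervalIntegrable _ _)
      ((ca y).intervalIntegrable _ _), ← Real.norm_eq_abs]
    refine (intervalIntegral.norm_integral_le_of_norm_le_const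
      (C := max M 0 * (C * ‖x - y‖)) fun t ht => ?_).trans_eq ?_
    · rw [uIoc_of_le hT.le] at ht
      have k : ∀ z : E, ‖z‖ ≤ R → φ z t ∈ Metric.closedBall (0 : E) R' := fun z hz =>
        mem_closedBall_zero_iff.2 (hR' (z, t) ⟨mem_closedBall_zero_iff.2 hz, ht.1.le, ht.2⟩)
      exact (hl _ (k y hy) _ (k x hx)).trans (mul_le_mul_of_nonneg_left
        (hC x y hx hy t (by rw [abs_of_pos ht.1]; exact ht.2)) (le_max_right _ _))
    · rw [sub_zero, abs_of_pos hT]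
      ring
  · have i : ∀ a b : ℝ, IntervalIntegrable (fun t => w (φ x t)) volume a b := fun a b =>
      (ca x).intervalIntegrable a b
    have e1 : ∫ t in (0 : ℝ)..T, w (φ (φ x s) t) = ∫ t in s..T + s, w (φ x t) := by
      simp only [h.add]
      rw [intervalIntegral.integral_comp_add_right (fun t => w (φ x t)) s, zero_add]
    have e2 : ∫ t in (0 : ℝ)..s, w (φ x (t + T)) = ∫ t in T..T + s, w (φ x t) := by
      rw [intervalIntegral.integral_comp_add_right (fun t => w (φ x t)) T, zero_add, add_comm]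
    have e3 := intervalIntegral.integral_add_adjacent_intervals (i 0 s) (i s (T + s))
    have e4 := intervalIntegral.integral_add_adjacent_intervals (i 0 T) (i T (T + s))
    have e5 : ∫ t in (0 : ℝ)..s, (w (φ x t) + 1) ≤ ∫ t in (0 : ℝ)..s, w (φ x (t + T)) :=
      intervalIntegral.integral_mono_on hs ((i 0 s).add intervalIntegrable_const)
        (((ca x).comp (continuous_id.add continuous_const)).intervalIntegrable _ _) fun t _ => by
          have k := hd (φ x t)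
          rwa [h.add, add_comm T] at k
    rw [intervalIntegral.integral_add (i 0 s) intervalIntegrable_const,
      intervalIntegral.integral_const, sub_zero, smul_eq_mul, mul_one] at e5
    show (∫ t in (0 : ℝ)..T, w (φ x t)) + s ≤ ∫ t in (0 : ℝ)..T, w (φ (φ x s) t)
    linarith

end Pool.Agent.Work.MP_1ce82a_an.U
end

-- merged part: Pool.Agent.Work.MP_1ce82a_an.U.Diff
section
/-! Two functions which form a diffeomorphism of the plane.

PLAN. `Φ x = (v x, u x)`. Its derivative maps `X x` to `(dv X, 0)` and `V x` to `(*, du V)`, so it is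
onto, hence a linear equivalence (`LinearMap.injective_iff_surjective`, `LinearEquiv.ofBijective`,
`toContinuousLinearEquiv`); `Φ` is open and locally injective
(`HasStrictFDerivAt.map_nhds_eq_of_equiv`, `HasStrictFDerivAt.toOpenPartialHomeomorph`). For a
target `(a, b)` let `r = r₂ ∘ r₁`, `r₁` from `hit` for `ψ, u, b` and `r₂` from `hit` for `φ, v, a`;
`Φ (r x) = (a, b)` (`Fl.const`), so `Φ` is onto, and `r x = x` when `Φ x = (a, b)`. `r` is constant by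
`IsSeparatedMap.const_of_comp` (`T2Space.isSeparatedMap`, `IsLocallyInjective`), so `Φ` is
injective. `Equiv.ofBijective`, `Equiv.toHomeomorphOfContinuousOpen`, `Homeomorph.contDiff_symm`
(model: `K/HJa`). About 150 lines. -/

set_option linter.unusedVariables false

open Set Filter Topology MeasureTheory
open scoped ContDiff

namespace Pool.Agent.Work.MP_1ce82a_an.U

variable {Γ : Grp}

theorem diffeo {X V : E → E} {φ ψ : E → ℝ → E} (h : Fl Γ X φ) (h' : Fl Γ V ψ) {u v : E → ℝ}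
    (hu : ContDiff ℝ ∞ u) (hv : ContDiff ℝ ∞ v) (ru : Rate ψ u) (rv : Rate φ v)
    (du : ∀ x, 0 < fderiv ℝ u x (V x)) (dv : ∀ x, 0 < fderiv ℝ v x (X x))
    (d0 : ∀ x, fderiv ℝ u x (X x) = 0) :
    ∃ Φ : E ≃ E, (∀ x, Φ x = (v x, u x)) ∧ ContDiff ℝ ∞ Φ.symm := by
  have Du := hu.differentiable (by simp)
  have Dv := hv.differentiable (by simp)
  have c : ContDiff ℝ ∞ fun x => (v x, u x) := hv.prodMk hu
  have ex : ∀ x, ∃ D : E ≃L[ℝ] E, HasStrictFDerivAt (fun x => (v x, u x)) (D : E →L[ℝ] E) x := by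
    intro x
    have s : Function.Surjective ((fderiv ℝ v x).prod (fderiv ℝ u x)).toLinearMap := fun y => by
      refine ⟨((y.1 - y.2 / fderiv ℝ u x (V x) * fderiv ℝ v x (V x)) / fderiv ℝ v x (X x)) • X x +
        (y.2 / fderiv ℝ u x (V x)) • V x, Prod.ext ?_ ?_⟩ <;>
        simp [d0, (du x).ne', (dv x).ne']
    exact ⟨(LinearEquiv.ofBijective _
      ⟨LinearMap.injective_iff_surjective.2 s, s⟩).toContinuousLinearEquiv,
      c.contDiffAt.hasStrictFDerivAt' ((Dv x).hasFDerivAt.prodMk (Du x).hasFDerivAt) (by simp)⟩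
  choose D hD using ex
  have li : IsLocallyInjective fun x => (v x, u x) := fun x =>
    ⟨_, ((hD x).toOpenPartialHomeomorph _).open_source, (hD x).mem_toOpenPartialHomeomorph_source,
      ((hD x).toOpenPartialHomeomorph _).injOn⟩
  have key : ∀ y : E, ∃ r : E → E, Continuous r ∧ (∀ x, (v (r x), u (r x)) = y) ∧
      ∀ x, (v x, u x) = y → r x = x := fun y => by
    obtain ⟨r1, c1, a1, -, e1⟩ := hit h' hu.continuous ru y.2
    obtain ⟨r2, c2, a2, b2, e2⟩ := hit h hv.continuous rv y.1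
    refine ⟨r2 ∘ r1, c2.comp c1, fun x => Prod.ext (a2 _) ?_, fun x k => ?_⟩
    · obtain ⟨t, ht⟩ := b2 (r1 x)
      exact (congrArg u ht).trans ((h.const Du d0 _ t).trans (a1 x))
    · rw [Function.comp, e1 x (congrArg Prod.snd k), e2 x (congrArg Prod.fst k)]
  have bij : Function.Bijective fun x => (v x, u x) := by
    refine ⟨fun x x' k => ?_, fun y => (key y).elim fun r k => ⟨r 0, k.2.1 0⟩⟩
    obtain ⟨r, c1, a, e⟩ := key (v x, u x)
    rw [← e x rfl, ← e x' k.symm]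
    exact (T2Space.isSeparatedMap _).const_of_comp li c1 (fun p q => (a p).trans (a q).symm) x x'
  exact ⟨Equiv.ofBijective _ bij, fun _ => rfl,
    ((Equiv.ofBijective _ bij).toHomeomorphOfContinuousOpen c.continuous
      (isOpenMap_of_hasStrictFDerivAt_equiv hD)).contDiff_symm (fun x => (hD x).hasFDerivAt) c⟩

end Pool.Agent.Work.MP_1ce82a_an.U
end

-- merged part: Pool.Agent.Work.MP_1ce82a_an.K.Dat
section
/-! Consequences of the existence of an invariant torus.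

PLAN. For a subsolution `u` put `W x = u (D.Ψ x) - D.S (D.Ψ x)` and `w s = W (x + s • (ρ, 1))`. By
`D.flow` (shift the time) `w` has the derivative
`lam * (fderiv u (V) - fderiv S (V)) ≤ lam * (a - En) ≤ max ((a - En) / 2) (2 * (a - En))`.
`low`: `W x - (c'.1 - c.1) * x.1 - (c'.2 - c.2) * x.2` is continuous and periodic, so bounded
(`per_bdd`); `image_sub_le_mul_sub_of_deriv_le` on `[0, T]`, `T → ∞`. `cal'`: here `W` is periodic,
`w` is antitone (`antitone_of_deriv_nonpos`); by `Real.exists_nat_abs_mul_sub_round_le` there are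
`n ≥ 1` with `w (s₀ + n) = W (x + s₀ • (ρ, 1) + (n ρ - round (n ρ), 0))` arbitrarily close to
`w s₀`, so `w` is constant on `[s₀, s₀ + 1]`; take `s₀ = -1 / 2`. `lip_rho`: add `low` for `D₂` with
`D₁.up t` and `low` for `D₁` with `D₂.sub'`, `t = (ρ₂ - ρ₁) / 36`. About 300 lines. -/

set_option linter.unusedVariables false

open Set Filter Topology MeasureTheory
open scoped ContDiff ComplexConjugate

noncomputable section
namespace Pool.Agent.Work.MP_1ce82a_an.K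

open Pool.Agent.Work.MP_1ce82a_an (E addPot)

theorem Dat_int {α : Type} [AddCommGroup α] {φ : E → α} {a : α} {v : E}
    (h : ∀ x, φ (x + v) = φ x + a) (m : ℤ) (x : E) : φ (x + (m : ℝ) • v) = φ x + m • a := by
  induction m using Int.induction_on with
  | zero => simp
  | succ m ih =>
    rw [Int.cast_add, add_smul, add_smul, Int.cast_one, one_smul, one_smul, ← add_assoc, h, ih,
      add_assoc]
  | pred m ih =>
    have := h (x + ((-(m : ℤ) - 1 : ℤ) : ℝ) • v)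
    rw [Int.cast_sub, sub_smul, Int.cast_one, one_smul, add_assoc, sub_add_cancel, ih] at this
    rw [Int.cast_sub, sub_smul, sub_smul, Int.cast_one, one_smul, one_smul, ← add_sub_assoc (φ x),
      this, add_sub_cancel_right]

theorem per_int {α : Type} [AddCommGroup α] {φ : E → α} {a b : α}
    (h1 : ∀ x, φ (x + (1, 0)) = φ x + a) (h2 : ∀ x, φ (x + (0, 1)) = φ x + b) (m n : ℤ) (x : E) :
    φ (x + ((m : ℝ), (n : ℝ))) = φ x + m • a + n • b := by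
  rw [← Dat_int h1, ← Dat_int h2]
  congr 1
  ext <;> simp

theorem per_red (x : E) : ∃ (m n : ℤ) (y : E), y ∈ Icc (0 : ℝ) 1 ×ˢ Icc (0 : ℝ) 1 ∧
    x = y + ((m : ℝ), (n : ℝ)) := by
  refine ⟨⌊x.1⌋, ⌊x.2⌋, (Int.fract x.1, Int.fract x.2), ⟨⟨Int.fract_nonneg _,
    (Int.fract_lt_one _).le⟩, Int.fract_nonneg _, (Int.fract_lt_one _).le⟩, ?_⟩
  ext <;> simp

theorem per_bdd {φ : E → ℝ} (hc : Continuous φ) (hp : Per φ) : ∃ B, ∀ x, |φ x| ≤ B := by
  obtain ⟨B, hB⟩ := ((isCompact_Icc (a := (0 : ℝ)) (b := 1)).prod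
    (isCompact_Icc (a := (0 : ℝ)) (b := 1))).exists_bound_of_continuousOn hc.continuousOn
  refine ⟨B, fun x => ?_⟩
  obtain ⟨m, n, y, hy, rfl⟩ := per_red x
  rw [per_int (φ := φ) (a := 0) (b := 0) (fun x => by rw [hp.1, add_zero])
    fun x => by rw [hp.2, add_zero]]
  simpa using hB y hy

theorem Dat.sub' {F : E × E → ℝ} {En ρ : ℝ} {c : ℝ × ℝ} (D : Dat F En ρ c) : Sub F c En D.S := by
  refine ⟨D.hS, D.S1, D.S2, fun x v => ?_⟩
  linarith [D.sub x v, sq_nonneg ‖v - D.V x‖]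

theorem Dat.up {F : E × E → ℝ} {En ρ : ℝ} {c : ℝ × ℝ} (D : Dat F En ρ c) (t : ℝ) :
    Sub F (c.1 + t, c.2 - t * ρ) (En + 9 * t ^ 2) fun x => D.S x + t * D.Θ x := by
  refine ⟨D.hS.add (contDiff_const.mul D.hΘ), fun x => by rw [D.S1, D.T1]; ring,
    fun x => by rw [D.S2, D.T2]; ring, fun x v => ?_⟩
  rw [(((D.hS.differentiable one_ne_zero) x).hasFDerivAt.fun_add
    (((D.hΘ.differentiable one_ne_zero) x).hasFDerivAt.const_mul t)).fderiv]
  have h1 : fderiv ℝ D.Θ x v = fderiv ℝ D.Θ x (v - D.V x) := by rw [map_sub, D.dTV, sub_zero]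
  have h2 : |fderiv ℝ D.Θ x v| ≤ 3 * ‖v - D.V x‖ := h1 ▸
    ((fderiv ℝ D.Θ x).le_opNorm _).trans (mul_le_mul_of_nonneg_right (D.dT x) (norm_nonneg _))
  have h3 : t * fderiv ℝ D.Θ x v ≤ |t| * (3 * ‖v - D.V x‖) :=
    (le_abs_self _).trans (abs_mul t _ ▸ mul_le_mul_of_nonneg_left h2 (abs_nonneg t))
  change fderiv ℝ D.S x v + t * fderiv ℝ D.Θ x v ≤ _
  nlinarith [D.sub x v, sq_nonneg (‖v - D.V x‖ / 2 - 3 * |t|), sq_abs t]

theorem Dat_der {F : E × E → ℝ} {En ρ : ℝ} {c : ℝ × ℝ} (D : Dat F En ρ c) {u : E → ℝ}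
    (hu : ContDiff ℝ 1 u) (x : E) (s : ℝ) {y : E} (hy : y = x + s • ((ρ, 1) : E)) :
    HasDerivAt (fun s : ℝ => u (D.Ψ (x + s • ((ρ, 1) : E))) - D.S (D.Ψ (x + s • ((ρ, 1) : E))))
      (D.lam y * (fderiv ℝ u (D.Ψ y) (D.V (D.Ψ y)) - (F (D.Ψ y, D.V (D.Ψ y)) + En))) s := by
  have h1 : HasDerivAt (fun s : ℝ => D.Ψ (x + s • ((ρ, 1) : E))) (D.lam y • D.V (D.Ψ y)) s := by
    have := HasDerivAt.comp_sub_const s s (sub_self s ▸ D.flow y)
    simpa only [hy, sub_smul, add_add_sub_cancel] using this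
  have h2 := (hy ▸ ((hu.differentiable one_ne_zero) (D.Ψ y)).hasFDerivAt).comp_hasDerivAt s h1
  have h3 := (hy ▸ ((D.hS.differentiable one_ne_zero) (D.Ψ y)).hasFDerivAt).comp_hasDerivAt s h1
  have := h2.sub h3
  rw [← hy, map_smul, map_smul, D.cal, ← smul_sub, smul_eq_mul] at this
  exact this

theorem Dat_le {F : E × E → ℝ} {En ρ : ℝ} {c : ℝ × ℝ} (D : Dat F En ρ c) {c' : ℝ × ℝ} {a : ℝ}
    {u : E → ℝ} (hu : Sub F c' a u) (x : E) {s t : ℝ} (h : s ≤ t) :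
    u (D.Ψ (x + t • ((ρ, 1) : E))) - D.S (D.Ψ (x + t • ((ρ, 1) : E))) -
      (u (D.Ψ (x + s • ((ρ, 1) : E))) - D.S (D.Ψ (x + s • ((ρ, 1) : E)))) ≤
        max ((a - En) / 2) (2 * (a - En)) * (t - s) := by
  refine image_sub_le_mul_sub_of_deriv_le
    (fun s => (Dat_der D hu.sm x s rfl).differentiableAt) (fun s => ?_) h
  rw [(Dat_der D hu.sm x s rfl).deriv]
  generalize x + s • ((ρ, 1) : E) = y
  have h1 := hu.le (D.Ψ y) (D.V (D.Ψ y))
  have h2 := D.l1 y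
  have h3 := D.l2 y
  rcases le_total 0 (a - En) with k | k
  · exact le_max_of_le_right (by nlinarith)
  · exact le_max_of_le_left (by nlinarith)

theorem Dat.low {F : E × E → ℝ} {En ρ : ℝ} {c : ℝ × ℝ} (D : Dat F En ρ c) {c' : ℝ × ℝ} {a : ℝ}
    {u : E → ℝ} (hu : Sub F c' a u) :
    (c'.1 - c.1) * ρ + (c'.2 - c.2) ≤ max ((a - En) / 2) (2 * (a - En)) := by
  obtain ⟨B, hB⟩ := per_bdd (φ := fun x => u (D.Ψ x) - D.S (D.Ψ x) - (c'.1 - c.1) * x.1 -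
      (c'.2 - c.2) * x.2) ((((hu.sm.continuous.comp D.cont).sub (D.hS.continuous.comp D.cont)).sub
        (by fun_prop)).sub (by fun_prop))
    ⟨fun x => by simp only [D.P1, hu.p1, D.S1, Prod.fst_add, Prod.snd_add]; ring,
      fun x => by simp only [D.P2, hu.p2, D.S2, Prod.fst_add, Prod.snd_add]; ring⟩
  have key := fun t ht => Dat_le D hu 0 (s := 0) (t := t) ht
  generalize max ((a - En) / 2) (2 * (a - En)) = M at key ⊢
  by_contra h
  have h0 := sub_pos.2 (not_le.1 h)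
  have b0 := abs_le.1 (hB 0)
  obtain ⟨T, hT, e⟩ : ∃ T, 0 ≤ T ∧ ((c'.1 - c.1) * ρ + (c'.2 - c.2) - M) * T = 2 * B + 1 :=
    ⟨_, div_nonneg (by linarith [b0.1, b0.2]) h0.le, mul_div_cancel₀ _ h0.ne'⟩
  have b1 := abs_le.1 (hB (T • ((ρ, 1) : E)))
  have := key T hT
  simp only [zero_add, zero_smul, Prod.smul_fst, Prod.smul_snd, smul_eq_mul, Prod.fst_zero,
    Prod.snd_zero] at this b0 b1
  linarith [b0.2, b1.1]

theorem Dat.cal' {F : E × E → ℝ} {En ρ : ℝ} {c : ℝ × ℝ} (D : Dat F En ρ c) {u : E → ℝ}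
    (hu : Sub F c En u) (x : E) : fderiv ℝ u x (D.V x) = F (x, D.V x) + En := by
  obtain ⟨y, rfl⟩ := D.surj x
  let W : E → ℝ := fun x => u (D.Ψ x) - D.S (D.Ψ x)
  have cW : Continuous W := (hu.sm.continuous.comp D.cont).sub (D.hS.continuous.comp D.cont)
  have pW := per_int (φ := W) (a := 0) (b := 0)
    (fun x => by simp only [W, D.P1, hu.p1, D.S1]; ring) fun x => by
      simp only [W, D.P2, hu.p2, D.S2]; ring
  have an : ∀ s t : ℝ, s ≤ t → W (y + t • ((ρ, 1) : E)) ≤ W (y + s • ((ρ, 1) : E)) :=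
    fun s t h => by simpa [W] using Dat_le D hu y h
  have key : W (y + (-1 : ℝ) • ((ρ, 1) : E) + ((0 : ℝ), 0)) ≤ W (y + (1 : ℝ) • ((ρ, 1) : E)) := by
    have cl : IsClosed {t : ℝ | W (y + (-1 : ℝ) • ((ρ, 1) : E) + (t, 0)) ≤
      W (y + (1 : ℝ) • ((ρ, 1) : E))} := isClosed_le (by fun_prop) continuous_const
    refine cl.closure_subset (Metric.mem_closure_iff.2 fun ε hε => ?_)
    obtain ⟨n, hn⟩ := exists_nat_one_div_lt (half_pos hε)
    obtain ⟨k, k1, -, k2⟩ := Real.exists_nat_abs_mul_sub_round_le ρ n.succ_pos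
    have k3 : (1 : ℝ) ≤ k := by exact_mod_cast k1
    refine ⟨2 * (k * ρ - round (k * ρ)), ?_, ?_⟩
    · have := an 1 (2 * k - 1) (by linarith)
      have e := pW (2 * round (k * ρ)) (2 * k)
        (y + (-1 : ℝ) • ((ρ, 1) : E) + (2 * (k * ρ - round (k * ρ)), 0))
      rw [smul_zero, smul_zero, add_zero, add_zero] at e
      refine e.symm.trans_le (le_of_eq_of_le (congrArg W ?_) this)
      ext <;> simp <;> ring
    · rw [dist_comm, Real.dist_eq, sub_zero, abs_mul, abs_two]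
      have : (1 : ℝ) / ((n.succ : ℕ) + 1) ≤ 1 / (n + 1) :=
        one_div_le_one_div_of_le (by positivity) (by push_cast; linarith)
      linarith
  rw [Prod.mk_zero_zero, add_zero] at key
  have lm : IsLocalMin (fun s : ℝ => W (y + s • ((ρ, 1) : E))) 0 := by
    filter_upwards [Iio_mem_nhds zero_lt_one] with s hs
    exact ((an _ _ (by norm_num)).trans key).trans (an _ _ hs.le)
  have := lm.hasDerivAt_eq_zero (Dat_der D hu.sm y 0 (y := y) (by simp))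
  exact sub_eq_zero.1 ((mul_eq_zero.1 this).resolve_left (by linarith [D.l1 y]))

theorem lip_rho {F : E × E → ℝ} {En ρ₁ ρ₂ : ℝ} {c₁ c₂ : ℝ × ℝ} (D₁ : Dat F En ρ₁ c₁)
    (D₂ : Dat F En ρ₂ c₂) : |ρ₁ - ρ₂| ≤ 72 * |c₁.1 - c₂.1| := by
  have h1 := D₂.low (D₁.up ((ρ₂ - ρ₁) / 36))
  have h2 := D₁.low D₂.sub'
  rw [max_eq_right (by nlinarith [sq_nonneg ((ρ₂ - ρ₁) / 36)])] at h1
  simp only [sub_self, zero_div, mul_zero, max_self] at h1 h2
  have h3 : (ρ₁ - ρ₂) ^ 2 ≤ 72 * ((c₁.1 - c₂.1) * (ρ₁ - ρ₂)) := by nlinarith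
  have h4 := le_abs_self ((c₁.1 - c₂.1) * (ρ₁ - ρ₂))
  rw [abs_mul] at h4
  rw [← sq_abs] at h3
  rcases (abs_nonneg (ρ₁ - ρ₂)).eq_or_lt with k | k
  · rw [← k]; positivity
  · exact le_of_mul_le_mul_right (by nlinarith) k

theorem Dat_en {F : E × E → ℝ} {E₁ E₂ ρ₁ ρ₂ : ℝ} {c₁ c₂ : ℝ × ℝ} (D₁ : Dat F E₁ ρ₁ c₁)
    (D₂ : Dat F E₂ ρ₂ c₂) (h₁ : |ρ₁| ≤ 1) : E₁ - E₂ ≤ 4 * ‖c₁ - c₂‖ := by
  have h := D₁.low D₂.sub'
  have a1 : |c₁.1 - c₂.1| ≤ ‖c₁ - c₂‖ := norm_fst_le (c₁ - c₂)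
  have a2 : |c₁.2 - c₂.2| ≤ ‖c₁ - c₂‖ := norm_snd_le (c₁ - c₂)
  have a3 : |(c₁.1 - c₂.1) * ρ₁| ≤ ‖c₁ - c₂‖ :=
    abs_mul _ ρ₁ ▸ (mul_le_of_le_one_right (abs_nonneg _) h₁).trans a1
  rcases le_total E₁ E₂ with k | k
  · linarith [norm_nonneg (c₁ - c₂)]
  · rw [max_eq_left (by linarith)] at h
    linarith [(abs_le.1 a2).2, (abs_le.1 a3).2]

theorem lip_en {F : E × E → ℝ} {E₁ E₂ ρ₁ ρ₂ : ℝ} {c₁ c₂ : ℝ × ℝ} (D₁ : Dat F E₁ ρ₁ c₁)
    (D₂ : Dat F E₂ ρ₂ c₂) (h₁ : |ρ₁| ≤ 1) (h₂ : |ρ₂| ≤ 1) : |E₁ - E₂| ≤ 4 * ‖c₁ - c₂‖ := by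
  refine abs_sub_le_iff.2 ⟨Dat_en D₁ D₂ h₁, ?_⟩
  rw [norm_sub_rev]
  exact Dat_en D₂ D₁ h₂

end Pool.Agent.Work.MP_1ce82a_an.K
end
end

-- merged part: Pool.Agent.Work.MP_1ce82a_an.K.NotU
section
/-! Classes with an invariant torus are not in the hyperbolic region.

PLAN. `isSub_iff`: `per_int` in one direction, preimages of `(1, 0)` and `(0, 1)` under `τ` in the
other. `not_U`: `alpha = En` (`IsLeast.csInf_eq`, `Dat.sub'`, `Dat.low` with `c' = c`), so by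
`Dat.cal'` every `(y, D.V y)` lies in the Aubry set. If it were `orb G x` with `x` of class `C¹`,
the plane would be the countable union (`G` is countable through `τ`) of the ranges of the curves
`t ↦ x t + τ g`, of Hausdorff dimension at most one (`ContDiff.dimH_range_le`, `dimH_iUnion`,
`Real.dimH_univ_eq_finrank`). `full_ae`: `τ` is additive (apply the action to `0`), every
`IsHom` is some `cls τ a` (integer induction, or `AddMonoidHom` on `ℤ × ℤ`), `cls τ` is injective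
and linear; so `comb e t = cls τ (A t)` for a bijective linear map `A`; make it a continuous linear
equivalence; `Measure.map A volume` is an additive Haar measure
(`ContinuousLinearEquiv.isAddHaarMeasure_map`), so `volume` is absolutely continuous with respect
to it (`Measure.absolutelyContinuous_isAddHaarMeasure`); for the null set use `A.toHomeomorph.toMeasurableEquiv`
and `MeasurableEquiv.map_apply` (the set is not assumed measurable). About 250 lines. -/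

set_option linter.unusedVariables false

open Set Filter Topology MeasureTheory
open scoped ContDiff ComplexConjugate

noncomputable section
namespace Pool.Agent.Work.MP_1ce82a_an.K

open Pool.Agent.Work.MP_1ce82a_an (E addPot)

theorem isSub_iff {G : Type} [Group G] [MulAction G E] {τ : G → ℤ × ℤ} (hτ : Std τ)
    {F : E × E → ℝ} {c : ℝ × ℝ} {a : ℝ} {u : E → ℝ} : S.IsSub F (cls τ c) a u ↔ Sub F c a u := by
  constructor
  · rintro ⟨h1, h2, h3⟩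
    obtain ⟨g1, e1⟩ := hτ.bij.2 (1, 0)
    obtain ⟨g2, e2⟩ := hτ.bij.2 (0, 1)
    refine ⟨h1, fun x => ?_, fun x => ?_, h3⟩
    · simpa [hτ.act, cls, e1] using h2 g1 x
    · simpa [hτ.act, cls, e2] using h2 g2 x
  · intro h
    refine ⟨h.sm, fun g x => ?_, h.le⟩
    rw [hτ.act, per_int h.p1 h.p2, cls, zsmul_eq_mul, zsmul_eq_mul]
    ring

theorem not_U {G : Type} [Group G] [MulAction G E] {τ : G → ℤ × ℤ} (hτ : Std τ) {F : E × E → ℝ}
    {En ρ : ℝ} {c : ℝ × ℝ} (D : Dat F En ρ c) : cls τ c ∉ S.Uset F := by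
  have hα : S.alpha F (cls τ c) = En := by
    refine IsLeast.csInf_eq ⟨⟨D.S, (isSub_iff hτ).2 D.sub'⟩, ?_⟩
    rintro a ⟨u, hu⟩
    have h1 := D.low ((isSub_iff hτ).1 hu)
    rw [sub_self, sub_self, zero_mul, add_zero] at h1
    rcases le_max_iff.1 h1 with h | h <;> linarith
  rintro ⟨x, hx, he⟩
  have hx1 : ContDiff ℝ 1 x := hx.elim (fun h => h.1.1) fun h => h.1.1
  have hc : Countable G := hτ.bij.1.countable
  have h1 : (univ : Set E) ⊆ ⋃ g : G, range fun t => x t + (((τ g).1 : ℝ), ((τ g).2 : ℝ)) := by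
    intro y _
    have h2 : (y, D.V y) ∈ S.aubry F (cls τ c) := by
      intro u hu
      rw [hα] at hu ⊢
      exact D.cal' ((isSub_iff hτ).1 hu) y
    rw [he] at h2
    obtain ⟨g, t, h3⟩ := h2
    exact mem_iUnion.2 ⟨g, t, (hτ.act g (x t)).symm.trans (congrArg Prod.fst h3).symm⟩
  have h4 := dimH_mono h1
  rw [dimH_iUnion, Real.dimH_univ_eq_finrank] at h4
  have h5 := h4.trans (iSup_le fun g => (hx1.add contDiff_const).dimH_range_le)
  simp at h5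

theorem NotU_add {G : Type} [Group G] [MulAction G E] {τ : G → ℤ × ℤ} (hτ : Std τ) (a b : G) :
    τ (a * b) = τ a + τ b := by
  have h := mul_smul a b (0 : E)
  rw [hτ.act, hτ.act, hτ.act, Prod.ext_iff] at h
  simp only [Prod.fst_add, Prod.snd_add, Prod.fst_zero, Prod.snd_zero, zero_add] at h
  refine Prod.ext ?_ ?_
  · rw [Prod.fst_add, add_comm]; exact_mod_cast h.1
  · rw [Prod.snd_add, add_comm]; exact_mod_cast h.2

theorem NotU_hom {G : Type} [Group G] [MulAction G E] {τ : G → ℤ × ℤ} (hτ : Std τ) {g1 g2 : G}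
    (e1 : τ g1 = (1, 0)) (e2 : τ g2 = (0, 1)) {c : G → ℝ} (hc : S.IsHom c) :
    c = cls τ (c g1, c g2) := by
  obtain ⟨σ, h1, h2⟩ := Function.bijective_iff_has_inverse.1 hτ.bij
  let ψ : ℤ × ℤ →+ ℝ := AddMonoidHom.mk' (fun k => c (σ k)) fun a b => by
    rw [← hc, ← h1 (σ a * σ b), NotU_add hτ, h2, h2]
  have hψ : ∀ g, ψ (τ g) = c g := fun g => congrArg c (h1 g)
  funext g
  have e : τ g = (τ g).1 • τ g1 + (τ g).2 • τ g2 := by rw [e1, e2]; simp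
  rw [← hψ g, e, map_add, map_zsmul, map_zsmul, hψ, hψ, cls, zsmul_eq_mul, zsmul_eq_mul]
  ring

theorem full_ae {G : Type} [Group G] [MulAction G E] {τ : G → ℤ × ℤ} (hτ : Std τ)
    {U : Set (G → ℝ)} (h : S.Full U) : ∀ᵐ c : ℝ × ℝ, cls τ c ∈ U := by
  obtain ⟨b, e, h1, h2, h3⟩ := h
  obtain ⟨g1, e1⟩ := hτ.bij.2 (1, 0)
  obtain ⟨g2, e2⟩ := hτ.bij.2 (0, 1)
  have hc : ∀ t, S.IsHom (S.comb e t) := fun t a b => by
    simp only [S.comb, h1 _ a b, mul_add, Finset.sum_add_distrib]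
  let A : (Fin b → ℝ) →ₗ[ℝ] ℝ × ℝ :=
    { toFun := fun t => (S.comb e t g1, S.comb e t g2)
      map_add' := fun s t => by simp [S.comb, add_mul, Finset.sum_add_distrib]
      map_smul' := fun r t => by simp [S.comb, Finset.mul_sum, mul_assoc] }
  have hA : ∀ t, S.comb e t = cls τ (A t) := fun t => NotU_hom hτ e1 e2 (hc t)
  have hb : Function.Bijective A := by
    refine ⟨fun s t hst => (h2 _ (hc s)).unique rfl (by rw [hA, hA, hst]), fun c => ?_⟩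
    obtain ⟨t, ht, -⟩ := h2 (cls τ c) fun a b => by
      simp only [cls, NotU_add hτ, Prod.fst_add, Prod.snd_add, Int.cast_add]; ring
    refine ⟨t, ?_⟩
    show (S.comb e t g1, S.comb e t g2) = c
    rw [← ht]
    simp [cls, e1, e2]
  let B := (LinearEquiv.ofBijective A hb).toContinuousLinearEquiv
  have hv : (volume : Measure (ℝ × ℝ)).IsAddHaarMeasure := Measure.prod.instIsAddHaarMeasure _ _
  refine (Measure.absolutelyContinuous_isAddHaarMeasure volume (Measure.map B volume)).ae_le ?_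
  refine (B.toHomeomorph.measurableEmbedding.ae_map_iff).2 ?_
  filter_upwards [h3] with t ht
  rw [hA] at ht
  exact ht

end Pool.Agent.Work.MP_1ce82a_an.K
end
end

-- merged part: Pool.Agent.Work.MP_1ce82a_an.K.Baire
section
/-! The space of smooth functions.

PLAN. `baire`: `jets` is a closed embedding into `∀ k, C(E, E [×k]→L[ℝ] ℝ)`, which is completely
metrizable (`ContinuousMap.instCompleteSpaceOfCompactlyCoherentSpace`, countably generated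
uniformity, `TopologicalSpace.IsCompletelyPseudoMetrizableSpace` has an instance for countable
products, `IsClosedEmbedding.IsCompletelyPseudoMetrizableSpace`, then the Baire instance). The range
is the set of `p` such that (1) `fderiv` relation
`HasFDerivAt (p k) ((p (k + 1) x).curryLeft) x` for all `k x` and (2) `p 0` is invariant; it is
closed: along a filter `p i → q`, `ContinuousMap.tendsto_iff_tendstoLocallyUniformly` and
`hasFDerivAt_of_tendstoLocallyUniformlyOn` (or the sequential version, the space is first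
countable); conversely (1) gives `HasFTaylorSeriesUpTo ∞ f (fun x k => p k x)` with
`f x = p 0 x ![]`, so `ContDiff` and `HasFTaylorSeriesUpTo.eq_iteratedFDeriv`. `nbhd`: the set of
`f` with `MapsTo (jets f j) (Icc 0 1 ×ˢ Icc 0 1) (ball 0 δ)` for `j ≤ K`
(`ContinuousMap.isOpen_setOf_mapsTo`); it contains `0`; `iteratedFDeriv_comp_add_right`,
`per_red`. About 250 lines. -/

set_option linter.unusedVariables false

open Set Filter Topology MeasureTheory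
open scoped ContDiff ComplexConjugate

noncomputable section
namespace Pool.Agent.Work.MP_1ce82a_an.K

open Pool.Agent.Work.MP_1ce82a_an (E addPot)

theorem Baire_range (G : Type) [Group G] [MulAction G E] :
    range (S.jets (G := G)) = {p | (∀ k x, HasFDerivAt (p k) (p (k + 1) x).curryLeft x) ∧
      ∀ (g : G) (x : E), p 0 (g • x) = p 0 x} := by
  ext p
  constructor
  · rintro ⟨f, rfl⟩
    refine ⟨((hasFTaylorSeriesUpTo_top_iff' le_rfl).1 f.2.1.ftaylorSeries).2, fun g x => ?_⟩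
    ext v
    exact f.2.2 g x
  · rintro ⟨h1, h2⟩
    have h : HasFTaylorSeriesUpTo ∞ (fun x => (p 0 x).curry0) fun x k => p k x :=
      (hasFTaylorSeriesUpTo_top_iff' le_rfl).2 ⟨fun _ => rfl, h1⟩
    refine ⟨⟨_, h.contDiff, fun g x => by rw [h2]⟩, funext fun k => ContinuousMap.ext fun x => ?_⟩
    exact (h.eq_iteratedFDeriv (by exact_mod_cast le_top) x).symm

theorem Baire_closed (k : ℕ) : IsClosed {p : ∀ k : ℕ, C(E, E [×k]→L[ℝ] ℝ) |
    ∀ x, HasFDerivAt (p k) (p (k + 1) x).curryLeft x} := by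
  refine isClosed_of_closure_subset fun q hq x => ?_
  obtain ⟨p, h1, h2⟩ := mem_closure_iff_seq_limit.1 hq
  have h3 := fun j => ContinuousMap.tendsto_iff_tendstoLocallyUniformly.1 (tendsto_pi_nhds.1 h2 j)
  have h4 := (continuousMultilinearCurryLeftEquiv ℝ (fun _ : Fin (k + 1) => E)
    ℝ).isometry.uniformContinuous.comp_tendstoLocallyUniformly (h3 (k + 1))
  exact hasFDerivAt_of_tendstoLocallyUniformlyOn isOpen_univ h4.tendstoLocallyUniformlyOn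
    (fun n y _ => h1 n y) (fun y hy => (h3 k).tendstoLocallyUniformlyOn.tendsto_at hy) (mem_univ x)

theorem baire (G : Type) [Group G] [MulAction G E] : BaireSpace (S.Cinf G) := by
  have h : IsClosedEmbedding (S.jets (G := G)) := by
    refine ⟨⟨⟨rfl⟩, fun f f' e => Subtype.ext (funext fun x => ?_)⟩, ?_⟩
    · exact congrArg (fun p : ∀ k : ℕ, C(E, E [×k]→L[ℝ] ℝ) => (p 0 x).curry0) e
    · rw [Baire_range, ofPred_and, ofPred_forall, ofPred_forall]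
      refine (isClosed_iInter fun k => Baire_closed k).inter (isClosed_iInter fun g => ?_)
      rw [ofPred_forall]
      exact isClosed_iInter fun x => isClosed_eq
        ((continuous_eval_const _).comp (continuous_apply 0))
        ((continuous_eval_const _).comp (continuous_apply 0))
  have (k : ℕ) : TopologicalSpace.IsCompletelyPseudoMetrizableSpace C(E, E [×k]→L[ℝ] ℝ) :=
    .of_completeSpace_pseudometrizable (X := C(E, E [×k]→L[ℝ] ℝ))
  have := h.IsCompletelyPseudoMetrizableSpace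
  infer_instance

theorem per_cinf {G : Type} [Group G] [MulAction G E] {τ : G → ℤ × ℤ} (hτ : Std τ)
    (f : S.Cinf G) : Per f.1 := by
  obtain ⟨a, ha⟩ := hτ.bij.2 (1, 0)
  obtain ⟨b, hb⟩ := hτ.bij.2 (0, 1)
  refine ⟨fun x => ?_, fun x => ?_⟩
  · simpa [hτ.act, ha] using f.2.2 a x
  · simpa [hτ.act, hb] using f.2.2 b x

theorem nbhd {G : Type} [Group G] [MulAction G E] {τ : G → ℤ × ℤ} (hτ : Std τ) (K : ℕ) {δ : ℝ}
    (hδ : 0 < δ) : ∃ O : Set (S.Cinf G), IsOpen O ∧ O.Nonempty ∧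
      ∀ f ∈ O, ∀ j ≤ K, ∀ x, ‖iteratedFDeriv ℝ j f.1 x‖ ≤ δ := by
  refine ⟨⋂ j ∈ Iic K, {f | MapsTo (S.jets f j) (Icc 0 1 ×ˢ Icc 0 1) (Metric.ball 0 δ)},
    (finite_Iic K).isOpen_biInter fun j _ => ?_,
    ⟨⟨fun _ => 0, contDiff_const, fun _ _ => rfl⟩, mem_iInter₂.2 fun j _ x _ => ?_⟩,
    fun f hf j hj x => ?_⟩
  · have c : Continuous fun f : S.Cinf G => S.jets f j :=
      (continuous_apply j).comp (continuous_induced_dom (f := S.jets (G := G)))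
    exact (ContinuousMap.isOpen_setOfPred_mapsTo (isCompact_Icc.prod isCompact_Icc)
      Metric.isOpen_ball).preimage c
  · change iteratedFDeriv ℝ j (fun _ : E => (0 : ℝ)) x ∈ _
    simpa using hδ
  · obtain ⟨m, n, y, hy, rfl⟩ := per_red x
    obtain ⟨g, hg⟩ := hτ.bij.2 (m, n)
    have e : (fun z => f.1 (z + ((m : ℝ), (n : ℝ)))) = f.1 := funext fun z => by
      simpa [hτ.act, hg] using f.2.2 g z
    rw [← iteratedFDeriv_comp_add_right, e]
    exact (mem_ball_zero_iff.1 (mem_iInter₂.1 hf j hj hy)).le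

end Pool.Agent.Work.MP_1ce82a_an.K
end
end

-- merged part: Pool.Agent.Work.MP_1ce82a_an.U.Cj
section
/-! Transport by the conjugacy.

PLAN. `Cj.inv`, `Cj.inv'`: chain rule for `Φ.symm ∘ Φ = id` and `Φ ∘ Φ.symm = id`. `Cj.smul_eq`:
`g • x = Φ.symm (Φ x + τ g)`. `Cj.dk_eq`: differentiate `Cj.act`. `isSub_iff`: as `K.isSub_iff`, with
the chain rule. `not_U`: copy `K.not_U`; the point `(Φ.symm y, fderiv ℝ Φ.symm y (D.V y))` lies in
the Aubry set; the curves are `t ↦ Φ (x t) + τ g`. `full_ae`: apply `K.full_ae` with the explicit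
action `g • x = x + τ g` (a `MulAction` structure built from the additivity of `τ`; `S.Full` does
not mention the action), using `@`. About 200 lines. -/

set_option linter.unusedVariables false

open Set Filter Topology MeasureTheory
open scoped ContDiff

namespace Pool.Agent.Work.MP_1ce82a_an.U

variable {G : Type} [Group G] [MulAction G E] {Φ : E ≃ E} {τ : G → ℤ × ℤ}

theorem Cj_d (h : Cj Φ τ) : Differentiable ℝ Φ := h.sm.differentiable (by simp)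

theorem Cj_d' (h : Cj Φ τ) : Differentiable ℝ Φ.symm := h.sm'.differentiable (by simp)

theorem Cj.inv (h : Cj Φ τ) (x v : E) : fderiv ℝ Φ.symm (Φ x) (fderiv ℝ Φ x v) = v := by
  have e := fderiv_comp x (Cj_d' h (Φ x)) (Cj_d h x)
  rw [Equiv.symm_comp_self, fderiv_id] at e
  exact (congrArg (fun A : E →L[ℝ] E => A v) e).symm

theorem Cj.inv' (h : Cj Φ τ) (y v : E) : fderiv ℝ Φ (Φ.symm y) (fderiv ℝ Φ.symm y v) = v := by
  have e := fderiv_comp y (Cj_d h (Φ.symm y)) (Cj_d' h y)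
  rw [Equiv.self_comp_symm, fderiv_id] at e
  exact (congrArg (fun A : E →L[ℝ] E => A v) e).symm

theorem Cj.add (h : Cj Φ τ) (a b : G) : τ (a * b) = τ a + τ b := by
  have k := congrArg Φ (mul_smul a b (0 : E))
  rw [h.act, h.act, h.act, add_assoc, add_right_inj, Prod.ext_iff] at k
  simp only [Prod.fst_add, Prod.snd_add] at k
  refine Prod.ext ?_ ?_
  · rw [Prod.fst_add, add_comm]; exact_mod_cast k.1
  · rw [Prod.snd_add, add_comm]; exact_mod_cast k.2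

theorem Cj_smul (h : Cj Φ τ) (g : G) (x : E) :
    g • x = Φ.symm (Φ x + (((τ g).1 : ℝ), ((τ g).2 : ℝ))) := by
  rw [← h.act, Equiv.symm_apply_apply]

theorem Cj_symm (h : Cj Φ τ) (g : G) (y : E) :
    Φ.symm (y + (((τ g).1 : ℝ), ((τ g).2 : ℝ))) = g • Φ.symm y := by
  rw [Cj_smul h, Equiv.apply_symm_apply]

theorem Cj.dk_eq (h : Cj Φ τ) (g : G) (x v : E) :
    fderiv ℝ Φ (g • x) (S.dk g x v) = fderiv ℝ Φ x v := by
  have d : Differentiable ℝ fun y : E => g • y := by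
    rw [funext (Cj_smul h g)]
    exact (Cj_d' h).comp ((Cj_d h).add_const _)
  have e := fderiv_comp x (Cj_d h (g • x)) (d x)
  have e' : (Φ : E → E) ∘ (fun y : E => g • y) =
      fun y => Φ y + (((τ g).1 : ℝ), ((τ g).2 : ℝ)) := funext (h.act g)
  rw [e', fderiv_add_const] at e
  exact (congrArg (fun A : E →L[ℝ] E => A v) e).symm

theorem Cj.per (h : Cj Φ τ) (f : S.Cinf G) : K.Per fun y => f.1 (Φ.symm y) := by
  obtain ⟨a, ha⟩ := h.bij.2 (1, 0)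
  obtain ⟨b, hb⟩ := h.bij.2 (0, 1)
  refine ⟨fun x => ?_, fun x => ?_⟩
  · simpa [← Cj_symm h, ha] using f.2.2 a (Φ.symm x)
  · simpa [← Cj_symm h, hb] using f.2.2 b (Φ.symm x)

theorem Cj_fd (h : Cj Φ τ) {u : E → ℝ} (hu : ContDiff ℝ 1 u) (y w : E) :
    fderiv ℝ (fun y => u (Φ.symm y)) y w = fderiv ℝ u (Φ.symm y) (fderiv ℝ Φ.symm y w) :=
  congrArg (fun A : E →L[ℝ] ℝ => A w)
    (fderiv_comp y (hu.differentiable one_ne_zero (Φ.symm y)) (Cj_d' h y))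

theorem Cj.isSub_iff (h : Cj Φ τ) {F : E × E → ℝ} {c : ℝ × ℝ} {a : ℝ} {u : E → ℝ} :
    S.IsSub (pb Φ F) (K.cls τ c) a u ↔ K.Sub F c a fun y => u (Φ.symm y) := by
  constructor
  · rintro ⟨h1, h2, h3⟩
    obtain ⟨g1, e1⟩ := h.bij.2 (1, 0)
    obtain ⟨g2, e2⟩ := h.bij.2 (0, 1)
    refine ⟨h1.comp (h.sm'.of_le (by exact_mod_cast le_top)), fun x => ?_, fun x => ?_,
      fun y w => ?_⟩
    · simpa [← Cj_symm h, K.cls, e1] using h2 g1 (Φ.symm x)
    · simpa [← Cj_symm h, K.cls, e2] using h2 g2 (Φ.symm x)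
    · have k := h3 (Φ.symm y) (fderiv ℝ Φ.symm y w)
      simp only [pb, h.inv', Equiv.apply_symm_apply] at k
      rwa [Cj_fd h h1]
  · intro k
    have h1 : ContDiff ℝ 1 u := by
      have := k.sm.comp (h.sm.of_le (by exact_mod_cast le_top))
      simpa only [Function.comp_def, Equiv.symm_apply_apply] using this
    refine ⟨h1, fun g x => ?_, fun x v => ?_⟩
    · have := K.per_int (φ := fun y => u (Φ.symm y)) k.p1 k.p2 (τ g).1 (τ g).2 (Φ x)
      simp only [← Cj_smul h, Equiv.symm_apply_apply] at this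
      rw [this, K.cls, zsmul_eq_mul, zsmul_eq_mul]
      ring
    · have := k.le (Φ x) (fderiv ℝ Φ x v)
      rwa [Cj_fd h h1, h.inv, Equiv.symm_apply_apply] at this

theorem Cj.not_U (h : Cj Φ τ) {F : E × E → ℝ} {En ρ : ℝ} {c : ℝ × ℝ} (D : K.Dat F En ρ c) :
    K.cls τ c ∉ S.Uset (pb Φ F) := by
  have s1 : ContDiff ℝ 1 Φ := h.sm.of_le (by exact_mod_cast le_top)
  have hα : S.alpha (pb Φ F) (K.cls τ c) = En := by
    refine IsLeast.csInf_eq ⟨⟨fun x => D.S (Φ x), h.isSub_iff.2 ?_⟩, ?_⟩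
    · simpa only [Equiv.apply_symm_apply] using D.sub'
    · rintro a ⟨u, hu⟩
      have h1 := D.low (h.isSub_iff.1 hu)
      rw [sub_self, sub_self, zero_mul, add_zero] at h1
      rcases le_max_iff.1 h1 with h | h <;> linarith
  rintro ⟨x, hx, he⟩
  have hx1 : ContDiff ℝ 1 x := hx.elim (fun h => h.1.1) fun h => h.1.1
  have hc : Countable G := h.bij.1.countable
  have h1 : (univ : Set E) ⊆
      ⋃ g : G, range fun t => Φ (x t) + (((τ g).1 : ℝ), ((τ g).2 : ℝ)) := by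
    intro y _
    have h2 : (Φ.symm y, fderiv ℝ Φ.symm y (D.V y)) ∈ S.aubry (pb Φ F) (K.cls τ c) := by
      intro u hu
      rw [hα] at hu ⊢
      have k := D.cal' (h.isSub_iff.1 hu) y
      rw [Cj_fd h hu.1] at k
      simpa only [pb, h.inv', Equiv.apply_symm_apply] using k
    rw [he] at h2
    obtain ⟨g, t, h3⟩ := h2
    refine mem_iUnion.2 ⟨g, t, (h.act g (x t)).symm.trans ?_⟩
    exact (congrArg (fun z : E × E => Φ z.1) h3).symm.trans (Φ.apply_symm_apply y)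
  have h4 := dimH_mono h1
  rw [dimH_iUnion, Real.dimH_univ_eq_finrank] at h4
  have h5 := h4.trans (iSup_le fun g => ((s1.comp hx1).add contDiff_const).dimH_range_le)
  simp at h5

/-- The action by translations. -/
abbrev Cj_act {H : Type} [Group H] (τ : H → ℤ × ℤ) (ha : ∀ a b, τ (a * b) = τ a + τ b) :
    MulAction H E where
  smul := fun g x => x + (((τ g).1 : ℝ), ((τ g).2 : ℝ))
  one_smul := fun x => by
    have k := ha 1 1
    rw [mul_one] at k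
    change x + (((τ 1).1 : ℝ), ((τ 1).2 : ℝ)) = x
    rw [left_eq_add.1 k]
    simp [Prod.ext_iff]
  mul_smul := fun a b x => by
    change x + (((τ (a * b)).1 : ℝ), ((τ (a * b)).2 : ℝ)) =
      x + (((τ b).1 : ℝ), ((τ b).2 : ℝ)) + (((τ a).1 : ℝ), ((τ a).2 : ℝ))
    rw [ha]
    ext <;> simp <;> ring

theorem Cj_full {H : Type} [Group H] {τ : H → ℤ × ℤ} (ha : ∀ a b, τ (a * b) = τ a + τ b)
    (hb : Function.Bijective τ) {W : Set (H → ℝ)} (hW : S.Full W) :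
    ∀ᵐ c : ℝ × ℝ, K.cls τ c ∈ W :=
  letI := Cj_act τ ha
  K.full_ae ⟨hb, fun _ _ => rfl⟩ hW

theorem Cj.full_ae (h : Cj Φ τ) {W : Set (G → ℝ)} (hW : S.Full W) :
    ∀ᵐ c : ℝ × ℝ, K.cls τ c ∈ W := by
  exact Cj_full h.add h.bij hW

end Pool.Agent.Work.MP_1ce82a_an.U
end

-- merged part: Pool.Agent.Work.MP_1ce82a_an.U.CjT
section
/-! The transported Lagrangian and the neighbourhood of zero.

PLAN. `tonelli`: `L z = l (fderiv ℝ Φ z.1 z.2)`. For fixed `x`, with `A = fderiv ℝ Φ x` (injective by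
`Cj.inv`): `D2 L (x, v) (0, w) (0, w)` is the second derivative at `0` of `s ↦ L (x, v + s • w)`; or
use the chain rule twice for `v ↦ L (x, v) = l (A v)`, whose second derivative is on the one hand
`D2 L (x, v) (0, ·) (0, ·)` and on the other hand `fderiv ℝ (fderiv ℝ l) (A v) (A ·) (A ·)`.
Superlinearity: `‖v‖ ≤ C * ‖A v‖`, so `A` tends to `cocompact` along `cocompact`, and
`l (A v) / ‖v‖ ≥ (l (A v) / ‖A v‖) / C` when the quotient is positive. `nbhd`: `K' = Φ.symm '' Q` with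
`Q = Icc 0 1 ×ˢ Icc 0 1` is compact; `O` is the set of `f` with all jets of order at most `n` smaller
than `δ'` on `K'` (model: `K.nbhd`); `norm_iteratedFDeriv_comp_le` with `D ≥ 1` such that
`‖iteratedFDeriv ℝ i Φ.symm y‖ ≤ D ^ i` for `1 ≤ i ≤ n`, `y ∈ Q`, and `δ' = δ / (n! * D ^ n)`;
periodicity of the jets of `f ∘ Φ.symm` by `Cj.per`, `K.per_int`, `K.per_red`,
`iteratedFDeriv_comp_add_right`. About 220 lines. -/

set_option linter.unusedVariables false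

open Set Filter Topology MeasureTheory
open scoped ContDiff

namespace Pool.Agent.Work.MP_1ce82a_an.U

variable {G : Type} [Group G] [MulAction G E] {Φ : E ≃ E} {τ : G → ℤ × ℤ}

theorem CjT_aff {X : Type} [NormedAddCommGroup X] [NormedSpace ℝ X] {F : X → ℝ}
    (hF : ContDiff ℝ 2 F) (a : X) (B : E →L[ℝ] X) (v w w' : E) :
    fderiv ℝ (fderiv ℝ fun y => F (a + B y)) v w w' =
      fderiv ℝ (fderiv ℝ F) (a + B v) (B w) (B w') := by
  have h1 : ∀ y, HasFDerivAt (fun y => a + B y) B y := fun y => B.hasFDerivAt.const_add a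
  have e : (fderiv ℝ fun y => F (a + B y)) = fun y => (fderiv ℝ F (a + B y)).comp B :=
    funext fun y => ((hF.differentiable (by norm_num) _).hasFDerivAt.comp y (h1 y)).fderiv
  have h2 : HasFDerivAt (fun y => fderiv ℝ F (a + B y))
      ((fderiv ℝ (fderiv ℝ F) (a + B v)).comp B) v :=
    ((hF.fderiv_right (m := 1) (by norm_num)).differentiable one_ne_zero _).hasFDerivAt.comp v (h1 v)
  rw [e, (h2.clm_comp (hasFDerivAt_const B v)).fderiv]
  simp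

theorem Cj.smooth (h : Cj Φ τ) {l : E → ℝ} (hl : ContDiff ℝ ∞ l) :
    ContDiff ℝ ∞ (pb Φ fun z => l z.2) :=
  hl.comp (((h.sm.fderiv_right (m := ∞) (by simp)).comp contDiff_fst).clm_apply contDiff_snd)

theorem Cj.tonelli (h : Cj Φ τ) {l : E → ℝ} (hl : ContDiff ℝ ∞ l)
    (hc : ∀ v w : E, w ≠ 0 → 0 < fderiv ℝ (fderiv ℝ l) v w w)
    (hs : Tendsto (fun v : E => l v / ‖v‖) (cocompact E) atTop) :
    S.Tonelli G (pb Φ fun z => l z.2) := by
  have i2 : (2 : WithTop ℕ∞) ≤ ∞ := WithTop.coe_le_coe.2 (le_top (a := (2 : ℕ∞)))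
  have c2 : ContDiff ℝ 2 (pb Φ fun z => l z.2) := (h.smooth hl).of_le i2
  refine ⟨c2, fun g x v => ?_, fun z w hw => ?_, fun x => ?_⟩
  · simp only [pb, h.dk_eq]
  · obtain ⟨x, v⟩ := z
    have e1 := CjT_aff c2 (x, 0) (ContinuousLinearMap.inr ℝ E E) v w w
    have e2 := CjT_aff (hl.of_le i2) 0 (fderiv ℝ Φ x) v w w
    simp only [ContinuousLinearMap.inr_apply, Prod.mk_add_mk, add_zero, zero_add, pb] at e1 e2
    have e3 : D2 (pb Φ fun z => l z.2) (x, v) (0, w) (0, w) =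
        fderiv ℝ (fderiv ℝ l) (fderiv ℝ Φ x v) (fderiv ℝ Φ x w) (fderiv ℝ Φ x w) :=
      e1.symm.trans e2
    rw [e3]
    exact hc _ _ fun k => hw (by rw [← h.inv x w, k, map_zero])
  · obtain ⟨C, hC, hb⟩ : ∃ C : ℝ, 0 < C ∧ ∀ v, ‖v‖ ≤ C * ‖fderiv ℝ Φ x v‖ := by
      obtain ⟨C, hC, hb⟩ := (fderiv ℝ Φ.symm (Φ x)).bound
      exact ⟨C, hC, fun v => by simpa only [h.inv] using hb (fderiv ℝ Φ x v)⟩
    have t1 : Tendsto (fderiv ℝ Φ x) (cocompact E) (cocompact E) := by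
      rw [← Metric.cobounded_eq_cocompact, ← tendsto_norm_atTop_iff_cobounded]
      refine tendsto_atTop_mono (fun v => (div_le_iff₀' hC).2 (hb v)) ?_
      exact (tendsto_norm_cobounded_atTop (E := E)).atTop_div_const hC
    have t2 := hs.comp t1
    refine tendsto_atTop_mono' _ ?_ (t2.atTop_div_const hC)
    filter_upwards [t2.eventually_gt_atTop 0] with v hv
    simp only [Function.comp_apply, pb] at hv ⊢
    have a1 : fderiv ℝ Φ x v ≠ 0 := fun k => by simp [k] at hv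
    have a2 : 0 < ‖fderiv ℝ Φ x v‖ := norm_pos_iff.2 a1
    have a3 : 0 < ‖v‖ := norm_pos_iff.2 fun k => a1 (by rw [k, map_zero])
    rw [div_div, mul_comm]
    exact div_le_div_of_nonneg_left ((div_pos_iff_of_pos_right a2).1 hv).le a3 (hb v)

theorem Cj.nbhd (h : Cj Φ τ) (n : ℕ) {δ : ℝ} (hδ : 0 < δ) :
    ∃ O : Set (S.Cinf G), IsOpen O ∧ O.Nonempty ∧
      ∀ f ∈ O, ∀ j ≤ n, ∀ x, ‖iteratedFDeriv ℝ j (fun y => f.1 (Φ.symm y)) x‖ ≤ δ := by
  have hQ : IsCompact (Icc (0 : ℝ) 1 ×ˢ Icc (0 : ℝ) 1) := isCompact_Icc.prod isCompact_Icc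
  obtain ⟨D, D1, hD⟩ : ∃ D : ℝ, 1 ≤ D ∧ ∀ i ≤ n, ∀ y ∈ Icc (0 : ℝ) 1 ×ˢ Icc (0 : ℝ) 1,
      ‖iteratedFDeriv ℝ i Φ.symm y‖ ≤ D := by
    choose B hB using fun i : ℕ => hQ.exists_bound_of_continuousOn
      (h.sm'.continuous_iteratedFDeriv (m := i) (by exact_mod_cast le_top)).continuousOn
    obtain ⟨M, hM⟩ := ((finite_Iic n).image B).bddAbove
    exact ⟨max 1 M, le_max_left _ _, fun i hi y hy =>
      (hB i y hy).trans ((hM (mem_image_of_mem B hi)).trans (le_max_right _ _))⟩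
  have p : (0 : ℝ) < n.factorial * D ^ n := by positivity
  refine ⟨⋂ j ∈ Iic n, {f | MapsTo (S.jets f j) (Φ.symm '' Icc 0 1 ×ˢ Icc 0 1)
      (Metric.ball 0 (δ / (n.factorial * D ^ n)))}, (finite_Iic n).isOpen_biInter fun j _ => ?_,
    ⟨⟨fun _ => 0, contDiff_const, fun _ _ => rfl⟩, mem_iInter₂.2 fun j _ x _ => ?_⟩,
    fun f hf j hj x => ?_⟩
  · have c : Continuous fun f : S.Cinf G => S.jets f j :=
      (continuous_apply j).comp (continuous_induced_dom (f := S.jets (G := G)))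
    exact (ContinuousMap.isOpen_setOfPred_mapsTo (hQ.image h.sm'.continuous)
      Metric.isOpen_ball).preimage c
  · change iteratedFDeriv ℝ j (fun _ : E => (0 : ℝ)) x ∈ _
    simpa using div_pos hδ p
  · obtain ⟨m, k, y, hy, rfl⟩ := K.per_red x
    have e : (fun z => f.1 (Φ.symm (z + ((m : ℝ), (k : ℝ))))) = fun z => f.1 (Φ.symm z) :=
      funext fun z => by
        simpa using K.per_int (φ := fun z => f.1 (Φ.symm z)) (a := 0) (b := 0)
          (fun x => ((h.per f).1 x).trans (add_zero _).symm)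
          (fun x => ((h.per f).2 x).trans (add_zero _).symm) m k z
    rw [← iteratedFDeriv_comp_add_right, e]
    refine (norm_iteratedFDeriv_comp_le f.2.1 h.sm' (by exact_mod_cast le_top) y
      (C := δ / (n.factorial * D ^ n)) (D := D) (fun i hi => (mem_ball_zero_iff.1
        (mem_iInter₂.1 hf i (hi.trans hj) (mem_image_of_mem _ hy))).le)
      fun i h1 hi => (hD i (hi.trans hj) y hy).trans (le_self_pow₀ D1 (by omega))).trans ?_
    have a1 : (j.factorial : ℝ) * D ^ j ≤ n.factorial * D ^ n :=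
      mul_le_mul (by exact_mod_cast Nat.factorial_le hj) (pow_le_pow_right₀ D1 hj)
        (by positivity) (by positivity)
    rw [mul_right_comm, ← mul_div_assoc, div_le_iff₀ p, mul_comm δ]
    exact mul_le_mul_of_nonneg_right a1 hδ.le

end Pool.Agent.Work.MP_1ce82a_an.U
end

-- merged part: Pool.Agent.Work.MP_1ce82a_an.K.Main
section
/-! On the standard torus the hyperbolic region does not have full measure generically. -/

open Set Filter Topology MeasureTheory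
open scoped ContDiff

noncomputable section
namespace Pool.Agent.Work.MP_1ce82a_an.K

open Pool.Agent.Work.MP_1ce82a_an (E addPot)

theorem kam {G : Type} [Group G] [MulAction G E] (τ : G → ℤ × ℤ) (hb : Function.Bijective τ)
    (h : ∀ (g : G) (x : E), g • x = x + (((τ g).1 : ℝ), ((τ g).2 : ℝ))) :
    ∃ L : E × E → ℝ, ContDiff ℝ ∞ L ∧ S.Tonelli G L ∧
      ¬ ∀ᶠ f in residual (S.Cinf G), S.Full {c : G → ℝ | c ∈ S.Uset (addPot L f.1)} := by
  have hτ : Std τ := ⟨hb, h⟩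
  obtain ⟨l, r, hr0, hr1, hl, hc, hs, hP⟩ := lag
  refine ⟨fun z => l z.2, hl.comp contDiff_snd, tonelli hτ hl hc hs, fun hres => ?_⟩
  have hr2 : 0 < r / 2 := half_pos hr0
  obtain ⟨γ, hγ, hD⟩ := dio_pos hr2
  obtain ⟨δ, hδ, hk⟩ := kam_real hγ hr2
  have hδ' : 0 < min (r / 2) (δ / (2 + 2 ^ 32)) := lt_min hr2 (by positivity)
  obtain ⟨O, hO, hne, hf⟩ := nbhd hτ 32 hδ'
  have := baire G
  obtain ⟨f, hf1, hf2⟩ := (dense_of_mem_residual hres).inter_open_nonempty O hO hne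
  have hj' := hf f hf1
  have pf := per_cinf hτ f
  have bf : ∀ x, |f.1 x| ≤ r / 2 := fun x => by
    have h1 := (hj' 0 (Nat.zero_le _) x).trans (min_le_left _ _)
    rwa [norm_iteratedFDeriv_zero, Real.norm_eq_abs] at h1
  have key : ∀ En ρ : ℝ, ∃ c, |En| ≤ r / 2 → |ρ| ≤ r / 2 ∧ Dio γ ρ →
      Nonempty (Dat (addPot (fun z => l z.2) f.1) En ρ c) := by
    intro En ρ
    by_cases h1 : |En| ≤ r / 2 ∧ |ρ| ≤ r / 2 ∧ Dio γ ρ
    · obtain ⟨h1, h2, h3⟩ := h1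
      have hg : ContDiff ℝ ∞ fun y => (En + f.1 y) - (En + f.1 y) ^ 2 / 2 :=
        (contDiff_const.add f.2.1).sub (((contDiff_const.add f.2.1).pow 2).div_const 2)
      obtain ⟨U, u1, u2, u3, u4⟩ := hk ρ _ h3 (by linarith) hg
        ⟨fun x => by simp only [pf.1 x], fun x => by simp only [pf.2 x]⟩ (fun x => by
          refine (gjet f.2.1 (by norm_num) ((min_le_left _ _).trans (by linarith))
            (by linarith) hj' x).trans ?_
          rw [← le_div_iff₀' (by positivity)]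
          exact min_le_right _ _)
      obtain ⟨c, hc⟩ := hj hr1 hP f.2.1 pf bf h1 h2 u1 u2 u3 u4
      exact ⟨c, fun _ _ => hc⟩
    · exact ⟨0, fun h2 h3 => absurd ⟨h2, h3⟩ h1⟩
  choose c hc using key
  have hI : volume {e : ℝ | |e| ≤ r / 2} ≠ 0 := by
    have h1 : {e : ℝ | |e| ≤ r / 2} = Icc (-(r / 2)) (r / 2) := by
      ext e
      simp only [mem_setOf_eq, mem_Icc, abs_le]
    rw [h1, Real.volume_Icc]
    exact (ENNReal.ofReal_pos.2 (by linarith)).ne'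
  refine not_null hI hD (c := c) (K := 72) ?_ ?_ ?_
  · intro e he ρ hρ ρ' hρ'
    obtain ⟨D₁⟩ := hc e ρ he hρ
    obtain ⟨D₂⟩ := hc e ρ' he hρ'
    exact lip_rho D₁ D₂
  · intro e he e' he' ρ hρ ρ' hρ'
    obtain ⟨D₁⟩ := hc e ρ he hρ
    obtain ⟨D₂⟩ := hc e' ρ' he' hρ'
    have h1 := lip_en D₁ D₂ (hρ.1.trans (by linarith)) (hρ'.1.trans (by linarith))
    linarith [norm_nonneg (c e ρ - c e' ρ')]
  · refine measure_mono_null ?_ (full_ae hτ hf2)
    rintro x ⟨e, he, ρ, hρ, rfl⟩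
    obtain ⟨D⟩ := hc e ρ he hρ
    exact not_U hτ D

end Pool.Agent.Work.MP_1ce82a_an.K
end
end

-- merged part: Pool.Agent.Work.MP_1ce82a_an.U.Tor
section
/-! On a torus the hyperbolic region does not have full measure generically. -/

open Set Filter Topology MeasureTheory
open scoped ContDiff

namespace Pool.Agent.Work.MP_1ce82a_an.U

open Pool.Agent.Work.MP_1ce82a_an.K

theorem kam_torus {G : Type} [Group G] [MulAction G E] (hT : S.IsTorus G) :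
    ∃ L : E × E → ℝ, ContDiff ℝ ∞ L ∧ S.Tonelli G L ∧
      ¬ ∀ᶠ f in residual (S.Cinf G), S.Full {c : G → ℝ | c ∈ S.Uset (addPot L f.1)} := by
  obtain ⟨Φ, τ, a1, a2, a3, a4⟩ := hT
  have hτ : Cj Φ τ := ⟨a1, a2, a3, a4⟩
  obtain ⟨l, r, hr0, hr1, hl, hc, hs, hP⟩ := lag
  refine ⟨pb Φ fun z => l z.2, hτ.smooth hl, hτ.tonelli hl hc hs, fun hres => ?_⟩
  have hr2 : 0 < r / 2 := half_pos hr0
  obtain ⟨γ, hγ, hD⟩ := dio_pos hr2
  obtain ⟨δ, hδ, hk⟩ := kam_real hγ hr2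
  have hδ' : 0 < min (r / 2) (δ / (2 + 2 ^ 32)) := lt_min hr2 (by positivity)
  obtain ⟨O, hO, hne, hf⟩ := hτ.nbhd 32 hδ'
  have := baire G
  obtain ⟨f0, hf1, hf2⟩ := (dense_of_mem_residual hres).inter_open_nonempty O hO hne
  have hj' := hf f0 hf1
  have pf := hτ.per f0
  have sf : ContDiff ℝ ∞ fun y => f0.1 (Φ.symm y) := f0.2.1.comp a2
  have e0 : addPot (pb Φ fun z => l z.2) f0.1 =
      pb Φ (addPot (fun z => l z.2) fun y => f0.1 (Φ.symm y)) := by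
    funext z
    simp only [addPot, pb, Equiv.symm_apply_apply]
  rw [mem_setOf_eq, e0] at hf2
  generalize (fun y => f0.1 (Φ.symm y)) = f at hj' pf sf hf2
  have bf : ∀ x, |f x| ≤ r / 2 := fun x => by
    have h1 := (hj' 0 (Nat.zero_le _) x).trans (min_le_left _ _)
    rwa [norm_iteratedFDeriv_zero, Real.norm_eq_abs] at h1
  have key : ∀ En ρ : ℝ, ∃ c, |En| ≤ r / 2 → |ρ| ≤ r / 2 ∧ Dio γ ρ →
      Nonempty (Dat (addPot (fun z => l z.2) f) En ρ c) := by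
    intro En ρ
    by_cases h1 : |En| ≤ r / 2 ∧ |ρ| ≤ r / 2 ∧ Dio γ ρ
    · obtain ⟨h1, h2, h3⟩ := h1
      have hg : ContDiff ℝ ∞ fun y => (En + f y) - (En + f y) ^ 2 / 2 :=
        (contDiff_const.add sf).sub (((contDiff_const.add sf).pow 2).div_const 2)
      obtain ⟨U, u1, u2, u3, u4⟩ := hk ρ _ h3 (by linarith) hg
        ⟨fun x => by simp only [pf.1 x], fun x => by simp only [pf.2 x]⟩ (fun x => by
          refine (gjet sf (by norm_num) ((min_le_left _ _).trans (by linarith))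
            (by linarith) hj' x).trans ?_
          rw [← le_div_iff₀' (by positivity)]
          exact min_le_right _ _)
      obtain ⟨c, hc⟩ := hj hr1 hP sf pf bf h1 h2 u1 u2 u3 u4
      exact ⟨c, fun _ _ => hc⟩
    · exact ⟨0, fun h2 h3 => absurd ⟨h2, h3⟩ h1⟩
  choose c hc using key
  have hI : volume {e : ℝ | |e| ≤ r / 2} ≠ 0 := by
    have h1 : {e : ℝ | |e| ≤ r / 2} = Icc (-(r / 2)) (r / 2) := by
      ext e
      simp only [mem_setOf_eq, mem_Icc, abs_le]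
    rw [h1, Real.volume_Icc]
    exact (ENNReal.ofReal_pos.2 (by linarith)).ne'
  refine not_null hI hD (c := c) (K := 72) ?_ ?_ ?_
  · intro e he ρ hρ ρ' hρ'
    obtain ⟨D₁⟩ := hc e ρ he hρ
    obtain ⟨D₂⟩ := hc e ρ' he hρ'
    exact lip_rho D₁ D₂
  · intro e he e' he' ρ hρ ρ' hρ'
    obtain ⟨D₁⟩ := hc e ρ he hρ
    obtain ⟨D₂⟩ := hc e' ρ' he' hρ'
    have h1 := lip_en D₁ D₂ (hρ.1.trans (by linarith)) (hρ'.1.trans (by linarith))
    linarith [norm_nonneg (c e ρ - c e' ρ')]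
  · refine measure_mono_null ?_ (hτ.full_ae hf2)
    rintro x ⟨e, he, ρ, hρ, rfl⟩
    obtain ⟨D⟩ := hc e ρ he hρ
    exact hτ.not_U D

end Pool.Agent.Work.MP_1ce82a_an.U
end

-- merged part: Pool.Agent.Work.MP_1ce82a_an.P.Iso
section
/-! Local structure of a periodic calibrated curve.
PLAN. iso: reduce s modulo P (Perd.reduce) so that s lies in [0,P]; only finitely many group elements matter (finite_ball). By contradiction (or compactness for each of the finitely many elements): a limit s0 with g x(s0) = x 0 gives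
g x(s0 + t) = x t for all t by CalR.uniq (CalR.smul), so s' = s - s0 works. tight: see the comment at the statement. min_period: the set of t > 0 with g z t = z 0 for some g is nonempty, bounded away from 0 (embedded ball and monotonicity of
X1 d z near 0, exists_dir) and closed (finitely many g on compact time intervals); take its minimum and use CalR.uniq. sec_cross: w = rho^-1 z(s0 + .) is C^1 close to x near 0 (continuity of rho^-1 and its derivative), cross_time. -/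

open Set Filter Topology MeasureTheory
open scoped ContDiff

namespace Pool.Agent.Work.MP_1ce82a_an

variable {Γ : Grp}

/-- Minimal period. -/
def MinP (Γ : Grp) (x : ℝ → E) (P : ℝ) : Prop := ∀ (t : ℝ) (ρ : Γ), 0 < t → t < P → ρ • x t ≠ x 0

theorem Iso_core (hS : Surf Γ) {x : ℝ → E} (hx : Continuous x) (P : ℝ) {η : ℝ} (hη : 0 < η) (ρ : Γ) :
    ∀ᶠ δ in 𝓝[>] (0 : ℝ), ∀ s ∈ Icc 0 P, ‖ρ • x s - x 0‖ ≤ δ →
      ∃ s0, |s - s0| ≤ η ∧ ρ • x s0 = x 0 := by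
  have hK : IsCompact (Icc 0 P ∩ ⋂ s0 ∈ {s0 | ρ • x s0 = x 0}, {s | η ≤ |s - s0|}) :=
    isCompact_Icc.inter_right (isClosed_biInter fun s0 _ => isClosed_le continuous_const (by fun_prop))
  obtain ⟨a, ha, h⟩ := hK.exists_forall_le' (f := fun s => ‖ρ • x s - x 0‖) (a := 0)
    (((hS.cont ρ).comp hx).sub continuous_const).norm.continuousOn fun s hs =>
      norm_pos_iff.2 (sub_ne_zero.2 fun e => by
        have : η ≤ |s - s| := mem_iInter₂.1 hs.2 s e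
        rw [sub_self, abs_zero] at this
        exact this.not_gt hη)
  filter_upwards [Ioo_mem_nhdsGT ha] with δ hδ s hs h1
  by_contra hn
  push Not at hn
  refine (h s ⟨hs, mem_iInter₂.2 fun s0 e => ?_⟩).not_gt (h1.trans_lt hδ.2)
  exact not_lt.1 fun k => hn s0 k.le e

theorem Iso_dir {x : ℝ → E} (hx : ContDiff ℝ 1 x) {d : Fin 4} (hd : 0 < X1 d (deriv x 0)) :
    ∃ η v : ℝ, 0 < η ∧ 0 < v ∧ ∀ s, |s| ≤ η → v * |s| ≤ |X1 d (x s) - X1 d (x 0)| := by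
  have hc : Continuous fun t => X1 d (deriv x t) :=
    (X1 d).continuous.comp (hx.continuous_deriv le_rfl)
  obtain ⟨η, hη, h⟩ := Metric.nhds_basis_closedBall.eventually_iff.1
    ((hc.tendsto 0).eventually_const_le (half_lt_self hd))
  rw [Real.closedBall_eq_Icc, zero_sub, zero_add] at h
  have i := incr_of_deriv (f := fun t => X1 d (x t)) (f' := fun t => X1 d (deriv x t))
    fun t ht => ⟨(X1 d).hasFDerivAt.comp_hasDerivAt t
      ((hx.differentiable one_ne_zero) t).hasDerivAt, h ht⟩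
  have h0 : (0 : ℝ) ∈ Icc (-η) η := ⟨by linarith, hη.le⟩
  refine ⟨η, _, hη, half_pos hd, fun s hs => ?_⟩
  rcases le_total 0 s with k | k
  · have := i 0 h0 s (abs_le.1 hs) k
    rw [sub_zero] at this
    rw [abs_of_nonneg k]
    exact this.trans (le_abs_self _)
  · have := i s (abs_le.1 hs) 0 h0 k
    rw [zero_sub] at this
    rw [abs_of_nonpos k, abs_sub_comm]
    exact this.trans (le_abs_self _)

theorem Iso_cont {G H : Type} [NormedAddCommGroup G] [NormedAddCommGroup H] {f : G → H}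
    (hf : Continuous f) (a : G) {ε : ℝ} (hε : 0 < ε) :
    ∃ δ, 0 < δ ∧ ∀ b, ‖b - a‖ ≤ δ → ‖f b - f a‖ ≤ ε := by
  obtain ⟨δ, hδ, h⟩ := Metric.continuous_iff.1 hf a ε hε
  refine ⟨δ / 2, half_pos hδ, fun b hb => ?_⟩
  rw [← dist_eq_norm] at hb ⊢
  exact (h b (hb.trans_lt (half_lt_self hδ))).le

theorem iso (hS : Surf Γ) {F : E × E → ℝ} (hF : Tonelli Γ F) {c : H1 Γ} {u : E → ℝ}
    (hu : InS F c u) {x : ℝ → E} (hx : CalR F u x) {P : ℝ} {σ : Γ} (hP : Perd x P σ) {η : ℝ}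
    (hη : 0 < η) : ∃ δ : ℝ, 0 < δ ∧ ∀ (ρ : Γ) (s : ℝ), ‖ρ • x s - x 0‖ ≤ δ →
      ∃ s' : ℝ, |s'| ≤ η ∧ ∀ t, ρ • x (s + t) = x (s' + t) := by
  have hc : Continuous x := (hx.isOrbit hF.ton0 hu.2).1.continuous
  obtain ⟨M, hM⟩ := (isCompact_Icc (a := 0) (b := P)).exists_bound_of_continuousOn hc.continuousOn
  obtain ⟨δ, h1, h2⟩ := (((hS.finite_ball M (‖x 0‖ + 1)).eventually_all.2
    fun ρ _ => Iso_core hS hc P hη ρ).and (Ioo_mem_nhdsGT one_pos)).exists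
  refine ⟨δ, h2.1, fun ρ s h => ?_⟩
  obtain ⟨k, s1, m1, m2, m3⟩ := hP.reduce s
  rw [m3, ← mul_smul] at h
  obtain ⟨s0, k1, k2⟩ := h1 (ρ * σ ^ k) ⟨x s1, hM s1 (Ico_subset_Icc_self m1), by
    linarith [norm_le_norm_add_norm_sub' ((ρ * σ ^ k) • x s1) (x 0), h2.2]⟩ s1
    (Ico_subset_Icc_self m1) h
  refine ⟨s1 - s0, k1, fun t => ?_⟩
  have := CalR.uniq hF.ton0 hu.2 (hx.smul hS hF.invL hu.1 (ρ * σ ^ k)) hx k2 (s1 - s0 + t)
  rw [zero_add] at this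
  rw [← this, mul_smul, ← hP.zpow, m2]
  congr 2
  ring

/-- Take `η` with `X1 d (deriv x) ≥ v0 / 2` on `[-η, η]`, `r0` half the radius given by `iso`. A point
`y` of `Nb` is within `C δ` of some `ρ⁻¹ • x s` (`Surf.lip_unif`), which equals `x s'` with `s'` small. -/
theorem tight (hS : Surf Γ) {F : E × E → ℝ} (hF : Tonelli Γ F) {c : H1 Γ} {u : E → ℝ}
    (hu : InS F c u) {x : ℝ → E} (hx : CalR F u x) {P : ℝ} {σ : Γ} (hP : Perd x P σ) {d : Fin 4}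
    (hd : 0 < X1 d (deriv x 0)) : ∃ r0 : ℝ, 0 < r0 ∧ ∀ δ2 : ℝ, 0 < δ2 → ∃ δ : ℝ, 0 < δ ∧
      ∀ y : E, X1 d y = X1 d (x 0) → ‖y - x 0‖ ≤ r0 → y ∈ Nb Γ x P δ → ‖y - x 0‖ ≤ δ2 := by
  have h1 := (hx.isOrbit hF.ton0 hu.2).1
  obtain ⟨η, v, hη, hv, hi⟩ := Iso_dir h1 hd
  obtain ⟨δ0, hδ0, h0⟩ := iso hS hF hu hx hP hη
  obtain ⟨M, hM⟩ := (isCompact_Icc (a := 0) (b := P)).exists_bound_of_continuousOn
    h1.continuous.continuousOn
  obtain ⟨C, hC, hl⟩ := hS.lip_unif (M + 1) (‖x 0‖ + δ0 / 2)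
  refine ⟨δ0 / 2, half_pos hδ0, fun δ2 hδ2 => ?_⟩
  obtain ⟨η2, hη2, h2⟩ := Iso_cont h1.continuous 0 (half_pos hδ2)
  obtain ⟨m, m0, m1, m2, m3⟩ : ∃ m, 0 < m ∧ m ≤ δ0 / 2 ∧ m ≤ δ2 / 2 ∧ m ≤ v * η2 :=
    ⟨min (δ0 / 2) (min (δ2 / 2) (v * η2)), by positivity, min_le_left _ _,
      (min_le_right _ _).trans (min_le_left _ _), (min_le_right _ _).trans (min_le_right _ _)⟩
  refine ⟨min 1 (m / (C + 1)), by positivity, fun y y1 y2 ⟨ρ, s, hs, y3⟩ => ?_⟩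
  obtain ⟨y4, y5⟩ := lt_min_iff.1 y3
  have b1 : ‖ρ • y‖ ≤ M + 1 := by linarith [norm_le_norm_add_norm_sub' (ρ • y) (x s), hM s hs]
  have k := (hl ρ⁻¹ (ρ • y) b1 (by
    rw [inv_smul_smul]
    linarith [norm_le_norm_add_norm_sub' y (x 0)]) (ρ • y) (x s) b1 (by linarith [hM s hs])).2.1
  rw [inv_smul_smul] at k
  rw [lt_div_iff₀ (by linarith)] at y5
  have k1 : ‖y - ρ⁻¹ • x s‖ ≤ m := by nlinarith [norm_nonneg (ρ • y - x s)]
  obtain ⟨s', s1, s2⟩ := h0 ρ⁻¹ s (by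
    linarith [norm_sub_le_norm_sub_add_norm_sub (ρ⁻¹ • x s) y (x 0), norm_sub_rev y (ρ⁻¹ • x s)])
  have s3 := s2 0
  rw [add_zero, add_zero] at s3
  rw [s3] at k1
  have k2 := hi s' s1
  rw [← y1, abs_sub_comm, ← map_sub] at k2
  have k3 := h2 s' (by
    rw [sub_zero]
    exact le_of_mul_le_mul_left (k2.trans ((abs_X1_le d _).trans (k1.trans m3))) hv)
  linarith [norm_sub_le_norm_sub_add_norm_sub y (x s') (x 0)]

theorem min_period (hS : Surf Γ) {F : E × E → ℝ} (hF : Tonelli Γ F) {c : H1 Γ} {u : E → ℝ}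
    (hu : InS F c u) {x : ℝ → E} (hx : CalR F u x) (hv : deriv x 0 ≠ 0) {P : ℝ} {σ : Γ}
    (hP : Perd x P σ) : ∃ (P' : ℝ) (σ' : Γ), Perd x P' σ' ∧ MinP Γ x P' := by
  have h1 := (hx.isOrbit hF.ton0 hu.2).1
  obtain ⟨d, hd⟩ := exists_dir (deriv x 0)
  obtain ⟨η, v, hη, hv', hi⟩ := Iso_dir h1 (hd ▸ norm_pos_iff.2 hv)
  obtain ⟨r, hr, he⟩ := hS.embedded (x 0)
  obtain ⟨η2, hη2, h2⟩ := Iso_cont h1.continuous 0 hr
  have key : ∀ (t : ℝ) (ρ : Γ), 0 < t → ρ • x t = x 0 → min η η2 ≤ t := fun t ρ ht e => by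
    by_contra hn
    obtain ⟨k1, k2⟩ := lt_min_iff.1 (not_le.1 hn)
    have k3 := he ρ (x t) (h2 t (by rw [sub_zero, Real.norm_of_nonneg ht.le]; exact k2.le))
      (by rw [e, sub_self, norm_zero]; exact hr.le)
    rw [k3, one_smul] at e
    have := hi t (by rw [abs_of_pos ht]; exact k1.le)
    rw [e, sub_self, abs_zero, abs_of_pos ht] at this
    exact this.not_gt (mul_pos hv' ht)
  have hA : IsClosed (Ici (min η η2) ∩ x ⁻¹' {y : E | ∃ γ : Γ, γ • y ∈ ({x 0} : Set E)}) :=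
    isClosed_Ici.inter ((hS.isClosed_orbit isCompact_singleton).preimage h1.continuous)
  have hb : BddBelow (Ici (min η η2) ∩ x ⁻¹' {y : E | ∃ γ : Γ, γ • y ∈ ({x 0} : Set E)}) :=
    ⟨_, fun t ht => ht.1⟩
  have e0 : σ⁻¹ • x P = x 0 := by rw [inv_smul_eq_iff, ← hP.2, zero_add]
  obtain ⟨a1, ρ, a2⟩ := hA.csInf_mem ⟨P, key P _ hP.1 e0, σ⁻¹, e0⟩ hb
  refine ⟨_, ρ⁻¹, ⟨(lt_min hη hη2).trans_le a1, fun t => ?_⟩,
    fun t γ ht h e => (csInf_le hb ⟨key t γ ht e, γ, e⟩).not_gt h⟩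
  have := CalR.uniq hF.ton0 hu.2 (hx.smul hS hF.invL hu.1 ρ) hx a2 t
  rw [zero_add] at this
  rw [eq_inv_smul_iff, add_comm, this]

theorem MinP.int {x : ℝ → E} {P : ℝ} {σ : Γ} (hS : Surf Γ) (hP : Perd x P σ) (hm : MinP Γ x P)
    {t : ℝ} {ρ : Γ} (h : ρ • x t = x 0) : ∃ k : ℤ, t = k * P ∧ ρ = σ ^ (-k) := by
  obtain ⟨k, s, h1, h2, h3⟩ := hP.reduce t
  rw [h3, ← mul_smul] at h
  obtain rfl : s = 0 := by_contra fun hn => hm s _ (h1.1.lt_of_ne' hn) h1.2 h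
  exact ⟨k, by rw [h2, zero_add], by rw [zpow_neg, eq_inv_iff_mul_eq_one, hS.free _ _ h]⟩

theorem sec_cross (hS : Surf Γ) {x : ℝ → E} (hx : ContDiff ℝ 1 x) {d : Fin 4}
    (hd : 0 < X1 d (deriv x 0)) (ρ : Γ) (s0 : ℝ) (h0 : nxt ρ x s0 = x) {δ1 : ℝ} (hδ1 : 0 < δ1) :
    ∃ δ : ℝ, 0 < δ ∧ ∀ z : ℝ → E,
      (∀ t ∈ Icc (s0 - 1 / 2) (s0 + 1 / 2), HasDerivAt z (deriv z t) t ∧ ‖ph z t - ph x t‖ ≤ δ) →
      ∃ T : ℝ, |T - s0| ≤ δ1 ∧ Start d x δ1 (nxt ρ z T) := by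
  have hΦ : Continuous fun q : E × E => (ρ⁻¹ • q.1, dk ρ⁻¹ q.1 q.2) :=
    ((hS.cont _).comp continuous_fst).prodMk
      (((hS.contDiff_dk _).continuous.comp continuous_fst).clm_apply continuous_snd)
  have e1 : ρ⁻¹ • x s0 = x 0 := by simpa [nxt] using congrFun h0 0
  have e2 : dk ρ⁻¹ (x s0) (deriv x s0) = deriv x 0 := by
    have := hS.deriv_smul ρ⁻¹ (fun t => x (s0 + t)) 0
    rw [deriv_comp_const_add, add_zero] at this
    rw [← this]
    exact congrArg (deriv · 0) h0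
  have hv := half_pos hd
  obtain ⟨a, ha, h1⟩ := Iso_cont hΦ (ph x s0) (lt_min hv hδ1)
  obtain ⟨η0, hη0, h2⟩ := Iso_cont (hx.continuous.prodMk (hx.continuous_deriv le_rfl)) s0 (half_pos ha)
  obtain ⟨η, n0, n1, n2, n3⟩ : ∃ η, 0 < η ∧ η ≤ η0 ∧ η ≤ 1 / 2 ∧ η ≤ δ1 :=
    ⟨min η0 (min (1 / 2) δ1), by positivity, min_le_left _ _,
      (min_le_right _ _).trans (min_le_left _ _), (min_le_right _ _).trans (min_le_right _ _)⟩
  obtain ⟨b, hb, h3⟩ := Iso_cont (hS.cont ρ⁻¹) (x s0) (mul_pos hv n0)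
  refine ⟨min (a / 2) b, by positivity, fun z hz => ?_⟩
  have k : ∀ t ∈ Icc (s0 - η) (s0 + η), HasDerivAt z (deriv z t) t ∧ ‖ρ⁻¹ • z t - x 0‖ ≤ δ1 ∧
      X1 d (deriv x 0) / 2 ≤ X1 d (dk ρ⁻¹ (z t) (deriv z t)) := fun t ht => by
    obtain ⟨k1, k2⟩ := hz t ⟨by linarith [ht.1], by linarith [ht.2]⟩
    have k3 : ‖ph x t - ph x s0‖ ≤ a / 2 :=
      h2 t (abs_le.2 ⟨by linarith [ht.1], by linarith [ht.2]⟩)
    have k4 : ‖(ρ⁻¹ • z t - ρ⁻¹ • x s0,
        dk ρ⁻¹ (z t) (deriv z t) - dk ρ⁻¹ (x s0) (deriv x s0))‖ ≤ _ := h1 (ph z t) (by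
      linarith [norm_sub_le_norm_sub_add_norm_sub (ph z t) (ph x t) (ph x s0),
        min_le_left (a / 2) b])
    rw [e1, e2, Prod.norm_mk, max_le_iff, le_min_iff, le_min_iff] at k4
    have k5 := (abs_le.1 ((abs_X1_le d _).trans k4.2.1)).1
    rw [map_sub] at k5
    exact ⟨k1, k4.1.2, by linarith⟩
  have k6 : |X1 d (ρ⁻¹ • z s0) - X1 d (x 0)| ≤ X1 d (deriv x 0) / 2 * η := by
    rw [← map_sub, ← e1]
    exact (abs_X1_le d _).trans (h3 _ ((norm_fst_le (ph z s0 - ph x s0)).trans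
      ((hz s0 ⟨by linarith, by linarith⟩).2.trans (min_le_right _ _))))
  obtain ⟨T, t1, t2⟩ := cross_time (f := fun t => X1 d (ρ⁻¹ • z t)) hv
    (fun t ht => ⟨(X1 d).hasFDerivAt.comp_hasDerivAt t (hS.hasDerivAt_smul _ (k t ht).1),
      (k t ht).2.2⟩) k6
  have t3 : |T - s0| ≤ η := t1.trans ((div_le_iff₀' hv).2 k6)
  refine ⟨T, t3.trans n3, ?_⟩
  rw [Start, nxt, add_zero]
  exact ⟨t2, (k T ⟨by linarith [(abs_le.1 t3).1], by linarith [(abs_le.1 t3).2]⟩).2.1⟩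

theorem CalR.deriv_ne_zero {F : E × E → ℝ} (hF : Ton0 F) {u : E → ℝ} (hu : Dom F u) {x : ℝ → E}
    (hx : CalR F u x) (hv : deriv x 0 ≠ 0) (t : ℝ) : deriv x t ≠ 0 := fun h =>
  hv (by rw [funext (hx.const_of_deriv hF hu h).2, deriv_const])

theorem CalR.act_eq {F : E × E → ℝ} {c : H1 Γ} {u : E → ℝ} (hu : InS F c u) {x : ℝ → E}
    (hx : CalR F u x) {P : ℝ} {σ : Γ} (hP : Perd x P σ) :
    IsLoop x P σ ∧ act F x 0 P = c.1 σ := by
  have h : IsLoop x P σ := ⟨hP.1, (hx 0 P hP.1.le).1, by rw [← hP.2, zero_add]⟩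
  exact ⟨h, sub_eq_zero.1 ((h.dfc_eq hu.1).symm.trans (hx 0 P hP.1.le).2)⟩

theorem CalR.allCal (hS : Surf Γ) {F : E × E → ℝ} (hF : Tonelli Γ F) {c : H1 Γ} {u : E → ℝ}
    (hu : InS F c u) {x : ℝ → E} (hx : CalR F u x) {P : ℝ} {σ : Γ} (hP : Perd x P σ) :
    AllCal F c x :=
  allCal_of_perd hS hF.cont hF.invL hP (fun a b hab => (hx a b hab).1) (hx.act_eq hu hP).2

end Pool.Agent.Work.MP_1ce82a_an
end

-- merged part: Pool.Agent.Work.MP_1ce82a_an.J.StepA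
section
/-! Two shadowing curves: elementary estimates.
PLAN. ratio: gron_lip on [0,P+1] and Pair.lip; the function X1 d (s^-1 z2 .) has derivative at least v0/2 near P (continuity of tl s^-1 at ph x P = tl s (ph x 0)), so incr_of_deriv bounds T2 - T1; Surf.lip for the last bound.
aa_lin: mean value inequality for vpart (fderiv F) minus its derivative at ph x r, using uniform continuity of D2 F on a compact neighbourhood of the orbit segment, and a bound for zeta.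
en_small: pr_deriv; energy F is C^1, energy F (ph z_i 0) = h (z_i 0) by energy_addPot, and h is delta-Lipschitz on the ball. -/

open Set Filter Topology MeasureTheory
open scoped ContDiff

namespace Pool.Agent.Work.MP_1ce82a_an

variable {Γ : Grp}

/-- The nonlinear pairing of two phase points with a variation field. -/
noncomputable def aa (F : E × E → ℝ) (x ζ : ℝ → E) (r : ℝ) (Z1 Z2 : E × E) : ℝ :=
  (vpart (fderiv ℝ F Z2) - vpart (fderiv ℝ F Z1)) (ζ r) - mom F x ζ r (Z2.1 - Z1.1)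

theorem StepA_mv {V W : Type} [NormedAddCommGroup V] [NormedSpace ℝ V] [NormedAddCommGroup W]
    [NormedSpace ℝ W] {f : V → W} (hf : ContDiff ℝ 1 f) {K : Set V} (hK : IsCompact K) {ε : ℝ}
    (hε : 0 < ε) : ∃ δ : ℝ, 0 < δ ∧ ∀ p ∈ K, ∀ a b : V, ‖a - p‖ ≤ δ → ‖b - p‖ ≤ δ →
      ‖f b - f a - fderiv ℝ f p (b - a)‖ ≤ ε * ‖b - a‖ := by
  obtain ⟨δ, hδ, h⟩ := Metric.mem_uniformity_dist.1 (hK.uniformContinuousAt_of_continuousAt
    (fderiv ℝ f) (fun a _ => (hf.continuous_fderiv one_ne_zero).continuousAt)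
    (Metric.dist_mem_uniformity hε))
  refine ⟨δ / 2, half_pos hδ, fun p hp a b ha hb => ?_⟩
  refine (convex_closedBall p (δ / 2)).norm_image_sub_le_of_norm_fderiv_le'
    (fun y _ => hf.differentiable one_ne_zero y) (fun y hy => ?_)
    (mem_closedBall_iff_norm.2 ha) (mem_closedBall_iff_norm.2 hb)
  have : dist (fderiv ℝ f p) (fderiv ℝ f y) < ε :=
    h (a := p) (b := y) ((Metric.mem_closedBall'.1 hy).trans_lt (half_lt_self hδ)) hp
  rw [dist_comm, dist_eq_norm] at this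
  exact this.le

theorem StepA_ph {z1 z2 : ℝ → E} {s t Λ : ℝ} (hΛ : 0 ≤ Λ)
    (h : ‖deriv z1 s - deriv z2 t‖ ≤ Λ * ‖z1 s - z2 t‖) :
    ‖ph z2 t - ph z1 s‖ ≤ (1 + Λ) * ‖z2 t - z1 s‖ := by
  rw [norm_sub_rev, norm_sub_rev (z1 s)] at h
  have := mul_nonneg hΛ (norm_nonneg (z2 t - z1 s))
  have h0 := norm_nonneg (z2 t - z1 s)
  refine max_le ?_ (h.trans ?_)
  · show ‖z2 t - z1 s‖ ≤ _
    linarith
  · linarith

theorem Pair.mono {F : E × E → ℝ} {x : ℝ → E} {P : ℝ} {σ : Γ} {d : Fin 4} {Λ δ δ' : ℝ} {h : E → ℝ}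
    {z1 z2 : ℝ → E} {T1 T2 : ℝ} (hp : Pair F x P σ d Λ δ h z1 z2 T1 T2) (hδ : δ ≤ δ') :
    Pair F x P σ d Λ δ' h z1 z2 T1 T2 :=
  ⟨⟨hp.s1.orb, fun t ht => (hp.s1.near t ht).trans hδ, hp.s1.time.trans hδ, hp.s1.sec0, hp.s1.sec1,
    hp.s1.en⟩, ⟨hp.s2.orb, fun t ht => (hp.s2.near t ht).trans hδ, hp.s2.time.trans hδ, hp.s2.sec0,
    hp.s2.sec1, hp.s2.en⟩, hp.lip⟩

theorem norm_eq_ht {d : Fin 4} {z1 z2 : ℝ → E} (h : X1 d (z1 0) = X1 d (z2 0)) :
    ‖z2 0 - z1 0‖ = |ht d z1 z2| := by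
  rw [norm_eq_X d, map_sub, h, sub_self, abs_zero]
  exact max_eq_right (abs_nonneg _)

theorem ratio (hS : Surf Γ) {F : E × E → ℝ} {x : ℝ → E} {P : ℝ} {σ : Γ} (hx : ContDiff ℝ 1 x)
    (hP : Perd x P σ) {d : Fin 4} (hd : 0 < X1 d (deriv x 0)) {Λ : ℝ} (hΛ : 0 ≤ Λ) :
    ∃ δ C : ℝ, 0 < δ ∧ δ ≤ min P 1 ∧ 1 ≤ C ∧ ∀ (h : E → ℝ) (z1 z2 : ℝ → E) (T1 T2 : ℝ),
      Pair F x P σ d Λ δ h z1 z2 T1 T2 →
      (∀ t ∈ Icc 0 (P + 1), ‖ph z2 t - ph z1 t‖ ≤ C * ‖z2 0 - z1 0‖) ∧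
        |T2 - T1| ≤ C * ‖z2 0 - z1 0‖ ∧ ‖ph z2 T2 - ph z1 T1‖ ≤ C * ‖z2 0 - z1 0‖ ∧
        ‖ph (nxt σ z2 T2) 0 - ph (nxt σ z1 T1) 0‖ ≤ C * ‖z2 0 - z1 0‖ := by
  have hP0 := hP.1
  have cph : Continuous (ph x) := hx.continuous.prodMk (hx.continuous_deriv le_rfl)
  obtain ⟨M, hM⟩ := isCompact_Icc.exists_bound_of_continuousOn
    (cph.continuousOn (s := Icc 0 (P + 1)))
  have hM0 : 0 ≤ M := (norm_nonneg _).trans (hM 0 ⟨le_rfl, by linarith⟩)
  have ctl : ContDiff ℝ 1 (tl σ⁻¹) := (contDiff_tl hS σ⁻¹).of_le (by exact_mod_cast le_top)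
  obtain ⟨L, hL⟩ := (ctl.locallyLipschitz.locallyLipschitzOn
    (s := Metric.closedBall (0 : E × E) (M + 1))).exists_lipschitzOnWith_of_compact
      (isCompact_closedBall _ _)
  have e0 : tl σ⁻¹ (ph x P) = ph x 0 := by
    have := hP.ph hS 0
    rw [zero_add] at this
    rw [this]
    simpa using tl_inv hS σ⁻¹ (ph x 0)
  obtain ⟨v, hv⟩ : ∃ v, v = X1 d (deriv x 0) := ⟨_, rfl⟩
  rw [← hv] at hd
  have cφ : Continuous fun w : E × E => X1 d (tl σ⁻¹ w).2 :=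
    (X1 d).continuous.comp (continuous_snd.comp ctl.continuous)
  obtain ⟨ρ, hρ, hρ'⟩ := Metric.eventually_nhds_iff.1 ((cφ.tendsto (ph x P)).eventually
    (lt_mem_nhds (show v / 2 < X1 d (tl σ⁻¹ (ph x P)).2 by
      rw [e0]
      exact (half_lt_self hd).trans_eq hv)))
  obtain ⟨δ1, hδ1, hδ1'⟩ := Metric.continuousAt_iff.1 (cph.continuousAt (x := P)) _ (half_pos hρ)
  obtain ⟨δ, hδ, a1, a2, a3, a4⟩ : ∃ δ : ℝ, 0 < δ ∧ δ ≤ P ∧ δ ≤ 1 ∧ δ ≤ ρ / 2 ∧ δ < δ1 :=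
    ⟨min (min P 1) (min (ρ / 2) (δ1 / 2)), by positivity, (min_le_left _ _).trans (min_le_left _ _),
      (min_le_left _ _).trans (min_le_right _ _), (min_le_right _ _).trans (min_le_left _ _),
      ((min_le_right _ _).trans (min_le_right _ _)).trans_lt (half_lt_self hδ1)⟩
  obtain ⟨G, hG⟩ : ∃ G, G = Real.exp (Λ * (P + 1)) := ⟨_, rfl⟩
  have hG0 : 0 ≤ G := hG ▸ (Real.exp_pos _).le
  obtain ⟨C2, hC2⟩ : ∃ C2, C2 = 2 / v * (L * ((1 + Λ) * G)) := ⟨_, rfl⟩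
  have hC20 : 0 ≤ C2 := by rw [hC2]; positivity
  obtain ⟨C3, hC3⟩ : ∃ C3, C3 = (1 + Λ) * ((M + 1) * C2 + G) := ⟨_, rfl⟩
  have hC30 : 0 ≤ C3 := by rw [hC3]; positivity
  have p1 : 0 ≤ (1 + Λ) * G := by positivity
  have p2 : 0 ≤ L * C3 := by positivity
  refine ⟨δ, 1 + (1 + Λ) * G + C2 + C3 + L * C3, hδ, le_min a1 a2, by linarith, ?_⟩
  intro h z1 z2 T1 T2 hp
  obtain ⟨N, hN⟩ : ∃ N, N = ‖z2 0 - z1 0‖ := ⟨_, rfl⟩
  have hN0 : 0 ≤ N := hN ▸ norm_nonneg _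
  have b1 : ∀ t ∈ Icc 0 (P + 1), ‖z2 t - z1 t‖ ≤ G * N := fun t ht => by
    have := gron_lip hΛ (fun t ht => (hp.s1.orb t ht).1) (fun t ht => (hp.s2.orb t ht).1)
      (fun t ht => hp.lip t ht t ht) 0 ⟨le_rfl, by linarith⟩ t ht
    rw [norm_sub_rev, norm_sub_rev (z1 0), ← hN, sub_zero, abs_of_nonneg ht.1] at this
    refine this.trans (mul_le_mul_of_nonneg_right ?_ hN0)
    rw [hG]
    exact Real.exp_le_exp.2 (mul_le_mul_of_nonneg_left ht.2 hΛ)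
  have b2 : ∀ t ∈ Icc 0 (P + 1), ‖ph z2 t - ph z1 t‖ ≤ (1 + Λ) * G * N := fun t ht => by
    rw [mul_assoc]
    exact (StepA_ph hΛ (hp.lip t ht t ht)).trans (mul_le_mul_of_nonneg_left (b1 t ht) (by linarith))
  have sub : Icc (P - δ) (P + δ) ⊆ Icc 0 (P + 1) := Icc_subset_Icc (by linarith) (by linarith)
  have t1 : T1 ∈ Icc (P - δ) (P + δ) :=
    ⟨by linarith [(abs_le.1 hp.s1.time).1], by linarith [(abs_le.1 hp.s1.time).2]⟩
  have t2 : T2 ∈ Icc (P - δ) (P + δ) :=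
    ⟨by linarith [(abs_le.1 hp.s2.time).1], by linarith [(abs_le.1 hp.s2.time).2]⟩
  have bd : ∀ {z : ℝ → E} {T : ℝ}, Shad F x P σ d δ h z T → ∀ t ∈ Icc 0 (P + 1),
      ‖ph z t‖ ≤ M + 1 := fun {z T} hz t ht => by
    have := norm_le_norm_add_norm_sub' (ph z t) (ph x t)
    linarith [hM t ht, hz.near t ht]
  have lp : ∀ s ∈ Icc 0 (P + 1), ∀ t ∈ Icc 0 (P + 1),
      ‖tl σ⁻¹ (ph z2 t) - tl σ⁻¹ (ph z1 s)‖ ≤ L * ‖ph z2 t - ph z1 s‖ := fun s hs t ht =>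
    hL.norm_sub_le (mem_closedBall_zero_iff.2 (bd hp.s2 t ht))
      (mem_closedBall_zero_iff.2 (bd hp.s1 s hs))
  have inc := incr_of_deriv (f := fun t => X1 d (σ⁻¹ • z2 t))
    (f' := fun t => X1 d (tl σ⁻¹ (ph z2 t)).2) (a := P - δ) (b := P + δ) (v0 := v / 2) fun t ht => by
      refine ⟨(X1 d).hasFDerivAt.comp_hasDerivAt t
        (hS.hasDerivAt_smul σ⁻¹ (hp.s2.orb t (sub ht)).1), (hρ' ?_).le⟩
      have c1 := hδ1' (x := t) (by
        rw [Real.dist_eq]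
        exact (abs_le.2 ⟨by linarith [ht.1], by linarith [ht.2]⟩).trans_lt a4)
      have c2 := hp.s2.near t (sub ht)
      rw [← dist_eq_norm] at c2
      linarith [dist_triangle (ph z2 t) (ph x t) (ph x P)]
  have b3 : |X1 d (σ⁻¹ • z2 T2) - X1 d (σ⁻¹ • z2 T1)| ≤ L * ((1 + Λ) * G * N) := by
    rw [hp.s2.sec1, ← hp.s1.sec1, abs_sub_comm, ← map_sub]
    exact (abs_X1_le d _).trans ((norm_fst_le (tl σ⁻¹ (ph z2 T1) - tl σ⁻¹ (ph z1 T1))).trans
      ((lp _ (sub t1) _ (sub t1)).trans (mul_le_mul_of_nonneg_left (b2 _ (sub t1)) L.2)))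
  have b4 : |T2 - T1| ≤ C2 * N := by
    have : v / 2 * |T2 - T1| ≤ L * ((1 + Λ) * G * N) := by
      rcases le_total T1 T2 with hh | hh
      · rw [abs_of_nonneg (sub_nonneg.2 hh)]
        exact (inc _ t1 _ t2 hh).trans (le_of_abs_le b3)
      · rw [abs_sub_comm] at b3
        rw [abs_sub_comm, abs_of_nonneg (sub_nonneg.2 hh)]
        exact (inc _ t2 _ t1 hh).trans (le_of_abs_le b3)
    refine le_of_mul_le_mul_left (this.trans_eq ?_) (half_pos hd)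
    rw [hC2]
    field_simp
  have b5 : ‖z2 T2 - z2 T1‖ ≤ (M + 1) * |T2 - T1| :=
    (convex_Icc 0 (P + 1)).norm_image_sub_le_of_norm_deriv_le
      (fun t ht => (hp.s2.orb t ht).1.differentiableAt)
      (fun t ht => (norm_snd_le (ph z2 t)).trans (bd hp.s2 t ht)) (sub t1) (sub t2)
  have b6 : ‖ph z2 T2 - ph z1 T1‖ ≤ C3 * N := by
    refine (StepA_ph hΛ (hp.lip _ (sub t1) _ (sub t2))).trans ?_
    rw [hC3, mul_assoc]
    refine mul_le_mul_of_nonneg_left ?_ (by linarith)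
    have c1 := norm_sub_le_norm_sub_add_norm_sub (z2 T2) (z2 T1) (z1 T1)
    have c2 := mul_le_mul_of_nonneg_left b4 (show 0 ≤ M + 1 by linarith)
    linarith [b1 _ (sub t1)]
  rw [← hN]
  refine ⟨fun t ht => (b2 t ht).trans (mul_le_mul_of_nonneg_right (by linarith) hN0),
    b4.trans (mul_le_mul_of_nonneg_right (by linarith) hN0),
    b6.trans (mul_le_mul_of_nonneg_right (by linarith) hN0), ?_⟩
  rw [ph_nxt hS, ph_nxt hS, add_zero, add_zero]
  have b7 : (L : ℝ) * ‖ph z2 T2 - ph z1 T1‖ ≤ L * (C3 * N) := mul_le_mul_of_nonneg_left b6 L.2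
  refine (lp _ (sub t1) _ (sub t2)).trans (b7.trans ?_)
  rw [← mul_assoc]
  exact mul_le_mul_of_nonneg_right (by linarith) hN0

theorem aa_lin {F : E × E → ℝ} (hF : ContDiff ℝ 2 F) {x ζ : ℝ → E} (hx : ContDiff ℝ 1 x)
    (hζ : Continuous ζ) (T : ℝ) {ε : ℝ} (hε : 0 < ε) : ∃ δ : ℝ, 0 < δ ∧ ∀ r ∈ Icc 0 T,
      ∀ Z1 Z2 : E × E, ‖Z1 - ph x r‖ ≤ δ → ‖Z2 - ph x r‖ ≤ δ →
        |aa F x ζ r Z1 Z2 - pr F x ζ r (Z2 - Z1)| ≤ ε * ‖Z2 - Z1‖ := by
  have cph : Continuous (ph x) := hx.continuous.prodMk (hx.continuous_deriv le_rfl)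
  obtain ⟨B, hB⟩ := isCompact_Icc.exists_bound_of_continuousOn (hζ.continuousOn (s := Icc 0 T))
  have hB1 : 0 < |B| + 1 := by positivity
  obtain ⟨δ, hδ, h⟩ := StepA_mv (hF.fderiv_right (m := 1) (by norm_num))
    ((isCompact_Icc (a := 0) (b := T)).image cph) (div_pos hε hB1)
  refine ⟨δ, hδ, fun r hr Z1 Z2 h1 h2 => ?_⟩
  have e : aa F x ζ r Z1 Z2 - pr F x ζ r (Z2 - Z1) = (fderiv ℝ F Z2 - fderiv ℝ F Z1 -
      fderiv ℝ (fderiv ℝ F) (ph x r) (Z2 - Z1)) (0, ζ r) := by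
    simp only [aa, pr, D2, sub_apply, vpart_apply, Prod.fst_sub]
    ring
  rw [e, ← Real.norm_eq_abs]
  refine (ContinuousLinearMap.le_opNorm _ _).trans ((mul_le_mul (h _ ⟨r, hr, rfl⟩ Z1 Z2 h1 h2)
    (show ‖((0 : E), ζ r)‖ ≤ |B| + 1 from ?_) (norm_nonneg _) (by positivity)).trans_eq ?_)
  · rw [Prod.norm_mk, norm_zero]
    exact max_le hB1.le (by linarith [hB r hr, le_abs_self B])
  · field_simp

theorem en_small {F : E × E → ℝ} (hF : Tonelli Γ F) {x : ℝ → E} {P : ℝ} {σ : Γ}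
    (hx : IsOrbit F x) (hP : Perd x P σ) (d : Fin 4) {Λ : ℝ} (hΛ : 0 ≤ Λ) {ε : ℝ} (hε : 0 < ε) :
    ∃ δ R : ℝ, 0 < δ ∧ ∀ h : E → ℝ, ContDiff ℝ 2 h → Small R δ h →
      ∀ (z1 z2 : ℝ → E) (T1 T2 : ℝ), Pair F x P σ d Λ δ h z1 z2 T1 T2 →
        |pr F x (deriv x) 0 (ph z2 0 - ph z1 0)| ≤ ε * ‖z2 0 - z1 0‖ := by
  have hΛ1 : 0 < 1 + Λ := by linarith
  obtain ⟨δ, hδ, H⟩ := StepA_mv (contDiff_energy hF.c2) (isCompact_singleton (x := ph x 0))
    (div_pos (half_pos hε) hΛ1)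
  refine ⟨min δ (ε / 2), ‖x 0‖ + δ, lt_min hδ (half_pos hε), fun h hh hs z1 z2 T1 T2 hp => ?_⟩
  have h0 : (0 : ℝ) ∈ Icc 0 (P + 1) := ⟨le_rfl, by linarith [hP.1]⟩
  have n1 := (hp.s1.near 0 h0).trans (min_le_left _ _)
  have n2 := (hp.s2.near 0 h0).trans (min_le_left _ _)
  have a1 := H _ rfl _ _ n1 n2
  have a2 := StepA_ph hΛ (hp.lip 0 h0 0 h0)
  have e1 := hp.s1.en
  have e2 := hp.s2.en
  rw [energy_addPot hF.c2 hh, sub_eq_zero] at e1 e2
  have m : ∀ z : ℝ → E, ‖ph z 0 - ph x 0‖ ≤ δ → z 0 ∈ Metric.closedBall (0 : E) (‖x 0‖ + δ) :=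
    fun z hz => mem_closedBall_zero_iff.2 ((norm_le_norm_add_norm_sub' (z 0) (x 0)).trans
      (add_le_add le_rfl ((norm_fst_le (ph z 0 - ph x 0)).trans hz)))
  have a3 : ‖h (z2 0) - h (z1 0)‖ ≤ ε / 2 * ‖z2 0 - z1 0‖ :=
    (convex_closedBall (0 : E) (‖x 0‖ + δ)).norm_image_sub_le_of_norm_fderiv_le
      (fun y _ => hh.differentiable two_ne_zero y)
      (fun y hy => (hs y (mem_closedBall_zero_iff.1 hy)).2.1.trans (min_le_right _ _))
      (m z1 n1) (m z2 n2)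
  have a4 : ε / 2 / (1 + Λ) * ‖ph z2 0 - ph z1 0‖ ≤ ε / 2 * ‖z2 0 - z1 0‖ :=
    (mul_le_mul_of_nonneg_left a2 (by positivity)).trans_eq (by field_simp)
  rw [e1, e2, Real.norm_eq_abs] at a1
  rw [Real.norm_eq_abs] at a3
  rw [pr_deriv hF.c2 hF.conv hx]
  have b1 := abs_le.1 (a1.trans a4)
  have b3 := abs_le.1 a3
  have f1 : h (ph z1 0).1 = h (z1 0) := rfl
  have f2 : h (ph z2 0).1 = h (z2 0) := rfl
  exact abs_le.2 ⟨by linarith [b1.2, b3.1], by linarith [b1.1, b3.2]⟩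

end Pool.Agent.Work.MP_1ce82a_an
end

-- merged part: Pool.Agent.Work.MP_1ce82a_an.P.Pass
section
/-! Passages through a small box on a periodic curve.
PLAN. v0 = X1 d (deriv x 0)/4, v1 = |deriv x 0| + 2. Choose eta > 0 (eta < P/4, eta < 1/4) with ph x within v0 of ph x 0 on [-eta,eta], r an embedded radius at x 0 that is also below the radius of iso for eta/2. Choose the height H <= r/4 with 2 (2H) Lambda v1 <= v0^2 and the
width w <= min (v0 eta/4) (H v0/(8 v1)); exists_bx_levels with a = X1 d (x 0), a' = a + w, bl = X2 d (x 0) - 3H/4, bu = X2 d (x 0) + 3H/4, nu = H/4. For a curve z that is delta0-close in C^1 on [0,P+1], starts on the section and returns at time T: there is t1 <= eta/2 with X1 d (z t1) = a' (cross_time);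
on [0,t1] the periodised functions equal fa(X1) and X2 fa(X1) (per_eq_of_unique, fb_eq_one); on [t1,eta] the point is in the embedded ball with X1 >= a'; on [eta,P-eta] the curve x has positive distance from all translates of the closed box (iso, MinP.int, compactness; Surf.lip_unif), and so has z;
on [P-eta,T] the point s^-1 z t is in the embedded ball with X1 <= a. The same holds for z = x, T = P. beta = ratio of the two integrals along x lies between b0 and b3 (per_le_per with f1_bounds, or directly). Then mono_pass in both orders and pass_lower, fa_int_pos. -/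

open Set Filter Topology MeasureTheory
open scoped ContDiff

namespace Pool.Agent.Work.MP_1ce82a_an

variable {Γ : Grp}

theorem Pass_far (hS : Surf Γ) {K : Set E} (hK : IsCompact K) {p : E}
    (h : ∀ y ∈ K, ∀ γ : Γ, γ • y ≠ p) :
    ∃ δ : ℝ, 0 < δ ∧ ∀ y ∈ K, ∀ y' : E, ‖y' - y‖ ≤ δ → ∀ γ : Γ, ¬ ‖γ • y' - p‖ ≤ δ := by
  obtain ⟨δ, h0, h1⟩ := hK.exists_cthickening_subset_open
    (hS.isClosed_orbit (isCompact_singleton (x := p))).isOpen_compl
    fun y hy ⟨γ, e⟩ => h y hy γ e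
  obtain ⟨ε, h2, h3⟩ := Metric.nhds_basis_closedBall.mem_iff.1
    ((hS.isClosed_orbit (hK.cthickening (r := δ))).isOpen_compl.mem_nhds (x := p)
      fun ⟨γ, e⟩ => h1 e ⟨γ⁻¹, inv_smul_smul γ p⟩)
  refine ⟨min δ ε, lt_min h0 h2, fun y hy y' e γ e' => ?_⟩
  refine h3 (mem_closedBall_iff_norm.2 (e'.trans (min_le_right _ _))) ⟨γ⁻¹, ?_⟩
  rw [inv_smul_smul]
  exact Metric.mem_cthickening_of_dist_le _ y _ _ hy
    ((dist_eq_norm _ _).trans_le (e.trans (min_le_left _ _)))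

theorem Pass_ev {f : ℝ → E × E} (hf : Continuous f) (s : ℝ) {p : E × E → Prop}
    (h : ∀ᶠ Z in 𝓝 (f s), p Z) :
    ∃ η : ℝ, 0 < η ∧ ∀ (t : ℝ) (Z : E × E), |t - s| ≤ η → ‖Z - f t‖ ≤ η → p Z := by
  have k : Tendsto (fun q : ℝ × E × E => f q.1 + q.2) (𝓝 (s, 0)) (𝓝 (f s)) :=
    ((hf.comp continuous_fst).add continuous_snd).tendsto' _ _ (add_zero _)
  obtain ⟨η, h0, h1⟩ := Metric.nhds_basis_closedBall.eventually_iff.1 (k.eventually h)
  refine ⟨η, h0, fun t Z a b => ?_⟩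
  have e := h1 (x := (t, Z - f t)) (by
    rw [Metric.mem_closedBall, Prod.dist_eq, dist_zero_right]
    exact max_le a b)
  simpa only [add_sub_cancel] using e

theorem Pass_one (B : Bx) {y : E} (h : ∀ γ : Γ, γ ≠ 1 → B.f0 (γ • y) = 0) (β : ℝ) :
    per Γ B.f1 y - β * per Γ B.f0 y = B.f0 y * (X2 B.d y - β) := by
  rw [per_eq_of_unique h, per_eq_of_unique fun γ e => by rw [Bx.f1, h γ e, mul_zero], Bx.f1]
  ring

theorem Pass_key (hS : Surf Γ) {x : ℝ → E} (hx : ContDiff ℝ 1 x) {P : ℝ} {σ : Γ}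
    (hP : Perd x P σ) (hm : MinP Γ x P) {d : Fin 4} {v0 : ℝ} (h0 : 0 < v0)
    (hd : v0 < X1 d (deriv x 0)) {H : ℝ} (hH : 0 < H) :
    ∃ (B : Bx) (a' δ : ℝ), 0 < δ ∧ X1 d (x 0) ≤ B.a0 ∧ (B.a3 : ℝ) ≤ a' ∧ ∀ (z : ℝ → E) (T : ℝ),
      (∀ t ∈ Icc 0 (P + 1), HasDerivAt z (deriv z t) t ∧ ‖ph z t - ph x t‖ ≤ δ) → |T - P| ≤ δ →
      X1 d (z 0) = X1 d (x 0) → X1 d (σ⁻¹ • z T) = X1 d (x 0) →
      ∃ t1 ∈ Icc 0 (P + 1), X1 d (z t1) = a' ∧ (∀ t ∈ Icc 0 t1, v0 ≤ X1 d (deriv z t) ∧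
        ‖deriv z t‖ ≤ ‖deriv x 0‖ + 1 ∧ |X2 d (z t) - X2 d (x 0)| ≤ H) ∧
        ∀ β : ℝ, pot (fun y => per Γ B.f1 y - β * per Γ B.f0 y) z 0 T =
          ∫ t in (0 : ℝ)..t1, B.fa (X1 d (z t)) * (X2 d (z t) - β) := by
  have hc : Continuous (ph x) := hx.continuous.prodMk (hx.continuous_deriv le_rfl)
  have P0 := hP.1
  obtain ⟨r, r0, hr⟩ := hS.embedded (x 0)
  have eb : ∀ ρ : ℝ, 0 < ρ → ∀ᶠ Z in 𝓝 (ph x 0), ‖Z.1 - x 0‖ ≤ ρ := fun ρ h =>
    ((continuous_fst.sub continuous_const).norm.continuousAt.eventually_lt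
      (f := fun Z : E × E => ‖Z.1 - x 0‖) continuousAt_const
      (by simpa only [ph, sub_self, norm_zero] using h)).mono fun _ => le_of_lt
  have e0 : ∀ᶠ Z in 𝓝 (ph x 0), v0 ≤ X1 d Z.2 ∧ ‖Z.2‖ ≤ ‖deriv x 0‖ + 1 ∧ ‖Z.1 - x 0‖ ≤ r :=
    ((continuousAt_const.eventually_lt (g := fun Z : E × E => X1 d Z.2)
      ((X1 d).continuous.comp continuous_snd).continuousAt hd).mono fun _ => le_of_lt).and
      (((continuous_snd.norm.continuousAt.eventually_lt (f := fun Z : E × E => ‖Z.2‖)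
        continuousAt_const (lt_add_one _)).mono fun _ => le_of_lt).and (eb r r0))
  have eP : tl σ⁻¹ (ph x P) = ph x 0 := by
    have k := tl_inv hS σ⁻¹ (ph x 0)
    rwa [inv_inv, ← hP.ph hS, zero_add] at k
  obtain ⟨η1, p1, q1⟩ := Pass_ev hc 0 e0
  obtain ⟨η2, p2, q2⟩ := Pass_ev hc P (((contDiff_tl hS σ⁻¹).continuous.tendsto' _ _ eP).eventually e0)
  obtain ⟨η, p3, l1, l2, l3, l4⟩ : ∃ η : ℝ, 0 < η ∧ η ≤ η1 ∧ η ≤ η2 ∧ η ≤ P / 2 ∧ η ≤ 1 :=
    ⟨min (min η1 η2) (min (P / 2) 1), by positivity, (min_le_left _ _).trans (min_le_left _ _),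
      (min_le_left _ _).trans (min_le_right _ _), (min_le_right _ _).trans (min_le_left _ _),
      (min_le_right _ _).trans (min_le_right _ _)⟩
  obtain ⟨r', p4, q4⟩ := Pass_far hS ((isCompact_Icc (a := η) (b := P - η)).image hx.continuous)
    (p := x 0) (by
      rintro _ ⟨t, ht, rfl⟩ γ
      exact hm t γ (by linarith [ht.1]) (by linarith [ht.2]))
  obtain ⟨h, p5, l5, l6, l7⟩ : ∃ h : ℝ, 0 < h ∧ h ≤ H ∧ h ≤ r ∧ h ≤ r' :=
    ⟨min H (min r r'), by positivity, min_le_left _ _, (min_le_right _ _).trans (min_le_left _ _),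
      (min_le_right _ _).trans (min_le_right _ _)⟩
  obtain ⟨η3, p6, q6⟩ := Pass_ev hc 0 (eb (h / 2) (half_pos p5))
  obtain ⟨δ, p7, l8, l9, l10⟩ : ∃ δ : ℝ, 0 < δ ∧ δ ≤ η ∧ δ ≤ η3 ∧ δ ≤ r' :=
    ⟨min η (min η3 r'), by positivity, min_le_left _ _, (min_le_right _ _).trans (min_le_left _ _),
      (min_le_right _ _).trans (min_le_right _ _)⟩
  obtain ⟨w, p8, l11, l12⟩ : ∃ w : ℝ, 0 < w ∧ w ≤ h ∧ w ≤ v0 * δ :=
    ⟨min h (v0 * δ), by positivity, min_le_left _ _, min_le_right _ _⟩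
  obtain ⟨B, rfl, b1, b2, b3, b4, b5, b6⟩ := exists_bx_levels d (lt_add_of_pos_right (X1 d (x 0)) p8)
    (bl := X2 d (x 0) - 3 * h / 4) (bu := X2 d (x 0) + 3 * h / 4) (ν := h / 4) (by positivity)
    (by linarith)
  have hs : ∀ y, B.f0 y ≠ 0 → ‖y - x 0‖ ≤ h := fun y hy => by
    obtain ⟨⟨c1, c2⟩, c3, c4⟩ := (B.f0_ne_zero_iff y).1 hy
    rw [norm_eq_X B.d, map_sub, map_sub]
    refine max_le (abs_le.2 ⟨?_, ?_⟩) (abs_le.2 ⟨?_, ?_⟩) <;> linarith
  have hE : ∀ y, ‖y - x 0‖ ≤ r → ∀ γ : Γ, γ ≠ 1 → B.f0 (γ • y) = 0 := fun y hy γ e =>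
    by_contra fun k => e (hr γ y hy ((hs _ k).trans l6))
  refine ⟨B, X1 B.d (x 0) + w, δ, p7, b1.le, b2.le, fun z T hz hT s0 s1 => ?_⟩
  obtain ⟨T0, T1⟩ := abs_le.1 hT
  have z1 : ∀ t ∈ Icc 0 η, t ∈ Icc 0 (P + 1) ∧ v0 ≤ X1 B.d (deriv z t) ∧
      ‖deriv z t‖ ≤ ‖deriv x 0‖ + 1 ∧ ‖z t - x 0‖ ≤ r := fun t ht => by
    have m : t ∈ Icc 0 (P + 1) := ⟨ht.1, by linarith [ht.2]⟩
    exact ⟨m, q1 t (ph z t) (by rw [sub_zero, abs_of_nonneg ht.1]; exact ht.2.trans l1)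
      ((hz t m).2.trans (l8.trans l1))⟩
  have i1 := incr_of_deriv (f := fun t => X1 B.d (z t)) (a := 0) (b := η) fun t ht =>
    ⟨(X1 B.d).hasFDerivAt.comp_hasDerivAt t (hz t (z1 t ht).1).1, (z1 t ht).2.1⟩
  have cz : ContinuousOn z (Icc 0 (P + 1)) := fun t ht =>
    (hz t ht).1.continuousAt.continuousWithinAt
  obtain ⟨t1, m1, e1⟩ := intermediate_value_Icc (f := fun t => X1 B.d (z t)) p7.le
    ((X1 B.d).continuous.comp_continuousOn (cz.mono (Icc_subset_Icc_right (by linarith))))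
    (show X1 B.d (x 0) + w ∈ _ from ⟨by simp only [s0]; linarith, by
      have := i1 0 ⟨le_rfl, p3.le⟩ δ ⟨p7.le, l8⟩ p7.le
      simp only [s0] at this ⊢
      linarith⟩)
  have e1' : X1 B.d (z t1) = X1 B.d (x 0) + w := e1
  have m2 : ∀ t ∈ Icc 0 t1, t ∈ Icc 0 η := fun t ht => ⟨ht.1, ht.2.trans (m1.2.trans l8)⟩
  have z2 : ∀ t ∈ Icc 0 t1, |X2 B.d (z t) - X2 B.d (x 0)| ≤ h / 2 := fun t ht => by
    rw [← map_sub]
    exact (abs_X2_le _ _).trans (q6 t (ph z t)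
      (by rw [sub_zero, abs_of_nonneg ht.1]; exact ht.2.trans (m1.2.trans l9))
      ((hz t (z1 t (m2 t ht)).1).2.trans l9))
  have tT : t1 ≤ T := by linarith [m1.2]
  refine ⟨t1, (z1 t1 (m2 t1 ⟨m1.1, le_rfl⟩)).1, e1', fun t ht => ⟨(z1 t (m2 t ht)).2.1,
    (z1 t (m2 t ht)).2.2.1, (z2 t ht).trans (by linarith)⟩, fun β => ?_⟩
  have z3 : ∀ t ∈ Icc (P - η) (P + η), t ∈ Icc 0 (P + 1) ∧
      v0 ≤ X1 B.d (dk σ⁻¹ (z t) (deriv z t)) ∧ ‖σ⁻¹ • z t - x 0‖ ≤ r := fun t ht => by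
    have m : t ∈ Icc 0 (P + 1) := ⟨by linarith [ht.1], by linarith [ht.2]⟩
    have k := q2 t (ph z t) (abs_le.2 ⟨by linarith [ht.1], by linarith [ht.2]⟩)
      ((hz t m).2.trans (l8.trans l2))
    exact ⟨m, k.1, k.2.2⟩
  have i3 := incr_of_deriv (f := fun t => X1 B.d (σ⁻¹ • z t)) (a := P - η) (b := P + η) fun t ht =>
    ⟨(X1 B.d).hasFDerivAt.comp_hasDerivAt t (hS.hasDerivAt_smul σ⁻¹ (hz t (z3 t ht).1).1),
      (z3 t ht).2.1⟩
  have z4 : ∀ t ∈ Icc t1 T, ∀ γ : Γ, B.f0 (γ • z t) = 0 := fun t ht γ => by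
    by_contra k
    rcases le_total t η with c | c
    · have m : t ∈ Icc 0 η := ⟨m1.1.trans ht.1, c⟩
      obtain rfl : γ = 1 := by_contra fun e => k (hE _ (z1 t m).2.2.2 γ e)
      have k1 := ((B.f0_ne_zero_iff _).1 k).1.2
      have k2 := i1 t1 (m2 t1 ⟨m1.1, le_rfl⟩) t m ht.1
      have k3 := mul_nonneg h0.le (sub_nonneg.2 ht.1)
      rw [one_smul] at k1
      simp only [e1'] at k2
      linarith
    rcases le_total t (P - η) with c' | c'
    · refine q4 _ ⟨t, ⟨c, c'⟩, rfl⟩ (z t) ?_ γ ((hs _ k).trans l7)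
      exact (norm_fst_le (ph z t - ph x t)).trans
        ((hz t ⟨p3.le.trans c, by linarith⟩).2.trans l10)
    · have m : t ∈ Icc (P - η) (P + η) := ⟨c', by linarith [ht.2]⟩
      rw [show γ • z t = (γ * σ) • σ⁻¹ • z t by rw [mul_smul, smul_inv_smul]] at k
      have e : γ * σ = 1 := by_contra fun e => k (hE _ (z3 t m).2.2 _ e)
      have k1 := ((B.f0_ne_zero_iff _).1 k).1.1
      have k2 := i3 t m T ⟨by linarith, by linarith⟩ ht.2
      have k3 := mul_nonneg h0.le (sub_nonneg.2 ht.2)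
      rw [e, one_smul] at k1
      simp only [s1] at k2
      linarith
  have cg : ContinuousOn (fun t => per Γ B.f1 (z t) - β * per Γ B.f0 (z t)) (Icc 0 (P + 1)) :=
    (((per_contDiff hS B.f1_contDiff B.f1_cpt).continuous.sub (continuous_const.mul
      (per_contDiff hS B.f0_contDiff B.f0_cpt).continuous)).comp_continuousOn cz :)
  have j1 := (cg.mono (Icc_subset_Icc_right (show t1 ≤ P + 1 by linarith))).intervalIntegrable_of_Icc
    (μ := volume) m1.1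
  have j2 := (cg.mono (Icc_subset_Icc m1.1 (show T ≤ P + 1 by linarith))).intervalIntegrable_of_Icc
    (μ := volume) tT
  rw [pot, ← intervalIntegral.integral_add_adjacent_intervals j1 j2,
    intervalIntegral.integral_congr (a := t1) (g := fun _ => 0), intervalIntegral.integral_zero,
    add_zero]
  · refine intervalIntegral.integral_congr fun t ht => ?_
    rw [uIcc_of_le m1.1] at ht
    obtain ⟨c1, c2⟩ := abs_le.1 (z2 t ht)
    rw [Pass_one B (hE _ (z1 t (m2 t ht)).2.2.2), Bx.f0, B.fb_eq_one (by linarith) (by linarith),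
      mul_one]
  · intro t ht
    rw [uIcc_of_le tT] at ht
    have k := z4 t ht 1
    rw [one_smul] at k
    beta_reduce
    rw [Pass_one B fun γ _ => z4 t ht γ, k, zero_mul]

theorem pass_per (hS : Surf Γ) {F : E × E → ℝ} (hF : Tonelli Γ F) {c : H1 Γ} {u : E → ℝ}
    (hu : InS F c u) {x : ℝ → E} (hx : CalR F u x) {P : ℝ} {σ : Γ} (hP : Perd x P σ)
    (hm : MinP Γ x P) {d : Fin 4} (hd : 0 < X1 d (deriv x 0)) {Λ : ℝ} (hΛ : 0 ≤ Λ) :
    ∃ (B : Bx) (β κ δ0 : ℝ), 0 < κ ∧ 0 < δ0 ∧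
      pot (fun y => per Γ B.f1 y - β * per Γ B.f0 y) x 0 P = 0 ∧
      ∀ (z : ℝ → E) (T : ℝ), Pair F x P σ d Λ δ0 (fun _ => 0) x z P T →
        (0 ≤ ht d x z → κ * ht d x z ≤ pot (fun y => per Γ B.f1 y - β * per Γ B.f0 y) z 0 T) ∧
        (ht d x z ≤ 0 → pot (fun y => per Γ B.f1 y - β * per Γ B.f0 y) z 0 T ≤ κ * ht d x z) :=
  by
  have hx1 := (hx.isOrbit hF.ton0 hu.2).1
  have hx2 : ∀ t, HasDerivAt x (deriv x t) t := fun t =>
    (hx1.differentiable one_ne_zero t).hasDerivAt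
  have hx3 : Continuous (deriv x) := hx1.continuous_deriv le_rfl
  obtain ⟨v0, hv⟩ : ∃ v0, v0 = X1 d (deriv x 0) / 2 := ⟨_, rfl⟩
  obtain ⟨v1, hw⟩ : ∃ v1, v1 = ‖deriv x 0‖ + 1 := ⟨_, rfl⟩
  have p0 : 0 < v0 := hv ▸ half_pos hd
  have p1 : 0 < v1 := by rw [hw]; positivity
  obtain ⟨H, p2, hsm⟩ : ∃ H : ℝ, 0 < H ∧ 2 * (2 * H) * Λ * v1 ≤ v0 ^ 2 := by
    refine ⟨v0 ^ 2 / (4 * (Λ + 1) * v1), by positivity, ?_⟩
    rw [show 2 * (2 * (v0 ^ 2 / (4 * (Λ + 1) * v1))) * Λ * v1 = v0 ^ 2 * (Λ / (Λ + 1)) by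
      field_simp; ring]
    exact mul_le_of_le_one_right (sq_nonneg _) (div_le_one_of_le₀ (lt_add_one Λ).le (by positivity))
  obtain ⟨B, a', δ, p3, a0, a3, key⟩ := Pass_key hS hx1 hP hm p0 (hv ▸ half_lt_self hd) p2
  rw [← hw] at key
  obtain ⟨t1, m1, e1, q1, i1⟩ := key x P (fun t _ => ⟨hx2 t, by simpa using p3.le⟩)
    (by simpa using p3.le) rfl (by rw [← zero_add P, hP.2, inv_smul_smul])
  have p4 := B.fa_int_pos a0 a3
  have p5 := (div_pos p4 p1).trans_le (pass_lower d B.fa_cont B.fa_nonneg m1.1 p0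
    (fun t ht => ⟨hx2 t, (q1 t ht).1, (q1 t ht).2.1⟩) hx3.continuousOn rfl e1)
  have c0 : Continuous fun t => B.fa (X1 d (x t)) :=
    B.fa_cont.comp ((X1 d).continuous.comp hx1.continuous)
  have c1 : ∀ β : ℝ, Continuous fun t => B.fa (X1 d (x t)) * (X2 d (x t) - β) := fun β =>
    c0.mul (((X2 d).continuous.comp hx1.continuous).sub continuous_const)
  obtain ⟨β, hβ, hz⟩ : ∃ β : ℝ, |β - X2 d (x 0)| ≤ H ∧
      ∫ t in (0 : ℝ)..t1, B.fa (X1 d (x t)) * (X2 d (x t) - β) = 0 := by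
    refine ⟨X2 d (x 0) + (∫ t in (0 : ℝ)..t1, B.fa (X1 d (x t)) * (X2 d (x t) - X2 d (x 0))) /
      ∫ t in (0 : ℝ)..t1, B.fa (X1 d (x t)), ?_, ?_⟩
    · rw [add_sub_cancel_left, abs_div, abs_of_pos p5, div_le_iff₀ p5,
        ← intervalIntegral.integral_const_mul]
      refine (intervalIntegral.abs_integral_le_integral_abs m1.1).trans
        (intervalIntegral.integral_mono_on m1.1 ((c1 _).abs.intervalIntegrable _ _)
          ((continuous_const.mul c0).intervalIntegrable _ _) fun t ht => ?_)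
      rw [abs_mul, abs_of_nonneg (B.fa_nonneg _), mul_comm]
      exact mul_le_mul_of_nonneg_right (q1 t ht).2.2 (B.fa_nonneg _)
    · simp only [← sub_sub, mul_sub _ (_ - _)]
      rw [intervalIntegral.integral_sub ((c1 _).intervalIntegrable _ _)
        ((c0.intervalIntegrable _ _).mul_const _), intervalIntegral.integral_mul_const,
        mul_div_cancel₀ _ p5.ne', sub_self]
  have hb : ∀ y : ℝ, |y - X2 d (x 0)| ≤ H → |y - β| ≤ 2 * H := fun y hy => by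
    have := abs_sub_le y (X2 d (x 0)) β
    rw [abs_sub_comm (X2 d (x 0)) β] at this
    linarith
  refine ⟨B, β, Real.exp (-(2 * Λ * v1 * (a' - X1 d (x 0)) / v0 ^ 2)) / (2 * v1) *
    ∫ y in X1 d (x 0)..a', B.fa y, δ, by positivity, p3, (i1 β).trans hz, fun z T hp => ?_⟩
  obtain ⟨t2, m2, e2, q2, i2⟩ := key z T (fun t ht => ⟨(hp.s2.orb t ht).1, hp.s2.near t ht⟩)
    hp.s2.time hp.s2.sec0 hp.s2.sec1
  have s1 : Icc 0 t1 ⊆ Icc 0 (P + 1) := Icc_subset_Icc_right m1.2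
  have s2 : Icc 0 t2 ⊆ Icc 0 (P + 1) := Icc_subset_Icc_right m2.2
  have r1 : ∀ t ∈ Icc 0 t1, HasDerivAt x (deriv x t) t ∧ v0 ≤ X1 d (deriv x t) ∧
      ‖deriv x t‖ ≤ v1 ∧ |X2 d (x t) - β| ≤ 2 * H := fun t ht =>
    ⟨hx2 t, (q1 t ht).1, (q1 t ht).2.1, hb _ (q1 t ht).2.2⟩
  have r2 : ∀ t ∈ Icc 0 t2, HasDerivAt z (deriv z t) t ∧ v0 ≤ X1 d (deriv z t) ∧
      ‖deriv z t‖ ≤ v1 ∧ |X2 d (z t) - β| ≤ 2 * H := fun t ht =>
    ⟨(hp.s2.orb t (s2 ht)).1, (q2 t ht).1, (q2 t ht).2.1, hb _ (q2 t ht).2.2⟩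
  have c2 : ContinuousOn (deriv z) (Icc 0 t2) := fun t ht =>
    (hp.s2.orb t (s2 ht)).2.1.continuousWithinAt
  rw [i2, ht, map_sub]
  refine ⟨fun h => ?_, fun h => ?_⟩
  · have k := mono_pass d B.fa_cont B.fa_nonneg m1.1 m2.1 p0 hΛ hsm r1 r2 hx3.continuousOn c2
      (fun s hs t ht => hp.lip s (s1 hs) t (s2 ht)) rfl hp.s2.sec0 e1 e2 (sub_nonneg.1 h)
    rwa [hz, sub_zero] at k
  · have k := mono_pass d B.fa_cont B.fa_nonneg m2.1 m1.1 p0 hΛ hsm r2 r1 c2 hx3.continuousOn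
      (fun s hs t ht => by
        rw [norm_sub_rev, norm_sub_rev (z s)]
        exact hp.lip t (s1 ht) s (s2 hs)) hp.s2.sec0 rfl e2 e1 (sub_nonpos.1 h)
    rw [hz] at k
    linarith

end Pool.Agent.Work.MP_1ce82a_an
end
end

-- merged part: Pool.Agent.Work.MP_1ce82a_an.J.Step
section
/-! The pairing with a Jacobi field is almost conserved along a return.
PLAN. aa_cons: by vpart_addPot the momenta mo (addPot F h) z_i equal those of F; the derivative of t -> aa zeta t (ph z1 t)(ph z2 t) is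
[DF(Z2) - DF(Z1)](ph zeta) - D2 F(ph x t)(ph zeta)(Z2 - Z1) + (Dh(z2) - Dh(z1)) zeta, which is at most o(1)|Z2 - Z1| (uniform continuity of D2 F, D2_symm, smallness of the Hessian of h); use ratio and the mean value inequality.
aa_shift: first move the reference time from T1 to P (continuity of zeta and of its momentum at P, DF is Lipschitz near the orbit), then move z2 from T1 to T2: the derivative of s -> aa zeta P Z1 (ph z2 s) is close to - den zeta P = 0.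
step: zeta = Tp xi (Tp_jacobi, den_Tp, den_const); aa_lin at 0 and at P; ph z_i T_i = tl s (ph (nxt ..) 0) (ph_nxt, tl_inv), tl s is C^1 (strict derivative at ph x 0), pr zeta P is a continuous linear form in w, and pr_Tp with t = 0. -/

open Set Filter Topology MeasureTheory
open scoped ContDiff

namespace Pool.Agent.Work.MP_1ce82a_an

variable {Γ : Grp}

theorem Step_unif {V W : Type} [NormedAddCommGroup V] [NormedSpace ℝ V] [NormedAddCommGroup W]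
    [NormedSpace ℝ W] {G : V → W} (hG : ContDiff ℝ 1 G) {K : Set V} (hK : IsCompact K) {ε : ℝ}
    (hε : 0 < ε) : ∃ δ : ℝ, 0 < δ ∧ ∀ p ∈ K, ∀ a b : V, ‖a - p‖ ≤ δ → ‖b - p‖ ≤ δ →
      ‖G b - G a - fderiv ℝ G p (b - a)‖ ≤ ε * ‖b - a‖ := by
  obtain ⟨δ, h0, h1⟩ := Metric.mem_uniformity_dist.1 (hK.uniformContinuousAt_of_continuousAt
    (fderiv ℝ G) (fun a _ => (hG.continuous_fderiv one_ne_zero).continuousAt)
    (Metric.dist_mem_uniformity hε))
  refine ⟨δ / 2, half_pos h0, fun p hp a b ha hb => ?_⟩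
  refine (convex_closedBall p (δ / 2)).norm_image_sub_le_of_norm_fderiv_le'
    (fun q _ => hG.differentiable one_ne_zero q) (fun q hq => ?_) (mem_closedBall_iff_norm.2 ha)
    (mem_closedBall_iff_norm.2 hb)
  have h2 : dist p q < δ := by
    rw [dist_comm]
    exact (Metric.mem_closedBall.1 hq).trans_lt (half_lt_self h0)
  have h3 : dist (fderiv ℝ G p) (fderiv ℝ G q) < ε := h1 h2 hp
  rw [dist_comm, dist_eq_norm] at h3
  exact h3.le

theorem Step_bd {W : Type} [NormedAddCommGroup W] {f : ℝ → W} (hf : Continuous f) (a b : ℝ) :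
    ∃ M : ℝ, 0 < M ∧ ∀ t ∈ Icc a b, ‖f t‖ ≤ M := by
  obtain ⟨M, hM⟩ := (isCompact_Icc (a := a) (b := b)).exists_bound_of_continuousOn hf.continuousOn
  exact ⟨max M 1, lt_max_of_lt_right one_pos, fun t ht => (hM t ht).trans (le_max_left _ _)⟩

theorem Step_ct {V W : Type} [NormedAddCommGroup V] [NormedAddCommGroup W] {f : V → W}
    (hf : Continuous f) (p : V) {ε : ℝ} (hε : 0 < ε) :
    ∃ δ : ℝ, 0 < δ ∧ ∀ q, ‖q - p‖ ≤ δ → ‖f q - f p‖ ≤ ε := by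
  obtain ⟨δ, h0, h1⟩ := Metric.continuousAt_iff.1 (hf.continuousAt (x := p)) ε hε
  refine ⟨δ / 2, half_pos h0, fun q hq => ?_⟩
  rw [← dist_eq_norm] at hq ⊢
  exact (h1 (hq.trans_lt (half_lt_self h0))).le

theorem Step_near {W : Type} [NormedAddCommGroup W] {f : ℝ → W} (hf : Continuous f) (P : ℝ)
    {ε : ℝ} (hε : 0 < ε) :
    ∃ δ : ℝ, 0 < δ ∧ ∀ (s : ℝ) (Y : W), |s - P| ≤ δ → ‖Y - f s‖ ≤ δ → ‖Y - f P‖ ≤ ε := by
  obtain ⟨δ, h0, h1⟩ := Step_ct hf P (half_pos hε)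
  refine ⟨min δ (ε / 2), lt_min h0 (half_pos hε), fun s Y hs hY => ?_⟩
  have h2 := h1 s (hs.trans (min_le_left _ _))
  have h3 := hY.trans (min_le_right _ _)
  have h4 := norm_sub_le_norm_sub_add_norm_sub Y (f s) (f P)
  linarith

theorem Step_in {W : Type} [NormedAddCommGroup W] {a b : W} {M δ : ℝ} (hb : ‖b‖ ≤ M)
    (ha : ‖a - b‖ ≤ δ) (hδ : δ ≤ 1) : ‖a‖ ≤ M + 1 := by
  have h := norm_le_norm_add_norm_sub' a b
  linarith

theorem Step_lipF {F : E × E → ℝ} (hF : ContDiff ℝ 2 F) (R : ℝ) : ∃ L : ℝ, 0 < L ∧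
    ∀ a b : E × E, ‖a‖ ≤ R → ‖b‖ ≤ R → ‖fderiv ℝ F b - fderiv ℝ F a‖ ≤ L * ‖b - a‖ := by
  obtain ⟨M, hM⟩ := (isCompact_closedBall (0 : E × E) R).exists_bound_of_continuousOn
    (E := E × E →L[ℝ] E × E →L[ℝ] ℝ) (continuous_D2 hF).continuousOn
  refine ⟨max M 1, lt_max_of_lt_right one_pos, fun a b ha hb => ?_⟩
  exact (convex_closedBall (0 : E × E) R).norm_image_sub_le_of_norm_fderiv_le (𝕜 := ℝ)
    (fun q _ => (ClsB_c1 hF).differentiable one_ne_zero q)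
    (fun q hq => (hM q hq).trans (le_max_left _ _)) (mem_closedBall_zero_iff.2 ha)
    (mem_closedBall_zero_iff.2 hb)

theorem Step_liph {h : E → ℝ} (hh : ContDiff ℝ 2 h) {R δ : ℝ} (hs : Small R δ h) {a b : E}
    (ha : ‖a‖ ≤ R) (hb : ‖b‖ ≤ R) : ‖fderiv ℝ h b - fderiv ℝ h a‖ ≤ δ * ‖b - a‖ :=
  (convex_closedBall (0 : E) R).norm_image_sub_le_of_norm_fderiv_le (𝕜 := ℝ)
    (fun q _ => (hh.fderiv_right (m := 1) le_rfl).differentiable one_ne_zero q)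
    (fun q hq => (hs q (mem_closedBall_zero_iff.1 hq)).2.2) (mem_closedBall_zero_iff.2 ha)
    (mem_closedBall_zero_iff.2 hb)

theorem Step_mo {F : E × E → ℝ} (hF : ContDiff ℝ 2 F) {h : E → ℝ} (hh : ContDiff ℝ 2 h)
    {z : ℝ → E} {a b t : ℝ} (hz : OrbOn (addPot F h) z a b) (ht : t ∈ Icc a b) :
    HasDerivAt (fun s => vpart (fderiv ℝ F (ph z s)))
      (xpart (fderiv ℝ F (ph z t)) + fderiv ℝ h (z t)) t := by
  have e1 : mo (addPot F h) z = fun s => vpart (fderiv ℝ F (ph z s)) :=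
    funext fun s => vpart_addPot hF hh _
  have e2 : xpart (fderiv ℝ (addPot F h) (ph z t)) =
      xpart (fderiv ℝ F (ph z t)) + fderiv ℝ h (z t) := by
    rw [fderiv_addPot hF hh]
    exact ContinuousLinearMap.ext fun v => rfl
  rw [← e1, ← e2]
  exact (hz t ht).2.2

theorem Step_d1 {F : E × E → ℝ} (hF : ContDiff ℝ 2 F) {h : E → ℝ} (hh : ContDiff ℝ 2 h)
    {x ζ z1 z2 : ℝ → E} (hζ : IsJacobi F x ζ) {a b t : ℝ} (h1 : OrbOn (addPot F h) z1 a b)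
    (h2 : OrbOn (addPot F h) z2 a b) (ht : t ∈ Icc a b) :
    HasDerivAt (fun s => aa F x ζ s (ph z1 s) (ph z2 s))
      ((fderiv ℝ F (ph z2 t) - fderiv ℝ F (ph z1 t) - D2 F (ph x t) (ph z2 t - ph z1 t)) (ph ζ t)
        + (fderiv ℝ h (z2 t) - fderiv ℝ h (z1 t)) (ζ t)) t := by
  have k0 : HasDerivAt ζ (deriv ζ t) t := (hζ.1.differentiable one_ne_zero t).hasDerivAt
  have k1 := ((Step_mo hF hh h2 ht).fun_sub (Step_mo hF hh h1 ht)).clm_apply k0
  have k2 := (hζ.2 t).clm_apply ((h2 t ht).1.fun_sub (h1 t ht).1)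
  refine (k1.fun_sub k2).congr_deriv ?_
  have e1 := clm_split (fderiv ℝ F (ph z2 t)) (ζ t) (deriv ζ t)
  have e2 := clm_split (fderiv ℝ F (ph z1 t)) (ζ t) (deriv ζ t)
  have e3 := clm_split (D2 F (ph x t) (ph ζ t)) (z2 t - z1 t) (deriv z2 t - deriv z1 t)
  have e4 : D2 F (ph x t) (ph z2 t - ph z1 t) (ph ζ t) =
      D2 F (ph x t) (ph ζ t) (z2 t - z1 t, deriv z2 t - deriv z1 t) := D2_symm hF _ _ _
  have e5 : fderiv ℝ F (ph z2 t) (ph ζ t) = fderiv ℝ F (ph z2 t) (ζ t, deriv ζ t) := rfl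
  have e6 : fderiv ℝ F (ph z1 t) (ph ζ t) = fderiv ℝ F (ph z1 t) (ζ t, deriv ζ t) := rfl
  simp only [_root_.sub_apply, _root_.add_apply]
  rw [e4, e5, e6, e1, e2, e3]
  ring

theorem Step_d2 {F : E × E → ℝ} (hF : ContDiff ℝ 2 F) {h : E → ℝ} (hh : ContDiff ℝ 2 h)
    (x ζ : ℝ → E) (r : ℝ) (Z : E × E) {z : ℝ → E} {a b t : ℝ} (hz : OrbOn (addPot F h) z a b)
    (ht : t ∈ Icc a b) : HasDerivAt (fun s => aa F x ζ r Z (ph z s))
      (xpart (fderiv ℝ F (ph z t)) (ζ r) - mom F x ζ r (ph z t).2 + fderiv ℝ h (z t) (ζ r)) t := by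
  have k1 := ((Step_mo hF hh hz ht).sub_const (vpart (fderiv ℝ F Z))).clm_apply
    (hasDerivAt_const t (ζ r))
  have k2 := (mom F x ζ r).hasFDerivAt.comp_hasDerivAt t ((hz t ht).1.sub_const Z.1)
  refine (k1.fun_sub k2).congr_deriv ?_
  have e1 : (ph z t).2 = deriv z t := rfl
  simp only [_root_.add_apply, map_zero, e1]
  ring

theorem Step_mem {P δ T : ℝ} (hδ : δ ≤ min P 1) (hT : |T - P| ≤ δ) : T ∈ Icc 0 (P + 1) := by
  have h1 := abs_le.1 hT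
  have h2 := le_min_iff.1 hδ
  constructor <;> linarith [h1.1, h1.2, h2.1, h2.2]

theorem aa_cons (hS : Surf Γ) {F : E × E → ℝ} (hF : Tonelli Γ F) {x : ℝ → E} {P : ℝ} {σ : Γ}
    (hx : IsOrbit F x) (hP : Perd x P σ) {d : Fin 4} (hd : 0 < X1 d (deriv x 0)) {ζ : ℝ → E}
    (hζ : IsJacobi F x ζ) {Λ : ℝ} (hΛ : 0 ≤ Λ) {ε : ℝ} (hε : 0 < ε) :
    ∃ δ R : ℝ, 0 < δ ∧ ∀ h : E → ℝ, ContDiff ℝ 2 h → Small R δ h →
      ∀ (z1 z2 : ℝ → E) (T1 T2 : ℝ), Pair F x P σ d Λ δ h z1 z2 T1 T2 → ∀ t ∈ Icc 0 (P + 1),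
        |aa F x ζ t (ph z1 t) (ph z2 t) - aa F x ζ 0 (ph z1 0) (ph z2 0)| ≤
          ε * ‖z2 0 - z1 0‖ := by
  obtain ⟨δ0, C, d0, d1, hC, hr⟩ := ratio (F := F) hS hx.1 hP hd hΛ
  obtain ⟨M, hM, bM⟩ := Step_bd hζ.continuous.1 0 (P + 1)
  obtain ⟨R, -, bR⟩ := Step_bd hx.continuous_ph 0 (P + 1)
  obtain ⟨η, hη, eη⟩ := exists_pos_mul_lt hε (2 * M * C * (P + 1))
  obtain ⟨δ1, d2, hu⟩ := Step_unif (ClsB_c1 hF.c2)
    ((isCompact_Icc (a := 0) (b := P + 1)).image hx.continuous_ph) hη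
  refine ⟨min δ0 (min δ1 η), R + 1, lt_min d0 (lt_min d2 hη), fun h hh hs z1 z2 T1 T2 hp t ht => ?_⟩
  have l0 : min δ0 (min δ1 η) ≤ δ0 := min_le_left _ _
  have l1 : min δ0 (min δ1 η) ≤ δ1 := (min_le_right _ _).trans (min_le_left _ _)
  have l2 : min δ0 (min δ1 η) ≤ η := (min_le_right _ _).trans (min_le_right _ _)
  have l3 : min δ0 (min δ1 η) ≤ 1 := l0.trans (d1.trans (min_le_right _ _))
  have r1 := (hr h z1 z2 T1 T2 (hp.mono l0)).1
  have n0 := norm_nonneg (z2 0 - z1 0)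
  have P0 : 0 < P + 1 := by linarith [hP.1]
  have key := (convex_Icc 0 (P + 1)).norm_image_sub_le_of_norm_hasDerivWithin_le
    (C := 2 * η * (C * ‖z2 0 - z1 0‖) * M)
    (fun s hs => (Step_d1 hF.c2 hh hζ hp.s1.orb hp.s2.orb hs).hasDerivWithinAt)
    (fun s hs => ?_) (left_mem_Icc.2 P0.le) ht
  · rw [sub_zero, Real.norm_eq_abs, Real.norm_of_nonneg ht.1] at key
    refine key.trans ((mul_le_mul_of_nonneg_left ht.2 (by positivity)).trans ?_)
    nlinarith [mul_le_mul_of_nonneg_right eη.le n0]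
  have b1 := hu (ph x s) (mem_image_of_mem _ hs) (ph z1 s) (ph z2 s) ((hp.s1.near s hs).trans l1)
    ((hp.s2.near s hs).trans l1)
  have b2 : ‖fderiv ℝ h (z2 s) - fderiv ℝ h (z1 s)‖ ≤ η * ‖z2 s - z1 s‖ :=
    Step_liph hh (‹Small _ _ h›.mono le_rfl l2)
      ((norm_fst_le (ph z1 s)).trans (Step_in (bR s hs) (hp.s1.near s hs) l3))
      ((norm_fst_le (ph z2 s)).trans (Step_in (bR s hs) (hp.s2.near s hs) l3))
  have b3 : ‖z2 s - z1 s‖ ≤ C * ‖z2 0 - z1 0‖ := (norm_fst_le (ph z2 s - ph z1 s)).trans (r1 s hs)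
  have b4 : ‖ζ s‖ ≤ M := (norm_fst_le (ph ζ s)).trans (bM s hs)
  have b5 := ContinuousLinearMap.le_of_opNorm_le_of_le _
    (b1.trans (mul_le_mul_of_nonneg_left (r1 s hs) hη.le)) (bM s hs)
  have b6 := ContinuousLinearMap.le_of_opNorm_le_of_le _
    (b2.trans (mul_le_mul_of_nonneg_left b3 hη.le)) b4
  refine (norm_add_le _ _).trans ((add_le_add b5 b6).trans (le_of_eq ?_))
  ring

theorem aa_shift (hS : Surf Γ) {F : E × E → ℝ} (hF : Tonelli Γ F) {x : ℝ → E} {P : ℝ} {σ : Γ}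
    (hx : IsOrbit F x) (hP : Perd x P σ) {d : Fin 4} (hd : 0 < X1 d (deriv x 0)) {ζ : ℝ → E}
    (hζ : IsJacobi F x ζ) (h0 : den F x ζ P = 0) {Λ : ℝ} (hΛ : 0 ≤ Λ) {ε : ℝ} (hε : 0 < ε) :
    ∃ δ R : ℝ, 0 < δ ∧ ∀ h : E → ℝ, ContDiff ℝ 2 h → Small R δ h →
      ∀ (z1 z2 : ℝ → E) (T1 T2 : ℝ), Pair F x P σ d Λ δ h z1 z2 T1 T2 →
        |aa F x ζ P (ph z1 T1) (ph z2 T2) - aa F x ζ T1 (ph z1 T1) (ph z2 T1)| ≤
          ε * ‖z2 0 - z1 0‖ := by
  obtain ⟨δ0, C, d0, d1, hC, hr⟩ := ratio (F := F) hS hx.1 hP hd hΛ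
  obtain ⟨R, -, bR⟩ := Step_bd hx.continuous_ph 0 (P + 1)
  obtain ⟨L, hL, bL⟩ := Step_lipF hF.c2 (R + 1)
  obtain ⟨η, hη, eη⟩ := exists_pos_mul_lt hε ((L + 2 + ‖ζ P‖) * C)
  obtain ⟨δ1, d2, c1⟩ := Step_ct hζ.1.continuous P hη
  obtain ⟨δ2, d3, c2⟩ := Step_ct hζ.continuous.2 P hη
  have hφ : Continuous fun Z : E × E => xpart (fderiv ℝ F Z) (ζ P) - mom F x ζ P Z.2 := by
    have := hF.c2.continuous_fderiv two_ne_zero
    simp only [xpart_apply]
    fun_prop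
  obtain ⟨δ3, d4, c3⟩ := Step_ct hφ (ph x P) hη
  obtain ⟨δ4, d5, c4⟩ := Step_near hx.continuous_ph P d4
  obtain ⟨δ, hδ, l0, l1, l2, l4, l5⟩ : ∃ δ : ℝ, 0 < δ ∧ δ ≤ δ0 ∧ δ ≤ δ1 ∧ δ ≤ δ2 ∧ δ ≤ δ4 ∧ δ ≤ η :=
    ⟨min δ0 (min δ1 (min δ2 (min δ4 η))), by positivity, by simp, by simp, by simp, by simp,
      by simp⟩
  refine ⟨δ, R + 1, hδ, fun h hh hs z1 z2 T1 T2 hp => ?_⟩
  have l6 : δ ≤ min P 1 := l0.trans d1
  have l3 : δ ≤ 1 := l6.trans (min_le_right _ _)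
  obtain ⟨r1, r2, -⟩ := hr h z1 z2 T1 T2 (hp.mono l0)
  have n0 := norm_nonneg (z2 0 - z1 0)
  have m1 := Step_mem l6 hp.s1.time
  have e0 : xpart (fderiv ℝ F (ph x P)) (ζ P) - mom F x ζ P (ph x P).2 = 0 := by
    rw [← neg_eq_zero, neg_sub]
    exact h0
  have hm : ∀ s ∈ Metric.closedBall P δ, |s - P| ≤ δ := fun s hs => hs
  have key := (convex_closedBall P δ).norm_image_sub_le_of_norm_hasDerivWithin_le
    (C := η + η * ‖ζ P‖) (x := T1) (y := T2)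
    (fun s hs => (Step_d2 hF.c2 hh x ζ P (ph z1 T1) hp.s2.orb
      (Step_mem l6 (hm s hs))).hasDerivWithinAt)
    (fun s ks => by
      have m2 := Step_mem l6 (hm s ks)
      have a1 := c3 (ph z2 s) (c4 s _ ((hm s ks).trans l4) ((hp.s2.near s m2).trans l4))
      rw [e0, sub_zero] at a1
      have a2 := (hs (z2 s) ((norm_fst_le (ph z2 s)).trans
        (Step_in (bR s m2) (hp.s2.near s m2) l3))).2.1.trans l5
      exact (norm_add_le _ _).trans (add_le_add a1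
        (ContinuousLinearMap.le_of_opNorm_le_of_le _ a2 le_rfl))) hp.s1.time hp.s2.time
  have k1 : |aa F x ζ P (ph z1 T1) (ph z2 T2) - aa F x ζ P (ph z1 T1) (ph z2 T1)| ≤
      (η + η * ‖ζ P‖) * (C * ‖z2 0 - z1 0‖) :=
    key.trans (mul_le_mul_of_nonneg_left r2 (by positivity))
  have e1 : aa F x ζ T1 (ph z1 T1) (ph z2 T1) - aa F x ζ P (ph z1 T1) (ph z2 T1) =
      vpart (fderiv ℝ F (ph z2 T1) - fderiv ℝ F (ph z1 T1)) (ζ T1 - ζ P) -
        (mom F x ζ T1 - mom F x ζ P) (ph z2 T1 - ph z1 T1).1 := by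
    simp only [aa, vpart_apply, _root_.sub_apply, Prod.fst_sub, map_sub]
    ring
  have b1 := ContinuousLinearMap.le_of_opNorm_le_of_le _ ((norm_vpart_le _).trans
    ((bL _ _ (Step_in (bR T1 m1) (hp.s1.near T1 m1) l3)
      (Step_in (bR T1 m1) (hp.s2.near T1 m1) l3)).trans
      (mul_le_mul_of_nonneg_left (r1 T1 m1) hL.le))) (c1 T1 (hp.s1.time.trans l1))
  have b2 := ContinuousLinearMap.le_of_opNorm_le_of_le _ (c2 T1 (hp.s1.time.trans l2))
    ((norm_fst_le (ph z2 T1 - ph z1 T1)).trans (r1 T1 m1))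
  have k2 := (norm_sub_le _ _).trans (add_le_add b1 b2)
  rw [← e1, Real.norm_eq_abs, abs_sub_comm] at k2
  refine (abs_sub_le _ _ _).trans ((add_le_add k1 k2).trans ?_)
  nlinarith [mul_le_mul_of_nonneg_right eη.le n0]

theorem step (hS : Surf Γ) {F : E × E → ℝ} (hF : Tonelli Γ F) {x : ℝ → E} {P : ℝ} {σ : Γ}
    (hx : IsOrbit F x) (hP : Perd x P σ) {d : Fin 4} (hd : 0 < X1 d (deriv x 0)) {ξ : ℝ → E}
    (hξ : IsJacobi F x ξ) (h0 : den F x ξ 0 = 0) {Λ : ℝ} (hΛ : 0 ≤ Λ) {ε : ℝ} (hε : 0 < ε) :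
    ∃ δ R : ℝ, 0 < δ ∧ ∀ h : E → ℝ, ContDiff ℝ 2 h → Small R δ h →
      ∀ (z1 z2 : ℝ → E) (T1 T2 : ℝ), Pair F x P σ d Λ δ h z1 z2 T1 T2 →
        |pr F x ξ 0 (ph (nxt σ z2 T2) 0 - ph (nxt σ z1 T1) 0) -
          pr F x (Tp x P σ ξ) 0 (ph z2 0 - ph z1 0)| ≤ ε * ‖z2 0 - z1 0‖ := by
  have hζ := Tp_jacobi hS hF.c2 hF.invL hx hP hξ
  have hz0 : den F x (Tp x P σ ξ) P = 0 := by
    rw [den_const hF.c2 hF.conv hx hζ, den_Tp hS hF hx hP hξ, h0]
  have hT := pr_Tp hS hF.c2 hF.invL hx.1 hP hξ.1 0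
  rw [zero_add] at hT
  generalize Tp x P σ ξ = ζ at *
  obtain ⟨l, hl⟩ : ∃ l : E × E →L[ℝ] ℝ, ∀ w, pr F x ζ P w = l w :=
    ⟨(D2 F (ph x P)).flip (0, ζ P) - (mom F x ζ P).comp (ContinuousLinearMap.fst ℝ E E),
      fun _ => rfl⟩
  obtain ⟨δ0, C, d0, d1, hC, hr⟩ := ratio (F := F) hS hx.1 hP hd hΛ
  obtain ⟨η, hη, eη⟩ := exists_pos_mul_lt hε (‖l‖ * C + 2 * C + 2)
  obtain ⟨δ1, R1, d2, c1⟩ := aa_cons hS hF hx hP hd hζ hΛ hη
  obtain ⟨δ2, R2, d3, c2⟩ := aa_shift hS hF hx hP hd hζ hz0 hΛ hη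
  obtain ⟨δ3, d4, c3⟩ := aa_lin hF.c2 hx.1 hζ.1.continuous P hη
  obtain ⟨δ4, d5, c4⟩ := Step_unif ((contDiff_tl hS σ).of_le (by exact_mod_cast le_top))
    (isCompact_singleton (x := ph x 0)) hη
  obtain ⟨δ5, d6, c5⟩ := Step_ct (contDiff_tl hS σ⁻¹).continuous (ph x P) d5
  obtain ⟨δ6, d7, c6⟩ := Step_near hx.continuous_ph P (lt_min d4 d6)
  obtain ⟨δ, hδ, l0, l1, l2, l3, l6⟩ : ∃ δ : ℝ, 0 < δ ∧ δ ≤ δ0 ∧ δ ≤ δ1 ∧ δ ≤ δ2 ∧ δ ≤ δ3 ∧ δ ≤ δ6 :=
    ⟨min δ0 (min δ1 (min δ2 (min δ3 δ6))), by positivity, by simp, by simp, by simp, by simp,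
      by simp⟩
  refine ⟨δ, max R1 R2, hδ, fun h hh hs z1 z2 T1 T2 hp => ?_⟩
  have l7 : δ ≤ min P 1 := l0.trans d1
  obtain ⟨r1, -, r3, r4⟩ := hr h z1 z2 T1 T2 (hp.mono l0)
  have n0 := norm_nonneg (z2 0 - z1 0)
  have m0 : (0 : ℝ) ∈ Icc 0 (P + 1) := left_mem_Icc.2 (by linarith [hP.1])
  have m1 := Step_mem l7 hp.s1.time
  have m2 := Step_mem l7 hp.s2.time
  have y1 := le_min_iff.1 (c6 T1 _ (hp.s1.time.trans l6) ((hp.s1.near T1 m1).trans l6))
  have y2 := le_min_iff.1 (c6 T2 _ (hp.s2.time.trans l6) ((hp.s2.near T2 m2).trans l6))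
  have e0 : tl σ⁻¹ (ph x P) = ph x 0 := by
    have e := tl_inv hS σ⁻¹ (ph x 0)
    rwa [inv_inv, ← hP.ph hS 0, zero_add] at e
  have w1 := c5 _ y1.2
  have w2 := c5 _ y2.2
  rw [e0] at w1 w2
  rw [ph_nxt hS, ph_nxt hS, add_zero, add_zero] at r4 ⊢
  have a0 := c4 _ rfl _ _ w1 w2
  rw [tl_inv hS, tl_inv hS] at a0
  have a1 := l.le_of_opNorm_le_of_le le_rfl (a0.trans (mul_le_mul_of_nonneg_left r4 hη.le))
  rw [map_sub, ← hl, ← hl, hT, Real.norm_eq_abs] at a1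
  have a2 := (c3 P (right_mem_Icc.2 hP.1.le) _ _ y1.1 y2.1).trans
    (mul_le_mul_of_nonneg_left r3 hη.le)
  have a3 := c2 h hh (hs.mono (le_max_right _ _) l2) z1 z2 T1 T2 (hp.mono l2)
  have a4 := c1 h hh (hs.mono (le_max_left _ _) l1) z1 z2 T1 T2 (hp.mono l1) T1 m1
  have a5 := (c3 0 (left_mem_Icc.2 hP.1.le) _ _ ((hp.s1.near 0 m0).trans l3)
    ((hp.s2.near 0 m0).trans l3)).trans (mul_le_mul_of_nonneg_left (r1 0 m0) hη.le)
  have a6 := mul_le_mul_of_nonneg_right eη.le n0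
  rw [abs_le] at a1 a2 a3 a4 a5 ⊢
  constructor <;> linarith [a1.1, a1.2, a2.1, a2.2, a3.1, a3.2, a4.1, a4.2, a5.1, a5.2]

end Pool.Agent.Work.MP_1ce82a_an
end

-- merged part: Pool.Agent.Work.MP_1ce82a_an.J.Tr
section
/-! The trace of the transport, Cayley-Hamilton, eigenfields.
PLAN. v = deriv x 0. exists: phi with data (0, w -> det2 v w), e with data (e0, a w -> inner v w) where det2 v e0 = 1 and a is chosen so that den e 0 = 0. phi_mom: a covector killing v is a multiple of det2 v.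
jac_dec: write xi 0 = k v + a e 0 (v and e 0 are independent), subtract k x' + a e; the remainder has value 0 and momentum killing v, so it is b phi by jacobi_zero; pair with phi and e to identify a and b
(om x' phi = den phi = 0, om e x' = - den e = 0). Cayley-Hamilton: the 2 by 2 matrix of Tp on (e,phi) modulo x' has determinant om (Tp e)(Tp phi) = 1 and trace tau; compute with jac_dec, Tp_lin, Tp_deriv.
eig: for a root l of l^2 - tau l + 1 (l different from 1, l > 0) and xi in {e,phi}, psi = Tp xi - (1/l) xi satisfies Tp psi = l psi + k x'; psi + k/(l-1) x' is an eigenfield of Tp; it is nonzero for xi = e or xi = phi, since otherwise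
om (Tp e)(Tp phi) = 1/l^2. IsEig with multiplier 1/l. Use both roots. -/

open Set Filter Topology MeasureTheory
open scoped ContDiff

namespace Pool.Agent.Work.MP_1ce82a_an

variable {Γ : Grp}

theorem Tr_pos {v : E} (hv : v ≠ 0) : v.1 ^ 2 + v.2 ^ 2 ≠ 0 := fun h =>
  hv (Prod.ext (show v.1 = 0 by nlinarith [sq_nonneg v.1, sq_nonneg v.2])
    (show v.2 = 0 by nlinarith [sq_nonneg v.1, sq_nonneg v.2]))

theorem Tr_cov {v : E} (hv : v ≠ 0) {p : E →L[ℝ] ℝ} (h : p v = 0) :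
    ∃ a : ℝ, ∀ w, p w = a * det2 v w := by
  have e : ∀ w : E, p w = w.1 * p (1, 0) + w.2 * p (0, 1) := fun w => by
    rw [← smul_eq_mul, ← smul_eq_mul, ← map_smul, ← map_smul, ← map_add]
    simp
  have := Tr_pos hv
  refine ⟨(p (0, 1) * v.1 - p (1, 0) * v.2) / (v.1 ^ 2 + v.2 ^ 2), fun w => ?_⟩
  rw [e] at h
  rw [e, det2, div_mul_eq_mul_div, eq_div_iff this]
  linear_combination (v.1 * w.1 + v.2 * w.2) * h

theorem Tr_par {v w : E} (hv : v ≠ 0) (h : det2 v w = 0) : ∃ k : ℝ, w = k • v := by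
  have := Tr_pos hv
  rw [det2] at h
  refine ⟨(v.1 * w.1 + v.2 * w.2) / (v.1 ^ 2 + v.2 ^ 2), Prod.ext ?_ ?_⟩
  · rw [Prod.smul_fst, smul_eq_mul, div_mul_eq_mul_div, eq_div_iff this]
    linear_combination (-v.2) * h
  · rw [Prod.smul_snd, smul_eq_mul, div_mul_eq_mul_div, eq_div_iff this]
    linear_combination v.1 * h

theorem Tr_three (a b c : ℝ → E) (k A B : ℝ) : (fun t => k • a t + A • b t + B • c t) =
    fun t => (1 : ℝ) • (fun s => k • a s + A • b s) t + B • c t := by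
  simp only [one_smul]

theorem Tr_jac {F : E × E → ℝ} {x a b c : ℝ → E} (ha : IsJacobi F x a) (hb : IsJacobi F x b)
    (hc : IsJacobi F x c) (k A B : ℝ) : IsJacobi F x fun t => k • a t + A • b t + B • c t :=
  Tr_three a b c k A B ▸ (ha.lin hb k A).lin hc 1 B

theorem Tr_mom {F : E × E → ℝ} {x a b c : ℝ → E} (ha : IsJacobi F x a) (hb : IsJacobi F x b)
    (hc : IsJacobi F x c) (k A B : ℝ) : mom F x (fun t => k • a t + A • b t + B • c t) 0 =
      k • mom F x a 0 + A • mom F x b 0 + B • mom F x c 0 := by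
  rw [Tr_three, mom_lin F x (ha.lin hb k A).1 hc.1, mom_lin F x ha.1 hb.1, one_smul]

theorem Tr_om {F : E × E → ℝ} {x a b c ξ : ℝ → E} (ha : IsJacobi F x a) (hb : IsJacobi F x b)
    (hc : IsJacobi F x c) {k A B : ℝ} (h : ∀ t, ξ t = k • a t + A • b t + B • c t) (η : ℝ → E) :
    om F x ξ η 0 = k * om F x a η 0 + A * om F x b η 0 + B * om F x c η 0 := by
  rw [funext h, om, Tr_three, pr_lin F x (ha.lin hb k A).1 hc.1, pr_lin F x ha.1 hb.1, one_mul]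
  rfl

theorem Tr_self (F : E × E → ℝ) (x a : ℝ → E) : om F x a a 0 = 0 := by
  rw [om_eq, sub_self]

theorem Tr_T (hS : Surf Γ) {x : ℝ → E} {P : ℝ} {σ : Γ} (hP : Perd x P σ) {b c ξ : ℝ → E}
    {k A B : ℝ} (h : ∀ t, ξ t = k • deriv x t + A • b t + B • c t) (t : ℝ) :
    Tp x P σ ξ t = k • deriv x t + A • Tp x P σ b t + B • Tp x P σ c t := by
  rw [← congrFun (Tp_deriv hS hP) t]
  simp only [Tp, h, map_add, map_smul]

theorem phi_mom {F : E × E → ℝ} {x e φ : ℝ → E} (hv : deriv x 0 ≠ 0) (h0 : φ 0 = 0)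
    (hd : den F x φ 0 = 0) (h1 : om F x e φ 0 = 1) :
    ∃ a : ℝ, a ≠ 0 ∧ ∀ w : E, mom F x φ 0 w = a * det2 (deriv x 0) w := by
  rw [den, h0, map_zero, sub_zero] at hd
  rw [om_eq, h0, map_zero, sub_zero] at h1
  obtain ⟨a, ha⟩ := Tr_cov hv hd
  refine ⟨a, fun e => ?_, ha⟩
  rw [ha, e, zero_mul] at h1
  exact zero_ne_one h1

theorem exists_isTr {F : E × E → ℝ} (hF : Tonelli Γ F) {x : ℝ → E} (hx : IsOrbit F x)
    (hv : deriv x 0 ≠ 0) (P : ℝ) (σ : Γ) : ∃ τ, IsTr F x P σ τ := by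
  have hn := Tr_pos hv
  set v := deriv x 0 with hv'
  let e0 : E := (-v.2 / (v.1 ^ 2 + v.2 ^ 2), v.1 / (v.1 ^ 2 + v.2 ^ 2))
  obtain ⟨φ, h1, h2, h3⟩ := exists_jacobi hF.c2 hF.conv hx.1 0
    (v.1 • ContinuousLinearMap.snd ℝ ℝ ℝ - v.2 • ContinuousLinearMap.fst ℝ ℝ ℝ)
  obtain ⟨e, h4, h5, h6⟩ := exists_jacobi hF.c2 hF.conv hx.1 e0
    ((xpart (fderiv ℝ F (ph x 0)) e0 / (v.1 ^ 2 + v.2 ^ 2)) •
      (v.1 • ContinuousLinearMap.fst ℝ ℝ ℝ + v.2 • ContinuousLinearMap.snd ℝ ℝ ℝ))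
  refine ⟨_, e, φ, h4, h1, h2, ?_, ?_, ?_, rfl⟩
  · rw [den, h5, h6, ← hv']
    simp
    field_simp
    ring
  · rw [den, h2, h3, ← hv']
    simp [mul_comm]
  · rw [om_eq, h2, h3, h5]
    simp [e0]
    field_simp
    ring

theorem jac_dec {F : E × E → ℝ} (hF : Tonelli Γ F) {x e φ ξ : ℝ → E} (hx : IsOrbit F x)
    (hv : deriv x 0 ≠ 0) (he : IsJacobi F x e) (hφ : IsJacobi F x φ) (h0 : φ 0 = 0)
    (hde : den F x e 0 = 0) (hdφ : den F x φ 0 = 0) (h1 : om F x e φ 0 = 1)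
    (hξ : IsJacobi F x ξ) (hd : den F x ξ 0 = 0) :
    ∃ k : ℝ, ∀ t, ξ t = k • deriv x t + om F x ξ φ 0 • e t + om F x e ξ 0 • φ t := by
  obtain ⟨a, -, ha⟩ := phi_mom hv h0 hdφ h1
  have hx' := hx.deriv_jacobi hF.c2 hF.conv
  have e1 : om F x ξ φ 0 = a * det2 (deriv x 0) (ξ 0) := by
    rw [om_eq, h0, map_zero, sub_zero, ha]
  rw [om_eq, h0, map_zero, sub_zero] at h1
  have e2 := (ha _).symm.trans h1
  obtain ⟨k, hk⟩ := Tr_par (w := ξ 0 - om F x ξ φ 0 • e 0) hv (by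
    rw [e1]
    simp only [det2, Prod.fst_sub, Prod.snd_sub, Prod.smul_fst, Prod.smul_snd, smul_eq_mul] at e2 ⊢
    linear_combination (-((deriv x 0).1 * (ξ 0).2 - (deriv x 0).2 * (ξ 0).1)) * e2)
  rw [sub_eq_iff_eq_add] at hk
  have hJ := Tr_jac hx' he hφ k (om F x ξ φ 0) (om F x e ξ 0)
  refine ⟨k, fun t => ?_⟩
  have key := jacobi_zero hF.c2 hF.conv hx.1 (hξ.lin hJ 1 (-1)) ?_ ?_ t
  · rw [one_smul, neg_one_smul, add_neg_eq_zero] at key
    exact key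
  · rw [h0, smul_zero, add_zero, ← hk, one_smul, neg_one_smul, add_neg_cancel]
  · rw [den, ← hx.mom_deriv hF.c2 hF.conv, sub_eq_zero] at hd hde hdφ
    rw [h0, map_zero] at hdφ
    rw [mom_lin F x hξ.1 hJ.1, Tr_mom hx' he hφ]
    have e3 := congrArg (mom F x (deriv x) 0) hk
    have e4 := congrArg (mom F x e 0) hk
    rw [map_add, map_smul, map_smul, smul_eq_mul, smul_eq_mul] at e3 e4
    obtain ⟨c, hc⟩ := Tr_cov hv (p := (1 : ℝ) • mom F x ξ 0 + (-1 : ℝ) • (k • mom F x (deriv x) 0 +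
      om F x ξ φ 0 • mom F x e 0 + om F x e ξ 0 • mom F x φ 0)) (by
        simp only [add_apply, smul_apply, smul_eq_mul, hd, hde, hdφ]
        linear_combination e3)
    have e5 := hc (e 0)
    simp only [add_apply, smul_apply, smul_eq_mul, h1, ← hde] at e5
    have e6 : c = 0 := by
      linear_combination (-a) * e5 - c * e2 + a * e4 - a * om_eq F x e ξ 0
    refine ContinuousLinearMap.ext fun w => ?_
    rw [hc, e6, zero_mul]
    rfl

theorem cayley (hS : Surf Γ) {F : E × E → ℝ} (hF : Tonelli Γ F) {x : ℝ → E} {P : ℝ} {σ : Γ}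
    (hx : IsOrbit F x) (hP : Perd x P σ) (hv : deriv x 0 ≠ 0) {τ : ℝ} (hτ : IsTr F x P σ τ)
    {ξ : ℝ → E} (hξ : IsJacobi F x ξ) (hd : den F x ξ 0 = 0) : ∃ k : ℝ, ∀ t,
      Tp x P σ (Tp x P σ ξ) t = τ • Tp x P σ ξ t - ξ t + k • deriv x t := by
  obtain ⟨e, φ, he, hφ, h0, hde, hdφ, h1, rfl⟩ := hτ
  have hx' := hx.deriv_jacobi hF.c2 hF.conv
  have d2 := (den_Tp hS hF hx hP hφ).trans hdφ
  obtain ⟨k1, k1'⟩ := jac_dec hF hx hv he hφ h0 hde hdφ h1 (Tp_jacobi hS hF.c2 hF.inv hx hP he)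
    ((den_Tp hS hF hx hP he).trans hde)
  obtain ⟨k2, k2'⟩ := jac_dec hF hx hv he hφ h0 hde hdφ h1 (Tp_jacobi hS hF.c2 hF.inv hx hP hφ) d2
  obtain ⟨k, hk⟩ := jac_dec hF hx hv he hφ h0 hde hdφ h1 hξ hd
  have det := Tr_om hx' he hφ k1' (Tp x P σ φ)
  rw [om_Tp hS hF.c2 hF.inv hx hP he hφ, h1, ← den_eq_om hF.c2 hF.conv hx, d2,
    om_swap F x φ] at det
  generalize om F x (Tp x P σ e) φ 0 = a at *
  generalize om F x e (Tp x P σ e) 0 = c at *
  generalize om F x (Tp x P σ φ) φ 0 = b at *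
  generalize om F x e (Tp x P σ φ) 0 = d at *
  generalize om F x ξ φ 0 = A at *
  generalize om F x e ξ 0 = B at *
  have h2 : ∀ t, Tp x P σ ξ t = (k + A * k1 + B * k2) • deriv x t + (A * a + B * b) • e t +
      (A * c + B * d) • φ t := fun t => by
    rw [Tr_T hS hP hk, k1', k2']
    module
  refine ⟨(k + A * k1 + B * k2) * (1 - a - d) + (A * a + B * b) * k1 + (A * c + B * d) * k2 + k,
    fun t => ?_⟩
  rw [Tr_T hS hP h2, h2, k1', k2', hk]
  match_scalars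
  · ring
  · linear_combination A * det
  · linear_combination B * det

theorem Tr_eig (hS : Surf Γ) {F : E × E → ℝ} (hF : Tonelli Γ F) {x : ℝ → E} {P : ℝ} {σ : Γ}
    (hx : IsOrbit F x) (hP : Perd x P σ) (hv : deriv x 0 ≠ 0) {l l' : ℝ}
    (hτ : IsTr F x P σ (l + l')) (h1 : l * l' = 1) (h2 : l' ^ 2 ≠ 1) :
    ∃ χ, IsEig F x P σ l' χ := by
  have hx' := hx.deriv_jacobi hF.c2 hF.conv
  have h3 : l - 1 ≠ 0 := fun e => h2 (by
    rw [sub_eq_zero.1 e, one_mul] at h1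
    rw [h1, one_pow])
  have key : ∀ ξ, IsJacobi F x ξ → den F x ξ 0 = 0 → (∃ χ, IsEig F x P σ l' χ) ∨
      ∃ κ : ℝ, ∀ t, Tp x P σ ξ t = κ • deriv x t + l' • ξ t + (0 : ℝ) • ξ t := by
    intro ξ hξ hd
    obtain ⟨k, hk⟩ := cayley hS hF hx hP hv hτ hξ hd
    obtain ⟨κ, rfl⟩ : ∃ κ, k = κ * (l - 1) := ⟨k / (l - 1), (div_mul_cancel₀ k h3).symm⟩
    have hT := Tp_jacobi hS hF.c2 hF.inv hx hP hξ
    have hJ := Tr_jac hx' hT hξ κ 1 (-l')
    by_cases c : (fun t => κ • deriv x t + (1 : ℝ) • Tp x P σ ξ t + (-l') • ξ t) = 0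
    · refine .inr ⟨-κ, fun t => ?_⟩
      have : κ • deriv x t + (1 : ℝ) • Tp x P σ ξ t + (-l') • ξ t = 0 := congrFun c t
      linear_combination (norm := module) this
    refine .inl ⟨_, hJ, c, fun t => ?_, fun t => ?_⟩
    · rw [← den_eq_fderiv hF.c2, den_const hF.c2 hF.conv hx hJ, den_eq_om hF.c2 hF.conv hx, om_swap,
        Tr_om hx' hT hξ (fun _ => rfl), Tr_self, om_swap F x ξ, om_swap F x (Tp x P σ ξ),
        ← den_eq_om hF.c2 hF.conv hx, ← den_eq_om hF.c2 hF.conv hx, den_Tp hS hF hx hP hξ, hd]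
      ring
    · have := Tr_T hS hP (ξ := fun t => κ • deriv x t + (1 : ℝ) • Tp x P σ ξ t + (-l') • ξ t)
        (fun _ => rfl) (t + P)
      rw [Tp, add_sub_cancel_right] at this
      rw [this, hk]
      match_scalars
      · linear_combination (-κ) * h1
      · linear_combination -h1
      · ring
  obtain ⟨e, φ, he, hφ, h0, hde, hdφ, h4, -⟩ := hτ
  refine (key e he hde).elim id fun ⟨κ, hκ⟩ => (key φ hφ hdφ).elim id fun ⟨κ', hκ'⟩ =>
    absurd ?_ h2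
  have e1 := Tr_om hx' he he hκ (Tp x P σ φ)
  have e2 := Tr_om hx' hφ hφ hκ' e
  rw [om_Tp hS hF.c2 hF.inv hx hP he hφ, h4, ← den_eq_om hF.c2 hF.conv hx, den_Tp hS hF hx hP hφ,
    hdφ, om_swap F x e, e2, ← den_eq_om hF.c2 hF.conv hx, hde, om_swap F x φ, h4] at e1
  linear_combination -e1

theorem hypPer_of_tr (hS : Surf Γ) {F : E × E → ℝ} (hF : Tonelli Γ F) {x : ℝ → E} {P : ℝ} {σ : Γ}
    (hx : IsOrbit F x) (hP : Perd x P σ) (hv : deriv x 0 ≠ 0) {τ : ℝ} (hτ : IsTr F x P σ τ)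
    (h2 : 2 < τ) : HypPer Γ F x := by
  have h3 : 0 < τ ^ 2 - 4 := by nlinarith
  have h4 := Real.sq_sqrt h3.le
  have h5 := Real.sqrt_pos.2 h3
  generalize √(τ ^ 2 - 4) = s at h4 h5
  have h6 : (τ + s) / 2 * ((τ - s) / 2) = 1 := by linarith
  have h7 : 1 < (τ + s) / 2 := by linarith
  have h8 : 0 < (τ - s) / 2 := by nlinarith
  have h9 : (τ - s) / 2 < 1 := by nlinarith
  obtain ⟨ξ, hξ⟩ := Tr_eig hS hF hx hP hv (l := (τ + s) / 2) (l' := (τ - s) / 2)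
    (by rwa [show (τ + s) / 2 + (τ - s) / 2 = τ by ring]) h6 (by nlinarith)
  obtain ⟨ζ, hζ⟩ := Tr_eig hS hF hx hP hv (l := (τ - s) / 2) (l' := (τ + s) / 2)
    (by rwa [show (τ - s) / 2 + (τ + s) / 2 = τ by ring]) (by linarith) (by nlinarith)
  exact ⟨hx, hv, P, σ, hP.1, hP.2, _, _, ξ, ζ, by rwa [abs_of_pos h8],
    by rwa [abs_of_pos (by linarith)], hξ, hζ⟩

end Pool.Agent.Work.MP_1ce82a_an
end

-- merged part: Pool.Agent.Work.MP_1ce82a_an.J.Rec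
section
/-! The approximate three term recurrence for heights, and two lemmas on sequences.
PLAN. rec3: with phi from IsTr, pr phi 0 w = - a X1(v) X2(w.1) whenever X1 w.1 = 0 (phi_mom, det2_X). Apply step to phi for both pairs and to Tp phi for the first pair, cayley for phi with pr_lin, en_small; divide by |a X1 v|.
seq_concave: second differences are at most eps (eta k + eta (k+1)) <= 2 eps M with M = max 1 C ^ n eta 0; so eta k + eps M k (n-k) is concave with the same end values, hence above the chord; sum, choose n with (n-1)/4 > |A| sqrt n, then eps.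
seq_max: maximise |eta k| / (r^k + r^-k) over |k| <= n with r > 1 and eps such that (1+eps)(r+1/r) < tau - eps. -/

open Set Filter Topology MeasureTheory
open scoped ContDiff

namespace Pool.Agent.Work.MP_1ce82a_an

variable {Γ : Grp}

theorem Rec_small {R R' δ δ' : ℝ} {h : E → ℝ} (hs : Small R δ h) (hR : R' ≤ R) (hδ : δ ≤ δ') :
    Small R' δ' h := fun x hx =>
  ⟨(hs x (hx.trans hR)).1.trans hδ, (hs x (hx.trans hR)).2.1.trans hδ, (hs x (hx.trans hR)).2.2.trans hδ⟩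

theorem Rec_abs {b ε τ k p0 p1 p2 q0 q1 r0 e0 η0 η1 η2 : ℝ} (hb : b ≠ 0) (hε : 0 < ε)
    (h0 : p0 = b * η0) (h1 : p1 = b * η1) (h2 : p2 = b * η2) (hr : r0 = τ * q0 - p0 + k * e0)
    {ε' : ℝ} (he : ε' * (1 + |τ| + |k|) = ε * |b|)
    (a1 : |p2 - q1| ≤ ε' * |η1|) (a2 : |q1 - r0| ≤ ε' * |η0|) (a3 : |p1 - q0| ≤ ε' * |η0|)
    (a4 : |e0| ≤ ε' * |η0|) : |η2 - τ * η1 + η0| ≤ ε * (|η0| + |η1|) := by
  have hb' := abs_pos.2 hb
  have hp : 0 < ε' := by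
    by_contra h
    have := mul_nonpos_of_nonpos_of_nonneg (not_lt.1 h) (by positivity : 0 ≤ 1 + |τ| + |k|)
    have := mul_pos hε hb'
    linarith
  refine le_of_mul_le_mul_left ?_ hb'
  have e : b * (η2 - τ * η1 + η0) = (p2 - q1) + (q1 - r0) - τ * (p1 - q0) + k * e0 := by
    rw [hr, h0, h1, h2]
    ring
  have t1 := abs_add_le (p2 - q1 + (q1 - r0) - τ * (p1 - q0)) (k * e0)
  have t2 := abs_sub (p2 - q1 + (q1 - r0)) (τ * (p1 - q0))
  have t3 := abs_add_le (p2 - q1) (q1 - r0)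
  have t4 := mul_le_mul_of_nonneg_left a3 (abs_nonneg τ)
  have t5 := mul_le_mul_of_nonneg_left a4 (abs_nonneg k)
  have t6 : 0 ≤ ε' * (|τ| + |k|) * |η1| := by positivity
  rw [abs_mul] at t1 t2
  rw [← abs_mul, e]
  have t7 : |b| * (ε * (|η0| + |η1|)) = ε' * (1 + |τ| + |k|) * (|η0| + |η1|) := by
    rw [he]
    ring
  rw [t7]
  linarith

theorem rec3 (hS : Surf Γ) {F : E × E → ℝ} (hF : Tonelli Γ F) {x : ℝ → E} {P : ℝ} {σ : Γ}
    (hx : IsOrbit F x) (hP : Perd x P σ) {d : Fin 4} (hd : 0 < X1 d (deriv x 0)) {τ : ℝ}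
    (hτ : IsTr F x P σ τ) {Λ : ℝ} (hΛ : 0 ≤ Λ) {ε : ℝ} (hε : 0 < ε) :
    ∃ δ R : ℝ, 0 < δ ∧ ∀ h : E → ℝ, ContDiff ℝ 2 h → Small R δ h →
      ∀ (z1 z2 : ℝ → E) (T1 T2 T1' T2' : ℝ), Pair F x P σ d Λ δ h z1 z2 T1 T2 →
        Pair F x P σ d Λ δ h (nxt σ z1 T1) (nxt σ z2 T2) T1' T2' →
        |ht d (nxt σ (nxt σ z1 T1) T1') (nxt σ (nxt σ z2 T2) T2') -
            τ * ht d (nxt σ z1 T1) (nxt σ z2 T2) + ht d z1 z2| ≤
          ε * (|ht d z1 z2| + |ht d (nxt σ z1 T1) (nxt σ z2 T2)|) := by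
  have hv : deriv x 0 ≠ 0 := fun h => by simp [h] at hd
  obtain ⟨e, φ, he, hφ, h0, hde, hdφ, h1, -⟩ := id hτ
  obtain ⟨a, ha, hm⟩ := phi_mom hv h0 hdφ h1
  obtain ⟨k, hk⟩ := cayley hS hF hx hP hv hτ hφ hdφ
  have hT := Tp_jacobi hS hF.c2 hF.inv hx hP hφ
  have hx' := hx.deriv_jacobi hF.c2 hF.conv
  have hb : -(a * X1 d (deriv x 0)) ≠ 0 := neg_ne_zero.2 (mul_ne_zero ha hd.ne')
  have hp : ∀ y1 y2 : ℝ → E, X1 d (y1 0) = X1 d (y2 0) →
      pr F x φ 0 (ph y2 0 - ph y1 0) = -(a * X1 d (deriv x 0)) * ht d y1 y2 := fun y1 y2 hy => by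
    have e1 : (ph y2 0 - ph y1 0).1 = y2 0 - y1 0 := rfl
    have e2 : ((0 : E), (0 : E)) = 0 := rfl
    rw [pr, h0, e2, map_zero, hm, det2_X d, e1, ht, map_sub (X1 d), hy]
    ring
  have hr : ∀ w, pr F x (Tp x P σ (Tp x P σ φ)) 0 w =
      τ * pr F x (Tp x P σ φ) 0 w - pr F x φ 0 w + k * pr F x (deriv x) 0 w := fun w => by
    have e1 : Tp x P σ (Tp x P σ φ) = fun s => τ • Tp x P σ φ s +
        (1 : ℝ) • (fun s => (-1 : ℝ) • φ s + k • deriv x s) s := funext fun s => by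
      rw [hk]
      module
    rw [e1, pr_lin F x hT.1 (hφ.lin hx' _ _).1, pr_lin F x hφ.1 hx'.1]
    ring
  obtain ⟨ε', hε', he'⟩ : ∃ ε' : ℝ, 0 < ε' ∧ ε' * (1 + |τ| + |k|) = ε * |-(a * X1 d (deriv x 0))| :=
    ⟨ε * |-(a * X1 d (deriv x 0))| / (1 + |τ| + |k|), div_pos (mul_pos hε (abs_pos.2 hb)) (by positivity),
      div_mul_cancel₀ _ (by positivity)⟩
  obtain ⟨δ1, R1, p1, s1⟩ := step hS hF hx hP hd hφ hdφ hΛ hε'
  obtain ⟨δ2, R2, p2, s2⟩ := step hS hF hx hP hd hT ((den_Tp hS hF hx hP hφ).trans hdφ) hΛ hε'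
  obtain ⟨δ3, R3, p3, s3⟩ := en_small hF hx hP d hΛ hε'
  refine ⟨min δ1 (min δ2 δ3), max R1 (max R2 R3), lt_min p1 (lt_min p2 p3),
    fun h hh hs z1 z2 T1 T2 T1' T2' q1 q2 => ?_⟩
  have d1 := min_le_left δ1 (min δ2 δ3)
  have d2 := (min_le_right δ1 (min δ2 δ3)).trans (min_le_left δ2 δ3)
  have d3 := (min_le_right δ1 (min δ2 δ3)).trans (min_le_right δ2 δ3)
  have r1 := Rec_small hs (le_max_left _ _) d1
  have r2 := Rec_small hs ((le_max_left _ _).trans (le_max_right _ _)) d2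
  have r3 := Rec_small hs ((le_max_right _ _).trans (le_max_right _ _)) d3
  have c0 := q1.s1.sec0.trans q1.s2.sec0.symm
  have c1 := q2.s1.sec0.trans q2.s2.sec0.symm
  have c2 : X1 d (nxt σ (nxt σ z1 T1) T1' 0) = X1 d (nxt σ (nxt σ z2 T2) T2' 0) := by
    have e1 : ∀ (y : ℝ → E) (T : ℝ), nxt σ y T 0 = σ⁻¹ • y T := fun y T => by rw [nxt, add_zero]
    rw [e1, e1]
    exact q2.s1.sec1.trans q2.s2.sec1.symm
  have a1 := s1 h hh r1 _ _ _ _ (q2.mono d1)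
  have a2 := s2 h hh r2 _ _ _ _ (q1.mono d2)
  have a3 := s1 h hh r1 _ _ _ _ (q1.mono d1)
  have a4 := s3 h hh r3 _ _ _ _ (q1.mono d3)
  rw [norm_eq_ht c1] at a1
  rw [norm_eq_ht c0] at a2 a3 a4
  exact Rec_abs hb hε (hp _ _ c0) (hp _ _ c1) (hp _ _ c2) (hr _) he' a1 a2 a3 a4

theorem Rec_chord {g : ℕ → ℝ} {n : ℕ} (h : ∀ k, k + 2 ≤ n → g (k + 2) - 2 * g (k + 1) + g k ≤ 0)
    {k : ℕ} (hk : k ≤ n) : k * (g n - g 0) ≤ n * (g k - g 0) := by
  have h1 : ∀ m, m + 1 ≤ n → m * (g (m + 1) - g m) ≤ g m - g 0 := by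
    intro m
    induction m with
    | zero => simp
    | succ m ih =>
      intro hm
      have a := ih (by omega)
      have b := mul_le_mul_of_nonneg_left (h m hm) (by positivity : (0 : ℝ) ≤ m + 1)
      push_cast
      linarith
  have h2 : ∀ m, k ≤ m → m ≤ n → k * (g m - g 0) ≤ m * (g k - g 0) := by
    intro m hm
    induction m, hm using Nat.le_induction with
    | base => exact fun _ => le_rfl
    | succ m hm ih =>
      intro hn
      rcases Nat.eq_zero_or_pos m with rfl | hp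
      · obtain rfl : k = 0 := by omega
        simp
      · have a := mul_le_mul_of_nonneg_left (ih (by omega)) (by positivity : (0 : ℝ) ≤ m + 1)
        have b := mul_le_mul_of_nonneg_left (h1 m hn) (by positivity : (0 : ℝ) ≤ k)
        refine le_of_mul_le_mul_left ?_ (by exact_mod_cast hp : (0 : ℝ) < m)
        push_cast
        linarith
  exact h2 n hk le_rfl

theorem Rec_gauss (n : ℕ) : ∑ k ∈ Finset.range n, (k : ℝ) = n * (n - 1) / 2 := by
  induction n with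
  | zero => simp
  | succ n ih =>
    rw [Finset.sum_range_succ, ih]
    push_cast
    ring

theorem seq_concave {τ : ℝ} (hτ : τ ≤ 2) (A C : ℝ) : ∃ (n : ℕ) (ε : ℝ), 1 ≤ n ∧ 0 < ε ∧
    ∀ η : ℕ → ℝ, (∀ k ≤ n, 0 < η k) → (∀ k < n, η (k + 1) ≤ C * η k) →
      (∀ k, k + 2 ≤ n → |η (k + 2) - τ * η (k + 1) + η k| ≤ ε * (η k + η (k + 1))) →
      A * Real.sqrt n * (η 0 + η n) < ∑ k ∈ Finset.range n, η k := by
  obtain ⟨m, hm⟩ := exists_nat_ge (2 * |A| + 3)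
  have hA := abs_nonneg A
  obtain ⟨n, hn⟩ : ∃ n : ℕ, (n : ℝ) = m * m := ⟨m * m, Nat.cast_mul _ _⟩
  have hn1 : (1 : ℝ) ≤ n := by nlinarith
  have hs : Real.sqrt n = m := by rw [hn, Real.sqrt_mul_self (by positivity)]
  obtain ⟨D, hD, hC⟩ : ∃ D : ℝ, 1 ≤ D ∧ C ≤ D := ⟨max 1 C, le_max_left _ _, le_max_right _ _⟩
  refine ⟨n, (D ^ n * n ^ 3)⁻¹, by exact_mod_cast hn1, by positivity, fun η h0 h1 h2 => ?_⟩
  have p0 := h0 0 n.zero_le
  have pn := h0 n le_rfl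
  have h3 : ∀ k ≤ n, η k ≤ D ^ k * η 0 := by
    intro k
    induction k with
    | zero => simp
    | succ k ih =>
      intro hk
      have a := mul_le_mul_of_nonneg_left (ih (by omega)) (by linarith : 0 ≤ D)
      have b := mul_le_mul_of_nonneg_right hC (h0 k (by omega)).le
      have c := h1 k hk
      rw [pow_succ]
      linarith
  have h4 : ∀ k ≤ n, η k ≤ D ^ n * η 0 := fun k hk =>
    (h3 k hk).trans (mul_le_mul_of_nonneg_right (pow_le_pow_right₀ hD hk) p0.le)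
  obtain ⟨c, hc, hc'⟩ : ∃ c : ℝ, c = (D ^ n * n ^ 3)⁻¹ * (D ^ n * η 0) ∧ c * n ^ 3 = η 0 :=
    ⟨_, rfl, by field_simp⟩
  have hc0 : 0 ≤ c := by rw [hc]; positivity
  have h5 : ∀ k ∈ Finset.range n, n * η 0 + k * (η n - η 0) - c * n ^ 3 ≤ n * η k := by
    intro k hk
    have hk' := (Finset.mem_range.1 hk).le
    have a := Rec_chord (g := fun k => η k + c * (k * (n - k))) (n := n) (fun j hj => by
      have b1 := (abs_le.1 (h2 j hj)).2
      have b2 := mul_le_mul_of_nonneg_left (add_le_add (h4 j (by omega)) (h4 (j + 1) (by omega)))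
        (by positivity : (0 : ℝ) ≤ (D ^ n * n ^ 3)⁻¹)
      have b3 := mul_le_mul_of_nonneg_right hτ (h0 (j + 1) (by omega)).le
      push_cast
      linarith) hk'
    have k0 : (0 : ℝ) ≤ k := by positivity
    have k1 : (k : ℝ) ≤ n := by exact_mod_cast hk'
    have b : c * (n * (k * (n - k))) ≤ c * n ^ 3 := mul_le_mul_of_nonneg_left (by
      have : (k : ℝ) * (n - k) ≤ n * n := by nlinarith
      nlinarith) hc0
    simp only [Nat.cast_zero, sub_self, mul_zero, zero_mul, add_zero] at a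
    linarith
  have h6 := Finset.sum_le_sum h5
  simp only [Finset.sum_sub_distrib, Finset.sum_add_distrib, Finset.sum_const, Finset.card_range,
    nsmul_eq_mul, ← Finset.sum_mul, ← Finset.mul_sum, Rec_gauss, hc'] at h6
  have h7 : (n - 1) / 2 * (η 0 + η n) ≤ ∑ k ∈ Finset.range n, η k := by
    refine le_of_mul_le_mul_left ?_ (by linarith : (0 : ℝ) < n)
    linarith
  refine lt_of_lt_of_le (mul_lt_mul_of_pos_right ?_ (add_pos p0 pn)) h7
  have := mul_le_mul_of_nonneg_right (le_abs_self A) (by positivity : (0 : ℝ) ≤ m)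
  rw [hs, hn]
  nlinarith

theorem seq_max {τ : ℝ} (hτ : 2 < τ) : ∃ ε θ : ℝ, 0 < ε ∧ 0 < θ ∧ θ < 1 ∧
    ∀ (n : ℕ) (η : ℤ → ℝ) (δ : ℝ), (∀ k : ℤ, |k| ≤ n → |η k| ≤ δ) →
      (∀ k : ℤ, -(n : ℤ) < k → k < n →
        |η (k + 1) - τ * η k + η (k - 1)| ≤ ε * (|η (k - 1)| + |η k|)) →
      |η 0| ≤ 2 * δ * θ ^ n := by
  obtain ⟨r, hr, ε, hε, hlt⟩ : ∃ r : ℝ, 1 < r ∧ ∃ ε : ℝ, 0 < ε ∧ (1 + ε) * (r + r⁻¹) + ε < τ := by
    have h1 : 1 < τ / 2 := by linarith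
    have h2 := inv_lt_one_of_one_lt₀ h1
    have h3 : 0 < (τ - 2) / (τ + 4) := div_pos (by linarith) (by linarith)
    have h4 : (τ - 2) / (τ + 4) * (τ + 4) = τ - 2 := div_mul_cancel₀ _ (by linarith)
    refine ⟨τ / 2, h1, _, h3, ?_⟩
    nlinarith
  have hr0 : 0 < r := by linarith
  refine ⟨ε, r⁻¹, hε, inv_pos.2 hr0, inv_lt_one_of_one_lt₀ hr, fun n η δ h1 h2 => ?_⟩
  obtain ⟨W, w0, w1, w2, w3⟩ : ∃ W : ℤ → ℝ, (∀ k, 0 < W k) ∧ W 0 = 2 ∧
      (∀ k, W (k + 1) + W (k - 1) = (r + r⁻¹) * W k) ∧ ∀ k : ℤ, |k| = n → r ^ n ≤ W k := by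
    refine ⟨fun k => r ^ k + r ^ (-k), fun k => by positivity, by norm_num, fun k => ?_, fun k hk => ?_⟩
    · simp only [neg_add, neg_sub', zpow_add₀ hr0.ne', zpow_sub₀ hr0.ne', zpow_one, zpow_neg_one]
      field_simp
      ring
    · beta_reduce
      rcases (abs_eq (Int.natCast_nonneg n)).1 hk with rfl | rfl
      · rw [zpow_natCast]
        exact le_add_of_nonneg_right (by positivity)
      · rw [neg_neg, zpow_natCast]
        exact le_add_of_nonneg_left (by positivity)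
  have hδ : 0 ≤ δ := (abs_nonneg _).trans (h1 0 (by simp))
  obtain ⟨k, hk, hmax⟩ := (Finset.Icc (-(n : ℤ)) n).exists_max_image (fun k => |η k| / W k) ⟨0, by simp⟩
  obtain ⟨M, hM⟩ : ∃ M, M = |η k| / W k := ⟨_, rfl⟩
  have hk' := Finset.mem_Icc.1 hk
  have m0 : |η k| = M * W k := by rw [hM, div_mul_cancel₀ _ (w0 k).ne']
  have m1 : ∀ j : ℤ, -(n : ℤ) ≤ j → j ≤ n → |η j| ≤ M * W j := fun j a b =>
    (div_le_iff₀ (w0 j)).1 (hM ▸ hmax j (Finset.mem_Icc.2 ⟨a, b⟩))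
  have m2 := m1 0 (by omega) (by omega)
  have m3 : 0 ≤ M := by rw [hM]; exact div_nonneg (abs_nonneg _) (w0 k).le
  rw [w1] at m2
  have m4 : M ≤ δ * r⁻¹ ^ n := by
    by_cases hn : |k| = n
    · rw [inv_pow, ← div_eq_mul_inv, le_div_iff₀ (by positivity)]
      exact (mul_le_mul_of_nonneg_left (w3 k hn) m3).trans (m0 ▸ h1 k hn.le)
    · have a1 : -(n : ℤ) < k := lt_of_le_of_ne hk'.1 fun h => hn (by rw [← h]; simp)
      have a2 : k < n := lt_of_le_of_ne hk'.2 fun h => hn (by rw [h]; simp)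
      have b1 := h2 k a1 a2
      have b2 := m1 (k + 1) (by omega) (by omega)
      have b3 := m1 (k - 1) (by omega) (by omega)
      have b4 : τ * |η k| ≤ |η (k + 1)| + |η (k - 1)| + |η (k + 1) - τ * η k + η (k - 1)| := by
        have e : τ * η k = η (k + 1) + η (k - 1) - (η (k + 1) - τ * η k + η (k - 1)) := by ring
        have t1 := abs_sub (η (k + 1) + η (k - 1)) (η (k + 1) - τ * η k + η (k - 1))
        have t2 := abs_add_le (η (k + 1)) (η (k - 1))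
        rw [← e, abs_mul, abs_of_pos (by linarith : 0 < τ)] at t1
        linarith
      have b5 : |η (k + 1)| + |η (k - 1)| ≤ (r + r⁻¹) * |η k| := by
        rw [m0, mul_left_comm, ← w2]
        linarith
      have b6 := mul_le_mul_of_nonneg_left b5 hε.le
      have b7 := mul_nonneg hε.le (abs_nonneg (η (k + 1)))
      have b8 : |η k| ≤ 0 := by
        by_contra h
        have := mul_lt_mul_of_pos_right hlt (not_le.1 h)
        linarith
      have b9 : M ≤ 0 := by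
        by_contra h
        have := mul_pos (not_le.1 h) (w0 k)
        linarith
      exact b9.trans (by positivity)
  linarith

theorem nxt_nxt (σ : Γ) (k : ℤ) (z : ℝ → E) (s t : ℝ) :
    nxt σ (nxt (σ ^ k) z s) (t - s) = nxt (σ ^ (k + 1)) z t := by
  funext u
  simp only [nxt, zpow_add_one, mul_inv_rev, mul_smul]
  rw [show s + (t - s + u) = t + u by ring]

theorem nxt_prev (σ : Γ) (k : ℤ) (z : ℝ → E) (s t : ℝ) :
    nxt σ⁻¹ (nxt (σ ^ k) z s) (t - s) = nxt (σ ^ (k - 1)) z t := by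
  funext u
  simp only [nxt, zpow_sub_one, mul_inv_rev, mul_smul]
  rw [show s + (t - s + u) = t + u by ring]

theorem nxt_one (z : ℝ → E) : nxt (1 : Γ) z 0 = z := by
  funext u
  simp only [nxt, inv_one, one_smul, zero_add]

theorem Perd.nxt_self {x : ℝ → E} {P : ℝ} {σ : Γ} (hP : Perd x P σ) (k : ℤ) :
    nxt (σ ^ k) x (k * P) = x := by
  have h : nxt σ x P = x := funext fun t => by rw [nxt, add_comm, hP.2, inv_smul_smul]
  have h' : nxt σ⁻¹ x (-P) = x := funext fun t => by rw [nxt, inv_inv, ← hP.2, neg_add_cancel_comm]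
  induction k using Int.induction_on with
  | zero => rw [zpow_zero, Int.cast_zero, zero_mul, nxt_one]
  | succ k ih =>
    rw [← nxt_nxt σ k x (((k : ℤ) : ℝ) * P), ih]
    rw [show (((k : ℤ) + 1 : ℤ) : ℝ) * P - ((k : ℤ) : ℝ) * P = P by push_cast; ring, h]
  | pred k ih =>
    rw [← nxt_prev σ (-k) x (((-k : ℤ) : ℝ) * P), ih]
    rw [show ((-(k : ℤ) - 1 : ℤ) : ℝ) * P - ((-k : ℤ) : ℝ) * P = -P by push_cast; ring, h']

end Pool.Agent.Work.MP_1ce82a_an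
end
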